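import Mathlib
import Pool.Agent.P.MP_f4e0a3_ag.Defs

/-! Definitions for the Hilbert point maps. -/

set_option autoImplicit false

open MvPolynomial

namespace Pool.Agent.P.MP_f4e0a3_ag.HP

/-- complex subspaces of the polynomial ring -/
abbrev Sub (n : ℕ) : Type := Submodule ℂ (MvPolynomial (Fin n) ℂ)

/-- the forms of degree `m` in the ideal generated by `L` -/
noncomputable def hilb {n : ℕ} (m : ℕ) (L : Sub n) : Sub n :=
  (Ideal.span (L : Set (MvPolynomial (Fin n) ℂ))).restrictScalars ℂ ⊓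
    homogeneousSubmodule (Fin n) ℂ m

/-- the span of the first partial derivatives of the members of `L` -/
noncomputable def jac {n : ℕ} (L : Sub n) : Sub n :=
  ⨆ i, L.map (pderiv i :
    Derivation ℂ (MvPolynomial (Fin n) ℂ) (MvPolynomial (Fin n) ℂ)).toLinearMap

/-- a homogeneous polynomial of positive degree in the Plücker coordinates whose value on
`k`-tuples of forms of degree `m` is unchanged by substitutions of determinant one -/
def IsInvForm {n k : ℕ} (m : ℕ) (P : MvPolynomial (Fin k → (Fin n →₀ ℕ)) ℂ) : Prop :=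
  (∃ N, 0 < N ∧ P.IsHomogeneous N) ∧
  ∀ (g : Matrix.SpecialLinearGroup (Fin n) ℂ) (u : Fin k → MvPolynomial (Fin n) ℂ),
    (∀ i, (u i).IsHomogeneous m) →
      eval (plucker fun i => aeval (fun a => ∑ b, C (g a b) * X b) (u i)) P = eval (plucker u) P

/-- the spans of `k` forms of degree `m` at which `P` does not vanish -/
def chart {n k : ℕ} (m : ℕ) (P : MvPolynomial (Fin k → (Fin n →₀ ℕ)) ℂ) : Set (Sub n) :=
  {U | ∃ u : Fin k → MvPolynomial (Fin n) ℂ, (∀ i, (u i).IsHomogeneous m) ∧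
    eval (plucker u) P ≠ 0 ∧ U = Submodule.span ℂ (Set.range u)}

/-- invariant regular functions -/
def InvReg {n : ℕ} (k : ℕ) (Y : Set (Sub n)) (φ : Y → ℂ) : Prop :=
  IsRegular k Y φ ∧ IsInvariant Y φ

/-- every point of `Y` has an invariant form `P` not vanishing at its image under `H` such that the
preimage of the chart of `P` is the non-vanishing locus of an invariant regular function on `Y` and
pullback along `H` maps the invariant regular functions on the chart onto those on the preimage -/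
def LocImm {n : ℕ} (k₀ : ℕ) (Y : Set (Sub n)) (k m : ℕ) (H : Sub n → Sub n) : Prop :=
  ∀ L₀ ∈ Y, ∃ P : MvPolynomial (Fin k → (Fin n →₀ ℕ)) ℂ, IsInvForm m P ∧ H L₀ ∈ chart m P ∧
    (∃ p : Y → ℂ, InvReg k₀ Y p ∧ ∀ L : Y, H L.1 ∈ chart m P ↔ p L ≠ 0) ∧
    ∀ ψ : {L | L ∈ Y ∧ H L ∈ chart m P} → ℂ, InvReg k₀ _ ψ ↔
      ∃ φ : chart m P → ℂ, InvReg k _ φ ∧ ∀ L, ψ L = φ ⟨H L.1, L.2.2⟩

end Pool.Agent.P.MP_f4e0a3_ag.HP
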