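import Pool.Agent.P.MP_f4e0a3_ag.Regular
import Pool.Agent.P.MP_f4e0a3_ag.HP.Defs

/-! Basic notions for the Hilbert point maps. -/

set_option autoImplicit false

namespace Pool.Agent.P.MP_f4e0a3_ag.HP

open MvPolynomial Matrix Submodule Set

/-- the forms of degree `m` in the ideal generated by a tuple -/
noncomputable def Im {n : ℕ} {R : Type} [CommRing R] (m : ℕ) (h : Fin n → MvPolynomial (Fin n) R) :
    Submodule R (MvPolynomial (Fin n) R) :=
  (Ideal.span (range h)).restrictScalars R ⊓ homogeneousSubmodule (Fin n) R m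

theorem mem_Im {n : ℕ} {R : Type} [CommRing R] {m : ℕ} {h : Fin n → MvPolynomial (Fin n) R}
    {y : MvPolynomial (Fin n) R} : y ∈ Im m h ↔ y ∈ Ideal.span (range h) ∧ y.IsHomogeneous m :=
  Iff.rfl

theorem hilb_span {n : ℕ} (m : ℕ) (h : Fin n → MvPolynomial (Fin n) ℂ) :
    hilb m (span ℂ (range h)) = Im m h := by
  rw [hilb, Im, Ideal.span, Submodule.span_span_of_tower]

/-- Plücker coordinates indexed by monomials of degree `m` -/
noncomputable def pl {n k : ℕ} {R : Type} [CommRing R] (m : ℕ) (b : Fin k → MvPolynomial (Fin n) R)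
    (T : Fin k → Mon (Fin n) m) : R := (Matrix.of fun i j => coeff (T j).1 (b i)).det

theorem eval_rename_pl {n k m : ℕ} (b : Fin k → MvPolynomial (Fin n) ℂ)
    (P : MvPolynomial (Fin k → Mon (Fin n) m) ℂ) :
    eval (plucker b) (rename (fun T j => (T j).1) P) = aeval (pl m b) P := by
  rw [eval_rename]; rfl

/-- the monomial in the weights -/
def tw {n : ℕ} {R : Type} [CommMonoid R] (t : Fin n → R) (β : Fin n →₀ ℕ) : R := ∏ i, t i ^ β i

theorem tw_add {n : ℕ} {R : Type} [CommMonoid R] (t : Fin n → R) (β γ : Fin n →₀ ℕ) :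
    tw t (β + γ) = tw t β * tw t γ := by
  simp [tw, pow_add, Finset.prod_mul_distrib]

@[simp] theorem tw_zero {n : ℕ} {R : Type} [CommMonoid R] (t : Fin n → R) : tw t 0 = 1 := by
  simp [tw]

theorem tw_single {n : ℕ} {R : Type} [CommMonoid R] (t : Fin n → R) (i : Fin n) (r : ℕ) :
    tw t (Finsupp.single i r) = t i ^ r := by
  rw [tw, Finset.prod_eq_single i] <;> simp +contextual [eq_comm]

theorem tw_ne_zero {n : ℕ} {R : Type} [CommMonoidWithZero R] [Nontrivial R] [NoZeroDivisors R]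
    {t : Fin n → R} (ht : ∀ i, t i ≠ 0) (β : Fin n →₀ ℕ) : tw t β ≠ 0 :=
  Finset.prod_ne_zero_iff.2 fun i _ => pow_ne_zero _ (ht i)

theorem aeval_monomial_tw {n : ℕ} {R T : Type} [CommRing R] [CommRing T] [Algebra R T]
    (A : Fin n → T) (β : Fin n →₀ ℕ) (c : R) : aeval A (monomial β c) = c • tw A β := by
  rw [aeval_monomial, Finsupp.prod_fintype _ _ (by simp), tw, Algebra.smul_def]

/-- supported on the variables from `s` on -/
def Sup {n : ℕ} (s : ℕ) (β : Fin n →₀ ℕ) : Prop := ∀ i : Fin n, i.val < s → β i = 0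

/-- the box on the variables from `s` on -/
def Box {n : ℕ} (e s : ℕ) (β : Fin n →₀ ℕ) : Prop := Sup s β ∧ ∀ i, β i < e

/-- the top corner of the box -/
noncomputable def corner (n e s : ℕ) : Fin n →₀ ℕ :=
  Finsupp.equivFunOnFinite.symm fun i => if i.val < s then 0 else e - 1

/-- the elements of the box of degree `j` -/
abbrev BoxD (n e j : ℕ) : Type := {β : Mon (Fin n) j // ∀ i, β.1 i < e}

section val
variable {Ω : Type} [Field Ω] (O : ValuationSubring Ω) {n : ℕ}

/-- admissible weights -/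
structure Wt (t : Fin n → Ω) : Prop where
  ne : ∀ i, t i ≠ 0
  anti : ∀ i j, i ≤ j → O.valuation (t j) ≤ O.valuation (t i)

/-- the twisted Plücker vector is at least as large as the Plücker vector -/
def SS {k : ℕ} (t : Fin n → Ω) (m : ℕ) (b : Fin k → MvPolynomial (Fin n) Ω) : Prop :=
  ∀ T₀, ∃ T₁ : Fin k → Mon (Fin n) m,
    O.valuation (pl m b T₀) ≤ O.valuation ((∏ j, tw t (T₁ j).1) * pl m b T₁)

/-- the twisted Plücker vector is at most as large as the Plücker vector -/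
def BAL {k : ℕ} (t : Fin n → Ω) (m : ℕ) (b : Fin k → MvPolynomial (Fin n) Ω) : Prop :=
  ∀ T₁ : Fin k → Mon (Fin n) m, ∃ T₀,
    O.valuation ((∏ j, tw t (T₁ j).1) * pl m b T₁) ≤ O.valuation (pl m b T₀)

/-- the flag condition -/
def Flag (g : Fin n → MvPolynomial (Fin n) O) (k : Fin n) : Prop :=
  ∃ (N : ℕ) (q : Fin n → MvPolynomial (Fin n) O) (ρ : MvPolynomial (Fin n) O),
    (∀ β, O.valuation (coeff β ρ : O) < 1) ∧
      X k ^ N = ∑ i, q i * (if i ≤ k then g i else X i) + ρ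

/-- the map attached to a system of operators -/
noncomputable def th {T V μ : Type} [CommRing T] [Algebra Ω T] [AddCommGroup V] [Module Ω V]
    [Module T V] [IsScalarTower Ω T V] [Fintype μ] (A : Fin n → T) (e : μ → V) :
    (μ → MvPolynomial (Fin n) Ω) →ₗ[Ω] V where
  toFun v := ∑ a, aeval A (v a) • e a
  map_add' v w := by simp [add_smul, Finset.sum_add_distrib]
  map_smul' c v := by simp [Finset.smul_sum]

theorem th_apply {T V μ : Type} [CommRing T] [Algebra Ω T] [AddCommGroup V] [Module Ω V]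
    [Module T V] [IsScalarTower Ω T V] [Fintype μ] (A : Fin n → T) (e : μ → V)
    (v : μ → MvPolynomial (Fin n) Ω) : th A e v = ∑ a, aeval A (v a) • e a := rfl

variable (n) in
/-- a module that is free over the operators `x`, with further operators `l` of degree one -/
structure UD where
  /-- the ring of operators -/
  T : Type
  /-- the module -/
  V : Type
  /-- the index set of the generators -/
  μ : Type
  [iT : CommRing T]
  [aT : Algebra Ω T]
  [iV : AddCommGroup V]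
  [mV : Module Ω V]
  [mT : Module T V]
  [st : IsScalarTower Ω T V]
  [fμ : Fintype μ]
  [dμ : DecidableEq μ]
  [nμ : Nonempty μ]
  /-- the variables -/
  x : Fin n → T
  /-- the linear matrices -/
  l : Fin n → T
  /-- the generators -/
  e : μ → V
  free : Function.Bijective (th (Ω := Ω) x e)
  lin : ∀ i a, l i • e a ∈ span O (range fun p : Fin n × μ => x p.1 • e p.2)

variable {O}

namespace UD

variable (D : UD O n)

instance : CommRing D.T := D.iT
instance : Algebra Ω D.T := D.aT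
instance : AddCommGroup D.V := D.iV
instance : Module Ω D.V := D.mV
instance : Module D.T D.V := D.mT
instance : IsScalarTower Ω D.T D.V := D.st
instance : Fintype D.μ := D.fμ
instance : DecidableEq D.μ := D.dμ
instance : Nonempty D.μ := D.nμ

/-- the mixed systems -/
def sys (k : ℕ) (i : Fin n) : D.T := if i.val < k then D.l i else D.x i

theorem sys_zero : D.sys 0 = D.x := funext fun i => by simp [sys]

theorem sys_top : D.sys n = D.l := funext fun i => by simp [sys]

/-- generation in degree one -/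
def Gen (k : ℕ) : Prop :=
  ∀ i a, D.x i • D.e a ∈ span O (range fun p : Fin n × D.μ => D.sys k p.1 • D.e p.2)

theorem gen_zero : D.Gen 0 := fun i a => subset_span ⟨(i, a), by simp [sys]⟩

/-- all systems generate -/
def Good : Prop := ∀ k, k ≤ n → D.Gen k

/-- monomial vectors -/
def mo (β : Fin n →₀ ℕ) (a : D.μ) : D.V := tw D.x β • D.e a

/-- the part of degree `j` -/
def Vd (j : ℕ) : Submodule Ω D.V := span Ω {z | ∃ β a, β.degree = j ∧ z = D.mo β a}

/-- the standard lattice scaled by `c` -/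
def Lam (c : Ω) : Submodule O D.V := span O {z | ∃ β a, z = c • D.mo β a}

/-- monomial submodules -/
def MI (A : Fin n → D.T) (c : Fin n → ℕ) : Submodule D.T D.V :=
  Ideal.span {y | ∃ i, c i ≠ 0 ∧ y = A i ^ c i} • ⊤

/-- the submodule generated by the first operators -/
def J (s : ℕ) : Submodule D.T D.V := D.MI D.l fun i => if i.val < s then 1 else 0

/-- the submodule generated by the first operators and all powers -/
def K (e s : ℕ) : Submodule D.T D.V := D.MI D.l fun i => if i.val < s then 1 else e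

/-- the submodules of the exchange chain -/
def Q (e s k : ℕ) : Submodule D.T D.V :=
  D.MI (D.sys k) fun i => if s ≤ i.val ∧ i.val < k then e else 1

/-- membership modulo a submodule -/
def Md (L : Submodule O D.V) (K : Submodule D.T D.V) (z : D.V) : Prop := ∃ y ∈ L, z - y ∈ K

/-- the twisted lattice -/
def Fl (t : Fin n → Ω) (s j : ℕ) : Submodule O D.V :=
  span O {z | ∃ β a, Sup s β ∧ β.degree = j ∧ z = (tw t β)⁻¹ • D.mo β a}

/-- the monomials dominating an exponent -/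
def G (t : Fin n → Ω) (s : ℕ) (b : Fin n →₀ ℕ) : Submodule O D.V :=
  span O {z | ∃ β a, Sup s β ∧ β.degree = b.degree ∧
    O.valuation (tw t β) ≤ O.valuation (tw t b) ∧ z = D.mo β a}

/-- a triangular family -/
structure PF (t : Fin n → Ω) (p : ℕ → (Fin n →₀ ℕ) → D.μ → D.V) : Prop where
  top : ∀ a, p n 0 a = D.e a
  mem : ∀ s b a, s ≤ n → Sup s b → p s b a ∈ D.G t s b
  step : ∀ (s : Fin n) b a, Sup s b →
    p s b a - D.l s ^ b s • p (s + 1) (b.erase s) a ∈ D.J s

/-- the lattice of a triangular family -/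
def N (t : Fin n → Ω) (p : ℕ → (Fin n →₀ ℕ) → D.μ → D.V) (e s : ℕ) : Submodule O D.V :=
  span O {z | ∃ b a, Box e s b ∧ z = (tw t b)⁻¹ • p s b a}

/-- the two lattices agree in degree `j` -/
def Eqv (t : Fin n → Ω) (p : ℕ → (Fin n →₀ ℕ) → D.μ → D.V) (e s j : ℕ) : Prop :=
  ∀ z ∈ D.Fl t s j, D.Md (D.N t p e s) (D.K e s) z

/-- no socle in degree `j` -/
def Soc (c : Ω) (K : Submodule D.T D.V) (s j : ℕ) : Prop :=
  ∀ z ∈ D.Vd j, (∀ i : Fin n, s ≤ i.val → D.Md (D.Lam c) K (D.x i • z)) → D.Md (D.Lam c) K z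

/-- coordinates for a system -/
structure Co (A : Fin n → D.T) (co : D.V ≃ₗ[Ω] (D.μ → MvPolynomial (Fin n) Ω)) : Prop where
  symm : ∀ v, co.symm v = th A D.e v
  vd : ∀ j z, z ∈ D.Vd j ↔ ∀ a, (co z a).IsHomogeneous j
  lam : ∀ c z, z ∈ D.Lam c ↔ ∀ a β, ∃ o : O, coeff β (co z a) = o * c
  mi : ∀ c z, z ∈ D.MI A c ↔ ∀ a β, (∀ i, c i ≠ 0 → β i < c i) → coeff β (co z a) = 0
  mul : ∀ i z a, co (A i • z) a = X i * co z a

/-- projections onto the graded parts -/
structure Pr (pr : ℕ → D.V →ₗ[Ω] D.V) : Prop where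
  mem : ∀ j z, pr j z ∈ D.Vd j
  self : ∀ j z, z ∈ D.Vd j → pr j z = z
  ne : ∀ i j z, z ∈ D.Vd i → i ≠ j → pr j z = 0
  lam : ∀ j c z, z ∈ D.Lam c → pr j z ∈ D.Lam c
  mi : ∀ k, k ≤ n → ∀ c j z, z ∈ D.MI (D.sys k) c → pr j z ∈ D.MI (D.sys k) c
  x : ∀ i r j z, pr (j + r) (D.x i ^ r • z) = D.x i ^ r • pr j z
  l : ∀ i r j z, pr (j + r) (D.l i ^ r • z) = D.l i ^ r • pr j z
  x0 : ∀ i r j z, j < r → pr j (D.x i ^ r • z) = 0
  l0 : ∀ i r j z, j < r → pr j (D.l i ^ r • z) = 0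

/-- the powers of the operators `l` are the forms `g` -/
def Pw (e : ℕ) (g : Fin n → MvPolynomial (Fin n) Ω) : Prop :=
  ∀ i (z : D.V), D.l i ^ e • z = aeval D.x (g i) • z

/-- the standing hypotheses -/
structure St (t : Fin n → Ω) (p : ℕ → (Fin n →₀ ℕ) → D.μ → D.V) (e : ℕ) : Prop where
  good : D.Good
  wt : Wt O t
  pf : D.PF t p
  pos : 0 < e

/-- a family of polynomials times the generators together with a family of vectors -/
noncomputable def fam {k e j : ℕ} (b : Fin k → MvPolynomial (Fin n) Ω)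
    (q : (Fin n →₀ ℕ) → D.μ → D.V) : (Fin k × D.μ) ⊕ (BoxD n e j × D.μ) → D.V :=
  Sum.elim (fun i => aeval D.x (b i.1) • D.e i.2) fun i => q i.1.1.1 i.2

variable {D}

theorem Md.of_mem {L : Submodule O D.V} {K : Submodule D.T D.V} {z : D.V} (h : z ∈ L) :
    D.Md L K z := ⟨z, h, by simp⟩

theorem Md.of_mem' {L : Submodule O D.V} {K : Submodule D.T D.V} {z : D.V} (h : z ∈ K) :
    D.Md L K z := ⟨0, L.zero_mem, by simpa using h⟩

theorem Md.add {L : Submodule O D.V} {K : Submodule D.T D.V} {z w : D.V} (h : D.Md L K z)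
    (h' : D.Md L K w) : D.Md L K (z + w) := by
  obtain ⟨y, h1, h2⟩ := h
  obtain ⟨y', h3, h4⟩ := h'
  exact ⟨y + y', L.add_mem h1 h3, by convert K.add_mem h2 h4 using 1; abel⟩

theorem Md.sub {L : Submodule O D.V} {K : Submodule D.T D.V} {z w : D.V} (h : D.Md L K z)
    (h' : D.Md L K w) : D.Md L K (z - w) := by
  obtain ⟨y, h1, h2⟩ := h
  obtain ⟨y', h3, h4⟩ := h'
  exact ⟨y - y', L.sub_mem h1 h3, by convert K.sub_mem h2 h4 using 1; abel⟩

theorem Md.congr {L : Submodule O D.V} {K : Submodule D.T D.V} {z w : D.V} (h : D.Md L K z)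
    (h' : w - z ∈ K) : D.Md L K w := by
  simpa using h.add (Md.of_mem' h')

theorem Md.mono {L L' : Submodule O D.V} {K K' : Submodule D.T D.V} {z : D.V} (h : D.Md L K z)
    (hL : L ≤ L') (hK : K ≤ K') : D.Md L' K' z := h.imp fun _ hy => ⟨hL hy.1, hK hy.2⟩

theorem smul_mem_T {K : Submodule D.T D.V} (c : Ω) {z : D.V} (h : z ∈ K) : c • z ∈ K :=
  K.smul_of_tower_mem c h

theorem pow_smul_mem_MI (A : Fin n → D.T) {c : Fin n → ℕ} {i : Fin n} (h : c i ≠ 0) (z : D.V) :
    A i ^ c i • z ∈ D.MI A c :=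
  smul_mem_smul (Ideal.subset_span ⟨i, h, rfl⟩) mem_top

theorem MI_induction {A : Fin n → D.T} {c : Fin n → ℕ} {P : D.V → Prop} {z : D.V}
    (hz : z ∈ D.MI A c) (h0 : P 0) (h1 : ∀ i y, c i ≠ 0 → P (A i ^ c i • y))
    (h2 : ∀ y w, P y → P w → P (y + w)) : P z := by
  refine smul_induction_on hz (fun r hr y _ => ?_) h2
  induction hr using span_induction generalizing y with
  | mem r hr => obtain ⟨i, hi, rfl⟩ := hr; exact h1 i y hi
  | zero => simpa using h0
  | add a b _ _ ha hb => rw [add_smul]; exact h2 _ _ (ha y trivial) (hb y trivial)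
  | smul a b _ hb => rw [smul_eq_mul, mul_comm, mul_smul]; exact hb _ trivial

theorem J_le_K {e : ℕ} (s : ℕ) : D.J s ≤ D.K e s := by
  refine smul_mono_left (Ideal.span_mono ?_)
  rintro _ ⟨i, hi, rfl⟩
  by_cases h : i.val < s
  · exact ⟨i, by simp [h], by simp [h]⟩
  · simp [h] at hi

theorem x_smul_mo (i : Fin n) (β : Fin n →₀ ℕ) (a : D.μ) :
    D.x i • D.mo β a = D.mo (β + Finsupp.single i 1) a := by
  rw [mo, mo, tw_add, tw_single, pow_one, mul_comm, mul_smul]

end UD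

end val

section git
variable {n k : ℕ}

/-- values of a vector of polynomials -/
noncomputable def ev {ι κ R : Type} [CommRing R] [Algebra ℂ R] (Δ : ι → MvPolynomial κ ℂ)
    (w : κ → R) : ι → R := fun T => aeval w (Δ T)

/-- scalar matrices act with the weight `κ` -/
def ScalW {ι : Type} [Fintype ι] [DecidableEq ι] (r : Rep Unit (Fin n) ι) (κ : ℕ) : Prop :=
  ∀ (R : Type) [CommRing R] [Algebra ℂ R] (g g₀ : GL (Fin n) R) (t : R) (u : ι → R),
    g.val = t • g₀.val → (r.pt u fun _ => g) = t ^ κ • r.pt u fun _ => g₀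

/-- the tensor representation on Plücker coordinates -/
structure IsTens (m : ℕ) (r : Rep Unit (Fin n) (Fin k → Mon (Fin n) m)) : Prop where
  pl : ∀ (R : Type) [CommRing R] [Algebra ℂ R] (g : GL (Fin n) R)
    (b : Fin k → MvPolynomial (Fin n) R), (∀ i, (b i).IsHomogeneous m) →
    pl m (fun i => sub g.val (b i)) = r.pt (pl m b) fun _ => g
  scal : ScalW r (k * m)
  diag : ∀ (R : Type) [CommRing R] [Algebra ℂ R] (g : GL (Fin n) R) (t : Fin n → R)
    (u : (Fin k → Mon (Fin n) m) → R) (T : Fin k → Mon (Fin n) m), g.val = diagonal t →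
    r.pt u (fun _ => g) T = (∏ j, tw t (T j).1) * u T

/-- invariance under the special linear group -/
def SLinv {ι : Type} [Fintype ι] [DecidableEq ι] (r : Rep Unit (Fin n) ι)
    (Q : MvPolynomial ι ℂ) : Prop :=
  ∀ g : GL (Fin n) ℂ, g.val.det = 1 → ∀ u, aeval (r.pt u fun _ => g) Q = aeval u Q

/-- the Zariski closure -/
def Cl {ι : Type} (B : Set (ι → ℂ)) : Set (ι → ℂ) :=
  {u | ∀ Q : MvPolynomial ι ℂ, (∀ v ∈ B, aeval v Q = 0) → aeval u Q = 0}

/-- local fractions in the coefficients -/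
def LocRat (k : ℕ) (Y : Set (Sub n)) (ψ : Y → ℂ) : Prop :=
  ∀ h₀ : Fin k → MvPolynomial (Fin n) ℂ, span ℂ (range h₀) ∈ Y →
    ∃ A B : MvPolynomial (Fin k × (Fin n →₀ ℕ)) ℂ, eval (fun p => coeff p.2 (h₀ p.1)) B ≠ 0 ∧
      ∀ (h : Fin k → MvPolynomial (Fin n) ℂ) (hY : span ℂ (range h) ∈ Y),
        eval (fun p => coeff p.2 (h p.1)) B ≠ 0 →
          ψ ⟨_, hY⟩ = eval (fun p => coeff p.2 (h p.1)) A / eval (fun p => coeff p.2 (h p.1)) B

variable {e : ℕ} [Fact (2 ≤ e)] [Nonempty (Fin n)]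

/-- the resultant of a tuple -/
noncomputable abbrev rs {R : Type} [CommRing R] [Algebra ℂ R]
    (w : Fin n × Mon (Fin n) e → R) : R := aeval w (Res (Fin n) e)

variable (n e) in
/-- the dimension of the ideal in degree `m` is `k` -/
def HF (m k : ℕ) : Prop :=
  ∀ w : Fin n × Mon (Fin n) e → ℂ, rs w ≠ 0 → Module.finrank ℂ (Im m (tup w)) = k

variable (n e) in
/-- the tuple is recovered from the ideal in degree `m` -/
def Colon (m : ℕ) : Prop :=
  ∀ w : Fin n × Mon (Fin n) e → ℂ, rs w ≠ 0 → ∀ y : MvPolynomial (Fin n) ℂ, y.IsHomogeneous e →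
    (∀ β : Mon (Fin n) (m - e), monomial β.1 1 * y ∈ Im m (tup w)) → y ∈ span ℂ (range (tup w))

/-- a primitive polynomial Plücker vector -/
structure IsDelta (m : ℕ)
    (Δ : (Fin k → Mon (Fin n) m) → MvPolynomial (Fin n × Mon (Fin n) e) ℂ) : Prop where
  ex : ∀ w : Fin n × Mon (Fin n) e → ℂ, rs w ≠ 0 → ∃ b : Fin k → MvPolynomial (Fin n) ℂ,
    span ℂ (range b) = Im m (tup w) ∧ pl m b ≠ 0
  pl : ∀ w : Fin n × Mon (Fin n) e → ℂ, rs w ≠ 0 → ∀ b : Fin k → MvPolynomial (Fin n) ℂ,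
    span ℂ (range b) = Im m (tup w) → ∃ c : ℂ, c ≠ 0 ∧ pl m b = c • ev Δ w
  prim : ∀ d, (∀ T, d ∣ Δ T) → IsUnit d

/-- the punctured cone over the image -/
def Gs {ι : Type} (Δ : ι → MvPolynomial (Fin n × Mon (Fin n) e) ℂ) : Set (ι → ℂ) :=
  {u | ∃ (w : Fin n × Mon (Fin n) e → ℂ) (c : ℂ), rs w ≠ 0 ∧ c ≠ 0 ∧ u = c • ev Δ w}

/-- an invariant form whose chart meets the closure of the cone inside the cone -/
structure GoodP {ι : Type} [Fintype ι] [DecidableEq ι] (r : Rep Unit (Fin n) ι)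
    (Δ : ι → MvPolynomial (Fin n × Mon (Fin n) e) ℂ) (N : ℕ) (P : MvPolynomial ι ℂ) : Prop where
  pos : 0 < N
  hom : P.IsHomogeneous N
  inv : SLinv r P
  cl : ∀ u ∈ Cl (Gs Δ), aeval u P ≠ 0 → u ∈ Gs Δ

/-- a local inverse near `u₁` -/
def LocInv {ι : Type} (Δ : ι → MvPolynomial (Fin n × Mon (Fin n) e) ℂ) (u₁ : ι → ℂ) : Prop :=
  ∃ (Q : MvPolynomial ι ℂ) (ω : Fin n × Mon (Fin n) e → MvPolynomial ι ℂ), aeval u₁ Q ≠ 0 ∧
    aeval (0 : ι → ℂ) Q = 0 ∧ (∀ u : ι → ℂ, aeval u Q ≠ 0 → rs (ev ω u) ≠ 0) ∧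
    ∀ (w : Fin n × Mon (Fin n) e → ℂ) (c : ℂ), rs w ≠ 0 → c ≠ 0 → aeval (c • ev Δ w) Q ≠ 0 →
      span ℂ (range (tup (ev ω (c • ev Δ w)))) = span ℂ (range (tup w))

/-- the valuative closedness of the orbits in the cone -/
def ValCl {ι : Type} [Fintype ι] [DecidableEq ι] (r : Rep Unit (Fin n) ι) (u₀ : ι → ℂ)
    (B : Set (ι → ℂ)) : Prop :=
  ∀ (Ω : Type) [Field Ω] [IsAlgClosed Ω] [Algebra ℂ Ω] (O : ValuationSubring Ω) [OverC O]
    (g : GL (Fin n) Ω) (c : Ω) (u₁ : ι → ℂ), g.val.det = 1 → 1 ≤ O.valuation c →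
    (∀ i, O.valuation (c * r.pt (fun i => algebraMap ℂ Ω (u₀ i)) (fun _ => g) i -
      algebraMap ℂ Ω (u₁ i)) < 1) → u₁ ∈ B

end git

end Pool.Agent.P.MP_f4e0a3_ag.HP
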