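import Pool.Agent.P.MP_f4e0a3_ag.HP.Base

/-! Statements of the algebraic steps. -/

set_option autoImplicit false

namespace Pool.Agent.P.MP_f4e0a3_ag.HP

open MvPolynomial Matrix Submodule Set

/-! ### Coordinates -/

-- deps:
def S_LAT : Prop := ∀ (Ω : Type) [Field Ω] (O : ValuationSubring Ω) (n : ℕ) (D : UD O n)
  (A B : Fin n → D.T),
  (∀ i a, A i • D.e a ∈ span O (range fun p : Fin n × D.μ => B p.1 • D.e p.2)) →
  ∀ β a, tw A β • D.e a ∈ span O {z | ∃ γ b, γ.degree = β.degree ∧ z = tw B γ • D.e b}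

-- deps: LAT
def S_TH : Prop := ∀ (Ω : Type) [Field Ω] (O : ValuationSubring Ω) (n : ℕ) (D : UD O n) (k : ℕ),
  D.Gen k → Function.Bijective (th (Ω := Ω) (D.sys k) D.e)

-- deps:
def S_COA : Prop := ∀ (Ω : Type) [Field Ω] (O : ValuationSubring Ω) (n : ℕ) (D : UD O n)
  (A : Fin n → D.T) (co : D.V ≃ₗ[Ω] (D.μ → MvPolynomial (Fin n) Ω)),
  (∀ v, co.symm v = th A D.e v) → (∀ i z a, co (A i • z) a = X i * co z a) ∧
    ∀ c z, z ∈ D.MI A c ↔ ∀ a β, (∀ i, c i ≠ 0 → β i < c i) → coeff β (co z a) = 0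

-- deps: LAT TH COA
def S_CO : Prop := ∀ (Ω : Type) [Field Ω] (O : ValuationSubring Ω) (n : ℕ) (D : UD O n) (k : ℕ),
  D.Gen k → ∃ co, D.Co (D.sys k) co

-- deps: CO
def S_PR : Prop := ∀ (Ω : Type) [Field Ω] (O : ValuationSubring Ω) (n : ℕ) (D : UD O n),
  D.Good → ∃ pr, D.Pr pr

-- deps:
def S_MDC : Prop := ∀ (Ω : Type) [Field Ω] (O : ValuationSubring Ω) (n : ℕ) (D : UD O n)
  (A : Fin n → D.T) (co : D.V ≃ₗ[Ω] (D.μ → MvPolynomial (Fin n) Ω)), D.Co A co →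
  (∀ γ c z, D.Md (D.Lam γ) (D.MI A c) z ↔
    ∀ a β, (∀ i, c i ≠ 0 → β i < c i) → ∃ o : O, coeff β (co z a) = o * γ) ∧
  (∀ γ c i r z, c i = 0 → D.Md (D.Lam γ) (D.MI A c) (A i ^ r • z) →
    D.Md (D.Lam γ) (D.MI A c) z) ∧
  ∀ γ i r z, z ∈ D.Lam γ → A i ^ r • z ∈ D.Lam γ

-- deps: CO MDC
def S_LAY0 : Prop := ∀ (Ω : Type) [Field Ω] (O : ValuationSubring Ω) (n : ℕ) (D : UD O n) (e : ℕ)
  (s : Fin n), D.Good → 0 < e →
  (∀ γ i u, i < e → D.Md (D.Lam γ) (D.K e s) (D.l s ^ i • u) →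
    D.Md (D.Lam γ) (D.K e (s + 1)) u) ∧
  (∀ (i : ℕ) (y y' : D.V), i < e → D.l s ^ i • y - D.l s ^ (i + 1) • y' ∈ D.K e s → y ∈ D.K e (s + 1)) ∧
  (∀ y ∈ D.K e (s + 1), ∃ y', y - D.l s • y' ∈ D.K e s ∧ ∀ γ, y ∈ D.Lam γ → y' ∈ D.Lam γ) ∧
  (∀ y : D.V, D.l s ^ e • y ∈ D.K e s) ∧ D.K e s ≤ D.K e (s + 1) ∧
  ∀ y : D.V, D.l s • y ∈ D.K e (s + 1)

-- deps:
def S_BOXC : Prop := ∀ (n e s : ℕ), 0 < e → Box e s (corner n e s) ∧
  (corner n e s).degree = (n - s) * (e - 1) ∧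
  (∀ b : Fin n →₀ ℕ, Box e s b → b.degree ≤ (n - s) * (e - 1)) ∧
  (∀ b : Fin n →₀ ℕ, Box e s b → b.degree = (n - s) * (e - 1) → b = corner n e s) ∧
  ∀ (Ω : Type) [Field Ω] (O : ValuationSubring Ω) (t : Fin n → Ω) (hs : s < n) (i : ℕ)
    (b : Fin n →₀ ℕ), Wt O t → Box e s b → b.degree = (n - (s + 1)) * (e - 1) + i →
    O.valuation (tw t b)⁻¹ ≤ O.valuation ((tw t (corner n e (s + 1)))⁻¹ * (t ⟨s, hs⟩ ^ i)⁻¹)

-- deps: CO MDC BOXC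
def S_TOP : Prop := ∀ (Ω : Type) [Field Ω] (O : ValuationSubring Ω) (n : ℕ) (D : UD O n) (e : ℕ),
  D.Good → 0 < e → (∀ s j, (n - s) * (e - 1) < j → ∀ z ∈ D.Vd j, z ∈ D.K e s) ∧
  (∀ z ∈ D.Lam 1, D.Md (span O (range D.e)) (D.K e n) z) ∧
  (∀ c : D.μ → Ω, ∑ a, c a • D.e a ∈ D.K e n → c = 0) ∧
  ∀ s, ∀ z ∈ D.Vd 0, z ∈ D.K e s → z = 0

/-! ### No socle below the top degree -/

-- deps: CO PR MDC
def S_EXCH : Prop := ∀ (Ω : Type) [Field Ω] (O : ValuationSubring Ω) (n : ℕ) (D : UD O n)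
  (e s k j : ℕ) (c : Ω), D.Good → 0 < e → s ≤ k → k < n →
  (j + 1 < e ∨ D.Soc c (D.Q e s k) s (j + 1 - e)) → D.Soc c (D.Q e s (k + 1)) s j

-- deps: CO EXCH
def S_NS0 : Prop := ∀ (Ω : Type) [Field Ω] (O : ValuationSubring Ω) (n : ℕ) (D : UD O n)
  (e s j : ℕ) (c : Ω), D.Good → 0 < e → j < (n - s) * (e - 1) → D.Soc c (D.K e s) s j

/-! ### The triangular family -/

-- deps:
def S_LX : Prop := ∀ (Ω : Type) [Field Ω] (O : ValuationSubring Ω) (n : ℕ) (D : UD O n) (s : ℕ),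
  D.Gen s → ∀ i β a, D.Md (span O {z | ∃ (j : Fin n) (b : D.μ), s ≤ j.val ∧
    z = D.mo (β + Finsupp.single j 1) b}) (D.J s) (D.l i • D.mo β a)

-- deps: LX
def S_LF : Prop := ∀ (Ω : Type) [Field Ω] (O : ValuationSubring Ω) (n : ℕ) (D : UD O n)
  (t : Fin n → Ω), D.Good → Wt O t →
  (∀ (s : Fin n) i j, ∀ z ∈ D.Fl t s j,
    D.Md (D.Fl t s (j + i)) (D.J s) ((t s ^ i)⁻¹ • D.l s ^ i • z)) ∧
  (∀ (s : Fin n) i b, ∀ z ∈ D.G t s b,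
    D.Md (D.G t s (b + Finsupp.single s i)) (D.J s) (D.l s ^ i • z)) ∧
  (∀ (s j : ℕ) (k : Fin n), s ≤ k.val → ∀ z ∈ D.Fl t s j, (t k)⁻¹ • D.x k • z ∈ D.Fl t s (j + 1)) ∧
  (∀ s j, D.Fl t (s + 1) j ≤ D.Fl t s j) ∧ (∀ s b, D.G t (s + 1) b ≤ D.G t s b) ∧
  (∀ s j, ∀ z ∈ D.Fl t s j, z ∈ D.Vd j) ∧
  ∀ s b, ∀ z ∈ D.G t s b, z ∈ D.Lam 1 ∧ z ∈ D.Vd b.degree ∧ (tw t b)⁻¹ • z ∈ D.Fl t s b.degree

-- deps: LF
def S_PEX : Prop := ∀ (Ω : Type) [Field Ω] (O : ValuationSubring Ω) (n : ℕ) (D : UD O n)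
  (t : Fin n → Ω), D.Good → Wt O t → ∃ p, D.PF t p

-- deps: LF
def S_NST : Prop := ∀ (Ω : Type) [Field Ω] (O : ValuationSubring Ω) (n : ℕ) (D : UD O n)
  (t : Fin n → Ω) (p : ℕ → (Fin n →₀ ℕ) → D.μ → D.V) (e s j : ℕ) (pr : ℕ → D.V →ₗ[Ω] D.V),
  D.St t p e → D.Pr pr → s ≤ n → ∀ z ∈ D.N t p e s,
    pr j z ∈ span O {y | ∃ b a, Box e s b ∧ b.degree = j ∧ y = (tw t b)⁻¹ • p s b a} ∧
    pr j z ∈ D.N t p e s ∧ pr j z ∈ D.Fl t s j ∧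
    ∀ γ : Ω, (∀ b, Box e s b → b.degree = j → O.valuation (tw t b)⁻¹ ≤ O.valuation γ) →
      pr j z ∈ D.Lam γ

-- deps:
def S_NDE : Prop := ∀ (Ω : Type) [Field Ω] (O : ValuationSubring Ω) (n : ℕ) (D : UD O n)
  (t : Fin n → Ω) (p : ℕ → (Fin n →₀ ℕ) → D.μ → D.V) (e : ℕ) (s : Fin n), D.St t p e →
  (∀ z ∈ D.N t p e s, ∃ y : ℕ → D.V, (∀ i, y i ∈ D.N t p e (s + 1)) ∧
    z - ∑ i ∈ Finset.range e, (t s ^ i)⁻¹ • D.l s ^ i • y i ∈ D.J s) ∧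
  ∀ i, i < e → ∀ y ∈ D.N t p e (s + 1),
    D.Md (D.N t p e s) (D.J s) ((t s ^ i)⁻¹ • D.l s ^ i • y)

-- deps: LAY0 TOP
def S_IND : Prop := ∀ (Ω : Type) [Field Ω] (O : ValuationSubring Ω) (n : ℕ) (D : UD O n)
  (t : Fin n → Ω) (p : ℕ → (Fin n →₀ ℕ) → D.μ → D.V) (e s : ℕ), D.St t p e → s ≤ n →
  LinearIndependent Ω fun q : {b // Box e s b} × D.μ =>
    ((D.K e s).restrictScalars Ω).mkQ (p s q.1.1 q.2)

-- deps: LAY0 TOP LF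
def S_GENP : Prop := ∀ (Ω : Type) [Field Ω] (O : ValuationSubring Ω) (n : ℕ) (D : UD O n)
  (t : Fin n → Ω) (p : ℕ → (Fin n →₀ ℕ) → D.μ → D.V) (e s : ℕ), D.St t p e → s ≤ n →
  ∀ z ∈ D.Lam 1, D.Md (span O {y | ∃ b a, Box e s b ∧ y = p s b a}) (D.K e s) z

-- deps: NDE IND LAY0
def S_LAYER : Prop := ∀ (Ω : Type) [Field Ω] (O : ValuationSubring Ω) (n : ℕ) (D : UD O n)
  (t : Fin n → Ω) (p : ℕ → (Fin n →₀ ℕ) → D.μ → D.V) (e : ℕ) (s : Fin n) (i : ℕ) (u : D.V),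
  D.St t p e → i < e → D.Md (D.N t p e s) (D.K e s) ((t s ^ i)⁻¹ • D.l s ^ i • u) →
  D.Md (D.N t p e (s + 1)) (D.K e (s + 1)) u

-- deps: PR NS0 NST BOXC LAY0 GENP LF
def S_GAP : Prop := ∀ (Ω : Type) [Field Ω] (O : ValuationSubring Ω) (n : ℕ) (D : UD O n)
  (t : Fin n → Ω) (p : ℕ → (Fin n →₀ ℕ) → D.μ → D.V) (e : ℕ) (s : Fin n) (i : ℕ) (z u : D.V),
  D.St t p e → i + 1 < e → z ∈ D.Vd ((n - (s + 1)) * (e - 1) + i) →
  u ∈ D.Vd ((n - (s + 1)) * (e - 1)) → z - (t s ^ i)⁻¹ • D.l s ^ i • u ∈ D.K e s →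
  (∀ k : Fin n, s ≤ k → D.Md (D.N t p e s) (D.K e s) ((t k)⁻¹ • D.x k • z)) →
  D.Md (D.N t p e (s + 1)) (D.K e (s + 1)) u

-- deps: PR NST NDE LF LAY0
def S_LIFT : Prop := ∀ (Ω : Type) [Field Ω] (O : ValuationSubring Ω) (n : ℕ) (D : UD O n)
  (t : Fin n → Ω) (p : ℕ → (Fin n →₀ ℕ) → D.μ → D.V) (e : ℕ) (s : Fin n) (i l : ℕ) (u : D.V),
  D.St t p e → i < e → u ∈ D.Vd l → D.Md (D.N t p e (s + 1)) (D.K e (s + 1)) u →
  ∃ ζ u', ζ ∈ D.N t p e s ∧ ζ ∈ D.Fl t s (l + i) ∧ u' ∈ D.Vd (l - 1) ∧ (l = 0 → u' = 0) ∧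
    (t s ^ i)⁻¹ • D.l s ^ i • u - ζ - (t s ^ (i + 1))⁻¹ • D.l s ^ (i + 1) • u' ∈ D.K e s

-- deps: LAYER GAP LIFT LF TOP LAY0
def S_NS : Prop := ∀ (Ω : Type) [Field Ω] (O : ValuationSubring Ω) (n : ℕ) (D : UD O n)
  (t : Fin n → Ω) (p : ℕ → (Fin n →₀ ℕ) → D.μ → D.V) (e s j : ℕ), D.St t p e →
  j + 1 ≤ (n - s) * (e - 1) → D.Eqv t p e s (j + 1) → ∀ z ∈ D.Vd j,
    (∀ k : Fin n, s ≤ k.val → D.Md (D.N t p e s) (D.K e s) ((t k)⁻¹ • D.x k • z)) →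
    D.Md (D.N t p e s) (D.K e s) z

-- deps: NS LF
def S_DESC : Prop := ∀ (Ω : Type) [Field Ω] (O : ValuationSubring Ω) (n : ℕ) (D : UD O n)
  (t : Fin n → Ω) (p : ℕ → (Fin n →₀ ℕ) → D.μ → D.V) (e j m : ℕ), D.St t p e →
  j ≤ m → m ≤ n * (e - 1) → D.Eqv t p e 0 m → D.Eqv t p e 0 j

/-! ### Volumes -/

-- deps:
def S_LV : Prop := ∀ (Ω : Type) [Field Ω] (O : ValuationSubring Ω) (V ι κ : Type) [AddCommGroup V]
  [Module Ω V] [Fintype ι] [Fintype κ] [DecidableEq κ] (m : ι → V) (f : κ → V) (τ : ι → Ω)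
  (C : Matrix κ κ Ω), LinearIndependent Ω m → LinearIndependent Ω f →
  span O (range f) = span O (range m) → (∀ i, τ i ≠ 0) →
  (∀ i, ∑ j, C i j • f j ∈ span O (range fun i => (τ i)⁻¹ • m i)) →
  Fintype.card κ = Fintype.card ι ∧ O.valuation (C.det * ∏ i, τ i) ≤ 1 ∧
    (1 ≤ O.valuation (C.det * ∏ i, τ i) ↔
      span O (range fun i => (τ i)⁻¹ • m i) ≤ span O (range fun i => ∑ j, C i j • f j))

-- deps:
def S_PLK : Prop := ∀ (F : Type) [Field F] (n k m : ℕ),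
  (∀ b : Fin k → MvPolynomial (Fin n) F, (∀ i, (b i).IsHomogeneous m) →
    (LinearIndependent F b ↔ pl m b ≠ 0)) ∧
  (∀ (C : Matrix (Fin k) (Fin k) F) (b : Fin k → MvPolynomial (Fin n) F),
    pl m (fun i => ∑ j, C i j • b j) = C.det • pl m b) ∧
  (∀ b b' : Fin k → MvPolynomial (Fin n) F, span F (range b') ≤ span F (range b) →
    ∃ c : F, pl m b' = c • pl m b) ∧
  ∀ b b' : Fin k → MvPolynomial (Fin n) F, span F (range b') = span F (range b) → pl m b ≠ 0 →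
    ∃ c : F, c ≠ 0 ∧ pl m b' = c • pl m b

-- deps:
def S_CRAM : Prop := ∀ (F : Type) [Field F] (n k m : ℕ) (b : Fin k → MvPolynomial (Fin n) F)
  (T : Fin k → Mon (Fin n) m), (∀ i, (b i).IsHomogeneous m) → pl m b T ≠ 0 →
  (∃ C : Matrix (Fin k) (Fin k) F, C.det * pl m b T = 1 ∧
    (∀ i j, coeff (T j).1 (∑ l, C i l • b l) = if i = j then 1 else 0) ∧
    ∀ i (β : Mon (Fin n) m),
      pl m b T * coeff β.1 (∑ l, C i l • b l) = pl m b (Function.update T i β)) ∧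
  ∀ y : MvPolynomial (Fin n) F, y.IsHomogeneous m → (y ∈ span F (range b) ↔
    ∀ β : Mon (Fin n) m,
      pl m b T * coeff β.1 y = ∑ i, coeff (T i).1 y * pl m b (Function.update T i β))

-- deps: PLK CRAM
def S_PLN : Prop := ∀ (Ω : Type) [Field Ω] (O : ValuationSubring Ω) (n k m : ℕ) (t : Fin n → Ω)
  (b : Fin k → MvPolynomial (Fin n) Ω), (∀ i, t i ≠ 0) → (∀ i, (b i).IsHomogeneous m) →
  LinearIndependent Ω b → ∃ (T : Fin k → Mon (Fin n) m) (C : Matrix (Fin k) (Fin k) Ω),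
    (∀ T' : Fin k → Mon (Fin n) m, O.valuation ((∏ j, tw t (T' j).1) * pl m b T') ≤
      O.valuation ((∏ j, tw t (T j).1) * pl m b T)) ∧
    C.det * ((∏ j, tw t (T j).1) * pl m b T) = 1 ∧
    (∀ i β, tw t β * coeff β (∑ l, C i l • b l) ∈ O) ∧
    ∀ y ∈ span Ω (range b), (∀ β, tw t β * coeff β y ∈ O) →
      y ∈ span O (range fun i => ∑ l, C i l • b l)

-- deps:
def S_BOXP : Prop := ∀ (M : Type) [CommMonoid M] (n e j : ℕ) (t : Fin n → M), ∏ i, t i = 1 →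
  ∏ β : Mon (Fin n) j, tw t β.1 = 1 ∧ ∏ β : BoxD n e j, tw t β.1.1 = 1

-- deps:
def S_KX : Prop := ∀ (Ω : Type) [Field Ω] (O : ValuationSubring Ω) (n : ℕ) (D : UD O n) (e : ℕ)
  (g : Fin n → MvPolynomial (Fin n) Ω), D.Pw e g → 0 < e →
  ∀ v, th D.x D.e v ∈ D.K e 0 ↔ ∀ a, v a ∈ Ideal.span (range g)

-- deps: CO KX
def S_KSAT : Prop := ∀ (Ω : Type) [Field Ω] (O : ValuationSubring Ω) (n : ℕ) (D : UD O n)
  (e j k : ℕ) (g : Fin n → MvPolynomial (Fin n) Ω) (t : Fin n → Ω)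
  (b : Fin k → MvPolynomial (Fin n) Ω), D.Pw e g → 0 < e → (∀ i, t i ≠ 0) →
  (∀ i, b i ∈ Im j g) → (∀ i β, tw t β * coeff β (b i) ∈ O) →
  (∀ y ∈ Im j g, (∀ β, tw t β * coeff β y ∈ O) → y ∈ span O (range b)) →
  D.Fl t 0 j = span O (range fun q : Mon (Fin n) j × D.μ => (tw t q.1.1)⁻¹ • D.mo q.1.1 q.2) ∧
  (∀ i a, aeval D.x (b i) • D.e a ∈ D.Fl t 0 j ∧ aeval D.x (b i) • D.e a ∈ D.K e 0) ∧
  ∀ z ∈ D.Fl t 0 j, z ∈ D.K e 0 →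
    z ∈ span O (range fun q : Fin k × D.μ => aeval D.x (b q.1) • D.e q.2)

-- deps: KSAT IND GENP PR LF
def S_FAM : Prop := ∀ (Ω : Type) [Field Ω] (O : ValuationSubring Ω) (n : ℕ) (D : UD O n)
  (t : Fin n → Ω) (p : ℕ → (Fin n →₀ ℕ) → D.μ → D.V) (e j k : ℕ)
  (g : Fin n → MvPolynomial (Fin n) Ω) (b : Fin k → MvPolynomial (Fin n) Ω), D.St t p e →
  D.Pw e g → LinearIndependent Ω b → (∀ i, b i ∈ Im j g) → (∀ i β, coeff β (b i) ∈ O) →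
  (∀ y ∈ Im j g, (∀ β, coeff β y ∈ O) → y ∈ span O (range b)) →
  LinearIndependent Ω (fun q : Mon (Fin n) j × D.μ => D.mo q.1.1 q.2) ∧
  LinearIndependent Ω (D.fam (e := e) (j := j) b (p 0)) ∧
  span O (range (D.fam (e := e) (j := j) b (p 0))) =
    span O (range fun q : Mon (Fin n) j × D.μ => D.mo q.1.1 q.2)

-- deps: KSAT NST PR LF
def S_FAM2 : Prop := ∀ (Ω : Type) [Field Ω] (O : ValuationSubring Ω) (n : ℕ) (D : UD O n)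
  (t : Fin n → Ω) (p : ℕ → (Fin n →₀ ℕ) → D.μ → D.V) (e j k : ℕ)
  (g : Fin n → MvPolynomial (Fin n) Ω) (b : Fin k → MvPolynomial (Fin n) Ω), D.St t p e →
  D.Pw e g → (∀ i, b i ∈ Im j g) → (∀ i β, tw t β * coeff β (b i) ∈ O) →
  (∀ y ∈ Im j g, (∀ β, tw t β * coeff β y ∈ O) → y ∈ span O (range b)) →
  (∀ i, D.fam (e := e) (j := j) b (fun β a => (tw t β)⁻¹ • p 0 β a) i ∈
    span O (range fun q : Mon (Fin n) j × D.μ => (tw t q.1.1)⁻¹ • D.mo q.1.1 q.2)) ∧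
  (D.Eqv t p e 0 j ↔
    span O (range fun q : Mon (Fin n) j × D.μ => (tw t q.1.1)⁻¹ • D.mo q.1.1 q.2) ≤
      span O (range (D.fam (e := e) (j := j) b fun β a => (tw t β)⁻¹ • p 0 β a)))

-- deps: LV PLN BOXP FAM FAM2
def S_VOL : Prop := ∀ (Ω : Type) [Field Ω] (O : ValuationSubring Ω) (n : ℕ) (D : UD O n)
  (t : Fin n → Ω) (p : ℕ → (Fin n →₀ ℕ) → D.μ → D.V) (e j k : ℕ)
  (g : Fin n → MvPolynomial (Fin n) Ω) (b : Fin k → MvPolynomial (Fin n) Ω), D.St t p e →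
  D.Pw e g → O.valuation (∏ i, t i) = 1 → LinearIndependent Ω b → span Ω (range b) = Im j g →
  SS O t j b ∧ (BAL O t j b ↔ D.Eqv t p e 0 j) ∧
    k + Fintype.card (BoxD n e j) = Fintype.card (Mon (Fin n) j)

/-! ### Construction of the module -/

-- deps:
def S_QB : Prop := ∀ (A : Type) [Ring A] [Algebra ℂ A] (e : ℕ) (ζ : ℂ) (x y : A), 0 < e →
  IsPrimitiveRoot ζ e → x * y = ζ • (y * x) → (x + y) ^ e = x ^ e + y ^ e

-- deps: QB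
def S_CLIF1 : Prop := ∀ (R : Type) [CommRing R] [Algebra ℂ R] (M : Submodule ℂ R) (e : ℕ)
  (μ : Type) [Fintype μ] [DecidableEq μ] [Nonempty μ] (L : Matrix μ μ R) (f : R) (l : Fin e → R),
  0 < e → (∀ a b, L a b ∈ M) → (∀ i, l i ∈ M) → L ^ e = Matrix.scalar μ f →
  ∃ (μ' : Type) (_ : Fintype μ') (_ : DecidableEq μ') (_ : Nonempty μ') (L' : Matrix μ' μ' R),
    (∀ a b, L' a b ∈ M) ∧ L' ^ e = Matrix.scalar μ' (f + ∏ i, l i)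

-- deps: CLIF1
def S_CLIF : Prop := ∀ (R : Type) [CommRing R] [Algebra ℂ R] (n e : ℕ)
  (g : MvPolynomial (Fin n) R), 0 < e → g.IsHomogeneous e →
  ∃ (μ : Type) (_ : Fintype μ) (_ : DecidableEq μ) (_ : Nonempty μ)
    (L : Matrix μ μ (MvPolynomial (Fin n) R)),
    (∀ a b, (L a b).IsHomogeneous 1) ∧ L ^ e = Matrix.scalar μ g

-- deps:
def S_KRON : Prop := ∀ (R : Type) [CommRing R] (M : AddSubgroup R) (e r : ℕ) (g : Fin r → R),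
  (∀ i, ∃ (μ : Type) (_ : Fintype μ) (_ : DecidableEq μ) (_ : Nonempty μ) (L : Matrix μ μ R),
    (∀ a b, L a b ∈ M) ∧ L ^ e = Matrix.scalar μ (g i)) →
  ∃ (μ : Type) (_ : Fintype μ) (_ : DecidableEq μ) (_ : Nonempty μ) (L : Fin r → Matrix μ μ R),
    (∀ i a b, L i a b ∈ M) ∧ (∀ i, L i ^ e = Matrix.scalar μ (g i)) ∧
      ∀ i j, L i * L j = L j * L i

-- deps:
def S_UDM : Prop := ∀ (Ω : Type) [Field Ω] (O : ValuationSubring Ω) (n e : ℕ) (μ : Type)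
  [Fintype μ] [DecidableEq μ] [Nonempty μ] (L : Fin n → Matrix μ μ (MvPolynomial (Fin n) O))
  (g : Fin n → MvPolynomial (Fin n) O), (∀ i a b, (L i a b).IsHomogeneous 1) →
  (∀ i, L i ^ e = Matrix.scalar μ (g i)) → (∀ i j, L i * L j = L j * L i) →
  ∃ D : UD O n, D.Pw e fun i => MvPolynomial.map O.subtype (g i)

-- deps:
def S_GENU : Prop := ∀ (Ω : Type) [Field Ω] (O : ValuationSubring Ω) (n : ℕ) (D : UD O n)
  (k : Fin n), D.Gen k → ∃ U : Matrix D.μ D.μ O,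
    (∀ a, D.l k • D.e a - ∑ b, U a b • D.x k • D.e b ∈
      span O {z | ∃ i b, i ≠ k ∧ z = D.sys k i • D.e b}) ∧
    (IsUnit U.det → D.Gen (k + 1))

-- deps: CO MDC GENU
def S_GEN : Prop := ∀ (Ω : Type) [Field Ω] (O : ValuationSubring Ω) (n : ℕ) (D : UD O n) (e : ℕ)
  (g : Fin n → MvPolynomial (Fin n) O) (k : Fin n), 0 < e →
  (D.Pw e fun i => MvPolynomial.map O.subtype (g i)) → Flag O g k → D.Gen k → D.Gen (k + 1)

-- deps: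
def S_NULL : Prop := ∀ (n e : ℕ) [Fact (2 ≤ e)] [Nonempty (Fin n)] (F : Type) [Field F]
  [Algebra ℂ F] (w : Fin n × Mon (Fin n) e → F), rs w ≠ 0 →
  (∀ i, ∃ N, X i ^ N ∈ Ideal.span (range (tup w))) ∧ LinearIndependent F (tup w)

-- deps:
def S_ART : Prop := ∀ (F : Type) [Field F] (n : ℕ) (c : Fin n → MvPolynomial (Fin n) F)
  (d : Fin n → ℕ) (k : Fin n), (∀ i, (c i).IsHomogeneous (d i)) → c k = X k →
  (∀ i, ∃ N, X i ^ N ∈ Ideal.span (range c)) →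
  Module.Finite F (MvPolynomial (Fin n) F ⧸ Ideal.span (range (Function.update c k (X k - 1))))

-- deps:
def S_HOM : Prop := ∀ (F : Type) [Field F] (n : ℕ) (ι : Type) (c : ι → MvPolynomial (Fin n) F)
  (d : ι → ℕ) (k : Fin n), (∀ i, (c i).IsHomogeneous (d i)) →
  Ideal.span (range c) ⊔ Ideal.span {X k - 1} = ⊤ → ∃ N, X k ^ N ∈ Ideal.span (range c)

-- deps: ART HOM
def S_SEL1 : Prop := ∀ (F : Type) [Field F] [Infinite F] (n e : ℕ)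
  (h c : Fin n → MvPolynomial (Fin n) F) (d : Fin n → ℕ) (k : Fin n)
  (W : Submodule F (Fin n → F)), (∀ i, (h i).IsHomogeneous e) →
  (∀ i, ∃ N, X i ^ N ∈ Ideal.span (range h)) → (∀ i, (c i).IsHomogeneous (d i)) → c k = X k →
  (∀ i, ∃ N, X i ^ N ∈ Ideal.span (range c)) → W ≠ ⊤ → ∃ a : Fin n → F, a ∉ W ∧
    ∀ i, ∃ N, X i ^ N ∈ Ideal.span (range (Function.update c k (∑ j, a j • h j)))

-- deps: SEL1
def S_SEL : Prop := ∀ (F : Type) [Field F] [Infinite F] (n e : ℕ)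
  (h : Fin n → MvPolynomial (Fin n) F), (∀ i, (h i).IsHomogeneous e) →
  (∀ i, ∃ N, X i ^ N ∈ Ideal.span (range h)) → ∃ a : Matrix (Fin n) (Fin n) F, a.det ≠ 0 ∧
    ∀ k, ∃ N, X k ^ N ∈ Ideal.span (range fun i => if i ≤ k then ∑ j, a i j • h j else X i)

-- deps: NULL SEL
def S_FLAG : Prop := ∀ (n e : ℕ) [Fact (2 ≤ e)] [Nonempty (Fin n)] (Ω : Type) [Field Ω]
  [Algebra ℂ Ω] (O : ValuationSubring Ω) [OverC O] (w : Fin n × Mon (Fin n) e → O),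
  IsUnit (rs w) → ∃ g : Fin n → MvPolynomial (Fin n) O, (∀ i, (g i).IsHomogeneous e) ∧
    (∀ k, Flag O g k) ∧ Ideal.span (range fun i => MvPolynomial.map O.subtype (g i)) =
      Ideal.span (range (tup fun p => (w p : Ω)))

-- deps: FLAG CLIF KRON UDM GEN
def S_UDX : Prop := ∀ (n e : ℕ) [Fact (2 ≤ e)] [Nonempty (Fin n)] (Ω : Type) [Field Ω]
  [Algebra ℂ Ω] (O : ValuationSubring Ω) [OverC O] (w : Fin n × Mon (Fin n) e → O),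
  IsUnit (rs w) → ∃ (D : UD O n) (g : Fin n → MvPolynomial (Fin n) Ω), D.Good ∧ D.Pw e g ∧
    Ideal.span (range g) = Ideal.span (range (tup fun p => (w p : Ω)))

-- deps:
def S_IMSP : Prop := ∀ (R : Type) [CommRing R] (n e m : ℕ) (h : Fin n → MvPolynomial (Fin n) R),
  (∀ i, (h i).IsHomogeneous e) → e ≤ m →
  Im m h = span R (range fun q : Mon (Fin n) (m - e) × Fin n => monomial q.1.1 (1 : R) * h q.2) ∧
  Im e h = span R (range h)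

-- deps: UDX PEX VOL DESC IMSP NULL
def S_CORE : Prop := ∀ (n e : ℕ) [Fact (2 ≤ e)] [Nonempty (Fin n)] (Ω : Type) [Field Ω]
  [Algebra ℂ Ω] (O : ValuationSubring Ω) [OverC O] (w : Fin n × Mon (Fin n) e → O)
  (t : Fin n → Ω) (k m : ℕ) (b : Fin k → MvPolynomial (Fin n) Ω), IsUnit (rs w) → Wt O t →
  O.valuation (∏ i, t i) = 1 → LinearIndependent Ω b →
  span Ω (range b) = Im m (tup fun p => (w p : Ω)) →
  SS O t m b ∧ SS O t e (tup fun p => (w p : Ω)) ∧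
    (e ≤ m → m ≤ n * (e - 1) → BAL O t m b → BAL O t e (tup fun p => (w p : Ω)))

-- deps: UDX PEX VOL
def S_HF : Prop := ∀ (n e : ℕ) [Fact (2 ≤ e)] [Nonempty (Fin n)] (m : ℕ), ∃ k, HF n e m k

-- deps: UDX NS0 KX CO IMSP
def S_COLON : Prop := ∀ (n e : ℕ) [Fact (2 ≤ e)] [Nonempty (Fin n)] (m : ℕ), e ≤ m →
  m ≤ n * (e - 1) → Colon n e m

end Pool.Agent.P.MP_f4e0a3_ag.HP
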