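import Pool.Agent.P.MP_f4e0a3_ag.HP.IfaceA

/-! Statements of the invariant theoretic steps. -/

set_option autoImplicit false

namespace Pool.Agent.P.MP_f4e0a3_ag.HP

open MvPolynomial Matrix Submodule Set

/-! ### Representations -/

-- deps:
def S_TENS : Prop := ∀ n k m : ℕ, ∃ r : Rep Unit (Fin n) (Fin k → Mon (Fin n) m), IsTens m r

-- deps:
def S_TW : Prop := ∀ (n : ℕ) (ι : Type) [Fintype ι] [DecidableEq ι] (r : Rep Unit (Fin n) ι),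
  ∃ r' : Rep Unit (Fin n) (Option ι), ∀ (R : Type) [CommRing R] [Algebra ℂ R]
    (γ : Gr Unit (Fin n) R) (s : R) (u : ι → R),
    r'.pt (fun o => o.elim s u) γ = fun o => o.elim ((γ ())⁻¹.val.det * s) (r.pt u γ)

-- deps: TW COMP
def S_AVG : Prop := ∀ (n : ℕ) [Nonempty (Fin n)] (ι : Type) [Fintype ι] [DecidableEq ι]
  (r : Rep Unit (Fin n) ι) (κ M : ℕ) (x : MvPolynomial ι ℂ), ScalW r κ → x.IsHomogeneous (n * M) →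
  ∃ Q : MvPolynomial ι ℂ, Q.IsHomogeneous (n * M) ∧ SLinv r Q ∧ ∀ u : ι → ℂ,
    (∀ g : GL (Fin n) ℂ, g.val.det = 1 → aeval (r.pt u fun _ => g) x = aeval u x) →
      aeval u Q = aeval u x

-- deps:
def S_COMP : Prop := ∀ (ι : Type) (F : MvPolynomial ι ℂ),
  (∀ u v : ι → ℂ, (∀ c : ℂ, c ≠ 0 → aeval (c • u) F = aeval (c • v) F) →
    ∀ N, aeval u (homogeneousComponent N F) = aeval v (homogeneousComponent N F)) ∧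
  (∀ (u : ι → ℂ) (a : ℂ) (N : ℕ), (∀ c : ℂ, c ≠ 0 → aeval (c • u) F = c ^ N * a) →
    aeval u (homogeneousComponent N F) = a ∧
      ∀ M, M ≠ N → aeval u (homogeneousComponent M F) = 0) ∧
  ∀ u : ι → ℂ, aeval u F ≠ 0 → ∃ N, aeval u (homogeneousComponent N F) ≠ 0

-- deps: TW COMP
def S_SEP : Prop := ∀ (n : ℕ) [Nonempty (Fin n)] (ι : Type) [Fintype ι] [DecidableEq ι]
  (r : Rep Unit (Fin n) ι) (κ : ℕ) (B G : Set (ι → ℂ)) (u₀ : ι → ℂ), ScalW r κ → 0 ∈ B →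
  (∀ u ∈ B, ∀ c : ℂ, c ≠ 0 → c • u ∈ B) →
  (∀ u ∈ B, ∀ g : GL (Fin n) ℂ, g.val.det = 1 → (r.pt u fun _ => g) ∈ B) → ValCl r u₀ G →
  (∀ u₁ ∈ G, u₁ ∉ Cl B) → ∃ (N : ℕ) (P : MvPolynomial ι ℂ), 0 < N ∧ P.IsHomogeneous N ∧
    SLinv r P ∧ (∀ v ∈ B, aeval v P = 0) ∧ aeval u₀ P ≠ 0

-- deps:
def S_PERF : Prop := ∀ (F : Type) [Field F] [CharZero F] (n : ℕ) (A : Type) [CommGroup A]
  (ξ : GL (Fin n) F →* A) (g : GL (Fin n) F), g.val.det = 1 → ξ g = 1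

-- deps: PERF
def S_CHIU : Prop := ∀ (n e : ℕ) [Fact (2 ≤ e)] [Nonempty (Fin n)] (Ω : Type) [Field Ω]
  [IsAlgClosed Ω] [Algebra ℂ Ω] (O : ValuationSubring Ω) [OverC O] (a g : GL (Fin n) Ω),
  O.valuation a.val.det = 1 → O.valuation g.val.det = 1 → O.valuation (chi e (pairG a g)) = 1

-- deps: PERF
def S_CHAR1 : Prop := ∀ (n e : ℕ) [Fact (2 ≤ e)] [Nonempty (Fin n)]
  (D : MvPolynomial (Fin n × Mon (Fin n) e) ℂ), D ≠ 0 →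
  (∀ a g : GL (Fin n) ℂ, g.val.det = 1 → ∃ c : ℂ, ∀ w : Fin n × Mon (Fin n) e → ℂ,
    aeval (lin0 a.val g.val w) D = c * aeval w D) →
  ∃ δ : ℕ, D.IsHomogeneous δ ∧ ∀ a g : GL (Fin n) ℂ, a.val.det = 1 → g.val.det = 1 →
    ∀ w : Fin n × Mon (Fin n) e → ℂ, aeval (lin0 a.val g.val w) D = aeval w D

-- deps: CHAR1
def S_CHAR : Prop := ∀ (n e : ℕ) [Fact (2 ≤ e)] [Nonempty (Fin n)]
  (D : MvPolynomial (Fin n × Mon (Fin n) e) ℂ), D ≠ 0 →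
  (∀ a g : GL (Fin n) ℂ, g.val.det = 1 → ∃ c : ℂ, ∀ w : Fin n × Mon (Fin n) e → ℂ,
    aeval (lin0 a.val g.val w) D = c * aeval w D) →
  ∃ ρ δ : ℕ, 0 < ρ ∧ rename some D ^ ρ * X none ^ δ ∈ (rep1 (Fin n) e).inv

/-! ### The polynomial Plücker vector -/

-- deps:
def S_GCD : Prop := ∀ (R ι : Type) [CommRing R] [IsDomain R] [UniqueFactorizationMonoid R]
  [Fintype ι], (∀ v : ι → R, v ≠ 0 → ∃ (d : R) (Δ : ι → R), v = d • Δ ∧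
    ∀ c, (∀ T, c ∣ Δ T) → IsUnit c) ∧
  ∀ Δ v : ι → R, (∀ c, (∀ T, c ∣ Δ T) → IsUnit c) → (∀ T T', v T * Δ T' = v T' * Δ T) →
    ∃ c : R, v = c • Δ

-- deps: IMSP PLK
def S_BAS : Prop := ∀ (n e : ℕ) [Fact (2 ≤ e)] [Nonempty (Fin n)] (m k : ℕ), e ≤ m → HF n e m k →
  ∀ w : Fin n × Mon (Fin n) e → ℂ, rs w ≠ 0 →
    (∃ τ : Fin k → Mon (Fin n) (m - e) × Fin n,
      span ℂ (range fun i => monomial (τ i).1.1 (1 : ℂ) * tup w (τ i).2) = Im m (tup w)) ∧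
    ∀ b : Fin k → MvPolynomial (Fin n) ℂ, span ℂ (range b) = Im m (tup w) → pl m b ≠ 0

-- deps: GCD BAS PLK IMSP
def S_DELTA : Prop := ∀ (n e : ℕ) [Fact (2 ≤ e)] [Nonempty (Fin n)] (m k : ℕ), e ≤ m →
  HF n e m k → ∃ Δ : (Fin k → Mon (Fin n) m) → MvPolynomial (Fin n × Mon (Fin n) e) ℂ, IsDelta m Δ

-- deps:
def S_IMACT : Prop := ∀ (R : Type) [CommRing R] (n m : ℕ) (a g : GL (Fin n) R)
  (h : Fin n → MvPolynomial (Fin n) R),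
  Im m (act2 a.val g.val h) = (Im m h).map (sub g.val).toLinearMap

-- deps: IMACT
def S_EQV : Prop := ∀ (n e : ℕ) [Fact (2 ≤ e)] [Nonempty (Fin n)] (m k : ℕ)
  (r : Rep Unit (Fin n) (Fin k → Mon (Fin n) m))
  (Δ : (Fin k → Mon (Fin n) m) → MvPolynomial (Fin n × Mon (Fin n) e) ℂ), IsTens m r →
  IsDelta m Δ → ∀ w : Fin n × Mon (Fin n) e → ℂ, rs w ≠ 0 → ev Δ w ≠ 0 ∧ ∀ a g : GL (Fin n) ℂ,
    rs (lin0 a.val g.val w) ≠ 0 ∧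
    ∃ c : ℂ, c ≠ 0 ∧ ev Δ (lin0 a.val g.val w) = c • r.pt (ev Δ w) fun _ => g

-- deps: EQV GCD
def S_SEMI : Prop := ∀ (n e : ℕ) [Fact (2 ≤ e)] [Nonempty (Fin n)] (m k : ℕ)
  (r : Rep Unit (Fin n) (Fin k → Mon (Fin n) m))
  (Δ : (Fin k → Mon (Fin n) m) → MvPolynomial (Fin n × Mon (Fin n) e) ℂ), IsTens m r →
  IsDelta m Δ → ∀ a g : GL (Fin n) ℂ, ∃ c : ℂ, ∀ w : Fin n × Mon (Fin n) e → ℂ,
    ev Δ (lin0 a.val g.val w) = c • r.pt (ev Δ w) fun _ => g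

-- deps: EQV
def S_PROP : Prop := ∀ (n e : ℕ) [Fact (2 ≤ e)] [Nonempty (Fin n)] (m k : ℕ)
  (r : Rep Unit (Fin n) (Fin k → Mon (Fin n) m))
  (Δ : (Fin k → Mon (Fin n) m) → MvPolynomial (Fin n × Mon (Fin n) e) ℂ), IsTens m r →
  IsDelta m Δ → (∀ (w : Fin n × Mon (Fin n) e → ℂ), rs w ≠ 0 →
    ∀ (R : Type) [CommRing R] [Algebra ℂ R] (a g : GL (Fin n) R) (T T' : Fin k → Mon (Fin n) m),
      ev Δ (lin0 a.val g.val fun p => algebraMap ℂ R (w p)) T *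
        r.pt (fun i => algebraMap ℂ R (ev Δ w i)) (fun _ => g) T' =
      ev Δ (lin0 a.val g.val fun p => algebraMap ℂ R (w p)) T' *
        r.pt (fun i => algebraMap ℂ R (ev Δ w i)) (fun _ => g) T) ∧
  ∀ (F : Type) [Field F] [Algebra ℂ F] (w : Fin n × Mon (Fin n) e → F), rs w ≠ 0 → ev Δ w ≠ 0

/-! ### The valuative criterion -/

-- deps:
def S_SMS : Prop := ∀ (Ω : Type) [Field Ω] (O : ValuationSubring Ω) (n : ℕ) (g : GL (Fin n) Ω),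
  ∃ (P Q : GL (Fin n) O) (t : Fin n → Ω), Wt O t ∧
    g.val = P.val.map O.subtype * diagonal t * Q.val.map O.subtype ∧
    O.valuation (∏ i, t i) = O.valuation g.val.det

-- deps: PLN PLK CHIU NULL
def S_RED : Prop := ∀ (n e : ℕ) [Fact (2 ≤ e)] [Nonempty (Fin n)] (Ω : Type) [Field Ω]
  [IsAlgClosed Ω] [Algebra ℂ Ω] (O : ValuationSubring Ω) [OverC O]
  (w : Fin n × Mon (Fin n) e → O) (t : Fin n → Ω), IsUnit (rs w) → (∀ i, t i ≠ 0) →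
  O.valuation (∏ i, t i) = 1 → SS O t e (tup fun p => (w p : Ω)) →
  BAL O t e (tup fun p => (w p : Ω)) → ∃ (a : GL (Fin n) Ω) (w' : Fin n × Mon (Fin n) e → O),
    IsUnit (rs w') ∧ (fun p => (w' p : Ω)) = lin0 a.val (diagonal t) fun p => (w p : Ω)

-- deps: IMSP PLK
def S_BC : Prop := ∀ (n e m k : ℕ) (F : Type) [Field F] [Algebra ℂ F]
  (w : Fin n × Mon (Fin n) e → ℂ) (b : Fin k → MvPolynomial (Fin n) ℂ), e ≤ m →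
  span ℂ (range b) = Im m (tup w) → pl m b ≠ 0 →
  span F (range fun i => MvPolynomial.map (algebraMap ℂ F) (b i)) =
    Im m (tup fun p => algebraMap ℂ F (w p)) ∧
  (pl m fun i => MvPolynomial.map (algebraMap ℂ F) (b i)) = (fun T => algebraMap ℂ F (pl m b T)) ∧
  ∀ i, (MvPolynomial.map (algebraMap ℂ F) (b i)).IsHomogeneous m

-- deps:
def S_PRIM : Prop := ∀ (n : ℕ) (ι : Type) [Fintype ι] [DecidableEq ι] (r : Rep Unit (Fin n) ι)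
  (Ω : Type) [Field Ω] [Algebra ℂ Ω] (O : ValuationSubring Ω) [OverC O] (P : GL (Fin n) O)
  (P' : GL (Fin n) Ω) (u : ι → Ω) (x : O.ValueGroup), P'.val = P.val.map O.subtype →
  ((∀ i, O.valuation (r.pt u (fun _ => P') i) ≤ x) ↔ ∀ i, O.valuation (u i) ≤ x) ∧
  ((∀ i, O.valuation (r.pt u (fun _ => P') i) < x) ↔ ∀ i, O.valuation (u i) < x)

-- deps: CORE SMS BC IMACT RED PLK PRIM
def S_VAL1 : Prop := ∀ (n e : ℕ) [Fact (2 ≤ e)] [Nonempty (Fin n)] (m k : ℕ)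
  (r : Rep Unit (Fin n) (Fin k → Mon (Fin n) m)) (Ω : Type) [Field Ω] [IsAlgClosed Ω]
  [Algebra ℂ Ω] (O : ValuationSubring Ω) [OverC O] (w : Fin n × Mon (Fin n) e → ℂ)
  (b : Fin k → MvPolynomial (Fin n) ℂ) (g : GL (Fin n) Ω), IsTens m r → e ≤ m →
  m ≤ n * (e - 1) → rs w ≠ 0 → span ℂ (range b) = Im m (tup w) → pl m b ≠ 0 → g.val.det = 1 →
  (∃ T, 1 ≤ O.valuation (r.pt (fun i => algebraMap ℂ Ω (pl m b i)) (fun _ => g) T)) ∧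
  ((∀ T, O.valuation (r.pt (fun i => algebraMap ℂ Ω (pl m b i)) (fun _ => g) T) ≤ 1) →
    ∃ (a : GL (Fin n) Ω) (w' : Fin n × Mon (Fin n) e → O), IsUnit (rs w') ∧
      (fun p => (w' p : Ω)) = lin0 a.val g.val fun p => algebraMap ℂ Ω (w p))

-- deps:
def S_TRF : Prop := ∀ (n e : ℕ) [Fact (2 ≤ e)] [Nonempty (Fin n)] (ι : Type) [Fintype ι]
  (Δ : ι → MvPolynomial (Fin n × Mon (Fin n) e) ℂ) (Ω : Type) [Field Ω] [Algebra ℂ Ω]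
  (O : ValuationSubring Ω) [OverC O] (w : Fin n × Mon (Fin n) e → O) (y : ι → Ω) (u : ι → ℂ),
  IsUnit (rs w) → ev Δ (fun p => resO O (w p)) ≠ 0 →
  (∀ T T', ev Δ (fun p => (w p : Ω)) T * y T' = ev Δ (fun p => (w p : Ω)) T' * y T) →
  (∃ T, 1 ≤ O.valuation (y T)) → (∀ T, O.valuation (y T - algebraMap ℂ Ω (u T)) < 1) → u ∈ Gs Δ

-- deps: VAL1 PROP TRF
def S_VAL : Prop := ∀ (n e : ℕ) [Fact (2 ≤ e)] [Nonempty (Fin n)] (m k : ℕ)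
  (r : Rep Unit (Fin n) (Fin k → Mon (Fin n) m))
  (Δ : (Fin k → Mon (Fin n) m) → MvPolynomial (Fin n × Mon (Fin n) e) ℂ), IsTens m r →
  IsDelta m Δ → e ≤ m → m ≤ n * (e - 1) → ∀ w : Fin n × Mon (Fin n) e → ℂ, rs w ≠ 0 →
    ValCl r (ev Δ w) (Gs Δ)

/-! ### The local inverse -/

-- deps:
def S_KER : Prop := ∀ (ι α ρ κ : Type) [Fintype α] [DecidableEq α] [Fintype ρ] [Fintype κ]
  [DecidableEq κ] (M : Matrix ρ α (MvPolynomial ι ℂ)) (u₁ : ι → ℂ) (h₁ : κ → α → ℂ),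
  LinearIndependent ℂ h₁ → (∀ y, M.map (aeval u₁) *ᵥ y = 0 ↔ y ∈ span ℂ (range h₁)) →
  ∃ (δ : MvPolynomial ι ℂ) (ω : κ × α → MvPolynomial ι ℂ), aeval u₁ δ ≠ 0 ∧
    ∀ (u : ι → ℂ) (h : κ → α → ℂ), aeval u δ ≠ 0 → LinearIndependent ℂ h →
      (∀ i, M.map (aeval u) *ᵥ h i = 0) →
      span ℂ (range fun i a => aeval u (ω (i, a))) = span ℂ (range h)

-- deps: CRAM
def S_MAT : Prop := ∀ (n e : ℕ) [Fact (2 ≤ e)] [Nonempty (Fin n)] (m k : ℕ)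
  (Δ : (Fin k → Mon (Fin n) m) → MvPolynomial (Fin n × Mon (Fin n) e) ℂ)
  (T : Fin k → Mon (Fin n) m), IsDelta m Δ → Colon n e m → e ≤ m →
  ∃ M : Matrix (Mon (Fin n) (m - e) × Mon (Fin n) m) (Mon (Fin n) e)
    (MvPolynomial (Fin k → Mon (Fin n) m) ℂ), ∀ (w : Fin n × Mon (Fin n) e → ℂ) (c : ℂ),
    rs w ≠ 0 → (c • ev Δ w) T ≠ 0 → ∀ y : Mon (Fin n) e → ℂ,
      M.map (aeval (c • ev Δ w)) *ᵥ y = 0 ↔ frm y ∈ span ℂ (range (tup w))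

-- deps: KER MAT NULL ZPT
def S_LOC : Prop := ∀ (n e : ℕ) [Fact (2 ≤ e)] [Nonempty (Fin n)] (m k : ℕ)
  (Δ : (Fin k → Mon (Fin n) m) → MvPolynomial (Fin n × Mon (Fin n) e) ℂ),
  IsDelta m Δ → Colon n e m → e ≤ m → ∀ u₁ ∈ Gs Δ, LocInv Δ u₁

-- deps:
def S_OPEN : Prop := ∀ (n e : ℕ) [Fact (2 ≤ e)] [Nonempty (Fin n)] (m k : ℕ)
  (Δ : (Fin k → Mon (Fin n) m) → MvPolynomial (Fin n × Mon (Fin n) e) ℂ)
  (u₁ : (Fin k → Mon (Fin n) m) → ℂ), IsDelta m Δ → LocInv Δ u₁ →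
  ∃ Q : MvPolynomial (Fin k → Mon (Fin n) m) ℂ, aeval u₁ Q ≠ 0 ∧
    ∀ u ∈ Cl (Gs Δ), aeval u Q ≠ 0 → u ∈ Gs Δ

-- deps: SEP VAL OPEN EQV COMP
def S_GOODP : Prop := ∀ (n e : ℕ) [Fact (2 ≤ e)] [Nonempty (Fin n)] (m k : ℕ)
  (r : Rep Unit (Fin n) (Fin k → Mon (Fin n) m))
  (Δ : (Fin k → Mon (Fin n) m) → MvPolynomial (Fin n × Mon (Fin n) e) ℂ), IsTens m r →
  IsDelta m Δ → e ≤ m → m ≤ n * (e - 1) → (∀ u₁ ∈ Gs Δ, LocInv Δ u₁) →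
  ∀ w : Fin n × Mon (Fin n) e → ℂ, rs w ≠ 0 → ∃ N P, GoodP r Δ N P ∧ aeval (ev Δ w) P ≠ 0

/-! ### Functions -/

-- deps:
def S_GLOB : Prop := ∀ (ι : Type) [Finite ι] (I : Ideal (MvPolynomial ι ℂ)) (D : MvPolynomial ι ℂ)
  (F : (ι → ℂ) → ℂ), (∀ c₀ : ι → ℂ, (∀ Q ∈ I, aeval c₀ Q = 0) → aeval c₀ D ≠ 0 →
    ∃ A B : MvPolynomial ι ℂ, aeval c₀ B ≠ 0 ∧ ∀ c : ι → ℂ, (∀ Q ∈ I, aeval c Q = 0) →
      aeval c D ≠ 0 → aeval c B ≠ 0 → F c = aeval c A / aeval c B) →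
  ∃ (E : MvPolynomial ι ℂ) (j : ℕ), ∀ c : ι → ℂ, (∀ Q ∈ I, aeval c Q = 0) → aeval c D ≠ 0 →
    F c = aeval c E / aeval c D ^ j

-- deps: GLOB COMP
def S_SURJ1 : Prop := ∀ (n e : ℕ) [Fact (2 ≤ e)] [Nonempty (Fin n)] (m k : ℕ)
  (r : Rep Unit (Fin n) (Fin k → Mon (Fin n) m))
  (Δ : (Fin k → Mon (Fin n) m) → MvPolynomial (Fin n × Mon (Fin n) e) ℂ) (N : ℕ)
  (P : MvPolynomial (Fin k → Mon (Fin n) m) ℂ) (φ : Sub n → ℂ)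
  (E : MvPolynomial (Fin n × Mon (Fin n) e) ℂ) (j : ℕ), IsDelta m Δ → GoodP r Δ N P →
  (∀ u₁ ∈ Gs Δ, LocInv Δ u₁) →
  (∀ w : Fin n × Mon (Fin n) e → ℂ, rs w ≠ 0 → aeval (ev Δ w) P ≠ 0 →
    φ (span ℂ (range (tup w))) = aeval w E / (rs w * aeval (ev Δ w) P) ^ j) →
  ∃ (i : ℕ) (x : MvPolynomial (Fin k → Mon (Fin n) m) ℂ), x.IsHomogeneous (n * (N * i)) ∧
    ∀ (w : Fin n × Mon (Fin n) e → ℂ) (c : ℂ), rs w ≠ 0 → aeval (ev Δ w) P ≠ 0 → c ≠ 0 →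
      aeval (c • ev Δ w) x = φ (span ℂ (range (tup w))) * aeval (c • ev Δ w) P ^ (n * i)

-- deps: SURJ1 AVG EQV
def S_SURJ : Prop := ∀ (n e : ℕ) [Fact (2 ≤ e)] [Nonempty (Fin n)] (m k : ℕ)
  (r : Rep Unit (Fin n) (Fin k → Mon (Fin n) m))
  (Δ : (Fin k → Mon (Fin n) m) → MvPolynomial (Fin n × Mon (Fin n) e) ℂ) (N : ℕ)
  (P : MvPolynomial (Fin k → Mon (Fin n) m) ℂ) (φ : Sub n → ℂ)
  (E : MvPolynomial (Fin n × Mon (Fin n) e) ℂ) (j : ℕ), IsTens m r → IsDelta m Δ →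
  GoodP r Δ N P → (∀ u₁ ∈ Gs Δ, LocInv Δ u₁) →
  (∀ w : Fin n × Mon (Fin n) e → ℂ, rs w ≠ 0 → aeval (ev Δ w) P ≠ 0 →
    φ (span ℂ (range (tup w))) = aeval w E / (rs w * aeval (ev Δ w) P) ^ j) →
  (∀ (w : Fin n × Mon (Fin n) e → ℂ) (g : GL (Fin n) ℂ), g.val.det = 1 → rs w ≠ 0 →
    aeval (ev Δ w) P ≠ 0 →
    φ (span ℂ (range (tup (lin0 1 g.val w)))) = φ (span ℂ (range (tup w)))) →
  ∃ (i : ℕ) (Q : MvPolynomial (Fin k → Mon (Fin n) m) ℂ), Q.IsHomogeneous (N * i) ∧ SLinv r Q ∧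
    ∀ w : Fin n × Mon (Fin n) e → ℂ, rs w ≠ 0 → aeval (ev Δ w) P ≠ 0 →
      φ (span ℂ (range (tup w))) = aeval (ev Δ w) Q / aeval (ev Δ w) P ^ i

-- deps:
def S_MINOR : Prop := ∀ (n k : ℕ) (h : Fin k → MvPolynomial (Fin n) ℂ), LinearIndependent ℂ h →
  (∃ I, plucker h I ≠ 0) ∧ ∀ I, plucker h I ≠ 0 → ∃ h' : Fin k → MvPolynomial (Fin n) ℂ,
    span ℂ (range h') = span ℂ (range h) ∧
    ∀ i β, coeff β (h' i) = (plucker h I)⁻¹ * plucker h (Function.update I i β)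

-- deps: MINOR
def S_REG : Prop := ∀ (n k : ℕ) (Y : Set (Sub n)) (ψ : Y → ℂ),
  (IsRegular k Y ψ → LocRat k Y ψ) ∧
  ((∀ U ∈ Y, Module.finrank ℂ U = k) → LocRat k Y ψ → IsRegular k Y ψ)

-- deps: PLK
def S_CHART : Prop := ∀ (n k m N : ℕ) (r : Rep Unit (Fin n) (Fin k → Mon (Fin n) m))
  (P : MvPolynomial (Fin k → Mon (Fin n) m) ℂ), IsTens m r → 0 < N → P.IsHomogeneous N →
  SLinv r P → IsInvForm m (rename (fun T j => (T j).1) P) ∧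
  (∀ u : Fin k → MvPolynomial (Fin n) ℂ, span ℂ (range u) ∈ chart m (rename (fun T j => (T j).1) P) ↔
    (∀ i, (u i).IsHomogeneous m) ∧ aeval (pl m u) P ≠ 0) ∧
  ∀ (i : ℕ) (Q : MvPolynomial (Fin k → Mon (Fin n) m) ℂ), Q.IsHomogeneous (N * i) → SLinv r Q →
    ∃ φ : chart m (rename (fun T j => (T j).1) P) → ℂ, InvReg k _ φ ∧
      ∀ (u : Fin k → MvPolynomial (Fin n) ℂ) (hu : span ℂ (range u) ∈ _),
        φ ⟨_, hu⟩ = aeval (pl m u) Q / aeval (pl m u) P ^ i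

-- deps:
def S_ZPT : Prop := ∀ (n e : ℕ) [Fact (2 ≤ e)] [Nonempty (Fin n)],
  (∀ w : Fin n × Mon (Fin n) e → ℂ, span ℂ (range (tup w)) ∈ Z n e ↔ rs w ≠ 0) ∧
  (∀ h : Fin n → MvPolynomial (Fin n) ℂ, span ℂ (range h) ∈ Z n e → tup (crd e h) = h) ∧
  (∀ L ∈ Z n e, Module.finrank ℂ L = n ∧
    ∃ w : Fin n × Mon (Fin n) e → ℂ, L = span ℂ (range (tup w))) ∧
  (∀ c : Mon (Fin n) (e + 1) → ℂ,
    span ℂ {frm c} ∈ PX n (e + 1) ↔ aeval c (Disc (Fin n) e) ≠ 0) ∧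
  ∀ L ∈ PX n (e + 1), Module.finrank ℂ L = 1 ∧ jac L ∈ Z n e ∧
    ∃ c : Mon (Fin n) (e + 1) → ℂ, L = span ℂ {frm c}

-- deps: SEMI CHAR ZPT
def S_PZ : Prop := ∀ (n e : ℕ) [Fact (2 ≤ e)] [Nonempty (Fin n)] (m k : ℕ)
  (r : Rep Unit (Fin n) (Fin k → Mon (Fin n) m))
  (Δ : (Fin k → Mon (Fin n) m) → MvPolynomial (Fin n × Mon (Fin n) e) ℂ) (N : ℕ)
  (P : MvPolynomial (Fin k → Mon (Fin n) m) ℂ) (w₀ : Fin n × Mon (Fin n) e → ℂ), IsTens m r →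
  IsDelta m Δ → P.IsHomogeneous N → SLinv r P → aeval (ev Δ w₀) P ≠ 0 →
  ∃ p : Z n e → ℂ, InvReg n _ p ∧ ∀ (w : Fin n × Mon (Fin n) e → ℂ)
    (hw : span ℂ (range (tup w)) ∈ Z n e), p ⟨_, hw⟩ ≠ 0 ↔ aeval (ev Δ w) P ≠ 0

-- deps: REG ZPT IMACT
def S_PULL : Prop := ∀ (n e : ℕ) [Fact (2 ≤ e)] [Nonempty (Fin n)] (m k : ℕ)
  (Δ : (Fin k → Mon (Fin n) m) → MvPolynomial (Fin n × Mon (Fin n) e) ℂ) (Y Y' : Set (Sub n))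
  (hY : ∀ L ∈ Y, hilb m L ∈ Y') (φ : Y' → ℂ), IsDelta m Δ → Y ⊆ Z n e → InvReg k Y' φ →
  InvReg n Y fun L => φ ⟨hilb m L.1, hY L.1 L.2⟩

-- deps: REG ZPT GLOB
def S_ZE : Prop := ∀ (n e : ℕ) [Fact (2 ≤ e)] [Nonempty (Fin n)] (Y : Set (Sub n))
  (D : MvPolynomial (Fin n × Mon (Fin n) e) ℂ) (ψ : Y → ℂ),
  (∀ w : Fin n × Mon (Fin n) e → ℂ, rs w ≠ 0 → aeval w D ≠ 0 → span ℂ (range (tup w)) ∈ Y) →
  IsRegular n Y ψ → ∃ (E : MvPolynomial (Fin n × Mon (Fin n) e) ℂ) (j : ℕ),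
    ∀ (w : Fin n × Mon (Fin n) e → ℂ) (hw : span ℂ (range (tup w)) ∈ Y), rs w ≠ 0 →
      aeval w D ≠ 0 → ψ ⟨_, hw⟩ = aeval w E / (rs w * aeval w D) ^ j

-- deps: HF COLON TENS DELTA LOC GOODP CHART PZ PULL ZE SURJ ZPT EQV
def S_ZLEV : Prop := ∀ (n e : ℕ) [Fact (2 ≤ e)] [Nonempty (Fin n)] (m : ℕ), e ≤ m →
  m ≤ n * (e - 1) → ∃ k, LocImm n (Z n e) k m (hilb m)

-- deps:
def S_GRAD : Prop := ∀ (n d : ℕ) (X' Y : Set (Sub n)) (hX : ∀ L ∈ X', jac L ∈ Y) (ψ : Y → ℂ),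
  X' ⊆ PX n d → InvReg n Y ψ → InvReg 1 X' fun L => ψ ⟨jac L.1, hX L.1 L.2⟩

-- deps:
def S_DIV : Prop := ∀ (n k : ℕ) (Y Y' : Set (Sub n)) (hY : Y' ⊆ Y) (φ p : Y → ℂ) (j : ℕ),
  InvReg k Y φ → InvReg k Y p → (∀ L : Y', p ⟨L.1, hY L.2⟩ ≠ 0) →
  InvReg k Y' fun L => φ ⟨L.1, hY L.2⟩ / p ⟨L.1, hY L.2⟩ ^ j

-- deps: REG ZPT GLOB
def S_XE : Prop := ∀ (n e : ℕ) [Fact (2 ≤ e)] [Nonempty (Fin n)] (Y : Set (Sub n))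
  (D : MvPolynomial (Mon (Fin n) (e + 1)) ℂ) (ψ : Y → ℂ),
  (∀ c : Mon (Fin n) (e + 1) → ℂ, aeval c D ≠ 0 → span ℂ {frm c} ∈ Y) → IsRegular 1 Y ψ →
  ∃ (E : MvPolynomial (Mon (Fin n) (e + 1)) ℂ) (j : ℕ),
    ∀ (c : Mon (Fin n) (e + 1) → ℂ) (hc : span ℂ {frm c} ∈ Y), aeval c D ≠ 0 →
      ψ ⟨_, hc⟩ = aeval c E / aeval c D ^ j

-- deps: REG ZPT XE
def S_LOCX : Prop := ∀ (n e : ℕ) [Fact (2 ≤ e)] [Nonempty (Fin n)] (X' : Set (Sub n))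
  (hX : X' ⊆ PX n (e + 1)) (p : PX n (e + 1) → ℂ) (ψ : X' → ℂ), InvReg 1 _ p →
  (∀ L : PX n (e + 1), L.1 ∈ X' ↔ p L ≠ 0) → InvReg 1 X' ψ →
  ∃ (j : ℕ) (φ : PX n (e + 1) → ℂ), InvReg 1 _ φ ∧
    ∀ L : X', φ ⟨L.1, hX L.2⟩ = ψ L * p ⟨L.1, hX L.2⟩ ^ j

-- deps: GRAD DIV LOCX ZPT
def S_XLEV : Prop := ∀ (n e : ℕ) [Fact (2 ≤ e)] [Nonempty (Fin n)] (m k : ℕ),
  LocImm n (Z n e) k m (hilb m) → LocImm 1 (PX n (e + 1)) k m fun L => hilb m (jac L)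

end Pool.Agent.P.MP_f4e0a3_ag.HP
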