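import Pool.Agent.P.MP_f4e0a3_ag.HP.IfaceA

/-! Step ART. -/

set_option autoImplicit false
set_option linter.unusedSectionVars false

namespace Pool.Agent.P.MP_f4e0a3_ag.HP

open MvPolynomial Matrix Submodule Set

namespace ARTx

theorem hc_mul {ι R : Type} [CommRing R] (a p : MvPolynomial ι R)
    {d : ℕ} (hp : p.IsHomogeneous d) (m : ℕ) :
    homogeneousComponent m (a * p) =
      (if d ≤ m then homogeneousComponent (m - d) a else 0) * p := by
  conv_lhs => rw [← a.sum_homogeneousComponent, Finset.sum_mul, map_sum]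
  have h1 : ∀ k, homogeneousComponent m (homogeneousComponent k a * p) =
      if m = k + d then homogeneousComponent k a * p else 0 := fun k =>
    homogeneousComponent_of_mem ((homogeneousComponent_isHomogeneous k a).mul hp)
  simp only [h1]
  split_ifs with h
  · rw [Finset.sum_eq_single (m - d)]
    · rw [if_pos (by omega)]
    · intro b _ hb
      rw [if_neg (by omega)]
    · intro hb
      rw [homogeneousComponent_eq_zero _ _ (by simp at hb; omega)]
      simp
  · rw [zero_mul]
    exact Finset.sum_eq_zero fun b _ => if_neg (by omega)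

theorem mem_big {F : Type} [Field F] {n : ℕ} (I : Ideal (MvPolynomial (Fin n) F))
    (N : Fin n → ℕ) (hN : ∀ i, X i ^ N i ∈ I) (m : ℕ)
    (hm' : ∑ i, N i ≤ m)
    (p : MvPolynomial (Fin n) F) (hp : p.IsHomogeneous (m + 1)) : p ∈ I := by
  rw [p.as_sum]
  refine Ideal.sum_mem _ fun β hβ => ?_
  have hd : β.degree = m + 1 := by
    have := hp (mem_support_iff.1 hβ)
    rw [Finsupp.degree_eq_weight_one]
    exact this
  have hex : ∃ i, N i ≤ β i := by
    by_contra hne
    push Not at hne
    have h1 : ∑ i, β i ≤ ∑ i, N i := Finset.sum_le_sum fun i _ => (hne i).le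
    have h2 : β.degree = ∑ i, β i := Finsupp.degree_eq_sum β
    omega
  obtain ⟨i, hi⟩ := hex
  have hle : Finsupp.single i (N i) ≤ β := by
    rw [Finsupp.single_le_iff]; exact hi
  obtain ⟨γ, rfl⟩ := exists_add_of_le hle
  have : (monomial (Finsupp.single i (N i) + γ) (coeff (Finsupp.single i (N i) + γ) p) :
      MvPolynomial (Fin n) F) =
      X i ^ N i * monomial γ (coeff (Finsupp.single i (N i) + γ) p) := by
    rw [X_pow_eq_monomial, monomial_mul, one_mul]
  rw [this]
  exact Ideal.mul_mem_right _ _ (hN i)

end ARTx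

theorem p_ART :
    S_ART := by
  intro F _ n c d k hc hk hN
  choose N hN using hN
  set J : Ideal (MvPolynomial (Fin n) F) := Ideal.span (range (Function.update c k (X k - 1)))
    with hJ
  let π : MvPolynomial (Fin n) F →ₐ[F] (MvPolynomial (Fin n) F ⧸ J) := Ideal.Quotient.mkₐ F J
  let D : ℕ := ∑ i, N i
  let M : Submodule F (MvPolynomial (Fin n) F ⧸ J) :=
    (restrictTotalDegree (Fin n) F D).map π.toLinearMap
  have hMfg : M.FG := by
    refine Submodule.FG.map _ ?_
    exact (Module.Finite.iff_fg).1 inferInstance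
  have hz : ∀ i, i ≠ k → π (c i) = 0 := by
    intro i hi
    refine Ideal.Quotient.eq_zero_iff_mem.2 (Ideal.subset_span ⟨i, ?_⟩)
    rw [Function.update_of_ne hi]
  have h1 : π (X k) = 1 := by
    have : π (X k - 1) = 0 := by
      refine Ideal.Quotient.eq_zero_iff_mem.2 (Ideal.subset_span ⟨k, ?_⟩)
      rw [Function.update_self]
    rwa [map_sub, map_one, sub_eq_zero] at this
  have key : ∀ m, ∀ p : MvPolynomial (Fin n) F, p.IsHomogeneous m → π p ∈ M := by
    intro m
    induction m with
    | zero =>
      intro p hp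
      exact ⟨p, (mem_restrictTotalDegree _ _ _).2 (hp.totalDegree_le.trans (Nat.zero_le _)), rfl⟩
    | succ m ih =>
      intro p hp
      by_cases hm : m + 1 ≤ D
      · exact ⟨p, (mem_restrictTotalDegree _ _ _).2 (hp.totalDegree_le.trans hm), rfl⟩
      have hmem : p ∈ Ideal.span (range c) :=
        ARTx.mem_big _ N hN m (by simp only [D] at hm; omega) p hp
      obtain ⟨q, hq⟩ := Ideal.mem_span_range_iff_exists_fun.1 hmem
      have h2 : p = ∑ i, homogeneousComponent (m + 1) (q i * c i) := by
        rw [← map_sum, hq, homogeneousComponent_of_mem hp, if_pos rfl]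
      rw [h2, map_sum, Finset.sum_eq_single k]
      · rw [hk, ARTx.hc_mul _ _ (isHomogeneous_X F k), if_pos (by omega), map_mul, h1, mul_one]
        exact ih _ (homogeneousComponent_isHomogeneous _ _)
      · intro i _ hi
        rw [ARTx.hc_mul _ _ (hc i), map_mul, hz i hi, mul_zero]
      · intro h
        exact absurd (Finset.mem_univ k) h
  have htop : M = ⊤ := by
    refine eq_top_iff.2 fun y _ => ?_
    obtain ⟨p, rfl⟩ := Ideal.Quotient.mkₐ_surjective F J y
    rw [← p.sum_homogeneousComponent, map_sum]
    exact Submodule.sum_mem _ fun m _ => key m _ (homogeneousComponent_isHomogeneous _ _)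
  exact Module.finite_def.2 (htop ▸ hMfg)

end Pool.Agent.P.MP_f4e0a3_ag.HP
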