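import Pool.Agent.P.MP_f4e0a3_ag.HP.IfaceG

/-! Step AVG. -/

set_option autoImplicit false
set_option linter.unusedSectionVars false

namespace Pool.Agent.P.MP_f4e0a3_ag.HP

open MvPolynomial Matrix Submodule Set

theorem p_AVG (hTW : S_TW) (hCOMP : S_COMP) :
    S_AVG := by
  intro n _ ι _ _ r κ M x hκ hx
  obtain ⟨r', hr⟩ := hTW n ι r
  let F : MvPolynomial (Option ι) ℂ := rename some x * X none ^ (M * κ)
  let G : MvPolynomial ι ℂ := aeval (fun o : Option ι => o.elim 1 X) (r'.reyn F)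
  have hG : ∀ u : ι → ℂ, aeval u G = aeval (fun o : Option ι => o.elim 1 u) (r'.reyn F) :=
    fun u => by
      rw [comp_aeval_apply]
      congr 2
      funext o
      cases o <;> simp
  have hinv : SLinv r G := fun g hg u => by
    have h1 := r'.aeval_act (fun _ => g) (fun o : Option ι => o.elim 1 u) (r'.reyn F)
    rw [r'.gact_reyn, hr, Matrix.coe_units_inv, det_nonsing_inv, hg, Ring.inverse_one,
      mul_one] at h1
    rw [hG, hG, h1]
  refine ⟨homogeneousComponent (n * M) G, homogeneousComponent_isHomogeneous _ _,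
    fun g hg u => (hCOMP ι G).1 _ _ (fun c _ => by rw [← r.pt_smul, hinv g hg]) _,
    fun u hu => ((hCOMP ι G).2.1 u _ _ fun c _ => ?_).1⟩
  rw [hG]
  refine r'.map_reyn (aeval (fun o : Option ι => o.elim 1 (c • u)) : _ →ₐ[ℂ] ℂ).toLinearMap F _
    fun γ => ?_
  obtain ⟨t, g₀, ht, hg⟩ := exists_scalar (γ ())
  have h1 : r.pt (c • u) γ = fun i => (c * t ^ κ) * r.pt u (fun _ => SpecialLinearGroup.toGL g₀) i := by
    rw [r.pt_smul, show r.pt u γ = _ from hκ ℂ (γ ()) (SpecialLinearGroup.toGL g₀) t u hg, smul_smul]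
    rfl
  have h2 : (γ ())⁻¹.val.det = (t ^ n)⁻¹ := by
    rw [Matrix.coe_units_inv, det_nonsing_inv, hg, det_smul, g₀.det_coe, mul_one, Fintype.card_fin,
      Ring.inverse_eq_inv']
  rw [AlgHom.toLinearMap_apply, Rep.aeval_act, hr, map_mul, map_pow, aeval_X, aeval_rename, h1, h2]
  change aeval (fun i => (c * t ^ κ) * r.pt u (fun _ => SpecialLinearGroup.toGL g₀) i) x *
    ((t ^ n)⁻¹ * 1) ^ _ = _
  rw [aeval_mul_left hx, hu _ g₀.det_coe, mul_one, inv_pow, mul_pow, ← pow_mul, ← pow_mul,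
    show κ * (n * M) = n * (M * κ) by ring]
  field_simp

end Pool.Agent.P.MP_f4e0a3_ag.HP
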