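import Pool.Agent.P.MP_f4e0a3_ag.HP.IfaceG
import Pool.Agent.P.MP_f4e0a3_ag.HP.IfaceA

/-! Step BAS. -/

set_option autoImplicit false
set_option linter.unusedSectionVars false

namespace Pool.Agent.P.MP_f4e0a3_ag.HP

open MvPolynomial Matrix Submodule Set

theorem p_BAS (hIMSP : S_IMSP) (hPLK : S_PLK) :
    S_BAS := by
  intro n e _ _ m k hem hHF w hw
  have hk := hHF w hw
  refine ⟨?_, fun b hb => ?_⟩
  · obtain ⟨κ, a, ha, hsp, hli⟩ := exists_linearIndependent' ℂ
      (fun q : Mon (Fin n) (m - e) × Fin n => monomial q.1.1 (1 : ℂ) * tup w q.2)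
    rw [← (hIMSP ℂ n e m (tup w) (tup_isHomogeneous w) hem).1] at hsp
    have : Finite κ := Finite.of_injective a ha
    have := Fintype.ofFinite κ
    have hc : Fintype.card κ = k := by rw [← finrank_span_eq_card hli, hsp, hk]
    let σ := (Fintype.equivFinOfCardEq hc).symm
    refine ⟨a ∘ σ, ?_⟩
    rw [← hsp, ← σ.surjective.range_comp]
    rfl
  · refine ((hPLK ℂ n k m).1 b fun i => ?_).1 ?_
    · exact (mem_Im.1 (hb ▸ subset_span (mem_range_self i))).2
    · rw [linearIndependent_iff_card_eq_finrank_span, Set.finrank, hb, hk, Fintype.card_fin]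

end Pool.Agent.P.MP_f4e0a3_ag.HP
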