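import Pool.Agent.P.MP_f4e0a3_ag.HP.IfaceG
import Pool.Agent.P.MP_f4e0a3_ag.HP.IfaceA

/-! Step BC. -/

set_option autoImplicit false
set_option linter.unusedSectionVars false

namespace Pool.Agent.P.MP_f4e0a3_ag.HP

open MvPolynomial Matrix Submodule Set

theorem p_BC (hIMSP : S_IMSP) (hPLK : S_PLK) :
    S_BC := by
  intro n e m k F _ _ w b hm hb _
  have key : ∀ s : Set (MvPolynomial (Fin n) ℂ),
      span F (MvPolynomial.map (algebraMap ℂ F) '' (span ℂ s : Set _)) =
        span F (MvPolynomial.map (algebraMap ℂ F) '' s) := fun s => by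
    have := map_span (mapAlgHom (σ := Fin n) (Algebra.ofId ℂ F)).toLinearMap s
    refine Eq.trans (congrArg (span F) ?_) (span_span_of_tower ℂ F _)
    exact congrArg SetLike.coe this
  refine ⟨?_, funext fun T => ?_, fun i => IsHomogeneous.map ?_ _⟩
  · rw [range_comp' (MvPolynomial.map (algebraMap ℂ F)) b, ← key, hb,
      (hIMSP ℂ n e m _ (tup_isHomogeneous w) hm).1, key,
      (hIMSP F n e m _ (tup_isHomogeneous _) hm).1, ← range_comp']
    simp only [map_mul, map_monomial, map_one, map_tup]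
  · rw [pl, pl, RingHom.map_det]
    congr 1
  · exact (mem_Im.1 (hb.le (subset_span ⟨i, rfl⟩))).2

end Pool.Agent.P.MP_f4e0a3_ag.HP
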