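import Pool.Agent.P.MP_f4e0a3_ag.HP.IfaceA

/-! Step BOXC. -/

set_option autoImplicit false
set_option linter.unusedSectionVars false

namespace Pool.Agent.P.MP_f4e0a3_ag.HP

open MvPolynomial Matrix Submodule Set

namespace BOXCx

theorem ap (n e s : ℕ) (i : Fin n) : corner n e s i = if i.val < s then 0 else e - 1 := rfl

theorem deg (n e s : ℕ) : (corner n e s).degree = (n - s) * (e - 1) := by
  rw [Finsupp.degree_eq_sum]
  simp only [ap]
  rw [Fin.sum_univ_eq_sum_range (fun i => if i < s then 0 else e - 1) n]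
  induction n with
  | zero => simp
  | succ n ih =>
    rw [Finset.sum_range_succ, ih]
    split_ifs with h
    · rw [Nat.sub_eq_zero_of_le h.le, Nat.sub_eq_zero_of_le h, add_zero]
    · rw [Nat.succ_sub (not_lt.1 h), Nat.succ_mul]

theorem le {n e s : ℕ} {b : Fin n →₀ ℕ} (h : Box e s b) (i : Fin n) : b i ≤ corner n e s i := by
  rw [ap]
  split_ifs with hi
  · exact (h.1 i hi).le
  · exact Nat.le_sub_one_of_lt (h.2 i)

end BOXCx

theorem p_BOXC :
    S_BOXC := by
  intro n e s he
  refine ⟨⟨fun i hi => by rw [BOXCx.ap, if_pos hi], fun i => ?_⟩, BOXCx.deg n e s,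
    fun b hb => ?_, fun b hb hd => ?_, ?_⟩
  · rw [BOXCx.ap]
    split_ifs <;> omega
  · rw [← BOXCx.deg, Finsupp.degree_eq_sum, Finsupp.degree_eq_sum]
    exact Finset.sum_le_sum fun i _ => BOXCx.le hb i
  · rw [← BOXCx.deg, Finsupp.degree_eq_sum, Finsupp.degree_eq_sum,
      Finset.sum_eq_sum_iff_of_le fun i _ => BOXCx.le hb i] at hd
    exact Finsupp.ext fun i => hd i (Finset.mem_univ i)
  intro Ω _ O t hs i b ht hb hd
  have pos : ∀ x : Ω, x ≠ 0 → 0 < O.valuation x := fun x hx =>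
    zero_lt_iff.2 ((map_ne_zero _).2 hx)
  set c := corner n e (s + 1) + Finsupp.single ⟨s, hs⟩ i with hc
  have dc : c.degree = b.degree := by
    rw [hc, map_add, BOXCx.deg, Finsupp.degree_single, hd]
  have key : ∀ j, O.valuation (t j) ^ c j * O.valuation (t ⟨s, hs⟩) ^ b j ≤
      O.valuation (t j) ^ b j * O.valuation (t ⟨s, hs⟩) ^ c j := by
    intro j
    rcases lt_trichotomy j ⟨s, hs⟩ with h | rfl | h
    · have h' : j.val < s := h
      rw [hb.1 j h', hc, Finsupp.add_apply, BOXCx.ap, if_pos (by omega),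
        Finsupp.single_eq_of_ne h.ne, add_zero]
    · rw [mul_comm]
    · have h' : s < j.val := h
      obtain ⟨r, hr⟩ : ∃ r, c j = b j + r := Nat.exists_eq_add_of_le (by
        rw [hc, Finsupp.add_apply, BOXCx.ap, if_neg (by omega)]
        have := hb.2 j
        omega)
      rw [hr, pow_add, pow_add, mul_assoc, mul_comm (_ ^ r)]
      exact mul_le_mul_right (mul_le_mul_right (pow_le_pow_left' (ht.anti _ _ h.le) r) _) _
  have h2 := Finset.prod_le_prod' fun j (_ : j ∈ Finset.univ) => key j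
  rw [Finset.prod_mul_distrib, Finset.prod_mul_distrib, Finset.prod_pow_eq_pow_sum,
    Finset.prod_pow_eq_pow_sum, ← Finsupp.degree_eq_sum, ← Finsupp.degree_eq_sum, dc,
    mul_le_mul_iff_left₀ (pow_pos (pos _ (ht.ne _)) _)] at h2
  rw [← mul_inv, ← tw_single, ← tw_add, ← hc, map_inv₀, map_inv₀]
  refine inv_anti₀ (pos _ (tw_ne_zero ht.ne c)) ?_
  simpa only [tw, map_prod, map_pow] using h2

end Pool.Agent.P.MP_f4e0a3_ag.HP
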