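import Pool.Agent.P.MP_f4e0a3_ag.HP.IfaceA

/-! Step BOXP. -/

set_option autoImplicit false
set_option linter.unusedSectionVars false

namespace Pool.Agent.P.MP_f4e0a3_ag.HP

open MvPolynomial Matrix Submodule Set

namespace BOXPx

theorem key {M ι : Type} [CommMonoid M] [Fintype ι] {n : ℕ} {t : Fin n → M} (ht : ∏ i, t i = 1)
    (f : ι → Fin n →₀ ℕ) (hf : Function.Injective f)
    (h : ∀ (σ : Equiv.Perm (Fin n)) x, ∃ y, f y = (f x).equivMapDomain σ) :
    ∏ x, tw t (f x) = 1 := by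
  have e : ∀ i i', ∑ x, f x i = ∑ x, f x i' := fun i i' => by
    choose g hg using h (Equiv.swap i i')
    have gi : Function.Injective g := fun x y c => hf ((Finsupp.equivCongrLeft
      (Equiv.swap i i')).injective (((hg x).symm.trans (congrArg f c)).trans (hg y)))
    rw [← (Finite.injective_iff_bijective.1 gi).sum_comp fun x => f x i']
    exact Finset.sum_congr rfl fun x _ => by simp [hg]
  simp only [tw]
  rw [Finset.prod_comm]
  simp only [Finset.prod_pow_eq_pow_sum]
  rcases isEmpty_or_nonempty (Fin n) with c | ⟨⟨i⟩⟩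
  · simp
  · rw [Finset.prod_congr rfl fun j _ => congrArg (t j ^ ·) (e j i), Finset.prod_pow, ht, one_pow]

theorem deg {n : ℕ} (σ : Equiv.Perm (Fin n)) (β : Fin n →₀ ℕ) :
    (β.equivMapDomain σ).degree = β.degree := by
  simp only [Finsupp.degree_eq_sum, Finsupp.equivMapDomain_apply]
  exact σ.symm.sum_comp β

end BOXPx

theorem p_BOXP :
    S_BOXP := fun _ _ _ _ _ _ ht =>
  ⟨BOXPx.key ht _ Subtype.val_injective fun σ x => ⟨⟨_, (BOXPx.deg σ _).trans x.2⟩, rfl⟩,
    BOXPx.key ht _ (Subtype.val_injective.comp Subtype.val_injective) fun σ x =>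
      ⟨⟨⟨_, (BOXPx.deg σ _).trans x.1.2⟩, fun _ => x.2 _⟩, rfl⟩⟩

end Pool.Agent.P.MP_f4e0a3_ag.HP
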