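import Pool.Agent.P.MP_f4e0a3_ag.HP.IfaceG

/-! Step CHAR1. -/

set_option autoImplicit false
set_option linter.unusedSectionVars false

namespace Pool.Agent.P.MP_f4e0a3_ag.HP

open MvPolynomial Matrix Submodule Set

namespace CHAR1x

theorem lin0_smul {n e : ℕ} (s t : ℂ) (a g : Matrix (Fin n) (Fin n) ℂ)
    (w : Fin n × Mon (Fin n) e → ℂ) :
    lin0 (s • a) (t • g) w = fun p => (s * t ^ e) * lin0 a g w p := by
  funext p
  rw [smul_eq_mul_diagonal, smul_eq_mul_diagonal, ← lin0_lin0, lin0_diagonal,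
    Finset.prod_pow_eq_pow_sum, ← Finsupp.degree_eq_sum, p.2.2]

theorem homog {ι : Type} [Fintype ι] [DecidableEq ι] (D : MvPolynomial ι ℂ) (c : ℂ)
    (h : ∀ w : ι → ℂ, aeval (fun p => 2 * w p) D = c * aeval w D) : ∃ δ, D.IsHomogeneous δ := by
  have h1 : sub (diagonal fun _ => (2 : ℂ)) D = C c * D := by
    apply MvPolynomial.funext
    intro x
    rw [eval_sub, map_mul, eval_C]
    have := h x
    rw [show ((diagonal fun _ => (2 : ℂ)) *ᵥ x) = fun p => 2 * x p from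
      funext fun p => mulVec_diagonal _ _ _]
    exact this
  have h2 : ∀ β, coeff β D ≠ 0 → (2 : ℂ) ^ β.degree = c := by
    intro β hβ
    have := congrArg (coeff β) h1
    rw [coeff_sub_diagonal, coeff_C_mul, Finset.prod_pow_eq_pow_sum, ← Finsupp.degree_eq_sum] at this
    exact mul_right_cancel₀ hβ this
  by_cases h0 : D = 0
  · exact ⟨0, h0 ▸ isHomogeneous_zero _ _ _⟩
  obtain ⟨β, hβ⟩ := ne_zero_iff.1 h0
  refine ⟨β.degree, fun γ hγ => ?_⟩
  have h3 := (h2 γ hγ).trans (h2 β hβ).symm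
  have h4 : (2 : ℕ) ^ γ.degree = 2 ^ β.degree := by exact_mod_cast h3
  rw [← Nat.pow_right_injective le_rfl h4, Finsupp.degree_eq_weight_one]
  rfl

end CHAR1x

theorem p_CHAR1 (hPERF : S_PERF) :
    S_CHAR1 := by
  intro n e _ _ D hD h
  obtain ⟨δ, hδ⟩ : ∃ δ, D.IsHomogeneous δ := by
    obtain ⟨c, hc⟩ := h (diagU fun _ => Units.mk0 2 two_ne_zero) 1 (by simp)
    refine CHAR1x.homog D c fun w => ?_
    rw [← hc]
    congr 2
    funext p
    rw [diagU_val, Units.val_one, ← diagonal_one, lin0_diagonal]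
    simp
  have h' : ∀ a g : GL (Fin n) ℂ, ∃ c : ℂ, ∀ w : Fin n × Mon (Fin n) e → ℂ,
      aeval (lin0 a.val g.val w) D = c * aeval w D := by
    intro a g
    obtain ⟨t, g₀, -, hg⟩ := exists_scalar g
    obtain ⟨c, hc⟩ := h a (Matrix.SpecialLinearGroup.toGL g₀) g₀.2
    refine ⟨(1 * t ^ e) ^ δ * c, fun w => ?_⟩
    rw [hg, ← one_smul ℂ a.val, CHAR1x.lin0_smul, aeval_mul_left hδ, mul_assoc, ← hc]
    rfl
  choose c hc using h'
  obtain ⟨w₀, hw₀⟩ : ∃ w₀ : Fin n × Mon (Fin n) e → ℂ, aeval w₀ D ≠ 0 := by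
    by_contra h0
    push Not at h0
    exact hD (MvPolynomial.funext fun x => by simpa using h0 x)
  have c1 : c 1 1 = 1 := by
    have := hc 1 1 w₀
    rw [Units.val_one, lin0_one] at this
    exact mul_right_cancel₀ hw₀ (by rw [← this, one_mul])
  have c2 : ∀ a g a' g', c (a * a') (g * g') = c a g * c a' g' := by
    intro a g a' g'
    apply mul_right_cancel₀ hw₀
    rw [← hc, Units.val_mul, Units.val_mul, ← lin0_lin0, hc, hc]
    ring
  let ξ₁ : GL (Fin n) ℂ →* ℂ := ⟨⟨fun a => c a 1, c1⟩, fun a a' => by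
    simpa using c2 a 1 a' 1⟩
  let ξ₂ : GL (Fin n) ℂ →* ℂ := ⟨⟨fun g => c 1 g, c1⟩, fun g g' => by
    simpa using c2 1 g 1 g'⟩
  refine ⟨δ, hδ, fun a g ha hg w => ?_⟩
  have e1 : c a 1 = 1 := congrArg Units.val (hPERF ℂ n ℂˣ ξ₁.toHomUnits a ha)
  have e2 : c 1 g = 1 := congrArg Units.val (hPERF ℂ n ℂˣ ξ₂.toHomUnits g hg)
  have := c2 a 1 1 g
  rw [mul_one, one_mul, e1, e2, one_mul] at this
  rw [hc, this, one_mul]

end Pool.Agent.P.MP_f4e0a3_ag.HP
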