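import Pool.Agent.P.MP_f4e0a3_ag.HP.IfaceG
import Pool.Agent.P.MP_f4e0a3_ag.HP.IfaceA

/-! Step CHART. -/

set_option autoImplicit false
set_option linter.unusedSectionVars false

namespace Pool.Agent.P.MP_f4e0a3_ag.HP

open MvPolynomial Matrix Submodule Set

namespace CHARTx

theorem scal {ι : Type} {P : MvPolynomial ι ℂ} {N : ℕ} (hP : P.IsHomogeneous N) (c : ℂ)
    (v : ι → ℂ) : aeval (c • v) P = c ^ N * aeval v P := by
  conv_lhs => rw [P.as_sum]
  conv_rhs => rw [P.as_sum]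
  rw [map_sum, map_sum, Finset.mul_sum]
  refine Finset.sum_congr rfl fun β hβ => ?_
  have h : ∑ i ∈ β.support, β i = N := by
    have := hP (mem_support_iff.1 hβ)
    rw [← this, Finsupp.weight_apply]
    simp [Finsupp.sum]
  simp only [aeval_monomial, Finsupp.prod, Pi.smul_apply, smul_eq_mul, mul_pow,
    Finset.prod_mul_distrib, Finset.prod_pow_eq_pow_sum, h]
  ring

end CHARTx

theorem p_CHART (hPLK : S_PLK) :
    S_CHART := by
  intro n k m N r P hr hN hP hS
  have hinv : ∀ Q, SLinv r Q → ∀ (g : Matrix.SpecialLinearGroup (Fin n) ℂ)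
      (u : Fin k → MvPolynomial (Fin n) ℂ), (∀ i, (u i).IsHomogeneous m) →
      aeval (pl m fun i => sub g.val (u i)) Q = aeval (pl m u) Q := fun Q hQ g u hu => by
    have := hr.pl ℂ (Matrix.SpecialLinearGroup.toGL g) u hu
    rw [← hQ (Matrix.SpecialLinearGroup.toGL g) g.2 (pl m u), ← this]
    rfl
  have h4 : ∀ u u' : Fin k → MvPolynomial (Fin n) ℂ, span ℂ (range u') = span ℂ (range u) →
      aeval (pl m u) P ≠ 0 → ∃ c : ℂ, c ≠ 0 ∧ pl m u' = c • pl m u := fun u u' h h0 =>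
    (hPLK ℂ n k m).2.2.2 u u' h fun c => h0 (by
      have := CHARTx.scal hP 0 (pl m u)
      rw [zero_smul, zero_pow hN.ne', zero_mul] at this
      rw [c]
      exact this)
  have h2 : ∀ u : Fin k → MvPolynomial (Fin n) ℂ,
      span ℂ (range u) ∈ chart m (rename (fun T j => (T j).1) P) ↔
        (∀ i, (u i).IsHomogeneous m) ∧ aeval (pl m u) P ≠ 0 := by
    refine fun u => ⟨?_, fun h => ⟨u, h.1, by rw [eval_rename_pl]; exact h.2, rfl⟩⟩
    rintro ⟨u', a1, a2, a3⟩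
    rw [eval_rename_pl] at a2
    obtain ⟨c, hc, e⟩ := h4 u' u a3 a2
    refine ⟨fun i => ?_, by rw [e, CHARTx.scal hP]; exact mul_ne_zero (pow_ne_zero _ hc) a2⟩
    have : span ℂ (range u') ≤ homogeneousSubmodule (Fin n) ℂ m :=
      span_le.2 (by rintro _ ⟨j, rfl⟩; exact a1 j)
    exact this (a3 ▸ subset_span ⟨i, rfl⟩)
  refine ⟨⟨⟨N, hN, hP.rename_isHomogeneous⟩, fun g u hu => ?_⟩, h2, fun i Q hQ hQS => ?_⟩
  · rw [eval_rename_pl, eval_rename_pl]
    exact hinv P hS g u hu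
  have hφ : ∀ (u : Fin k → MvPolynomial (Fin n) ℂ)
      (hu : span ℂ (range u) ∈ chart m (rename (fun T j => (T j).1) P)),
      aeval (pl m hu.choose) Q / aeval (pl m hu.choose) P ^ i =
        aeval (pl m u) Q / aeval (pl m u) P ^ i := fun u hu => by
    obtain ⟨c, hc, e⟩ := h4 u _ hu.choose_spec.2.2.symm ((h2 u).1 hu).2
    rw [e, CHARTx.scal hP, CHARTx.scal hQ, mul_pow, ← pow_mul,
      mul_div_mul_left _ _ (pow_ne_zero _ hc)]
  refine ⟨fun U => aeval (pl m U.2.choose) Q / aeval (pl m U.2.choose) P ^ i, ⟨fun u₀ hu₀ =>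
    ⟨N * i, rename (fun T j => (T j).1) Q, rename (fun T j => (T j).1) (P ^ i),
      hQ.rename_isHomogeneous, (hP.pow i).rename_isHomogeneous, ?_, fun u hu _ => ?_⟩, ?_⟩, hφ⟩
  · rw [eval_rename_pl, map_pow]
    exact pow_ne_zero _ ((h2 u₀).1 hu₀).2
  · rw [eval_rename_pl, eval_rename_pl, map_pow]
    exact hφ u hu
  · rintro g ⟨_, u, a1, a2, rfl⟩ ⟨L', hL'⟩ e
    have e' : L' = span ℂ (range fun i => sub g.val (u i)) := by
      refine e.trans ?_
      rw [Submodule.map_span, ← range_comp]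
      rfl
    subst e'
    exact (hφ _ hL').trans (by
      rw [hinv Q hQS g u a1, hinv P hS g u a1]
      exact (hφ u ⟨u, a1, a2, rfl⟩).symm)

end Pool.Agent.P.MP_f4e0a3_ag.HP
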