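import Pool.Agent.P.MP_f4e0a3_ag.HP.IfaceG

/-! Step CHIU. -/

set_option autoImplicit false
set_option linter.unusedSectionVars false

namespace Pool.Agent.P.MP_f4e0a3_ag.HP

open MvPolynomial Matrix Submodule Set

theorem p_CHIU (hPERF : S_PERF) :
    S_CHIU := by
  intro n e _ hn Ω _ _ _ O _ a g ha hg
  have : CharZero Ω := charZero_of_injective_algebraMap (algebraMap ℂ Ω).injective
  have n0 : 0 < n := Fin.pos_iff_nonempty.2 hn
  have key : ∀ ξ : GL (Fin n) Ω →* O.ValueGroup,
      (∀ u : GL (Fin n) O, ξ (GeneralLinearGroup.map (incO O : O →+* Ω) u) = 1) →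
      ∀ a : GL (Fin n) Ω, O.valuation a.val.det = 1 → ξ a = 1 := by
    intro ξ hξ a ha
    obtain ⟨s, hs⟩ := IsAlgClosed.exists_pow_nat_eq a.val.det n0
    have s1 : O.valuation s = 1 := by
      rwa [← hs, map_pow, pow_eq_one_iff_of_nonneg zero_le n0.ne'] at ha
    obtain ⟨u, hu⟩ := (O.valuation_eq_one_iff ⟨s, O.mem_of_valuation_le_one s s1.le⟩).2 s1
    obtain ⟨d, hd⟩ : ∃ d, d = GeneralLinearGroup.map (incO O : O →+* Ω) (diagU fun _ : Fin n => u) :=
      ⟨_, rfl⟩
    have h1 : GeneralLinearGroup.det d = GeneralLinearGroup.det a := by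
      ext
      rw [hd, map_diagU, GeneralLinearGroup.val_det_apply, GeneralLinearGroup.val_det_apply,
        diagU_val, det_diagonal, ← hs]
      simp [hu]
    have h2 := hPERF Ω n _ ξ.toHomUnits (d⁻¹ * a) (by
      rw [← GeneralLinearGroup.val_det_apply, map_mul, map_inv, h1, inv_mul_cancel, Units.val_one])
    have h3 : ξ (d⁻¹ * a) = 1 := congrArg Units.val h2
    rw [← mul_inv_cancel_left d a, map_mul, h3, hd, hξ, one_mul]
  let ψ : Gr Bool (Fin n) Ω →* O.ValueGroup :=
    ⟨⟨fun γ => O.valuation (chi e γ), by simp⟩, fun γ δ => by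
      simp only [chi_mul, map_mul, mul_comm]⟩
  have hψ : ∀ γ : Gr Bool (Fin n) O, ψ (mapG (incO O : O →+* Ω) γ) = 1 := fun γ => by
    change O.valuation (chi e _) = 1
    rw [← map_chi]
    exact (O.valuation_eq_one_iff _).1 (IsUnit.of_mul_eq_one_right _ (chi_inv_mul γ))
  have e1 := key (ψ.comp (MonoidHom.mulSingle (fun _ => GL (Fin n) Ω) false)) (fun u => by
    rw [← hψ (Pi.mulSingle false u)]
    refine congrArg ψ (funext fun b => ?_)
    cases b <;> simp [mapG]) a ha
  have e2 := key (ψ.comp (MonoidHom.mulSingle (fun _ => GL (Fin n) Ω) true)) (fun u => by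
    rw [← hψ (Pi.mulSingle true u)]
    refine congrArg ψ (funext fun b => ?_)
    cases b <;> simp [mapG]) g hg
  have : pairG a g = Pi.mulSingle false a * Pi.mulSingle true g := by
    funext b
    cases b <;> simp
  change ψ _ = 1
  rw [this, map_mul]
  exact (congrArg₂ (· * ·) e1 e2).trans (one_mul 1)

end Pool.Agent.P.MP_f4e0a3_ag.HP
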