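import Pool.Agent.P.MP_f4e0a3_ag.HP.IfaceA

/-! Step CLIF. -/

set_option autoImplicit false
set_option linter.unusedSectionVars false

namespace Pool.Agent.P.MP_f4e0a3_ag.HP

open MvPolynomial Matrix Submodule Set

namespace CLIFx

theorem split {n : ℕ} (e : ℕ) (b : Fin n →₀ ℕ) (h : b.degree = e) :
    ∃ f : Fin e → Fin n, b = ∑ i, Finsupp.single (f i) 1 := by
  induction e generalizing b with
  | zero => exact ⟨Fin.elim0, by simpa using (Finsupp.degree_eq_zero_iff b).1 h⟩
  | succ e ih =>
    have h0 : b ≠ 0 := fun c => by simp [c] at h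
    obtain ⟨j, hj⟩ := Finsupp.support_nonempty_iff.2 h0
    have h1 : Finsupp.single j 1 ≤ b :=
      Finsupp.single_le_iff.2 (Nat.pos_of_ne_zero (Finsupp.mem_support_iff.1 hj))
    obtain ⟨c, rfl⟩ := exists_add_of_le h1
    rw [map_add, Finsupp.degree_single] at h
    obtain ⟨f, hf⟩ := ih c (by omega)
    exact ⟨Fin.cons j f, by rw [Fin.sum_univ_succ, Fin.cons_zero, hf]; simp⟩

theorem mono {R : Type} [CommRing R] {n e : ℕ} (he : 0 < e) (b : Fin n →₀ ℕ) (h : b.degree = e)
    (c : R) : ∃ l : Fin e → MvPolynomial (Fin n) R, (∀ i, (l i).IsHomogeneous 1) ∧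
      ∏ i, l i = monomial b c := by
  obtain ⟨f, rfl⟩ := split e b h
  refine ⟨fun i => C (if i = ⟨0, he⟩ then c else 1) * X (f i), fun i => ?_, ?_⟩
  · exact (isHomogeneous_X R (f i)).C_mul _
  · rw [Finset.prod_mul_distrib, ← map_prod, Finset.prod_ite_eq', if_pos (Finset.mem_univ _),
      monomial_sum_index]
    rfl

end CLIFx

theorem p_CLIF (hCLIF1 : S_CLIF1) :
    S_CLIF := by
  intro R _ _ n e g he hg
  have key : ∀ s : Finset (Fin n →₀ ℕ), (∀ b ∈ s, b.degree = e) →
      ∃ (μ : Type) (_ : Fintype μ) (_ : DecidableEq μ) (_ : Nonempty μ)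
        (L : Matrix μ μ (MvPolynomial (Fin n) R)), (∀ a b, (L a b).IsHomogeneous 1) ∧
        L ^ e = Matrix.scalar μ (∑ b ∈ s, monomial b (coeff b g)) := fun s hs => by
    classical
    induction s using Finset.induction_on with
    | empty =>
      exact ⟨Unit, inferInstance, inferInstance, inferInstance, 0,
        fun _ _ => isHomogeneous_zero _ _ _, by rw [zero_pow he.ne', Finset.sum_empty, map_zero]⟩
    | insert b s hb ih =>
      obtain ⟨μ, i1, i2, i3, L, h1, h2⟩ := ih fun c hc => hs c (Finset.mem_insert_of_mem hc)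
      obtain ⟨l, l1, l2⟩ := CLIFx.mono he b (hs b (Finset.mem_insert_self _ _)) (coeff b g)
      have := hCLIF1 (MvPolynomial (Fin n) R)
        ((homogeneousSubmodule (Fin n) R 1).restrictScalars ℂ) e μ L _ l he h1 l1 h2
      rwa [l2, add_comm, ← Finset.sum_insert (f := fun b => monomial b (coeff b g)) hb] at this
  have := key g.support fun b hb => by
    by_contra c
    exact mem_support_iff.1 hb (hg.coeff_eq_zero c)
  rwa [support_sum_monomial_coeff] at this

end Pool.Agent.P.MP_f4e0a3_ag.HP
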