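import Pool.Agent.P.MP_f4e0a3_ag.HP.IfaceA

/-! Step CLIF1. -/

set_option autoImplicit false
set_option linter.unusedSectionVars false

namespace Pool.Agent.P.MP_f4e0a3_ag.HP

open MvPolynomial Matrix Submodule Set

namespace CLIF1x

open scoped Kronecker

variable {R : Type} [CommRing R]

theorem kpow {μ ν : Type} [Fintype μ] [DecidableEq μ] [Fintype ν] [DecidableEq ν]
    (A : Matrix μ μ R) (B : Matrix ν ν R) (r : ℕ) : (A ⊗ₖ B) ^ r = (A ^ r) ⊗ₖ (B ^ r) := by
  induction r with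
  | zero => simp
  | succ r ih => rw [pow_succ, ih, ← mul_kronecker_mul, pow_succ, pow_succ]

theorem wpow {e : ℕ} (l : ZMod (e + 1) → R) (r : ℕ) (i j : ZMod (e + 1)) :
    ((Matrix.of fun i j => if j = i + 1 then l i else 0) ^ r) i j =
      if j = i + r then ∏ s ∈ Finset.range r, l (i + s) else 0 := by
  induction r generalizing j with
  | zero => simp [one_apply, eq_comm]
  | succ r ih =>
    rw [pow_succ, mul_apply, Finset.sum_eq_single (i + r) (fun k _ hk => by simp [ih, hk])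
      (by simp)]
    simp [ih, Finset.prod_range_succ, add_assoc]

theorem wtop {e : ℕ} (l : ZMod (e + 1) → R) :
    (Matrix.of fun i j => if j = i + 1 then l i else 0) ^ (e + 1) =
      (∏ i, l i) • (1 : Matrix _ _ R) := by
  ext i j
  have : ∏ s ∈ Finset.range (e + 1), l (i + s) = ∏ i, l i :=
    (Finset.prod_range _).trans ((Finset.prod_congr rfl fun (s : ZMod (e + 1)) _ =>
      congrArg (fun t => l (i + t)) (ZMod.natCast_zmod_val s)).trans
        (Equiv.prod_comp (Equiv.addLeft i) l))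
  rw [wpow, this, ZMod.natCast_self]
  simp [one_apply, eq_comm]

end CLIF1x

open CLIF1x in
open scoped Kronecker in
theorem p_CLIF1 (hQB : S_QB) :
    S_CLIF1 := by
  intro R _ _ M e μ _ _ _ L f l he hL hl hf
  obtain ⟨e, rfl⟩ : ∃ e', e = e' + 1 := ⟨e - 1, by omega⟩
  obtain ⟨ζ, hζ⟩ : ∃ ζ : ℂ, IsPrimitiveRoot ζ (e + 1) := ⟨_, Complex.isPrimitiveRoot_exp _ he.ne'⟩
  change ZMod (e + 1) → R at l
  obtain ⟨W, hW⟩ : ∃ W : Matrix (ZMod (e + 1)) (ZMod (e + 1)) R,
    W = Matrix.of fun i j : ZMod (e + 1) => if j = i + 1 then l i else 0 := ⟨_, rfl⟩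
  obtain ⟨D, hD⟩ : ∃ D : Matrix (ZMod (e + 1)) (ZMod (e + 1)) R,
    D = diagonal fun i => algebraMap ℂ R (ζ ^ i.val) := ⟨_, rfl⟩
  have h1 : W * D = ζ • (D * W) := by
    ext i j
    rw [hW, hD, Matrix.smul_apply, mul_diagonal, diagonal_mul, of_apply]
    split_ifs with h
    · rw [h, ZMod.val_add, ← pow_eq_pow_mod _ hζ.pow_eq_one, pow_add, ZMod.val_one_eq_one_mod,
        ← pow_eq_pow_mod _ hζ.pow_eq_one, pow_one, map_mul, Algebra.smul_def]
      ring
    · simp
  have h2 : D ^ (e + 1) = 1 := by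
    rw [hD, diagonal_pow, ← diagonal_one]
    congr 1
    funext i
    rw [Pi.pow_apply, ← map_pow, ← pow_mul, mul_comm, pow_mul, hζ.pow_eq_one, one_pow, map_one]
  refine ⟨ZMod (e + 1) × μ, inferInstance, inferInstance, inferInstance, W ⊗ₖ 1 + D ⊗ₖ L,
    fun a b => add_mem ?_ ?_, ?_⟩
  · rw [hW, kroneckerMap_apply, of_apply, one_apply]
    split_ifs <;> simp [hl a.1]
  · rw [hD, kroneckerMap_apply, diagonal_apply]
    split_ifs
    · rw [← Algebra.smul_def]
      exact M.smul_mem _ (hL _ _)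
    · simp
  · rw [hQB _ _ ζ _ _ he hζ (by
      rw [← mul_kronecker_mul, ← mul_kronecker_mul, h1, one_mul, mul_one]
      ext a b
      simp [kroneckerMap_apply]), kpow, kpow, h2, hf, hW, wtop, one_pow, scalar_apply,
      scalar_apply, ← smul_one_eq_diagonal, ← smul_one_eq_diagonal, smul_kronecker, kronecker_smul,
      one_kronecker_one, add_smul]
    exact add_comm _ _

end Pool.Agent.P.MP_f4e0a3_ag.HP
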