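import Pool.Agent.P.MP_f4e0a3_ag.HP.IfaceA

/-! Step CO. -/

set_option autoImplicit false
set_option linter.unusedSectionVars false

namespace Pool.Agent.P.MP_f4e0a3_ag.HP

open MvPolynomial Matrix Submodule Set

theorem p_CO (hLAT : S_LAT) (hTH : S_TH) (hCOA : S_COA) :
    S_CO := by
  intro Ω _ O n D k hk
  have l1 := hLAT Ω O n D D.x (D.sys k) hk
  have l2 := hLAT Ω O n D (D.sys k) D.x fun i a => by
    unfold UD.sys
    split_ifs
    · exact D.lin i a
    · exact subset_span ⟨(i, a), rfl⟩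
  obtain ⟨co, hs⟩ : ∃ co : D.V ≃ₗ[Ω] (D.μ → MvPolynomial (Fin n) Ω),
      ∀ v, co.symm v = th (D.sys k) D.e v :=
    ⟨(LinearEquiv.ofBijective _ (hTH Ω O n D k hk)).symm, fun _ => rfl⟩
  obtain ⟨hmul, hmi⟩ := hCOA Ω O n D _ co hs
  generalize D.sys k = A at *
  have h1 : ∀ γ b, co (tw A γ • D.e b) = Pi.single b (monomial γ 1) := by
    intro γ b
    rw [← LinearEquiv.eq_symm_apply, hs, th_apply, Finset.sum_eq_single b]
    · rw [Pi.single_eq_same, aeval_monomial_tw, one_smul]
    · intro a _ ha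
      rw [Pi.single_eq_of_ne ha, map_zero, zero_smul]
    · simp
  have h2 : ∀ z, z = ∑ a, ∑ γ ∈ (co z a).support, coeff γ (co z a) • tw A γ • D.e a := by
    intro z
    conv_lhs => rw [← co.symm_apply_apply z, hs, th_apply]
    refine Finset.sum_congr rfl fun a _ => ?_
    conv_lhs => rw [(co z a).as_sum, map_sum, Finset.sum_smul]
    exact Finset.sum_congr rfl fun γ _ => by rw [aeval_monomial_tw, smul_assoc]
  have h3 : ∀ β a b, (co (D.mo β a) b).IsHomogeneous β.degree ∧
      ∀ γ, ∃ o : O, coeff γ (co (D.mo β a) b) = o := by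
    intro β a b
    have := l1 β a
    rw [UD.mo]
    generalize tw D.x β • D.e a = y at this
    induction this using span_induction with
    | mem y hy =>
      obtain ⟨γ, c, hγ, rfl⟩ := hy
      rw [h1]
      by_cases h : b = c
      · subst h
        rw [Pi.single_eq_same]
        refine ⟨isHomogeneous_monomial _ hγ, fun δ => ?_⟩
        rw [coeff_monomial]
        split_ifs
        · exact ⟨1, rfl⟩
        · exact ⟨0, rfl⟩
      · rw [Pi.single_eq_of_ne h]
        exact ⟨isHomogeneous_zero _ _ _, fun δ => ⟨0, rfl⟩⟩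
    | zero => rw [map_zero]; exact ⟨isHomogeneous_zero _ _ _, fun δ => ⟨0, rfl⟩⟩
    | add y w _ _ hy hw =>
      rw [map_add, Pi.add_apply]
      refine ⟨hy.1.add hw.1, fun δ => ?_⟩
      obtain ⟨o, ho⟩ := hy.2 δ
      obtain ⟨o', ho'⟩ := hw.2 δ
      exact ⟨o + o', by rw [coeff_add, ho, ho']; rfl⟩
    | smul c y _ hy =>
      rw [show c • y = (c : Ω) • y from rfl, map_smul, Pi.smul_apply]
      refine ⟨(homogeneousSubmodule _ _ _).smul_mem _ hy.1, fun δ => ?_⟩
      obtain ⟨o, ho⟩ := hy.2 δ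
      exact ⟨c * o, by rw [coeff_smul, ho]; rfl⟩
  refine ⟨co, hs, fun j z => ⟨fun hz a => ?_, fun hz => ?_⟩,
    fun c z => ⟨fun hz a β => ?_, fun hz => ?_⟩, hmi, hmul⟩
  · induction hz using span_induction with
    | mem y hy =>
      obtain ⟨β, b, rfl, rfl⟩ := hy
      exact (h3 β b a).1
    | zero => rw [map_zero]; exact isHomogeneous_zero _ _ _
    | add y w _ _ hy hw => rw [map_add]; exact hy.add hw
    | smul c y _ hy => rw [map_smul]; exact (homogeneousSubmodule _ _ _).smul_mem _ hy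
  · rw [h2 z]
    refine sum_mem fun a _ => sum_mem fun γ hγ => smul_mem _ _ ?_
    have e : γ.degree = j := by
      rw [Finsupp.degree_eq_weight_one]
      exact hz a (mem_support_iff.1 hγ)
    have := l2 γ a
    rw [e] at this
    exact span_subset_span O Ω _ this
  · induction hz using span_induction with
    | mem y hy =>
      obtain ⟨γ, b, rfl⟩ := hy
      obtain ⟨o, ho⟩ := (h3 γ b a).2 β
      exact ⟨o, by rw [map_smul, Pi.smul_apply, coeff_smul, ho, smul_eq_mul, mul_comm]⟩
    | zero => exact ⟨0, by simp⟩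
    | add y w _ _ hy hw =>
      obtain ⟨o, ho⟩ := hy
      obtain ⟨o', ho'⟩ := hw
      exact ⟨o + o', by rw [map_add, Pi.add_apply, coeff_add, ho, ho', ← add_mul]; rfl⟩
    | smul d y _ hy =>
      obtain ⟨o, ho⟩ := hy
      exact ⟨d * o, by rw [show d • y = (d : Ω) • y from rfl, map_smul, Pi.smul_apply, coeff_smul,
        ho, smul_eq_mul, ← mul_assoc]; rfl⟩
  · rw [h2 z]
    refine sum_mem fun a _ => sum_mem fun γ _ => ?_
    obtain ⟨o, ho⟩ := hz a γ
    rw [ho, mul_smul]
    refine (D.Lam c).smul_mem o ?_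
    have := l2 γ a
    generalize tw A γ • D.e a = y at this
    induction this using span_induction with
    | mem y hy =>
      obtain ⟨δ, b, -, rfl⟩ := hy
      exact subset_span ⟨δ, b, rfl⟩
    | zero => rw [smul_zero]; exact zero_mem _
    | add y w _ _ hy hw => rw [smul_add]; exact add_mem hy hw
    | smul d y _ hy => rw [smul_comm]; exact smul_mem _ _ hy

end Pool.Agent.P.MP_f4e0a3_ag.HP
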