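import Pool.Agent.P.MP_f4e0a3_ag.HP.IfaceA

/-! Step COA. -/

set_option autoImplicit false
set_option linter.unusedSectionVars false

namespace Pool.Agent.P.MP_f4e0a3_ag.HP

open MvPolynomial Matrix Submodule Set

theorem p_COA :
    S_COA := by
  classical
  intro Ω _ O n D A co h
  have mul : ∀ i z a, co (A i • z) a = X i * co z a := by
    intro i z a
    obtain ⟨v, rfl⟩ := co.symm.surjective z
    have : A i • co.symm v = co.symm fun a => X i * v a := by
      simp only [h, th_apply, Finset.smul_sum, map_mul, aeval_X, mul_smul]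
    rw [this, co.apply_symm_apply, co.apply_symm_apply]
  have pw : ∀ i r z a, co (A i ^ r • z) a = X i ^ r * co z a := by
    intro i r z a
    induction r with
    | zero => simp
    | succ r ih => rw [pow_succ', mul_smul, mul, ih, pow_succ', mul_assoc]
  refine ⟨mul, fun c z => ⟨fun hz => ?_, fun hz => ?_⟩⟩
  · refine UD.MI_induction
      (P := fun z => ∀ a β, (∀ i, c i ≠ 0 → β i < c i) → coeff β (co z a) = 0) hz (by simp)
      (fun i y hi a β hβ => ?_) fun y w hy hw a β hβ => by simp [hy a β hβ, hw a β hβ]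
    rw [pw, X_pow_eq_monomial, coeff_monomial_mul', if_neg]
    rw [Finsupp.single_le_iff]
    exact (hβ i hi).not_ge
  · rw [← co.symm_apply_apply z, h, th_apply]
    refine sum_mem fun a _ => ?_
    rw [(co z a).as_sum, map_sum, Finset.sum_smul]
    refine sum_mem fun β hβ => ?_
    obtain ⟨i, h1, h2⟩ : ∃ i, c i ≠ 0 ∧ c i ≤ β i := by
      by_contra hc
      exact mem_support_iff.1 hβ (hz a β fun i hi => not_le.1 fun h' => hc ⟨i, hi, h'⟩)
    rw [aeval_monomial_tw, smul_assoc, ← add_tsub_cancel_of_le (Finsupp.single_le_iff.2 h2),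
      tw_add, tw_single, mul_smul]
    exact UD.smul_mem_T _ (UD.pow_smul_mem_MI A h1 _)

end Pool.Agent.P.MP_f4e0a3_ag.HP
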