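import Pool.Agent.P.MP_f4e0a3_ag.HP.IfaceA

/-! Step COLON. -/

set_option autoImplicit false
set_option linter.unusedSectionVars false

namespace Pool.Agent.P.MP_f4e0a3_ag.HP

open MvPolynomial Matrix Submodule Set

namespace COLONx

theorem socle (hNS0 : S_NS0) (hKX : S_KX) (hCO : S_CO) {Ω : Type} [Field Ω]
    {O : ValuationSubring Ω} {n e j : ℕ} {D : UD O n} {g : Fin n → MvPolynomial (Fin n) Ω}
    (hD : D.Good) (hg : D.Pw e g) (he : 0 < e) (hj : j < n * (e - 1))
    {z : MvPolynomial (Fin n) Ω} (hz : z.IsHomogeneous j)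
    (h : ∀ i, X i * z ∈ Ideal.span (range g)) : z ∈ Ideal.span (range g) := by
  obtain ⟨co, hco⟩ := hCO Ω O n D 0 (hD 0 (Nat.zero_le _))
  rw [UD.sys_zero] at hco
  have hK : ∀ y : D.V, y ∈ D.K e 0 ↔ ∀ a, co y a ∈ Ideal.span (range g) := fun y => by
    rw [← hKX Ω O n D e g hg he, ← hco.symm, LinearEquiv.symm_apply_apply]
  have h1 := hNS0 Ω O n D e 0 j 0 hD he (by simpa using hj) (co.symm fun _ => z)
    ((hco.vd _ _).2 fun a => by rw [LinearEquiv.apply_symm_apply]; exact hz) fun i _ =>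
      UD.Md.of_mem' ((hK _).2 fun a => by rw [hco.mul, LinearEquiv.apply_symm_apply]; exact h i)
  obtain ⟨y, hy, h2⟩ := h1
  have h3 : y = 0 := by
    refine co.injective (funext fun a => MvPolynomial.ext _ _ fun β => ?_)
    obtain ⟨o, ho⟩ := (hco.lam _ _).1 hy a β
    simpa using ho
  rw [h3, sub_zero, hK] at h2
  have h4 := h2 (Classical.arbitrary _)
  rwa [LinearEquiv.apply_symm_apply] at h4

end COLONx

theorem p_COLON (hUDX : S_UDX) (hNS0 : S_NS0) (hKX : S_KX) (hCO : S_CO) (hIMSP : S_IMSP) :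
    S_COLON := by
  intro n e he _ m hem hm w hw y hy h
  have he0 : 0 < e := by have := he.out; omega
  have : OverC (⊤ : ValuationSubring ℂ) := ⟨fun _ => trivial⟩
  let w' : Fin n × Mon (Fin n) e → (⊤ : ValuationSubring ℂ) := fun p => ⟨w p, trivial⟩
  have h1 : incO ⊤ (rs w') = rs w := by
    rw [rs, ← AlgHom.comp_apply, comp_aeval]; rfl
  have h2 : IsUnit (rs w') :=
    IsUnit.of_mul_eq_one ⟨(rs w)⁻¹, trivial⟩ (Subtype.ext (by
      have h3 : ((rs w' : (⊤ : ValuationSubring ℂ)) : ℂ) = rs w := h1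
      change ((rs w' : (⊤ : ValuationSubring ℂ)) : ℂ) * (rs w)⁻¹ = 1
      rw [h3, mul_inv_cancel₀ hw]))
  obtain ⟨D, g, hD, hg, hI⟩ := hUDX n e ℂ ⊤ w' h2
  have hI' : Ideal.span (range g) = Ideal.span (range (tup w)) := hI
  have key : ∀ d, d ≤ m - e → ∀ β : Fin n →₀ ℕ, β.degree = d →
      monomial β (1 : ℂ) * y ∈ Ideal.span (range g) := by
    intro d hd
    induction hd using Nat.decreasingInduction with
    | self => exact fun β hβ => hI' ▸ (h ⟨β, hβ⟩).1
    | of_succ d hd ih =>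
      intro β hβ
      refine COLONx.socle hNS0 hKX hCO hD hg he0 (j := d + e) (by omega)
        ((isHomogeneous_monomial _ hβ).mul hy) fun i => ?_
      have h4 := ih (Finsupp.single i 1 + β) (by
        rw [map_add, hβ, Finsupp.degree_single, add_comm])
      rwa [monomial_single_add, pow_one, mul_assoc] at h4
  have h5 := key 0 (Nat.zero_le _) 0 (map_zero _)
  rw [← (hIMSP ℂ n e e (tup w) (tup_isHomogeneous w) le_rfl).2]
  exact ⟨hI' ▸ (by simpa using h5), hy⟩

end Pool.Agent.P.MP_f4e0a3_ag.HP
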