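import Pool.Agent.P.MP_f4e0a3_ag.HP.IfaceG

/-! Step COMP. -/

set_option autoImplicit false
set_option linter.unusedSectionVars false

namespace Pool.Agent.P.MP_f4e0a3_ag.HP

open MvPolynomial Matrix Submodule Set

namespace COMPx

theorem exists_poly {ι : Type} (F : MvPolynomial ι ℂ) (u : ι → ℂ) :
    ∃ P : Polynomial ℂ, (∀ N, P.coeff N = aeval u (homogeneousComponent N F)) ∧
      ∀ c : ℂ, P.eval c = aeval (c • u) F := by
  refine ⟨∑ N ∈ Finset.range (F.totalDegree + 1),
    Polynomial.monomial N (aeval u (homogeneousComponent N F)), fun N => ?_, fun c => ?_⟩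
  · rw [Polynomial.finsetSum_coeff]
    simp only [Polynomial.coeff_monomial, Finset.sum_ite_eq', Finset.mem_range]
    split_ifs with h
    · rfl
    · rw [homogeneousComponent_eq_zero N F (by omega), map_zero]
  · conv_rhs => rw [← sum_homogeneousComponent F]
    rw [Polynomial.eval_finsetSum, map_sum]
    refine Finset.sum_congr rfl fun N _ => ?_
    rw [Polynomial.eval_monomial, mul_comm]
    exact (aeval_mul_left (homogeneousComponent_isHomogeneous N F) c u).symm

theorem eq_of {P Q : Polynomial ℂ} (h : ∀ c : ℂ, c ≠ 0 → P.eval c = Q.eval c) : P = Q :=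
  Polynomial.eq_of_infinite_eval_eq P Q
    ((Set.finite_singleton (0 : ℂ)).infinite_compl.mono fun c hc => h c hc)

end COMPx

theorem p_COMP :
    S_COMP := by
  intro ι F
  refine ⟨fun u v h N => ?_, fun u a N h => ?_, fun u h => ?_⟩
  · obtain ⟨P, p1, p2⟩ := COMPx.exists_poly F u
    obtain ⟨Q, q1, q2⟩ := COMPx.exists_poly F v
    have e : P = Q := COMPx.eq_of fun c hc => by rw [p2, q2, h c hc]
    rw [← p1, ← q1, e]
  · obtain ⟨P, p1, p2⟩ := COMPx.exists_poly F u
    have e : P = Polynomial.monomial N a := COMPx.eq_of fun c hc => by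
      rw [p2, h c hc, Polynomial.eval_monomial, mul_comm]
    refine ⟨?_, fun M hM => ?_⟩
    · rw [← p1, e, Polynomial.coeff_monomial, if_pos rfl]
    · rw [← p1, e, Polynomial.coeff_monomial, if_neg hM.symm]
  · by_contra hn
    push Not at hn
    apply h
    rw [← sum_homogeneousComponent F, map_sum]
    exact Finset.sum_eq_zero fun N _ => hn N

end Pool.Agent.P.MP_f4e0a3_ag.HP
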