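import Pool.Agent.P.MP_f4e0a3_ag.HP.IfaceA

/-! Step CORE. -/

set_option autoImplicit false
set_option linter.unusedSectionVars false

namespace Pool.Agent.P.MP_f4e0a3_ag.HP

open MvPolynomial Matrix Submodule Set

theorem p_CORE (hUDX : S_UDX) (hPEX : S_PEX) (hVOL : S_VOL) (hDESC : S_DESC) (hIMSP : S_IMSP) (hNULL : S_NULL) :
    S_CORE := by
  intro n e he _ Ω _ _ O _ w t k m b hw ht hv hb hs
  have e0 : 0 < e := lt_of_lt_of_le (by norm_num) he.out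
  obtain ⟨D, g, hg, hp, hI⟩ := hUDX n e Ω O w hw
  obtain ⟨p, pf⟩ := hPEX Ω O n D t hg ht
  have st : D.St t p e := ⟨hg, ht, pf, e0⟩
  have eI : ∀ j, Im j (tup fun p => (w p : Ω)) = Im j g := fun j => by rw [Im, Im, hI]
  have r0 : rs (fun p => (w p : Ω)) ≠ 0 := by
    have := (hw.map (incO O)).ne_zero
    rwa [rs, ← AlgHom.comp_apply, comp_aeval] at this
  obtain ⟨a1, a2, -⟩ := hVOL Ω O n D t p e m k g b st hp hv hb (hs.trans (eI m))
  obtain ⟨c1, c2, -⟩ := hVOL Ω O n D t p e e n g _ st hp hv (hNULL n e Ω _ r0).2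
    ((hIMSP Ω n e e _ (tup_isHomogeneous _) le_rfl).2.symm.trans (eI e))
  exact ⟨a1, c1, fun h1 h2 h3 => c2.2 (hDESC Ω O n D t p e e m st h1 h2 (a2.1 h3))⟩

end Pool.Agent.P.MP_f4e0a3_ag.HP
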