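import Pool.Agent.P.MP_f4e0a3_ag.HP.IfaceA

/-! Step CRAM. -/

set_option autoImplicit false
set_option linter.unusedSectionVars false

namespace Pool.Agent.P.MP_f4e0a3_ag.HP

open MvPolynomial Matrix Submodule Set

namespace CRAMx

theorem upd {F : Type} [Field F] {n k m : ℕ} (b : Fin k → MvPolynomial (Fin n) F)
    (T : Fin k → Mon (Fin n) m) (i : Fin k) (β : Mon (Fin n) m) :
    pl m b (Function.update T i β) =
      cramer (Matrix.of fun i j => coeff (T j).1 (b i)) (fun l => coeff β.1 (b l)) i := by
  rw [cramer_apply, pl]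
  congr 1
  ext l j
  by_cases hj : j = i
  · simp [hj]
  · simp [hj]

end CRAMx

theorem p_CRAM :
    S_CRAM := by
  intro F _ n k m b T hb h0
  set M : Matrix (Fin k) (Fin k) F := Matrix.of fun i j => coeff (T j).1 (b i) with hMd
  have hM : pl m b T = M.det := rfl
  have hu : IsUnit M.det := Ne.isUnit h0
  have h3 : ∀ i (β : Mon (Fin n) m),
      pl m b T * coeff β.1 (∑ l, M⁻¹ i l • b l) = pl m b (Function.update T i β) := by
    intro i β
    rw [CRAMx.upd, ← hMd, ← det_smul_inv_mulVec_eq_cramer M _ hu, hM, Pi.smul_apply, smul_eq_mul,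
      coeff_sum]
    simp [Matrix.mulVec, dotProduct]
  refine ⟨⟨M⁻¹, det_nonsing_inv_mul_det M hu, fun i j => ?_, h3⟩, fun y hy => ⟨fun h β => ?_, ?_⟩⟩
  · have := congrFun (congrFun (nonsing_inv_mul M hu) i) j
    rw [Matrix.mul_apply, Matrix.one_apply] at this
    rw [← this, coeff_sum]
    simp [hMd]
  · clear hy
    induction h using Submodule.span_induction with
    | mem x hx =>
      obtain ⟨l, rfl⟩ := hx
      have := congrFun (mulVec_cramer M fun l => coeff β.1 (b l)) l
      rw [Pi.smul_apply, smul_eq_mul] at this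
      rw [hM, ← this]
      simp only [CRAMx.upd, ← hMd]
      rfl
    | zero => simp
    | add x y _ _ hx hy =>
      simp only [coeff_add, mul_add, add_mul, Finset.sum_add_distrib, hx, hy]
    | smul a x _ hx =>
      simp only [coeff_smul, smul_eq_mul, mul_assoc, ← Finset.mul_sum, ← hx]
      ring
  · intro h
    have hw : ∀ i, (∑ l, M⁻¹ i l • b l) ∈ span F (range b) := fun i =>
      Submodule.sum_mem _ fun l _ => Submodule.smul_mem _ _ (subset_span ⟨l, rfl⟩)
    have hh : ∀ i, (∑ l, M⁻¹ i l • b l) ∈ homogeneousSubmodule (Fin n) F m := fun i =>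
      Submodule.sum_mem _ fun l _ => Submodule.smul_mem _ _ (hb l)
    have e : y = ∑ i, coeff (T i).1 y • ∑ l, M⁻¹ i l • b l := by
      refine IsHomogeneous.ext_mon hy
        (show _ ∈ homogeneousSubmodule (Fin n) F m from
          Submodule.sum_mem _ fun i _ => Submodule.smul_mem _ _ (hh i)) fun β => ?_
      refine mul_left_cancel₀ h0 ?_
      rw [h β, coeff_sum, Finset.mul_sum]
      refine Finset.sum_congr rfl fun i _ => ?_
      rw [coeff_smul, smul_eq_mul, mul_left_comm, h3]
    rw [e]
    exact Submodule.sum_mem _ fun i _ => Submodule.smul_mem _ _ (hw i)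

end Pool.Agent.P.MP_f4e0a3_ag.HP
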