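import Pool.Agent.P.MP_f4e0a3_ag.HP.IfaceG
import Pool.Agent.P.MP_f4e0a3_ag.HP.IfaceA

/-! Step DELTA. -/

set_option autoImplicit false
set_option linter.unusedSectionVars false

namespace Pool.Agent.P.MP_f4e0a3_ag.HP

open MvPolynomial Matrix Submodule Set

namespace DELTAx

variable {n e m k : ℕ} [Fact (2 ≤ e)] [Nonempty (Fin n)]

/-- monomial multiples of the entries of a tuple -/
noncomputable def tu {R : Type} [CommRing R] (w : Fin n × Mon (Fin n) e → R)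
    (τ : Fin k → Mon (Fin n) (m - e) × Fin n) : Fin k → MvPolynomial (Fin n) R :=
  fun i => monomial (τ i).1.1 (1 : R) * tup w (τ i).2

/-- the universal vector of minors -/
noncomputable def pv (τ : Fin k → Mon (Fin n) (m - e) × Fin n) :
    (Fin k → Mon (Fin n) m) → MvPolynomial (Fin n × Mon (Fin n) e) ℂ :=
  pl m (tu (fun p => (X p : MvPolynomial (Fin n × Mon (Fin n) e) ℂ)) τ)

theorem ev_pv (τ : Fin k → Mon (Fin n) (m - e) × Fin n) (w : Fin n × Mon (Fin n) e → ℂ)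
    (T : Fin k → Mon (Fin n) m) : aeval w (pv τ T) = pl m (tu w τ) T := by
  rw [pv, pl, pl, AlgHom.map_det]
  congr 1
  ext i j
  have h2 : MvPolynomial.map (eval w) (tu (fun p => X p) τ i) = tu w τ i := by
    rw [tu, tu, map_mul, map_tup, map_monomial, map_one]
    simp
  rw [AlgHom.mapMatrix_apply, Matrix.map_apply, Matrix.of_apply, Matrix.of_apply, ← h2, coeff_map]
  rfl

theorem tu_le (hIMSP : S_IMSP) (hm : e ≤ m) (τ : Fin k → Mon (Fin n) (m - e) × Fin n)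
    (w : Fin n × Mon (Fin n) e → ℂ) : span ℂ (range (tu w τ)) ≤ Im m (tup w) := by
  rw [(hIMSP ℂ n e m (tup w) (tup_isHomogeneous w) hm).1]
  refine span_mono ?_
  rintro _ ⟨i, rfl⟩
  exact ⟨τ i, rfl⟩

theorem cross (hBAS : S_BAS) (hPLK : S_PLK) (hIMSP : S_IMSP) (hm : e ≤ m) (hF : HF n e m k)
    (τ τ' : Fin k → Mon (Fin n) (m - e) × Fin n) (T T' : Fin k → Mon (Fin n) m) :
    pv τ T * pv τ' T' = pv τ T' * pv τ' T := by
  have hR : Res (Fin n) e ≠ 0 := fun h => by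
    have := res_fermat (σ := Fin n) (e := e) (R := ℂ)
    rw [h] at this
    simp at this
  refine mul_left_cancel₀ hR (MvPolynomial.funext fun w => ?_)
  rw [← MvPolynomial.coe_aeval_eq_eval]
  change aeval w _ = aeval w _
  by_cases hw : rs w = 0
  · rw [map_mul, map_mul (aeval w) (Res _ _)]
    change rs w * _ = rs w * _
    rw [hw, zero_mul, zero_mul]
  · obtain ⟨τ₀, h₀⟩ := (hBAS n e m k hm hF w hw).1
    obtain ⟨c, hc⟩ := (hPLK ℂ n k m).2.2.1 _ (tu w τ) ((tu_le hIMSP hm τ w).trans h₀.ge)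
    obtain ⟨c', hc'⟩ := (hPLK ℂ n k m).2.2.1 _ (tu w τ') ((tu_le hIMSP hm τ' w).trans h₀.ge)
    simp only [map_mul, ev_pv, hc, hc', Pi.smul_apply, smul_eq_mul]
    ring

end DELTAx

open DELTAx in
theorem p_DELTA (hGCD : S_GCD) (hBAS : S_BAS) (hPLK : S_PLK) (hIMSP : S_IMSP) :
    S_DELTA := by
  intro n e _ _ m k hm hF
  have hf : rs (fermat (Fin n) e ℂ) ≠ 0 := by
    rw [rs, res_fermat]; exact one_ne_zero
  obtain ⟨⟨τ₁, h₁⟩, h₂⟩ := hBAS n e m k hm hF _ hf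
  have hne : pv τ₁ ≠ 0 := fun h => h₂ _ h₁ (funext fun T => by
    have := ev_pv τ₁ (fermat (Fin n) e ℂ) T
    rw [h, Pi.zero_apply, map_zero] at this
    exact this.symm)
  obtain ⟨G1, G2⟩ := hGCD (MvPolynomial (Fin n × Mon (Fin n) e) ℂ) (Fin k → Mon (Fin n) m)
  obtain ⟨d, Δ, hd, hΔ⟩ := G1 _ hne
  have hd0 : d ≠ 0 := fun h => hne (by rw [hd, h, zero_smul])
  refine ⟨Δ, fun w hw => ?_, fun w hw b hb => ?_, hΔ⟩
  · obtain ⟨⟨τ, h⟩, h'⟩ := hBAS n e m k hm hF w hw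
    exact ⟨_, h, h' _ h⟩
  · obtain ⟨⟨τ, h⟩, h'⟩ := hBAS n e m k hm hF w hw
    obtain ⟨c, hc⟩ := G2 Δ (pv τ) hΔ fun T T' => by
      have := cross hBAS hPLK hIMSP hm hF τ τ₁ T T'
      rw [hd, Pi.smul_apply, Pi.smul_apply, smul_eq_mul, smul_eq_mul] at this
      exact mul_left_cancel₀ hd0 (by linear_combination this)
    have e1 : pl m (tu w τ) = aeval w c • ev Δ w := funext fun T => by
      rw [← ev_pv, hc, Pi.smul_apply, smul_eq_mul, map_mul]; rfl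
    have n1 : pl m (tu w τ) ≠ 0 := h' _ h
    obtain ⟨a, ha, hab⟩ := (hPLK ℂ n k m).2.2.2 (tu w τ) b (hb.trans h.symm) n1
    refine ⟨a * aeval w c, mul_ne_zero ha fun h0 => n1 ?_, ?_⟩
    · rw [e1, h0, zero_smul]
    · rw [hab, e1, smul_smul]

end Pool.Agent.P.MP_f4e0a3_ag.HP
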