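import Pool.Agent.P.MP_f4e0a3_ag.HP.IfaceA

/-! Step DESC. -/

set_option autoImplicit false
set_option linter.unusedSectionVars false

namespace Pool.Agent.P.MP_f4e0a3_ag.HP

open MvPolynomial Matrix Submodule Set

theorem p_DESC (hNS : S_NS) (hLF : S_LF) :
    S_DESC := by
  intro Ω _ O n D t p e j m hst hj hm h
  obtain ⟨-, -, h3, -, -, h6, -⟩ := hLF Ω O n D t hst.good hst.wt
  induction m, hj using Nat.le_induction with
  | base => exact h
  | succ m _ ih =>
    refine ih (by omega) fun z hz => ?_
    exact hNS Ω O n D t p e 0 m hst (by simpa using hm) h z (h6 0 m z hz)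
      fun k hk => h _ (h3 0 m k hk z hz)

end Pool.Agent.P.MP_f4e0a3_ag.HP
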