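import Pool.Agent.P.MP_f4e0a3_ag.HP.IfaceG

/-! Step DIV. -/

set_option autoImplicit false
set_option linter.unusedSectionVars false

namespace Pool.Agent.P.MP_f4e0a3_ag.HP

open MvPolynomial Matrix Submodule Set

theorem p_DIV :
    S_DIV := by
  intro n k Y Y' hY φ p j hφ hp h0
  refine ⟨fun h₀ hh => ?_, fun g L L' e => ?_⟩
  · obtain ⟨m₁, P₁, Q₁, a1, a2, a3, a4⟩ := hφ.1 h₀ (hY hh)
    obtain ⟨m₂, P₂, Q₂, b1, b2, b3, b4⟩ := hp.1 h₀ (hY hh)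
    have b5 : eval (plucker h₀) P₂ ≠ 0 := fun e => h0 ⟨_, hh⟩ (by
      rw [b4 h₀ (hY hh) b3, e, zero_div])
    refine ⟨m₁ + (m₂ * j + m₂), P₁ * (Q₂ ^ j * Q₂), Q₁ * (P₂ ^ j * Q₂),
      a1.mul ((b2.pow j).mul b2), a2.mul ((b1.pow j).mul b2), ?_, fun h hh' hq => ?_⟩
    · simp only [map_mul, map_pow]
      exact mul_ne_zero a3 (mul_ne_zero (pow_ne_zero _ b5) b3)
    · simp only [map_mul, map_pow] at hq ⊢
      have c1 := left_ne_zero_of_mul hq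
      have c2 := left_ne_zero_of_mul (right_ne_zero_of_mul hq)
      have c3 := right_ne_zero_of_mul (right_ne_zero_of_mul hq)
      rw [a4 h (hY hh') c1, b4 h (hY hh') c3, div_pow]
      field_simp
  · simp only [hφ.2 g ⟨L.1, hY L.2⟩ ⟨L'.1, hY L'.2⟩ e, hp.2 g ⟨L.1, hY L.2⟩ ⟨L'.1, hY L'.2⟩ e]

end Pool.Agent.P.MP_f4e0a3_ag.HP
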