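import Pool.Agent.P.MP_f4e0a3_ag.HP.IfaceG

/-! Step EQV. -/

set_option autoImplicit false
set_option linter.unusedSectionVars false

namespace Pool.Agent.P.MP_f4e0a3_ag.HP

open MvPolynomial Matrix Submodule Set

theorem p_EQV (hIMACT : S_IMACT) :
    S_EQV := by
  intro n e _ _ m k r Δ hr hΔ w hw
  obtain ⟨b, hb, hb0⟩ := hΔ.ex w hw
  obtain ⟨c, hc, hcb⟩ := hΔ.pl w hw b hb
  refine ⟨fun h => hb0 (by rw [hcb, h, smul_zero]), fun a g => ?_⟩
  have hrs : rs (lin0 a.val g.val w) ≠ 0 := by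
    have h1 := res_pt (e := e) w (pairG a g)
    rw [pt_rep0, pairG_false, pairG_true] at h1
    show aeval (lin0 a.val g.val w) (Res (Fin n) e) ≠ 0
    rw [h1]
    exact mul_ne_zero (right_ne_zero_of_mul_eq_one (chi_inv_mul (e := e) (pairG a g))) hw
  refine ⟨hrs, ?_⟩
  have hhom : ∀ i, (b i).IsHomogeneous m := fun i =>
    (mem_Im.mp (hb ▸ subset_span ⟨i, rfl⟩ : b i ∈ Im m (tup w))).2
  have hsp : span ℂ (range fun i => sub g.val (b i)) = Im m (tup (lin0 a.val g.val w)) := by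
    rw [tup_lin0, hIMACT, ← hb, map_span, ← range_comp]
    rfl
  obtain ⟨c', hc', hcb'⟩ := hΔ.pl _ hrs _ hsp
  rw [hr.pl ℂ g b hhom, hcb, Rep.pt_smul] at hcb'
  refine ⟨c'⁻¹ * c, mul_ne_zero (inv_ne_zero hc') hc, ?_⟩
  rw [mul_smul, hcb', smul_smul, inv_mul_cancel₀ hc', one_smul]

end Pool.Agent.P.MP_f4e0a3_ag.HP
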