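import Pool.Agent.P.MP_f4e0a3_ag.HP.IfaceA

/-! Step EXCH. -/

set_option autoImplicit false
set_option linter.unusedSectionVars false

namespace Pool.Agent.P.MP_f4e0a3_ag.HP

open MvPolynomial Matrix Submodule Set

namespace EXCHx

variable {Ω : Type} [Field Ω] {O : ValuationSubring Ω} {n : ℕ} {D : UD O n}

theorem mi_le {A A' : Fin n → D.T} {c c' : Fin n → ℕ}
    (h : ∀ i, c i ≠ 0 → c' i ≠ 0 ∧ A i ^ c i = A' i ^ c' i) : D.MI A c ≤ D.MI A' c' :=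
  smul_mono_left (Ideal.span_mono fun _ ⟨i, h1, h2⟩ => ⟨i, (h i h1).1, h2.trans (h i h1).2⟩)

theorem cut {A A' : Fin n → D.T} {c c' : Fin n → ℕ} {w : D.T} {L : Submodule O D.V}
    (h : ∀ i, c i ≠ 0 → A i ^ c i = w ∨ c' i ≠ 0 ∧ A i ^ c i = A' i ^ c' i) {z : D.V}
    (hz : D.Md L (D.MI A c) z) : ∃ u, D.Md L (D.MI A' c') (z - w • u) := by
  obtain ⟨y, h1, h2⟩ := hz
  suffices ∃ u, z - y - w • u ∈ D.MI A' c' from
    this.imp fun u hu => ⟨y, h1, sub_right_comm z y _ ▸ hu⟩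
  refine UD.MI_induction (P := fun z => ∃ u, z - w • u ∈ D.MI A' c') h2 ⟨0, by simp⟩
    (fun i y hi => ?_) ?_
  · rcases h i hi with e | ⟨e1, e2⟩
    · exact ⟨y, by simp [e]⟩
    · exact ⟨0, by simpa [e2] using UD.pow_smul_mem_MI A' e1 y⟩
  · rintro a b ⟨u, hu⟩ ⟨v, hv⟩
    exact ⟨u + v, by rw [smul_add, ← sub_add_sub_comm]; exact add_mem hu hv⟩

theorem md_smul {L : Submodule O D.V} {K : Submodule D.T D.V} {w : D.T}
    (h : ∀ z ∈ L, w • z ∈ L) {z : D.V} (hz : D.Md L K z) : D.Md L K (w • z) :=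
  let ⟨y, h1, h2⟩ := hz
  ⟨w • y, h y h1, smul_sub w z y ▸ K.smul_mem w h2⟩

theorem md_eq {L : Submodule O D.V} {K : Submodule D.T D.V} {z w : D.V} (hz : D.Md L K z)
    (h : z = w) : D.Md L K w := h ▸ hz

end EXCHx

open EXCHx in
theorem p_EXCH (hCO : S_CO) (hPR : S_PR) (hMDC : S_MDC) :
    S_EXCH := by
  intro Ω _ O n D e s k j c hG he hs hk hyp z hz H
  obtain ⟨pr, hp⟩ := hPR Ω O n D hG
  obtain ⟨co0, h0⟩ := hCO Ω O n D 0 D.gen_zero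
  obtain ⟨co1, h1⟩ := hCO Ω O n D k (hG k hk.le)
  obtain ⟨co2, h2⟩ := hCO Ω O n D (k + 1) (hG _ hk)
  obtain ⟨κ, rfl⟩ : ∃ κ : Fin n, κ.val = k := ⟨⟨k, hk⟩, rfl⟩
  obtain ⟨c0, hc⟩ : ∃ c0 : Fin n → ℕ,
    c0 = fun i => if i = κ then 0 else if s ≤ i.val ∧ i.val < κ.val then e else 1 := ⟨_, rfl⟩
  have cκ : c0 κ = 0 := by simp [hc]
  have cn : ∀ i, c0 i ≠ 0 → i ≠ κ := fun i h a => h (a ▸ cκ)
  have s1 : D.sys κ κ = D.x κ := by simp [UD.sys]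
  have s2 : D.sys (κ + 1) κ = D.l κ := by simp [UD.sys]
  have lt : ∀ i : Fin n, i ≠ κ → (i.val < κ.val + 1 ↔ i.val < κ.val) := fun i h => by
    have := Fin.val_ne_of_ne h
    omega
  have s3 : ∀ i, i ≠ κ → D.sys (κ + 1) i = D.sys κ i := fun i h => by simp only [UD.sys, lt i h]
  have c1 : ∀ i, i ≠ κ → (if s ≤ i.val ∧ i.val < κ.val then e else 1) = c0 i := fun i h => by
    simp only [hc, if_neg h]
  have c2 : ∀ i, i ≠ κ → (if s ≤ i.val ∧ i.val < κ.val + 1 then e else 1) = c0 i := fun i h => by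
    simp only [hc, if_neg h, lt i h]
  have d1 : (if s ≤ κ.val ∧ κ.val < κ.val then e else 1) = 1 := by simp
  have d2 : (if s ≤ κ.val ∧ κ.val < κ.val + 1 then e else 1) = e := by simp [hs]
  have E : D.MI (D.sys (κ + 1)) c0 = D.MI (D.sys κ) c0 := le_antisymm
    (mi_le fun i h => ⟨h, by rw [s3 i (cn i h)]⟩) (mi_le fun i h => ⟨h, by rw [s3 i (cn i h)]⟩)
  have le1 : D.MI (D.sys κ) c0 ≤ D.Q e s κ := mi_le fun i h => by
    simp only [c1 i (cn i h)]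
    exact ⟨h, trivial⟩
  have le2 : D.MI (D.sys κ) c0 ≤ D.Q e s (κ + 1) := mi_le fun i h => by
    simp only [c2 i (cn i h), s3 i (cn i h)]
    exact ⟨h, trivial⟩
  have m1 : ∀ u, D.x κ • u ∈ D.Q e s κ := fun u => by
    have := UD.pow_smul_mem_MI (D.sys κ) (c := fun i => if s ≤ i.val ∧ i.val < κ.val then e else 1)
      (i := κ) (by simp) u
    rwa [d1, pow_one, s1] at this
  have m2 : ∀ u, D.l κ ^ e • u ∈ D.Q e s (κ + 1) := fun u => by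
    have := UD.pow_smul_mem_MI (D.sys (κ + 1))
      (c := fun i => if s ≤ i.val ∧ i.val < κ.val + 1 then e else 1) (i := κ)
      (by simp only [d2]; exact he.ne') u
    rwa [d2, s2] at this
  have k1 : ∀ w, D.Md (D.Lam c) (D.Q e s κ) w →
      ∃ u, D.Md (D.Lam c) (D.MI (D.sys κ) c0) (w - D.x κ • u) := fun w => cut fun i h => by
    by_cases a : i = κ
    · exact .inl (by rw [a, d1, pow_one, s1])
    · exact .inr ⟨c1 i a ▸ h, by rw [c1 i a]⟩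
  have k2 : ∀ w, D.Md (D.Lam c) (D.Q e s (κ + 1)) w →
      ∃ u, D.Md (D.Lam c) (D.MI (D.sys κ) c0) (w - D.l κ ^ e • u) := fun w => cut fun i h => by
    by_cases a : i = κ
    · exact .inl (by rw [a, d2, s2])
    · exact .inr ⟨c2 i a ▸ h, by rw [c2 i a, s3 i a]⟩
  have i1 : ∀ w, D.Md (D.Lam c) (D.MI (D.sys κ) c0) (D.x κ • w) →
      D.Md (D.Lam c) (D.MI (D.sys κ) c0) w := fun w h =>
    (hMDC Ω O n D _ co1 h1).2.1 c c0 κ 1 w cκ (by rwa [pow_one, s1])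
  have i2 : ∀ w, D.Md (D.Lam c) (D.MI (D.sys κ) c0) (D.l κ ^ e • w) →
      D.Md (D.Lam c) (D.MI (D.sys κ) c0) w := fun w h =>
    E ▸ (hMDC Ω O n D _ co2 h2).2.1 c c0 κ e w cκ (by rwa [s2, E])
  have lx : ∀ i, ∀ w ∈ D.Lam c, D.x i • w ∈ D.Lam c := fun i w h => by
    simpa [D.sys_zero] using (hMDC Ω O n D _ co0 h0).2.2 c i 1 w h
  have ll : ∀ w ∈ D.Lam c, D.l κ ^ e • w ∈ D.Lam c := fun w h =>
    s2 ▸ (hMDC Ω O n D _ co2 h2).2.2 c κ e w h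
  obtain ⟨z₀, a0⟩ := k2 _ (H κ hs)
  have a1 : D.Md (D.Lam c) (D.MI (D.sys κ) c0) (D.x κ • z - pr (j + 1) (D.l κ ^ e • z₀)) := by
    obtain ⟨y, b1, b2⟩ := a0
    have b3 := hp.x κ 1 j z
    rw [pow_one, hp.self j z hz] at b3
    refine ⟨_, hp.lam (j + 1) c y b1, ?_⟩
    rw [← b3, ← map_sub, ← map_sub]
    exact hp.mi κ hk.le c0 _ _ b2
  by_cases hj : j + 1 < e
  · rw [hp.l0 κ e _ _ hj, sub_zero] at a1
    exact (i1 z a1).mono le_rfl le2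
  rw [← Nat.sub_add_cancel (not_lt.1 hj), hp.l] at a1
  obtain ⟨u, a2⟩ := k1 _ (hyp.resolve_left hj _ (hp.mem _ z₀) fun i hi => by
    obtain ⟨w, b1⟩ := k2 _ (H i hi)
    have b2 := (md_smul (lx κ) b1).sub (md_smul (lx i) a1)
    have b3 := i2 (D.x i • pr (j + 1 - e) z₀ - D.x κ • w) (md_eq b2 (by module))
    exact (b3.mono le_rfl le1).congr (by simpa using m1 w))
  have a3 := i1 (z - D.l κ ^ e • u) (md_eq (a1.add (md_smul ll a2)) (by module))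
  exact (a3.mono le_rfl le2).congr (by simpa using m2 u)

end Pool.Agent.P.MP_f4e0a3_ag.HP
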