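import Pool.Agent.P.MP_f4e0a3_ag.HP.IfaceA

/-! Step FAM. -/

set_option autoImplicit false
set_option linter.unusedSectionVars false

namespace Pool.Agent.P.MP_f4e0a3_ag.HP

open MvPolynomial Matrix Submodule Set

namespace FAMx

variable {Ω : Type} [Field Ω] {O : ValuationSubring Ω} {n : ℕ} (D : UD O n)

theorem indep {ι : Type} {c : ι → MvPolynomial (Fin n) Ω} (hc : LinearIndependent Ω c) :
    LinearIndependent Ω fun q : ι × D.μ => aeval D.x (c q.1) • D.e q.2 := by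
  have h1 := (Pi.linearIndependent_single (R := Ω) (fun (_ : D.μ) => c) fun _ => hc).comp
    (fun q : ι × D.μ => (⟨q.2, q.1⟩ : Σ _ : D.μ, ι)) (by
      rintro ⟨a, b⟩ ⟨a', b'⟩ h
      simp only [Sigma.mk.injEq, heq_eq_eq] at h
      exact Prod.ext h.2 h.1)
  have h2 := h1.map' (th D.x D.e) (LinearMap.ker_eq_bot.2 D.free.1)
  have e : (fun q : ι × D.μ => aeval D.x (c q.1) • D.e q.2) =
      fun q : ι × D.μ => th D.x D.e (Pi.single q.2 (c q.1)) := by
    funext q
    rw [th_apply, Finset.sum_eq_single q.2 (fun a _ ha => by simp [Pi.single_eq_of_ne ha])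
      (by simp)]
    simp
  rw [e]
  exact h2

theorem tw_one (β : Fin n →₀ ℕ) : tw (fun _ => (1 : Ω)) β = 1 := by simp [tw]

end FAMx

open FAMx in
theorem p_FAM (hKSAT : S_KSAT) (hIND : S_IND) (hGENP : S_GENP) (hPR : S_PR) (hLF : S_LF) :
    S_FAM := by
  intro Ω _ O n D t p e j k g b hSt hPw hb hIm hO hsat
  obtain ⟨hFl, hbK, hK⟩ := hKSAT Ω O n D e j k g (fun _ => 1) b hPw hSt.pos (fun _ => one_ne_zero)
    hIm (by simpa only [tw_one, one_mul] using hO) (by simpa only [tw_one, one_mul] using hsat)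
  simp only [tw_one, inv_one, one_smul] at hFl
  have hS0 : ∀ β : Fin n →₀ ℕ, Sup 0 β := fun β i hi => absurd hi (Nat.not_lt_zero _)
  have hG : ∀ β a, p 0 β a ∈ D.G t 0 β := fun β a => hSt.pf.mem 0 β a (Nat.zero_le n) (hS0 β)
  have hpF : ∀ (β : Fin n →₀ ℕ) (a : D.μ), β.degree = j → p 0 β a ∈ D.Fl (fun _ => 1) 0 j := by
    intro β a hβ
    refine (span_le.2 ?_ : D.G t 0 β ≤ _) (hG β a)
    rintro _ ⟨γ, a', h1, h2, -, rfl⟩
    exact subset_span ⟨γ, a', h1, h2.trans hβ, by rw [tw_one, inv_one, one_smul]⟩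
  refine ⟨?_, ?_, le_antisymm ?_ ?_⟩
  · have h := indep D ((basisMonomials (Fin n) Ω).linearIndependent.comp
      (fun β : Mon (Fin n) j => β.1) Subtype.val_injective)
    simpa only [Function.comp_apply, coe_basisMonomials, aeval_monomial_tw, one_smul, UD.mo] using h
  · have h := (hIND Ω O n D t p e 0 hSt (Nat.zero_le n)).comp
      (fun q : BoxD n e j × D.μ => ((⟨q.1.1.1, hS0 _, q.1.2⟩, q.2) : {b // Box e 0 b} × D.μ)) (by
        rintro ⟨a, c⟩ ⟨a', c'⟩ h
        exact Prod.ext (Subtype.ext (Subtype.ext (congrArg (fun q => q.1.1) h)))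
          (Prod.ext_iff.1 h).2)
    have h' : LinearIndependent Ω (((D.K e 0).restrictScalars Ω).mkQ ∘
        fun q : BoxD n e j × D.μ => p 0 q.1.1.1 q.2) := h
    refine (indep D hb).sum_type (h'.of_comp _) ?_
    refine (Submodule.range_ker_disjoint h').symm.mono_left ?_
    rw [ker_mkQ, span_le]
    rintro _ ⟨q, rfl⟩
    exact (hbK q.1 q.2).2
  · rw [← hFl, span_le]
    rintro _ ⟨q | q, rfl⟩
    · exact (hbK q.1 q.2).1
    · exact hpF _ _ q.1.1.2
  · rw [span_le]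
    rintro _ ⟨⟨β, a⟩, rfl⟩
    obtain ⟨pr, hpr⟩ := hPR Ω O n D hSt.good
    obtain ⟨y, hy, hyK⟩ := hGENP Ω O n D t p e 0 hSt (Nat.zero_le n) (D.mo β.1 a)
      (subset_span ⟨β.1, a, (one_smul _ _).symm⟩)
    have hV := (hLF Ω O n D t hSt.good hSt.wt).2.2.2.2.2.2 0
    have h1 : pr j y ∈ span O (range (D.fam (e := e) (j := j) b (p 0))) ∧
        pr j y ∈ D.Fl (fun _ => 1) 0 j := by
      clear hyK
      induction hy using span_induction with
      | mem y hy =>
        obtain ⟨γ, a', hγ, rfl⟩ := hy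
        have hv := (hV γ _ (hG γ a')).2.1
        by_cases hd : γ.degree = j
        · rw [hpr.self j _ (hd ▸ hv)]
          exact ⟨subset_span ⟨Sum.inr (⟨⟨γ, hd⟩, hγ.2⟩, a'), rfl⟩, hpF γ a' hd⟩
        · rw [hpr.ne _ j _ hv hd]
          exact ⟨zero_mem _, zero_mem _⟩
      | zero => rw [map_zero]; exact ⟨zero_mem _, zero_mem _⟩
      | add y w _ _ h1 h2 => rw [map_add]; exact ⟨add_mem h1.1 h2.1, add_mem h1.2 h2.2⟩
      | smul o y _ h1 =>
        rw [LinearMap.map_smul_of_tower]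
        exact ⟨smul_mem _ _ h1.1, smul_mem _ _ h1.2⟩
    have h2 : D.mo β.1 a - pr j y ∈ D.K e 0 := by
      have h := hpr.mi n le_rfl (fun i => if i.val < 0 then 1 else e) j (D.mo β.1 a - y)
        (by rw [D.sys_top]; exact hyK)
      rw [D.sys_top, map_sub, hpr.self j _ (subset_span ⟨β.1, a, β.2, rfl⟩)] at h
      exact h
    have h3 : D.mo β.1 a ∈ D.Fl (fun _ => 1) 0 j := by
      rw [hFl]; exact subset_span ⟨(β, a), rfl⟩
    have h4 : D.mo β.1 a - pr j y ∈ span O (range (D.fam (e := e) (j := j) b (p 0))) := by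
      refine span_mono ?_ (hK _ (sub_mem h3 h1.2) h2)
      rintro _ ⟨q, rfl⟩
      exact ⟨Sum.inl q, rfl⟩
    simpa using add_mem h4 h1.1

end Pool.Agent.P.MP_f4e0a3_ag.HP
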