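import Pool.Agent.P.MP_f4e0a3_ag.HP.IfaceA

/-! Step FAM2. -/

set_option autoImplicit false
set_option linter.unusedSectionVars false

namespace Pool.Agent.P.MP_f4e0a3_ag.HP

open MvPolynomial Matrix Submodule Set

theorem p_FAM2 (hKSAT : S_KSAT) (hNST : S_NST) (hPR : S_PR) (hLF : S_LF) :
    S_FAM2 := by
  intro Ω _ O n D t p e j k g b hS hw hb hbO hsat
  obtain ⟨k1, k2, k3⟩ := hKSAT Ω O n D e j k g t b hw hS.pos hS.wt.ne hb hbO hsat
  obtain ⟨-, -, -, -, -, l6, l7⟩ := hLF Ω O n D t hS.good hS.wt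
  obtain ⟨pr, hpr⟩ := hPR Ω O n D hS.good
  have sup0 : ∀ β : Fin n →₀ ℕ, Sup 0 β := fun β i hi => absurd hi (Nat.not_lt_zero _)
  rw [← k1]
  refine ⟨?_, fun hE z hz => ?_, fun hle z hz => ?_⟩
  · rintro (i | i)
    · exact (k2 i.1 i.2).1
    · have h1 := (l7 0 _ _ (hS.pf.mem 0 i.1.1.1 i.2 (Nat.zero_le _) (sup0 _))).2.2
      have h2 : i.1.1.1.degree = j := i.1.1.2
      rw [h2] at h1
      exact h1
  · obtain ⟨y, hy, hzy⟩ := hE z hz
    obtain ⟨n1, -, n3, -⟩ := hNST Ω O n D t p e 0 j pr hS hpr (Nat.zero_le _) y hy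
    have hK : pr j (z - y) ∈ D.K e 0 := by
      have := hpr.mi n le_rfl _ j (z - y) (by rw [UD.sys_top]; exact hzy)
      rwa [UD.sys_top] at this
    rw [map_sub, hpr.self j z (l6 0 j z hz)] at hK
    have h1 := k3 _ (sub_mem hz n3) hK
    have h2 : z = (z - pr j y) + pr j y := by abel
    rw [h2]
    refine add_mem (span_mono ?_ h1) (span_mono ?_ n1)
    · rintro _ ⟨q, rfl⟩
      exact ⟨Sum.inl q, rfl⟩
    · rintro _ ⟨β, a, hβ, hd, rfl⟩
      exact ⟨Sum.inr (⟨⟨β, hd⟩, hβ.2⟩, a), rfl⟩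
  · have h1 := hle hz
    clear hz
    induction h1 using span_induction with
    | mem w hw' =>
      obtain ⟨i | i, rfl⟩ := hw'
      · exact UD.Md.of_mem' (k2 i.1 i.2).2
      · exact UD.Md.of_mem (subset_span ⟨i.1.1.1, i.2, ⟨sup0 _, i.1.2⟩, rfl⟩)
    | zero => exact UD.Md.of_mem (zero_mem _)
    | add x y _ _ hx hy => exact hx.add hy
    | smul c x _ hx =>
      obtain ⟨y, h1, h2⟩ := hx
      refine ⟨c • y, smul_mem _ c h1, ?_⟩
      rw [← smul_sub]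
      exact UD.smul_mem_T (c : Ω) h2

end Pool.Agent.P.MP_f4e0a3_ag.HP
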