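import Pool.Agent.P.MP_f4e0a3_ag.HP.IfaceA

/-! Step FLAG. -/

set_option autoImplicit false
set_option linter.unusedSectionVars false

namespace Pool.Agent.P.MP_f4e0a3_ag.HP

open MvPolynomial Matrix Submodule Set

namespace FLAGx

theorem map_comb {R S : Type} [CommRing R] [CommRing S] {n : ℕ} (φ : R →+* S) (a : Fin n → R)
    (h : Fin n → MvPolynomial (Fin n) R) :
    MvPolynomial.map φ (∑ j, a j • h j) = ∑ j, φ (a j) • MvPolynomial.map φ (h j) := by
  rw [map_sum]
  refine Finset.sum_congr rfl fun j _ => ?_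
  rw [smul_eq_C_mul, smul_eq_C_mul, map_mul, map_C]

theorem span_comb {F : Type} [Field F] {n : ℕ} (a : Matrix (Fin n) (Fin n) F) (ha : a.det ≠ 0)
    (h : Fin n → MvPolynomial (Fin n) F) :
    Ideal.span (range fun i => ∑ j, a i j • h j) = Ideal.span (range h) := by
  apply le_antisymm
  · rw [Ideal.span_le]
    rintro _ ⟨i, rfl⟩
    exact Submodule.sum_mem _ fun j _ =>
      Submodule.smul_of_tower_mem _ _ (Ideal.subset_span ⟨j, rfl⟩)
  · rw [Ideal.span_le]
    rintro _ ⟨i, rfl⟩
    have e : h i = ∑ l, a⁻¹ i l • ∑ j, a l j • h j := by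
      simp only [Finset.smul_sum, smul_smul]
      rw [Finset.sum_comm]
      simp only [← Finset.sum_smul, ← Matrix.mul_apply, Matrix.nonsing_inv_mul a (Ne.isUnit ha)]
      simp [Matrix.one_apply]
    rw [e]
    exact Submodule.sum_mem _ fun l _ =>
      Submodule.smul_of_tower_mem _ _ (Ideal.subset_span ⟨l, rfl⟩)

end FLAGx

theorem p_FLAG (hNULL : S_NULL) (hSEL : S_SEL) :
    S_FLAG := by
  intro n e _ _ Ω _ _ O _ w hw
  let κ := IsLocalRing.ResidueField O
  let φ : O →+* κ := (resO O : O →+* κ)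
  have hφ : Function.Surjective φ := IsLocalRing.residue_surjective
  have : Infinite κ := Infinite.of_injective _ (algebraMap ℂ κ).injective
  have h1 : rs (fun p => φ (w p)) ≠ 0 := by
    have h := (hw.map (resO O)).ne_zero
    rwa [rs, ← AlgHom.comp_apply, comp_aeval] at h
  obtain ⟨ab, hab, hN⟩ := hSEL κ n e _ (tup_isHomogeneous _) (hNULL n e κ _ h1).1
  choose a ha using fun i j => hφ (ab i j)
  have hdet : (Matrix.of fun i j => O.subtype (a i j)).det ≠ 0 := by
    have e1 : φ (Matrix.of a).det = ab.det := by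
      rw [RingHom.map_det]; congr 1; ext i j; exact ha i j
    have e2 : O.subtype (Matrix.of a).det = (Matrix.of fun i j => O.subtype (a i j)).det := by
      rw [RingHom.map_det]; rfl
    rw [← e2]
    intro h
    have h' : (Matrix.of a).det = 0 := Subtype.ext h
    exact hab (by rw [← e1, h', map_zero])
  refine ⟨fun i => ∑ j, a i j • tup w j, fun i => ?_, fun k => ?_, ?_⟩
  · exact Submodule.sum_mem (homogeneousSubmodule (Fin n) O e) fun j _ =>
      Submodule.smul_mem _ _ (tup_isHomogeneous w j)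
  · obtain ⟨N, hN⟩ := hN k
    obtain ⟨c, hc⟩ := Ideal.mem_span_range_iff_exists_fun.1 hN
    choose q hq using fun i => MvPolynomial.map_surjective φ hφ (c i)
    refine ⟨N, q, X k ^ N - ∑ i, q i * (if i ≤ k then ∑ j, a i j • tup w j else X i),
      fun β => ?_, by ring⟩
    rw [← resO_eq_zero]
    change φ _ = 0
    rw [← coeff_map, map_sub, map_pow, map_X, ← hc, map_sum, ← Finset.sum_sub_distrib,
      Finset.sum_eq_zero, coeff_zero]
    intro i _
    rw [map_mul, hq, sub_eq_zero]
    congr 1
    split_ifs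
    · rw [FLAGx.map_comb]
      exact Finset.sum_congr rfl fun j _ => by rw [ha, map_tup]
    · rw [map_X]
  · refine Eq.trans ?_ (FLAGx.span_comb _ hdet _)
    congr 2
    funext i
    rw [FLAGx.map_comb]
    exact Finset.sum_congr rfl fun j _ => by rw [map_tup]; rfl

end Pool.Agent.P.MP_f4e0a3_ag.HP
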