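import Pool.Agent.P.MP_f4e0a3_ag.HP.IfaceA

/-! Step GAP. -/

set_option autoImplicit false
set_option linter.unusedSectionVars false

namespace Pool.Agent.P.MP_f4e0a3_ag.HP

open MvPolynomial Matrix Submodule Set

namespace GAPx

variable {Ω : Type} [Field Ω] {O : ValuationSubring Ω} {n : ℕ} {D : UD O n}

theorem osmul (o : O) (z : D.V) : o • z = (o : Ω) • z := rfl

theorem smul_Lam (a : Ω) {c : Ω} {z : D.V} (h : z ∈ D.Lam c) : a • z ∈ D.Lam (a * c) := by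
  induction h using span_induction with
  | mem z hz =>
    obtain ⟨β, b, rfl⟩ := hz
    exact subset_span ⟨β, b, by rw [mul_smul]⟩
  | zero => rw [smul_zero]; exact zero_mem _
  | add y w _ _ hy hw => rw [smul_add]; exact add_mem hy hw
  | smul o y _ hy =>
    rw [osmul, smul_comm, ← osmul]
    exact smul_mem _ o hy

theorem Lam_mono {c c' : Ω} (h : O.valuation c ≤ O.valuation c') : D.Lam c ≤ D.Lam c' := by
  obtain ⟨o, ho⟩ := (O.valuation_le_iff c c').1 h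
  refine span_le.2 ?_
  rintro _ ⟨β, b, rfl⟩
  rw [← ho, mul_smul, ← osmul]
  exact smul_mem _ o (subset_span ⟨β, b, rfl⟩)

theorem Md_smul (a : Ω) {c : Ω} {K : Submodule D.T D.V} {z : D.V} (h : D.Md (D.Lam c) K z) :
    D.Md (D.Lam (a * c)) K (a • z) := by
  obtain ⟨y, h1, h2⟩ := h
  exact ⟨a • y, smul_Lam a h1, by rw [← smul_sub]; exact UD.smul_mem_T a h2⟩

theorem pr_K {pr : ℕ → D.V →ₗ[Ω] D.V} (h : D.Pr pr) (e s j : ℕ) {z : D.V} (hz : z ∈ D.K e s) :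
    pr j z ∈ D.K e s := by
  have := h.mi n le_rfl (fun i => if i.val < s then 1 else e) j z
  rw [D.sys_top] at this
  exact this hz

end GAPx

theorem p_GAP (hPR : S_PR) (hNS0 : S_NS0) (hNST : S_NST) (hBOXC : S_BOXC) (hLAY0 : S_LAY0) (hGENP : S_GENP) (hLF : S_LF) :
    S_GAP := by
  intro Ω _ O n D t p e s i z u hSt hi hz hu hzu hk
  obtain ⟨pr, hpr⟩ := hPR Ω O n D hSt.good
  have hs : s.val < n := s.2
  have ht := hSt.wt.ne
  set ν := (n - (s.val + 1)) * (e - 1) with hν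
  set ω := corner n e (s.val + 1) with hω
  have hω0 : tw t ω ≠ 0 := tw_ne_zero ht ω
  have h1 : ∀ k : Fin n, s.val ≤ k.val →
      D.Md (D.Lam ((tw t ω)⁻¹ * (t s ^ i)⁻¹)) (D.K e s) (D.x k • z) := by
    intro k hsk
    obtain ⟨y, hy1, hy2⟩ := hk k hsk
    have a1 : pr (ν + i + 1) (D.x k • z) = D.x k • z := by
      have := hpr.x k 1 (ν + i) z
      rwa [pow_one, hpr.self _ z hz] at this
    have a2 := GAPx.pr_K hpr e s (ν + i + 1) hy2
    rw [map_sub, map_smul, a1] at a2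
    have a3 : pr (ν + i + 1) y ∈ D.Lam ((tw t ω)⁻¹ * (t s ^ (i + 1))⁻¹) :=
      (hNST Ω O n D t p e s (ν + i + 1) pr hSt hpr hs.le y hy1).2.2.2 _ fun b hb hd =>
        (hBOXC n e s hSt.pos).2.2.2.2 Ω O t hs (i + 1) b hSt.wt hb hd
    have a4 := GAPx.Md_smul (t k) (⟨_, a3, a2⟩ : D.Md _ _ _)
    rw [smul_inv_smul₀ (ht k)] at a4
    refine a4.mono (GAPx.Lam_mono ?_) le_rfl
    have e1 : (tw t ω)⁻¹ * (t s ^ i)⁻¹ = t s * ((tw t ω)⁻¹ * (t s ^ (i + 1))⁻¹) := by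
      have := ht s
      rw [pow_succ]
      field_simp
    rw [e1, map_mul, map_mul O.valuation (t s)]
    exact mul_le_mul_left (hSt.wt.anti s k hsk) _
  have hlt : ν + i < (n - s.val) * (e - 1) := by
    have e1 : n - s.val = n - (s.val + 1) + 1 := by omega
    rw [e1, add_mul, one_mul, ← hν]; omega
  have h2 := hNS0 Ω O n D e s (ν + i) _ hSt.good hSt.pos hlt z hz h1
  have h3 : D.Md (D.Lam ((tw t ω)⁻¹ * (t s ^ i)⁻¹)) (D.K e s) ((t s ^ i)⁻¹ • D.l s ^ i • u) :=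
    h2.congr (by rw [← neg_sub]; exact neg_mem hzu)
  have h4 := GAPx.Md_smul (t s ^ i) h3
  rw [smul_inv_smul₀ (pow_ne_zero i (ht s))] at h4
  have h5 := (hLAY0 Ω O n D e s hSt.good hSt.pos).1 _ i u (by omega) h4
  have h6 := GAPx.Md_smul (tw t ω) h5
  have e2 : tw t ω * (t s ^ i * ((tw t ω)⁻¹ * (t s ^ i)⁻¹)) = 1 := by
    have := ht s
    field_simp
  rw [e2] at h6
  obtain ⟨y, hy1, hy2⟩ := h6
  obtain ⟨y', hy3, hy4⟩ := hGENP Ω O n D t p e (s + 1) hSt hs y hy1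
  have h7 : tw t ω • u - y' ∈ D.K e (s + 1) := by
    have := add_mem hy2 hy4
    rwa [sub_add_sub_cancel] at this
  have h8 := UD.smul_mem_T (tw t ω)⁻¹ (GAPx.pr_K hpr e (s + 1) ν h7)
  rw [map_sub, map_smul, hpr.self _ u hu, smul_sub, inv_smul_smul₀ hω0] at h8
  refine ⟨_, ?_, h8⟩
  clear h8 h7 hy4
  induction hy3 using span_induction with
  | mem y hy =>
    obtain ⟨b, a, hb, rfl⟩ := hy
    have hv := ((hLF Ω O n D t hSt.good hSt.wt).2.2.2.2.2.2 (s + 1) b _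
      (hSt.pf.mem (s + 1) b a hs hb.1)).2.1
    by_cases hd : b.degree = ν
    · have hbω : b = ω := (hBOXC n e (s + 1) hSt.pos).2.2.2.1 b hb hd
      rw [← hd, hpr.self _ _ hv, ← hbω]
      exact subset_span ⟨b, a, hb, rfl⟩
    · rw [hpr.ne _ _ _ hv hd, smul_zero]; exact zero_mem _
  | zero => rw [map_zero, smul_zero]; exact zero_mem _
  | add y w _ _ hy hw => rw [map_add, smul_add]; exact add_mem hy hw
  | smul o y _ hy =>
    rw [GAPx.osmul, map_smul, smul_comm, ← GAPx.osmul]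
    exact smul_mem _ o hy

end Pool.Agent.P.MP_f4e0a3_ag.HP
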