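import Pool.Agent.P.MP_f4e0a3_ag.HP.IfaceG

/-! Step GCD. -/

set_option autoImplicit false
set_option linter.unusedSectionVars false

namespace Pool.Agent.P.MP_f4e0a3_ag.HP

open MvPolynomial Matrix Submodule Set

theorem p_GCD :
    S_GCD := by
  intro R ι _ _ _ _
  classical
  let _ : StrongNormalizationMonoid R := UniqueFactorizationMonoid.strongNormalizationMonoid
  let _ : StrongNormalizedGCDMonoid R := UniqueFactorizationMonoid.toStrongNormalizedGCDMonoid R
  constructor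
  · intro v hv
    obtain ⟨T₀, -⟩ := Function.ne_iff.1 hv
    obtain ⟨Δ, h1, h2⟩ := Finset.extract_gcd v (s := Finset.univ) ⟨T₀, Finset.mem_univ _⟩
    refine ⟨Finset.univ.gcd v, Δ, funext fun T => h1 T (Finset.mem_univ _), fun c hc => ?_⟩
    exact isUnit_of_dvd_one (h2 ▸ Finset.dvd_gcd fun T _ => hc T)
  · intro Δ v hΔ hv
    by_cases h0 : ∀ T, Δ T = 0
    · exact absurd (hΔ 0 fun T => by rw [h0 T]) not_isUnit_zero
    push Not at h0
    obtain ⟨T₀, h0⟩ := h0
    have hu : IsUnit (Finset.univ.gcd Δ) := hΔ _ fun T => Finset.gcd_dvd (Finset.mem_univ T)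
    have h1 : Δ T₀ ∣ Finset.univ.gcd fun T => v T₀ * Δ T :=
      Finset.dvd_gcd fun T _ => ⟨v T, by rw [hv T₀ T, mul_comm]⟩
    rw [Finset.gcd_mul_left, hu.dvd_mul_right, dvd_normalize_iff] at h1
    obtain ⟨c, hc⟩ := h1
    refine ⟨c, funext fun T => mul_right_cancel₀ h0 ?_⟩
    rw [hv T T₀, hc, Pi.smul_apply, smul_eq_mul]
    ring

end Pool.Agent.P.MP_f4e0a3_ag.HP
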