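import Pool.Agent.P.MP_f4e0a3_ag.HP.IfaceA

/-! Step GEN. -/

set_option autoImplicit false
set_option linter.unusedSectionVars false

namespace Pool.Agent.P.MP_f4e0a3_ag.HP

open MvPolynomial Matrix Submodule Set

namespace GENx

variable {Ω : Type} [Field Ω] {O : ValuationSubring Ω} {n : ℕ} {D : UD O n} {k : Fin n}
  {co : D.V ≃ₗ[Ω] (D.μ → MvPolynomial (Fin n) Ω)}

/-- The coefficient of a pure power. -/
noncomputable def ph (co : D.V ≃ₗ[Ω] (D.μ → MvPolynomial (Fin n) Ω)) (k : Fin n) (r : ℕ) (b : D.μ) :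
    D.V →ₗ[Ω] Ω where
  toFun z := coeff (Finsupp.single k r) (co z b)
  map_add' z w := by simp
  map_smul' c z := by simp

theorem ph_ne (h : D.Co (D.sys k) co) {i : Fin n} (hi : i ≠ k) (z : D.V) (r : ℕ) (b : D.μ) :
    ph co k r b (D.sys k i • z) = 0 := by
  change coeff _ (co _ b) = 0
  rw [h.mul, coeff_X_mul', if_neg (by simp [hi])]

theorem ph_zero (h : D.Co (D.sys k) co) (z : D.V) (b : D.μ) : ph co k 0 b (D.x k • z) = 0 := by
  change coeff _ (co _ b) = 0
  rw [show D.x k = D.sys k k by simp [UD.sys], h.mul, coeff_X_mul', if_neg (by simp)]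

theorem ph_succ (h : D.Co (D.sys k) co) (z : D.V) (r : ℕ) (b : D.μ) :
    ph co k (r + 1) b (D.x k • z) = ph co k r b z := by
  change coeff _ (co _ b) = coeff _ (co _ b)
  rw [show D.x k = D.sys k k by simp [UD.sys], h.mul, add_comm, Finsupp.single_add, coeff_X_mul]

theorem ph_e (h : D.Co (D.sys k) co) (r : ℕ) (a b : D.μ) :
    ph co k r b (D.e a) = if r = 0 ∧ a = b then 1 else 0 := by
  have : co (D.e a) = Pi.single a 1 := by
    rw [← co.eq_symm_apply, h.symm, th_apply, Finset.sum_eq_single a] <;>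
      simp +contextual
  change coeff _ (co _ b) = _
  rw [this, Pi.single_apply]
  by_cases c : a = b
  · simp [c, coeff_one, eq_comm (a := (0 : Fin n →₀ ℕ))]
  · simp [c, Ne.symm c]

theorem ph_pow (h : D.Co (D.sys k) co) (r : ℕ) (a b : D.μ) :
    ph co k r b (D.x k ^ r • D.e a) = if a = b then 1 else 0 := by
  induction r with
  | zero => simp [ph_e h]
  | succ r ih => rw [pow_succ', mul_smul, ph_succ h, ih]

theorem ind {A : Fin n → D.T} (h : D.Co A co) {P : D.V → Prop} (h0 : P 0) (h1 : ∀ a, P (D.e a))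
    (h2 : ∀ z w, P z → P w → P (z + w)) (h3 : ∀ (c : Ω) z, P z → P (c • z))
    (h4 : ∀ i z, P z → P (A i • z)) (z : D.V) : P z := by
  rw [← co.symm_apply_apply z, h.symm, th_apply]
  refine Finset.sum_induction _ P h2 h0 fun a _ => ?_
  induction co z a using MvPolynomial.induction_on with
  | C c => rw [aeval_C, algebraMap_smul]; exact h3 _ _ (h1 a)
  | add p q hp hq => rw [map_add, add_smul]; exact h2 _ _ hp hq
  | mul_X p i hp => rw [map_mul, aeval_X, mul_comm, mul_smul]; exact h4 _ _ hp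

theorem ph_l (h : D.Co (D.sys k) co) {U : Matrix D.μ D.μ O}
    (hU : ∀ a, D.l k • D.e a - ∑ b, U a b • D.x k • D.e b ∈
      span O {z | ∃ i b, i ≠ k ∧ z = D.sys k i • D.e b}) (z : D.V) :
    ∀ b', ph co k 0 b' (D.l k • z) = 0 ∧
      ∀ r, ph co k (r + 1) b' (D.l k • z) = ∑ b, ph co k r b z * U b b' := by
  have e : ∀ a r b', ph co k r b' (D.l k • D.e a) = ∑ b, U a b * ph co k r b' (D.x k • D.e b) := by
    intro a r b'
    have : ph co k r b' (D.l k • D.e a - ∑ b, U a b • D.x k • D.e b) = 0 := by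
      refine span_induction (p := fun z _ => ph co k r b' z = 0) ?_ (map_zero _)
        (fun x y _ _ a b => by rw [map_add, a, b, add_zero])
        (fun c x _ a => by
          change ph co k r b' ((c : Ω) • x) = 0
          rw [map_smul, a, smul_zero]) (hU a)
      rintro _ ⟨i, b, hi, rfl⟩
      exact ph_ne h hi _ _ _
    rw [map_sub, map_sum, sub_eq_zero] at this
    exact this.trans (Finset.sum_congr rfl fun b _ => map_smul (ph co k r b') (U a b : Ω) _)
  induction z using ind h with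
  | h0 => simp
  | h1 a =>
    refine fun b' => ⟨by simp [e, ph_zero h], fun r => ?_⟩
    by_cases c : r = 0 <;> simp [e, ph_succ h, ph_e h, c]
  | h2 z w hz hw =>
    simp [smul_add, hz, hw, add_mul, Finset.sum_add_distrib]
  | h3 c z hz =>
    simp [smul_comm (D.l k) c, hz, Finset.mul_sum, mul_assoc]
  | h4 i z hz =>
    intro b'
    rw [smul_comm]
    by_cases c : i = k
    · rw [c, show D.sys k k = D.x k by simp [UD.sys]]
      refine ⟨ph_zero h _ _, fun r => ?_⟩
      cases r <;> simp [ph_succ h, ph_zero h, hz]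
    · simp [ph_ne h c]

theorem ph_ev (h : D.Co (D.sys k) co) (I : Ideal O) (p : MvPolynomial (Fin n) O)
    (hp : ∀ β, coeff β p ∈ I) (a : D.μ) (r : ℕ) (b : D.μ) :
    ∃ o ∈ I, ph co k r b (aeval D.x (MvPolynomial.map O.subtype p) • D.e a) = o := by
  have : ∀ β, ∃ o : O, ph co k r b (D.mo β a) = o := fun β => by
    obtain ⟨o, ho⟩ := (h.lam 1 _).1 (subset_span ⟨β, a, (one_smul _ _).symm⟩) b (Finsupp.single k r)
    exact ⟨o, ho.trans (mul_one _)⟩
  choose o ho using this
  refine ⟨∑ β ∈ p.support, coeff β p * o β, I.sum_mem fun β _ => I.mul_mem_right _ (hp β), ?_⟩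
  conv_lhs => rw [p.as_sum]
  simp only [map_sum, map_monomial, aeval_monomial_tw, Finset.sum_smul, smul_assoc, map_smul]
  push_cast
  exact Finset.sum_congr rfl fun β _ => by rw [← ho]; rfl

end GENx

open GENx in
theorem p_GEN (hCO : S_CO) (hMDC : S_MDC) (hGENU : S_GENU) :
    S_GEN := by
  intro Ω _ O n D e g k he hP ⟨N, q, ρ, hρ, hF⟩ hG
  obtain ⟨U, hU, hU'⟩ := hGENU Ω O n D k hG
  obtain ⟨co, h⟩ := hCO Ω O n D k hG
  obtain ⟨e, rfl⟩ : ∃ e', e = e' + 1 := ⟨e - 1, by omega⟩
  have hO : ∀ z : D.V, (∀ r b, ∃ o : O, ph co k r b z = o) → ∀ r, ∃ M : D.μ → O,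
      ∀ b', ph co k r b' (D.l k • z) = (∑ b, M b * U b b' : O) := by
    intro z hz r
    choose o ho using hz
    cases r with
    | zero => exact ⟨0, fun b' => by simp [(ph_l h hU z b').1]⟩
    | succ r => exact ⟨o r, fun b' => by simp [(ph_l h hU z b').2, ho]⟩
  have hw : ∀ a j r b, ∃ o : O,
      ph co k r b (D.l k ^ j • aeval D.x (MvPolynomial.map O.subtype (q k)) • D.e a) = o := by
    intro a j
    induction j with
    | zero =>
      intro r b
      obtain ⟨o, -, ho⟩ := ph_ev h ⊤ (q k) (fun _ => trivial) a r b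
      exact ⟨o, by rw [pow_zero, one_smul, ho]⟩
    | succ j ih =>
      intro r b
      obtain ⟨M, hM⟩ := hO _ ih r
      exact ⟨_, by rw [pow_succ', mul_smul, hM]⟩
  choose M hM using fun a => hO _ (hw a e) N
  have key : ∀ a b', (1 : Matrix D.μ D.μ O) a b' - ∑ b, M a b * U b b' ∈
      IsLocalRing.maximalIdeal O := by
    intro a b'
    obtain ⟨o, o1, o2⟩ := ph_ev h _ ρ (fun β => (O.valuation_lt_one_iff _).2 (hρ β)) a N b'
    have h1 := congrArg
      (fun p => ph co k N b' (aeval D.x (MvPolynomial.map O.subtype p) • D.e a)) hF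
    simp only [map_pow, map_X, aeval_X, map_add, map_sum, map_mul, add_smul, Finset.sum_smul,
      ph_pow h, o2] at h1
    rw [Finset.sum_eq_single k (fun i _ hi => ?_) (by simp), if_pos le_rfl, mul_comm, mul_smul,
      ← hP, pow_succ', mul_smul, hM] at h1
    · convert o1 using 1
      apply Subtype.ext
      rw [sub_eq_iff_eq_add'.2 h1 |>.symm, one_apply]
      split_ifs <;> simp
    · rw [mul_comm, mul_smul]
      split_ifs with c
      · rw [← hP, pow_succ', mul_smul,
          show D.l i = D.sys k i from (if_pos (lt_of_le_of_ne c hi)).symm, ph_ne h hi]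
      · rw [map_X, aeval_X, show D.x i = D.sys k i from (if_neg fun c' => c (le_of_lt c')).symm,
          ph_ne h hi]
  refine hU' ?_
  have h2 : (IsLocalRing.residue O).mapMatrix (Matrix.of M * U) = 1 := by
    rw [← map_one (IsLocalRing.residue O).mapMatrix]
    ext a b'
    exact (Ideal.Quotient.eq.2 (key a b')).symm
  have h3 := congrArg det h2
  rw [← RingHom.map_det, det_mul, map_mul, det_one] at h3
  exact (IsLocalRing.residue_ne_zero_iff_isUnit _).1 (right_ne_zero_of_mul_eq_one h3)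

end Pool.Agent.P.MP_f4e0a3_ag.HP
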