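import Pool.Agent.P.MP_f4e0a3_ag.HP.IfaceA

/-! Step GENP. -/

set_option autoImplicit false
set_option linter.unusedSectionVars false

namespace Pool.Agent.P.MP_f4e0a3_ag.HP

open MvPolynomial Matrix Submodule Set

namespace GENPx

variable {Ω : Type} [Field Ω] {O : ValuationSubring Ω} {n : ℕ} {D : UD O n}

theorem osm (o : O) (v : D.V) : o • v = (o : Ω) • v := rfl

theorem lift {t : Fin n → Ω} {p : ℕ → (Fin n →₀ ℕ) → D.μ → D.V} (pf : D.PF t p) {e : ℕ}
    (s : Fin n) {i : ℕ} (hi : i < e) (y : D.V)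
    (hy : y ∈ span O {y | ∃ b a, Box e (s + 1) b ∧ y = p (s + 1) b a}) :
    D.Md (span O {y | ∃ b a, Box e s b ∧ y = p s b a}) (D.K e s) (D.l s ^ i • y) := by
  induction hy using span_induction with
  | mem y hy =>
    obtain ⟨b, a, hb, rfl⟩ := hy
    have hs : b s = 0 := hb.1 s (by omega)
    have h1 : (b + Finsupp.single s i : Fin n →₀ ℕ) s = i := by simp [hs]
    have h2 : (b + Finsupp.single s i).erase s = b := by
      ext j
      by_cases h : j = s
      · subst h; simp [hs]
      · rw [Finsupp.erase_ne h]; simp [Ne.symm h]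
    have h3 : Box e s (b + Finsupp.single s i) := by
      refine ⟨fun j hj => ?_, fun j => ?_⟩
      · have h : s ≠ j := fun h => by subst h; omega
        simp [h, hb.1 j (by omega)]
      · by_cases h : j = s
        · subst h; rw [h1]; exact hi
        · simpa [Finsupp.single_apply, Ne.symm h] using hb.2 j
    have h4 := pf.step s _ a h3.1
    rw [h1, h2] at h4
    refine ⟨_, subset_span ⟨_, a, h3, rfl⟩, ?_⟩
    simpa using neg_mem (UD.J_le_K (e := e) s h4)
  | zero => exact UD.Md.of_mem (by simp)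
  | add z w _ _ hz hw =>
    rw [smul_add]
    exact hz.add hw
  | smul o z _ hz =>
    obtain ⟨y, h1, h2⟩ := hz
    refine ⟨o • y, Submodule.smul_mem _ o h1, ?_⟩
    convert UD.smul_mem_T (o : Ω) h2 using 1
    rw [smul_sub, osm, osm, smul_comm (D.l s ^ i) (o : Ω)]

end GENPx

open GENPx in
theorem p_GENP (hLAY0 : S_LAY0) (hTOP : S_TOP) (hLF : S_LF) :
    S_GENP := by
  intro Ω _ O n D t p e s hst hs
  induction hs using Nat.decreasingInduction with
  | self =>
    intro z hz
    refine ((hTOP Ω O n D e hst.good hst.pos).2.1 z hz).mono (span_mono ?_) le_rfl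
    rintro _ ⟨a, rfl⟩
    exact ⟨0, a, ⟨fun _ _ => rfl, fun _ => hst.pos⟩, (hst.pf.top a).symm⟩
  | of_succ s hs ih =>
    obtain ⟨-, -, l3, l4, -, -⟩ := hLAY0 Ω O n D e ⟨s, hs⟩ hst.good hst.pos
    have lf := (hLF Ω O n D t hst.good hst.wt).2.2.2.2.2.2
    have hlam : span O {y | ∃ b a, Box e (s + 1) b ∧ y = p (s + 1) b a} ≤ D.Lam 1 := by
      refine span_le.2 ?_
      rintro _ ⟨b, a, hb, rfl⟩
      exact (lf _ b _ (hst.pf.mem (s + 1) b a hs hb.1)).1
    have main : ∀ i, i ≤ e → ∀ z ∈ D.Lam 1,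
        D.Md (span O {y | ∃ b a, Box e s b ∧ y = p s b a}) (D.K e s) (D.l ⟨s, hs⟩ ^ i • z) := by
      intro i hi
      induction hi using Nat.decreasingInduction with
      | self => exact fun z _ => UD.Md.of_mem' (l4 z)
      | of_succ i hi ih2 =>
        intro z hz
        obtain ⟨y, hy, hk⟩ := ih z hz
        obtain ⟨y', h1, h2⟩ := l3 _ hk
        have h3 := ih2 y' (h2 1 (sub_mem hz (hlam hy)))
        have h4 := lift hst.pf ⟨s, hs⟩ hi y hy
        refine (h4.add h3).congr ?_
        convert (D.K e s).smul_mem (D.l ⟨s, hs⟩ ^ i) h1 using 1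
        rw [pow_succ, mul_smul, smul_sub, smul_sub]
        abel
    intro z hz
    simpa using main 0 (Nat.zero_le _) z hz

end Pool.Agent.P.MP_f4e0a3_ag.HP
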