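import Pool.Agent.P.MP_f4e0a3_ag.HP.IfaceA

/-! Step GENU. -/

set_option autoImplicit false
set_option linter.unusedSectionVars false

namespace Pool.Agent.P.MP_f4e0a3_ag.HP

open MvPolynomial Matrix Submodule Set

theorem p_GENU :
    S_GENU := by
  intro Ω _ O n D k hk
  have h1 : ∀ a, D.l k • D.e a ∈
      span O (range fun p : Fin n × D.μ => D.sys k p.1 • D.e p.2) := fun a =>
    span_le.2 (by rintro _ ⟨p, rfl⟩; exact hk p.1 p.2) (D.lin k a)
  choose c hc using fun a => (mem_span_range_iff_exists_fun O).1 (h1 a)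
  have hkk : D.sys k k = D.x k := by simp [UD.sys]
  have h2 : ∀ a, D.l k • D.e a - ∑ b, c a (k, b) • D.x k • D.e b ∈
      span O {z | ∃ i b, i ≠ k ∧ z = D.sys k i • D.e b} := fun a => by
    rw [← hc a, Fintype.sum_prod_type, ← Finset.add_sum_erase _ _ (Finset.mem_univ k)]
    simp only [hkk, add_sub_cancel_left]
    exact sum_mem fun i hi => sum_mem fun b _ =>
      smul_mem _ _ (subset_span ⟨i, b, Finset.ne_of_mem_erase hi, rfl⟩)
  refine ⟨of fun a b => c a (k, b), h2, fun hU i a => ?_⟩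
  set W := span O (range fun p : Fin n × D.μ => D.sys (k + 1) p.1 • D.e p.2)
  have h3 : ∀ i b, i ≠ k → D.sys k i • D.e b ∈ W := fun i b hi => subset_span ⟨(i, b), by
    have : i.val < k + 1 ↔ i.val < k := by have := Fin.val_ne_of_ne hi; omega
    simp only [UD.sys, this]⟩
  have h4 : ∀ a, ∑ b, c a (k, b) • D.x k • D.e b ∈ W := fun a => by
    have h5 : D.l k • D.e a ∈ W := subset_span ⟨(k, a), by simp [UD.sys]⟩
    have h6 := span_le.2 (show _ ⊆ (W : Set D.V) by rintro _ ⟨i, b, hi, rfl⟩; exact h3 i b hi) (h2 a)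
    simpa using sub_mem h5 h6
  have h5 : ∀ b, D.x k • D.e b ∈ W := fun b => by
    have h6 := sum_mem (t := Finset.univ) fun a _ =>
      smul_mem W ((of fun a b => c a (k, b))⁻¹ b a) (h4 a)
    simp only [Finset.smul_sum, smul_smul] at h6
    rw [Finset.sum_comm] at h6
    simp only [← Finset.sum_smul] at h6
    have h7 : ∀ b', ∑ a, (of fun a b => c a (k, b))⁻¹ b a * c a (k, b') =
        (1 : Matrix D.μ D.μ O) b b' := fun b' => congrFun₂ (nonsing_inv_mul _ hU) b b'
    simpa [h7, one_apply] using h6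
  refine span_le.2 ?_ (hk i a)
  rintro _ ⟨⟨j, b⟩, rfl⟩
  by_cases hj : j = k
  · subst hj
    simpa only [hkk, SetLike.mem_coe] using h5 b
  · exact h3 j b hj

end Pool.Agent.P.MP_f4e0a3_ag.HP
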