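import Pool.Agent.P.MP_f4e0a3_ag.HP.IfaceG

/-! Step GLOB. -/

set_option autoImplicit false
set_option linter.unusedSectionVars false

namespace Pool.Agent.P.MP_f4e0a3_ag.HP

open MvPolynomial Matrix Submodule Set

theorem p_GLOB :
    S_GLOB := by
  intro ι _ I D F h
  let J : Ideal (MvPolynomial ι ℂ) :=
    { carrier := {q | ∃ p : MvPolynomial ι ℂ, ∀ c : ι → ℂ, (∀ Q ∈ I, aeval c Q = 0) →
        aeval c D ≠ 0 → aeval c q * F c = aeval c p}
      add_mem' := by
        rintro a b ⟨p, hp⟩ ⟨p', hp'⟩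
        exact ⟨p + p', fun c h1 h2 => by rw [map_add, map_add, add_mul, hp c h1 h2, hp' c h1 h2]⟩
      zero_mem' := ⟨0, fun c _ _ => by simp⟩
      smul_mem' := by
        rintro a b ⟨p, hp⟩
        exact ⟨a * p, fun c h1 h2 => by
          rw [smul_eq_mul, map_mul, map_mul, mul_assoc, hp c h1 h2]⟩ }
  have hD : D ∈ J.radical := by
    rw [← vanishingIdeal_zeroLocus_eq_radical (K := ℂ), mem_vanishingIdeal_iff]
    intro c₀ hc₀
    rw [mem_zeroLocus_iff] at hc₀
    by_contra h0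
    obtain ⟨A, B, h1, h2⟩ := h c₀
      (fun Q hQ => hc₀ Q ⟨0, fun c h1 _ => by rw [h1 Q hQ, zero_mul, map_zero]⟩) h0
    have h3 := hc₀ (B * B) ⟨A * B, fun c h3 h4 => by
      by_cases hq : aeval c B = 0
      · rw [map_mul, map_mul, hq, mul_zero, mul_zero, zero_mul]
      · rw [h2 c h3 h4 hq, map_mul, map_mul]
        field_simp⟩
    rw [map_mul] at h3
    exact h1 (mul_self_eq_zero.1 h3)
  obtain ⟨j, E, hE⟩ := hD
  refine ⟨E, j, fun c h1 h2 => ?_⟩
  rw [← hE c h1 h2, map_pow]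
  field_simp

end Pool.Agent.P.MP_f4e0a3_ag.HP
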