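import Pool.Agent.P.MP_f4e0a3_ag.HP.IfaceG

/-! Step GOODP. -/

set_option autoImplicit false
set_option linter.unusedSectionVars false

namespace Pool.Agent.P.MP_f4e0a3_ag.HP

open MvPolynomial Matrix Submodule Set

theorem p_GOODP (hSEP : S_SEP) (hVAL : S_VAL) (hOPEN : S_OPEN) (hEQV : S_EQV) (hCOMP : S_COMP) :
    S_GOODP := by
  intro n e _ _ m k r Δ hr hΔ h1 h2 hL w hw
  have gs : ∀ c : ℂ, c ≠ 0 → ∀ u ∈ Gs Δ, c • u ∈ Gs Δ := by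
    rintro c hc _ ⟨v, d, hv, hd, rfl⟩
    exact ⟨v, c * d, hv, mul_ne_zero hc hd, smul_smul _ _ _⟩
  have gp : ∀ g : GL (Fin n) ℂ, ∀ u ∈ Gs Δ, (r.pt u fun _ => g) ∈ Gs Δ := by
    rintro g _ ⟨v, d, hv, hd, rfl⟩
    obtain ⟨a1, c, hc, a2⟩ := (hEQV n e m k r Δ hr hΔ v hv).2 1 g
    refine ⟨_, d * c⁻¹, a1, mul_ne_zero hd (inv_ne_zero hc), ?_⟩
    rw [a2, r.pt_smul, smul_smul, inv_mul_cancel_right₀ hc]
  have cl : ∀ (f : ((Fin k → Mon (Fin n) m) → ℂ) → (Fin k → Mon (Fin n) m) → ℂ)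
      (T : MvPolynomial (Fin k → Mon (Fin n) m) ℂ → MvPolynomial (Fin k → Mon (Fin n) m) ℂ),
      (∀ u Q, aeval u (T Q) = aeval (f u) Q) → (∀ u ∈ Gs Δ, f u ∈ Gs Δ) →
      ∀ u ∈ Cl (Gs Δ), f u ∈ Cl (Gs Δ) := fun f T hT hf u hu Q hQ => by
    rw [← hT]
    exact hu _ fun v hv => (hT v Q).trans (hQ _ (hf v hv))
  have w0 : ev Δ w ∈ Gs Δ := ⟨w, 1, hw, one_ne_zero, (one_smul _ _).symm⟩
  refine (hSEP n _ r (k * m) {u | u ∈ Cl (Gs Δ) ∧ u ∉ Gs Δ} (Gs Δ)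
    (ev Δ w) hr.scal ⟨?_, ?_⟩ ?_ ?_ (hVAL n e m k r Δ hr hΔ h1 h2 w hw) ?_).imp fun N =>
    Exists.imp fun P ⟨a1, a2, a3, a4, a5⟩ =>
      ⟨⟨a1, a2, a3, fun u hu hP => by_contra fun h => hP (a4 u ⟨hu, h⟩)⟩, a5⟩
  · intro Q hQ
    have := ((hCOMP _ Q).2.1 (ev Δ w) 0 0 fun c hc => by
      rw [hQ _ (gs c hc _ w0), mul_zero]).1
    rw [homogeneousComponent_zero, aeval_C] at this
    rw [aeval_zero]
    exact this
  · rintro ⟨v, d, hv, hd, h⟩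
    exact smul_ne_zero hd (hEQV n e m k r Δ hr hΔ v hv).1 h.symm
  · refine fun u hu c hc => ⟨cl (c • ·) (aeval fun i => C c * X i) (fun u Q => ?_) (gs c hc) u hu.1,
      fun h => hu.2 ?_⟩
    · rw [← AlgHom.comp_apply, comp_aeval]
      congr 2
      funext i
      simp
    · simpa [smul_smul, hc] using gs c⁻¹ (inv_ne_zero hc) _ h
  · refine fun u hu g _ => ⟨cl (r.pt · fun _ => g) (r.gact fun _ => g)
      (fun u Q => r.aeval_act _ u Q) (gp g) u hu.1, fun h => hu.2 ?_⟩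
    exact r.pt_inv_pt u (fun _ => g) ▸ gp g⁻¹ _ h
  · intro u hu h
    obtain ⟨Q, b1, b2⟩ := hOPEN n e m k Δ u hΔ (hL u hu)
    exact b1 (h Q fun v hv => by_contra fun h' => hv.2 (b2 v hv.1 h'))

end Pool.Agent.P.MP_f4e0a3_ag.HP
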