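import Pool.Agent.P.MP_f4e0a3_ag.HP.IfaceG

/-! Step GRAD. -/

set_option autoImplicit false
set_option linter.unusedSectionVars false

namespace Pool.Agent.P.MP_f4e0a3_ag.HP

open MvPolynomial Matrix Submodule Set

theorem p_GRAD :
    S_GRAD := by
  intro n d X' Y hX ψ hP hψ
  have hj : ∀ f : MvPolynomial (Fin n) ℂ, jac (span ℂ {f}) = span ℂ (range (grad f)) :=
    fun f => iSup_map_span f
  refine ⟨fun h₀ hh₀ => ?_, ?_⟩
  · let T : (Fin n → (Fin n →₀ ℕ)) → MvPolynomial (Fin 1 → (Fin n →₀ ℕ)) ℂ := fun I =>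
      (Matrix.of fun i j => C (I j i + 1 : ℂ) * X fun _ => I j + Finsupp.single i 1).det
    have hT : ∀ I, (T I).IsHomogeneous n := by
      intro I
      simp only [T, det_apply']
      refine IsHomogeneous.sum _ _ _ fun s _ => ?_
      rw [← map_intCast (C : ℂ →+* MvPolynomial (Fin 1 → (Fin n →₀ ℕ)) ℂ)]
      have := IsHomogeneous.prod Finset.univ (fun j => (C (I j (s j) + 1 : ℂ) *
        X fun _ => I j + Finsupp.single (s j) 1 : MvPolynomial (Fin 1 → (Fin n →₀ ℕ)) ℂ))
        (fun _ => 1) (fun j _ => isHomogeneous_C_mul_X _ _)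
      rw [Finset.sum_const, Finset.card_univ, Fintype.card_fin, smul_eq_mul, mul_one] at this
      exact this.C_mul _
    have hT' : ∀ (h : Fin 1 → MvPolynomial (Fin n) ℂ) (P : MvPolynomial _ ℂ),
        eval (plucker h) (aeval T P) = eval (plucker (grad (h 0))) P := by
      intro h P
      have h1 : (fun I => aeval (plucker h) (T I)) = plucker (grad (h 0)) := by
        funext I
        rw [AlgHom.map_det, plucker]
        congr 1
        ext i j
        simp [plucker_one, grad, coeff_pderiv, mul_comm]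
      rw [← h1]
      exact DFunLike.congr_fun (comp_aeval T (aeval (plucker h))) P
    rw [range_one] at hh₀
    obtain ⟨m, P, Q, hP, hQ, h1, h2⟩ := hψ.1 (grad (h₀ 0)) (hj _ ▸ hX _ hh₀)
    refine ⟨n * m, aeval T P, aeval T Q, hP.aeval T hT, hQ.aeval T hT, by rwa [hT'],
      fun h hh h3 => ?_⟩
    have hh' : span ℂ {h 0} ∈ X' := range_one h ▸ hh
    rw [hT'] at h3
    rw [hT', hT', ← h2 _ (hj _ ▸ hX _ hh') h3]
    simp only [range_one, hj]
  · rintro g ⟨L, hL⟩ ⟨L', hL'⟩ h
    obtain ⟨f, -, -, rfl⟩ := hP hL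
    have h1 : L' = span ℂ {sub g.val f} := by
      rw [show L' = _ from h, Submodule.map_span, Set.image_singleton]; rfl
    subst h1
    apply hψ.2 g
    show jac (span ℂ {sub g.val f}) = (jac (span ℂ {f})).map _
    rw [hj, hj, grad_sub]
    exact span_act2 (Matrix.SpecialLinearGroup.toGL g) g.val (grad f)

end Pool.Agent.P.MP_f4e0a3_ag.HP
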