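import Pool.Agent.P.MP_f4e0a3_ag.HP.IfaceA

/-! Step HOM. -/

set_option autoImplicit false
set_option linter.unusedSectionVars false

namespace Pool.Agent.P.MP_f4e0a3_ag.HP

open MvPolynomial Matrix Submodule Set

namespace HOMx

theorem scale {F ι T : Type} [Field F] [CommRing T] [Algebra F T] {q : MvPolynomial ι F} {N : ℕ}
    (hq : q.IsHomogeneous N) (t : T) (y : ι → T) :
    aeval (fun i => t * y i) q = t ^ N * aeval y q := by
  conv_lhs => rw [q.as_sum]
  conv_rhs => rw [q.as_sum]
  rw [map_sum, map_sum, Finset.mul_sum]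
  refine Finset.sum_congr rfl fun α hα => ?_
  rw [aeval_monomial, aeval_monomial, hq.degree_eq_sum_deg_support hα,
    ← Finset.prod_pow_eq_pow_sum]
  simp only [Finsupp.prod, mul_pow, Finset.prod_mul_distrib]
  ring

end HOMx

theorem p_HOM :
    S_HOM := by
  intro F _ n ι c d k hc htop
  set I : Ideal (MvPolynomial (Fin n) F) := Ideal.span (range c) with hI
  let x : MvPolynomial (Fin n) F ⧸ I := Ideal.Quotient.mk I (X k)
  let T := Localization.Away x
  let ψ : MvPolynomial (Fin n) F →ₐ[F] T :=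
    (IsScalarTower.toAlgHom F (MvPolynomial (Fin n) F ⧸ I) T).comp (Ideal.Quotient.mkₐ F I)
  let t : T := IsLocalization.Away.invSelf x
  let φ : MvPolynomial (Fin n) F →ₐ[F] T := aeval fun j => t * ψ (X j)
  have hψ : ∀ q, aeval (fun j => ψ (X j)) q = ψ q := fun q => by
    exact (congrArg (fun f : MvPolynomial (Fin n) F →ₐ[F] T => f q) (aeval_unique ψ)).symm
  have hk : I ⊔ Ideal.span {X k - 1} ≤ RingHom.ker φ := by
    refine sup_le (Ideal.span_le.2 ?_) (Ideal.span_le.2 ?_)
    · rintro _ ⟨i, rfl⟩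
      have h0 : Ideal.Quotient.mk I (c i) = 0 :=
        Ideal.Quotient.eq_zero_iff_mem.2 (Ideal.subset_span ⟨i, rfl⟩)
      have h1 : ψ (c i) = 0 := by
        show algebraMap _ T (Ideal.Quotient.mk I (c i)) = 0
        rw [h0, map_zero]
      show φ (c i) = 0
      rw [show φ (c i) = t ^ d i * aeval (fun j => ψ (X j)) (c i) from HOMx.scale (hc i) _ _,
        hψ, h1, mul_zero]
    · rintro _ rfl
      show φ (X k - 1) = 0
      rw [map_sub, map_one, sub_eq_zero, show φ (X k) = t * ψ (X k) from aeval_X _ _, mul_comm]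
      exact IsLocalization.Away.mul_invSelf (S := T) x
  have h1 : φ 1 = 0 := hk (htop ▸ Submodule.mem_top)
  rw [map_one, ← map_one (algebraMap (MvPolynomial (Fin n) F ⧸ I) T),
    IsLocalization.map_eq_zero_iff (Submonoid.powers x)] at h1
  obtain ⟨⟨_, N, rfl⟩, hN⟩ := h1
  refine ⟨N, Ideal.Quotient.eq_zero_iff_mem.1 ?_⟩
  rw [map_pow]
  simpa using hN

end Pool.Agent.P.MP_f4e0a3_ag.HP
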