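import Pool.Agent.P.MP_f4e0a3_ag.HP.IfaceG

/-! Step IMACT. -/

set_option autoImplicit false
set_option linter.unusedSectionVars false

namespace Pool.Agent.P.MP_f4e0a3_ag.HP

open MvPolynomial Matrix Submodule Set

namespace IMACTx

theorem le {R : Type} [CommRing R] {n m : ℕ} (a g : Matrix (Fin n) (Fin n) R)
    (h h' : Fin n → MvPolynomial (Fin n) R) (a' : Matrix (Fin n) (Fin n) R)
    (e : act2 a' 1 h' = act2 1 g h) {y : MvPolynomial (Fin n) R} (hy : y ∈ Im m h) :
    sub g y ∈ Im m h' := by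
  refine ⟨?_, sub_isHomogeneous g hy.2⟩
  have h1 : Ideal.span (range h) ≤ (Ideal.span (range h')).comap (sub g) := by
    rw [Ideal.span_le]
    rintro _ ⟨j, rfl⟩
    change sub g (h j) ∈ Ideal.span (range h')
    rw [← act2_one_left, ← e]
    exact Ideal.sum_mem _ fun i _ => Ideal.mul_mem_left _ _ (by
      rw [sub_one]
      exact Ideal.subset_span ⟨i, rfl⟩)
  exact h1 hy.1

end IMACTx

theorem p_IMACT :
    S_IMACT := by
  intro R _ n m a g h
  ext y
  constructor
  · intro hy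
    refine ⟨sub (g⁻¹).val y, IMACTx.le 1 _ _ h a.val ?_ hy, ?_⟩
    · rw [act2_act2, mul_one, Units.mul_inv]
    · change sub g.val (sub (g⁻¹).val y) = y
      rw [sub_sub, Units.inv_mul, sub_one]
  · rintro ⟨y, hy, rfl⟩
    refine IMACTx.le 1 _ h _ (a⁻¹).val ?_ hy
    rw [act2_act2, mul_one, Units.mul_inv]

end Pool.Agent.P.MP_f4e0a3_ag.HP
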