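import Pool.Agent.P.MP_f4e0a3_ag.HP.IfaceA

/-! Step IMSP. -/

set_option autoImplicit false
set_option linter.unusedSectionVars false

namespace Pool.Agent.P.MP_f4e0a3_ag.HP

open MvPolynomial Matrix Submodule Set

namespace IMSPx

theorem main {R : Type} [CommRing R] {n e m : ℕ} (h : Fin n → MvPolynomial (Fin n) R)
    (hh : ∀ i, (h i).IsHomogeneous e) (hem : e ≤ m) :
    Im m h = span R (range fun q : Mon (Fin n) (m - e) × Fin n =>
      monomial q.1.1 (1 : R) * h q.2) := by
  apply le_antisymm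
  · intro y hy
    obtain ⟨h1, h2⟩ := mem_Im.1 hy
    obtain ⟨q, rfl⟩ := Ideal.mem_span_range_iff_exists_fun.1 h1
    have h3 : homogeneousComponent m (∑ i, q i * h i) = ∑ i, q i * h i := by
      rw [homogeneousComponent_of_mem h2, if_pos rfl]
    rw [← h3, map_sum]
    refine sum_mem fun i _ => ?_
    rw [homogeneousComponent_mul_right _ _ (hh i), if_pos hem,
      ← frm_coeff (homogeneousComponent_isHomogeneous (m - e) (q i)), frm, Finset.sum_mul]
    refine sum_mem fun β _ => ?_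
    have e1 : ∀ c : R, monomial β.1 c * h i = c • (monomial β.1 (1 : R) * h i) := fun c => by
      rw [← smul_mul_assoc, smul_monomial, smul_eq_mul, mul_one]
    rw [e1]
    exact smul_mem _ _ (subset_span ⟨(β, i), rfl⟩)
  · rw [span_le]
    rintro _ ⟨q, rfl⟩
    refine mem_Im.2 ⟨Ideal.mul_mem_left _ _ (Ideal.subset_span ⟨q.2, rfl⟩), ?_⟩
    have := (isHomogeneous_monomial (1 : R) q.1.2).mul (hh q.2)
    rwa [Nat.sub_add_cancel hem] at this

end IMSPx

theorem p_IMSP :
    S_IMSP := by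
  intro R _ n e m h hh hem
  refine ⟨IMSPx.main h hh hem, ?_⟩
  rw [IMSPx.main h hh le_rfl]
  congr 1
  have h0 : ∀ β : Mon (Fin n) (e - e), β.1 = 0 := fun β =>
    (Finsupp.degree_eq_zero_iff _).1 (β.2.trans (Nat.sub_self e))
  ext y
  constructor
  · rintro ⟨q, rfl⟩
    exact ⟨q.2, by simp [h0]⟩
  · rintro ⟨i, rfl⟩
    exact ⟨(⟨0, by simp⟩, i), by simp⟩

end Pool.Agent.P.MP_f4e0a3_ag.HP
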