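import Pool.Agent.P.MP_f4e0a3_ag.HP.IfaceA

/-! Step IND. -/

set_option autoImplicit false
set_option linter.unusedSectionVars false

namespace Pool.Agent.P.MP_f4e0a3_ag.HP

open MvPolynomial Matrix Submodule Set

namespace INDx

variable {Ω : Type} [Field Ω] {O : ValuationSubring Ω} {n : ℕ}

/-- independence in terms of finite sums -/
def Ind (D : UD O n) (p : ℕ → (Fin n →₀ ℕ) → D.μ → D.V) (e s : ℕ) : Prop :=
  ∀ (F : Finset ((Fin n →₀ ℕ) × D.μ)) (c : (Fin n →₀ ℕ) × D.μ → Ω), (∀ q ∈ F, Box e s q.1) →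
    ∑ q ∈ F, c q • p s q.1 q.2 ∈ D.K e s → ∀ q ∈ F, c q = 0

variable {D : UD O n} {t : Fin n → Ω} {p : ℕ → (Fin n →₀ ℕ) → D.μ → D.V} {e : ℕ}

theorem top (hTOP : S_TOP) (h : D.St t p e) : Ind D p e n := by
  classical
  intro F c hF hs
  have h0 : ∀ q ∈ F, q = (0, q.2) := fun q hq =>
    Prod.ext (Finsupp.ext fun i => (hF q hq).1 i i.2) rfl
  have h1 : ∑ q ∈ F, c q • p n q.1 q.2 =
      ∑ a, (if a ∈ F.image Prod.snd then c (0, a) else 0) • D.e a := by
    simp only [ite_smul, zero_smul]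
    rw [Finset.sum_ite_mem, Finset.univ_inter, Finset.sum_image]
    · refine Finset.sum_congr rfl fun q hq => ?_
      rw [h0 q hq, h.pf.top]
    · intro q hq q' hq' e
      rw [h0 q hq, h0 q' hq']; exact Prod.ext rfl e
  rw [h1] at hs
  have h2 := (hTOP Ω O n D e h.good h.pos).2.2.1 _ hs
  intro q hq
  have h3 := congrFun h2 q.2
  rw [if_pos (Finset.mem_image_of_mem _ hq)] at h3
  rw [h0 q hq]; exact h3

theorem step (hLAY0 : S_LAY0) (h : D.St t p e) (s : Fin n) (ih : Ind D p e (s + 1)) :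
    Ind D p e s := by
  classical
  intro F c hF hs
  have h1 : ∑ q ∈ F, c q • D.l s ^ q.1 s • p (s + 1) (q.1.erase s) q.2 ∈ D.K e s := by
    have h2 : ∑ q ∈ F, c q • (p s q.1 q.2 - D.l s ^ q.1 s • p (s + 1) (q.1.erase s) q.2) ∈
        D.K e s := Submodule.sum_mem _ fun q hq =>
      UD.smul_mem_T _ (UD.J_le_K _ (h.pf.step s q.1 q.2 (hF q hq).1))
    have h3 := (D.K e s).sub_mem hs h2
    simp only [smul_sub, Finset.sum_sub_distrib, sub_sub_cancel] at h3
    exact h3
  suffices H : ∀ i, ∀ q ∈ F, q.1 s = i → c q = 0 from fun q hq => H _ q hq rfl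
  intro i
  induction i using Nat.strong_induction_on with
  | _ i hi =>
  intro q₀ hq₀ hq₀i
  have hie : i < e := hq₀i ▸ (hF q₀ hq₀).2 s
  have h2 : ∑ q ∈ F, c q • D.l s ^ q.1 s • p (s + 1) (q.1.erase s) q.2 =
      D.l s ^ i • ∑ q ∈ F.filter (fun q => q.1 s = i), c q • p (s + 1) (q.1.erase s) q.2 -
      D.l s ^ (i + 1) • -∑ q ∈ F.filter (fun q => ¬ q.1 s = i),
        c q • D.l s ^ (q.1 s - (i + 1)) • p (s + 1) (q.1.erase s) q.2 := by
    rw [smul_neg, sub_neg_eq_add, Finset.smul_sum, Finset.smul_sum,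
      ← Finset.sum_filter_add_sum_filter_not F fun q => q.1 s = i]
    congr 1
    · refine Finset.sum_congr rfl fun q hq => ?_
      rw [(Finset.mem_filter.1 hq).2, smul_comm]
    · refine Finset.sum_congr rfl fun q hq => ?_
      obtain ⟨hq1, hq2⟩ := Finset.mem_filter.1 hq
      rcases lt_or_gt_of_ne hq2 with h3 | h3
      · rw [hi _ h3 q hq1 rfl]; simp
      · rw [smul_comm (D.l s ^ (i + 1)), ← mul_smul (D.l s ^ (i + 1)), ← pow_add,
          Nat.add_sub_cancel' h3]
  rw [h2] at h1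
  have h3 := (hLAY0 Ω O n D e s h.good h.pos).2.1 i _ _ hie h1
  have h4 : ∀ q ∈ F.filter (fun q => q.1 s = i),
      (q.1.erase s + Finsupp.single s i, q.2) = q := fun q hq => by
    rw [← (Finset.mem_filter.1 hq).2, Finsupp.erase_add_single]
  have h5 := ih ((F.filter fun q => q.1 s = i).image fun q => (q.1.erase s, q.2))
    (fun q => c (q.1 + Finsupp.single s i, q.2)) ?_ ?_ (q₀.1.erase s, q₀.2)
    (Finset.mem_image_of_mem _ (Finset.mem_filter.2 ⟨hq₀, hq₀i⟩))
  · simpa only [h4 q₀ (Finset.mem_filter.2 ⟨hq₀, hq₀i⟩)] using h5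
  · intro q hq
    obtain ⟨q', hq', rfl⟩ := Finset.mem_image.1 hq
    have h6 := hF q' (Finset.mem_filter.1 hq').1
    refine ⟨fun j hj => ?_, fun j => ?_⟩
    · by_cases hjs : j = s
      · rw [hjs]; exact Finsupp.erase_same
      · rw [Finsupp.erase_ne hjs]
        exact h6.1 j (by have := Fin.val_ne_of_ne hjs; omega)
    · by_cases hjs : j = s
      · rw [hjs]; exact Finsupp.erase_same.trans_lt h.pos
      · rw [Finsupp.erase_ne hjs]; exact h6.2 j
  · rw [Finset.sum_image]
    · convert h3 using 2 with q hq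
      simp only [h4 q hq]
    · intro q hq q' hq' e
      rw [← h4 q hq, ← h4 q' hq']
      simp only [Prod.mk.injEq] at e ⊢
      rw [e.1, e.2]; exact ⟨rfl, rfl⟩

end INDx

theorem p_IND (hLAY0 : S_LAY0) (hTOP : S_TOP) :
    S_IND := by
  classical
  intro Ω _ O n D t p e s h hs
  have H : INDx.Ind D p e s := by
    induction hs using Nat.decreasingInduction with
    | self => exact INDx.top hTOP h
    | of_succ k hk ih => exact INDx.step hLAY0 h ⟨k, hk⟩ ih
  rw [linearIndependent_iff']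
  intro F c hc q hq
  have h1 := H (F.image fun q => (q.1.1, q.2))
    (fun q => if hb : Box e s q.1 then c (⟨q.1, hb⟩, q.2) else 0) ?_ ?_ (q.1.1, q.2)
    (Finset.mem_image_of_mem _ hq)
  · simpa only [dif_pos q.1.2] using h1
  · intro q hq
    obtain ⟨q', -, rfl⟩ := Finset.mem_image.1 hq
    exact q'.1.2
  · rw [Finset.sum_image]
    · simp only [← map_smul, ← map_sum] at hc
      rw [mkQ_apply, Submodule.Quotient.mk_eq_zero, restrictScalars_mem] at hc
      convert hc using 2 with q hq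
      simp only [dif_pos q.1.2]
    · intro q _ q' _ e
      simp only [Prod.mk.injEq] at e
      exact Prod.ext (Subtype.ext e.1) e.2

end Pool.Agent.P.MP_f4e0a3_ag.HP
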