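import Pool.Agent.P.MP_f4e0a3_ag.HP.IfaceG

/-! Step KER. -/

set_option autoImplicit false
set_option linter.unusedSectionVars false

namespace Pool.Agent.P.MP_f4e0a3_ag.HP

open MvPolynomial Matrix Submodule Set

namespace KERx

variable {α ρ κ : Type} [Fintype α] [DecidableEq α] [Fintype ρ] [Fintype κ] [DecidableEq κ]

theorem span_le (W H : Matrix α κ ℂ) (B : Matrix κ κ ℂ) (h : W = H * B) :
    span ℂ (range fun i a => W a i) ≤ span ℂ (range fun i a => H a i) := by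
  rw [Submodule.span_le]
  rintro _ ⟨i, rfl⟩
  have e : (fun a => W a i) = ∑ j, B j i • fun a => H a j := by
    funext a
    simp [h, Matrix.mul_apply, mul_comm]
  change (fun a => W a i) ∈ _
  rw [e]
  exact Submodule.sum_mem _ fun j _ => Submodule.smul_mem _ _ (subset_span ⟨j, rfl⟩)

theorem mulVec_eq (h : κ → α → ℂ) (c : κ → ℂ) : (Matrix.of h)ᵀ *ᵥ c = ∑ i, c i • h i := by
  funext a
  simp [Matrix.mulVec, dotProduct, mul_comm]

theorem split (M : Matrix ρ α ℂ) (h : κ → α → ℂ) (hl : LinearIndependent ℂ h)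
    (hk : ∀ y, M *ᵥ y = 0 → y ∈ span ℂ (range h)) :
    ∃ (L1 : Matrix α ρ ℂ) (L2 : Matrix α κ ℂ) (P : Matrix κ α ℂ), L1 * M + L2 * P = 1 := by
  classical
  obtain ⟨p, hp⟩ := (Fintype.linearCombination ℂ h).exists_leftInverse_of_injective
    (LinearMap.ker_eq_bot.2 (linearIndependent_iff_injective_fintypeLinearCombination.1 hl))
  obtain ⟨g, hg⟩ := ((Matrix.toLin' M).prod p).exists_leftInverse_of_injective (by
    rw [LinearMap.ker_eq_bot']
    intro y hy
    have h1 : M *ᵥ y = 0 := congrArg Prod.fst hy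
    have h2 : p y = 0 := congrArg Prod.snd hy
    have h3 := hk y h1
    rw [← Fintype.range_linearCombination] at h3
    obtain ⟨c, rfl⟩ := h3
    have h4 : c = 0 := (LinearMap.congr_fun hp c).symm.trans h2
    rw [h4, map_zero])
  refine ⟨LinearMap.toMatrix' (g ∘ₗ LinearMap.inl ℂ _ _),
    LinearMap.toMatrix' (g ∘ₗ LinearMap.inr ℂ _ _), LinearMap.toMatrix' p, ?_⟩
  apply Matrix.toLin'.injective
  rw [map_add, Matrix.toLin'_mul, Matrix.toLin'_mul, Matrix.toLin'_toMatrix',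
    Matrix.toLin'_toMatrix', Matrix.toLin'_toMatrix', Matrix.toLin'_one, ← hg]
  refine LinearMap.ext fun y => ?_
  simp only [LinearMap.add_apply, LinearMap.comp_apply, ← map_add, LinearMap.inl_apply,
    LinearMap.inr_apply, Prod.mk_add_mk, add_zero, zero_add]
  rfl

theorem fin (M : Matrix ρ α ℂ) (L1 : Matrix α ρ ℂ) (L2 : Matrix α κ ℂ) (P : Matrix κ α ℂ)
    (h : κ → α → ℂ) (hd : (L1 * M + L2 * P).det ≠ 0) (hl : LinearIndependent ℂ h)
    (hk : ∀ i, M *ᵥ h i = 0) :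
    span ℂ (range fun i a => (adjugate (L1 * M + L2 * P) * L2) a i) = span ℂ (range h) := by
  set N := L1 * M + L2 * P with hN
  set H : Matrix α κ ℂ := (Matrix.of h)ᵀ with hH
  have h0 : M * H = 0 := by
    ext r i
    exact congrFun (hk i) r
  have h1 : N * H = L2 * (P * H) := by
    rw [hN, Matrix.add_mul, Matrix.mul_assoc, h0, Matrix.mul_zero, zero_add, Matrix.mul_assoc]
  have h2 : adjugate N * L2 * (P * H) = N.det • H := by
    rw [Matrix.mul_assoc, ← h1, ← Matrix.mul_assoc, adjugate_mul, Matrix.smul_mul, Matrix.one_mul]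
  have h3 : (P * H).det ≠ 0 := by
    intro hz
    obtain ⟨c, hc, hc'⟩ := Matrix.exists_mulVec_eq_zero_iff.2 hz
    have h4 : (N.det • H) *ᵥ c = 0 := by
      rw [← h2, ← Matrix.mulVec_mulVec, hc', Matrix.mulVec_zero]
    rw [Matrix.smul_mulVec, smul_eq_zero, hH, mulVec_eq] at h4
    exact hc (funext (Fintype.linearIndependent_iff.1 hl c (h4.resolve_left hd)))
  apply le_antisymm
  · refine span_le _ H (N.det • (P * H)⁻¹) ?_
    rw [Matrix.mul_smul, ← Matrix.smul_mul, ← h2, Matrix.mul_assoc _ (P * H),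
      Matrix.mul_nonsing_inv _ (Ne.isUnit h3), Matrix.mul_one]
  · refine span_le H _ (N.det⁻¹ • (P * H)) ?_
    rw [Matrix.mul_smul, h2, smul_smul, inv_mul_cancel₀ hd, one_smul]

end KERx

theorem p_KER :
    S_KER := by
  intro ι α ρ κ _ _ _ _ _ M u₁ h₁ hl hk
  obtain ⟨L1, L2, P, hs⟩ := KERx.split _ h₁ hl fun y => (hk y).1
  have hC : ∀ {β γ : Type} (A : Matrix β γ ℂ), ∃ A' : Matrix β γ (MvPolynomial ι ℂ),
      ∀ u : ι → ℂ, A'.map (aeval u) = A := fun A => ⟨A.map C, fun u => by ext i j; simp⟩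
  obtain ⟨K1, k1⟩ := hC L1
  obtain ⟨K2, k2⟩ := hC L2
  obtain ⟨K3, k3⟩ := hC (L2 * P)
  obtain ⟨N, hN⟩ : ∃ N, N = K1 * M + K3 := ⟨_, rfl⟩
  obtain ⟨W, hW⟩ : ∃ W, W = adjugate N * K2 := ⟨_, rfl⟩
  have e : ∀ u : ι → ℂ, N.map (aeval u) = L1 * M.map (aeval u) + L2 * P := fun u => by
    rw [hN, Matrix.map_add _ (map_add _), Matrix.map_mul, k1, k3]
  have ed : ∀ u : ι → ℂ, aeval u N.det = (L1 * M.map (aeval u) + L2 * P).det := fun u => by
    rw [AlgHom.map_det, ← e]; rfl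
  refine ⟨N.det, fun p => W p.2 p.1, by rw [ed, hs]; simp, fun u h hd hl' hk' => ?_⟩
  rw [ed] at hd
  rw [← KERx.fin _ L1 L2 P h hd hl' hk']
  congr 2
  funext i a
  have e2 : W.map (aeval u) = adjugate (L1 * M.map (aeval u) + L2 * P) * L2 := by
    rw [hW, Matrix.map_mul, k2, ← e]
    congr 1
    exact (aeval u : MvPolynomial ι ℂ →ₐ[ℂ] ℂ).map_adjugate N
  rw [← e2]
  rfl

end Pool.Agent.P.MP_f4e0a3_ag.HP
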