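import Pool.Agent.P.MP_f4e0a3_ag.HP.IfaceA

/-! Step KSAT. -/

set_option autoImplicit false
set_option linter.unusedSectionVars false

namespace Pool.Agent.P.MP_f4e0a3_ag.HP

open MvPolynomial Matrix Submodule Set

namespace KSATx

variable {Ω : Type} [Field Ω] {O : ValuationSubring Ω} {n : ℕ} (D : UD O n)

theorem th_single (a : D.μ) (q : MvPolynomial (Fin n) Ω) :
    th D.x D.e (Pi.single a q) = aeval D.x q • D.e a := by
  rw [th_apply, Finset.sum_eq_single a (fun c _ hc => by simp [hc]) (by simp), Pi.single_eq_same]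

theorem mem_Fl {t : Fin n → Ω} (ht : ∀ i, t i ≠ 0) {j : ℕ} {q : MvPolynomial (Fin n) Ω}
    (h1 : q.IsHomogeneous j) (h2 : ∀ β, tw t β * coeff β q ∈ O) (a : D.μ) :
    aeval D.x q • D.e a ∈ D.Fl t 0 j := by
  rw [q.as_sum, map_sum, Finset.sum_smul]
  refine sum_mem fun β hβ => ?_
  have : aeval D.x (monomial β (coeff β q)) • D.e a =
      (⟨_, h2 β⟩ : O) • (tw t β)⁻¹ • D.mo β a := by
    change _ = (tw t β * coeff β q) • (tw t β)⁻¹ • D.mo β a
    rw [aeval_monomial_tw, smul_assoc, smul_smul, mul_right_comm,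
      mul_inv_cancel₀ (tw_ne_zero ht β), one_mul, UD.mo]
  rw [this]
  exact smul_mem _ _ (subset_span ⟨β, a, fun i hi => absurd hi (Nat.not_lt_zero _),
    (DFunLike.congr_fun Finsupp.degree_eq_weight_one β).trans (h1 (mem_support_iff.1 hβ)), rfl⟩)

end KSATx

open KSATx in
theorem p_KSAT (hCO : S_CO) (hKX : S_KX) :
    S_KSAT := by
  intro Ω _ O n D e j k g t b hg he ht h1 h2 h3
  classical
  obtain ⟨co, hco⟩ := hCO Ω O n D 0 D.gen_zero
  rw [D.sys_zero] at hco
  have h4 : ∀ z, th D.x D.e (co z) = z := fun z => by rw [← hco.symm, co.symm_apply_apply]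
  refine ⟨congrArg _ (Set.ext fun z => ⟨?_, ?_⟩), fun i a =>
    ⟨mem_Fl D ht (mem_Im.1 (h1 i)).2 (h2 i) a, ?_⟩, fun z z1 z2 => ?_⟩
  · rintro ⟨β, a, -, h, rfl⟩
    exact ⟨(⟨β, h⟩, a), rfl⟩
  · rintro ⟨q, rfl⟩
    exact ⟨q.1.1, q.2, fun i hi => absurd hi (Nat.not_lt_zero _), q.1.2, rfl⟩
  · rw [← th_single, hKX Ω O n D e g hg he]
    intro c
    rw [Pi.single_apply]
    split_ifs
    exacts [(mem_Im.1 (h1 i)).1, zero_mem _]
  have h5 : ∀ a, (co z a).IsHomogeneous j ∧ ∀ β, tw t β * coeff β (co z a) ∈ O := by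
    clear z2
    induction z1 using span_induction with
    | mem z hz =>
      obtain ⟨β, c, -, h, rfl⟩ := hz
      have : co (D.mo β c) = Pi.single c (monomial β 1) := by
        rw [← co.eq_symm_apply, hco.symm, th_single, aeval_monomial_tw, one_smul, UD.mo]
      intro a
      rw [map_smul, this, Pi.smul_apply, Pi.single_apply]
      split_ifs
      · refine ⟨(homogeneousSubmodule _ _ j).smul_mem _ (isHomogeneous_monomial _ h), fun γ => ?_⟩
        rw [coeff_smul, coeff_monomial]
        split_ifs with e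
        · simp [e, tw_ne_zero ht γ]
        · simp
      · simp [isHomogeneous_zero]
    | zero => simp [isHomogeneous_zero]
    | add x y _ _ hx hy =>
      exact fun a => ⟨by rw [map_add]; exact (hx a).1.add (hy a).1, fun β => by
        rw [map_add, Pi.add_apply, coeff_add, mul_add]; exact add_mem ((hx a).2 β) ((hy a).2 β)⟩
    | smul o x _ hx =>
      intro a
      rw [show o • x = (o : Ω) • x from rfl, map_smul, Pi.smul_apply]
      exact ⟨(homogeneousSubmodule _ _ j).smul_mem _ (hx a).1, fun β => by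
        rw [coeff_smul, smul_eq_mul, mul_left_comm]; exact mul_mem o.2 ((hx a).2 β)⟩
  have h6 := (hKX Ω O n D e g hg he (co z)).1 ((h4 z).symm ▸ z2)
  rw [← h4 z, th_apply]
  refine sum_mem fun a _ => ?_
  have h7 := h3 _ (mem_Im.2 ⟨h6 a, (h5 a).1⟩) (h5 a).2
  generalize co z a = q at h7
  induction h7 using span_induction with
  | mem q hq =>
    obtain ⟨i, rfl⟩ := hq
    exact subset_span ⟨(i, a), rfl⟩
  | zero => simp
  | add x y _ _ hx hy => rw [map_add, add_smul]; exact add_mem hx hy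
  | smul o x _ hx =>
    rw [show o • x = (o : Ω) • x from rfl, map_smul, smul_assoc]
    exact smul_mem _ o hx

end Pool.Agent.P.MP_f4e0a3_ag.HP
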