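import Pool.Agent.P.MP_f4e0a3_ag.HP.IfaceA

/-! Step KX. -/

set_option autoImplicit false
set_option linter.unusedSectionVars false

namespace Pool.Agent.P.MP_f4e0a3_ag.HP

open MvPolynomial Matrix Submodule Set

theorem p_KX :
    S_KX := by
  intro Ω _ O n D e g hg he v
  have h1 : ∀ z ∈ D.K e 0, ∃ w, th D.x D.e w = z ∧ ∀ a, w a ∈ Ideal.span (range g) :=
    fun z hz => UD.MI_induction (P := fun z => ∃ w, th D.x D.e w = z ∧
      ∀ a, w a ∈ Ideal.span (range g)) hz ⟨0, map_zero _, fun _ => zero_mem _⟩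
      (fun i y _ => by
        obtain ⟨w, rfl⟩ := D.free.2 y
        refine ⟨fun a => g i * w a, ?_, fun a =>
          Ideal.mul_mem_right _ _ (Ideal.subset_span ⟨i, rfl⟩)⟩
        simp only [Nat.not_lt_zero, if_false, hg i, th_apply, map_mul, mul_smul, Finset.smul_sum])
      fun _ _ ⟨w, a, b⟩ ⟨w', a', b'⟩ => ⟨w + w', by rw [map_add, a, a'],
        fun c => add_mem (b c) (b' c)⟩
  refine ⟨fun h => ?_, fun h => ?_⟩
  · obtain ⟨w, a, b⟩ := h1 _ h
    exact D.free.1 a ▸ b
  · rw [th_apply]
    refine sum_mem fun a _ => ?_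
    have h2 := h a
    generalize v a = q at h2
    induction h2 using span_induction with
    | mem q hq =>
      obtain ⟨i, rfl⟩ := hq
      rw [← hg]
      exact UD.pow_smul_mem_MI D.l (c := fun i => if i.val < 0 then 1 else e) (i := i) he.ne' _
    | zero => simp
    | add x y _ _ hx hy => rw [map_add, add_smul]; exact add_mem hx hy
    | smul o x _ hx => rw [smul_eq_mul, map_mul, mul_smul]; exact smul_mem _ _ hx

end Pool.Agent.P.MP_f4e0a3_ag.HP
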