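import Pool.Agent.P.MP_f4e0a3_ag.HP.IfaceA

/-! Step LAT. -/

set_option autoImplicit false
set_option linter.unusedSectionVars false

namespace Pool.Agent.P.MP_f4e0a3_ag.HP

open MvPolynomial Matrix Submodule Set

theorem p_LAT :
    S_LAT := by
  intro Ω _ O n D A B h
  have h0 : ∀ a, tw A 0 • D.e a ∈
      span O {z | ∃ γ b, γ.degree = (0 : Fin n →₀ ℕ).degree ∧ z = tw B γ • D.e b} :=
    fun a => subset_span ⟨0, a, rfl, by simp⟩
  have hadd : ∀ β β' : Fin n →₀ ℕ,
      (∀ a, tw A β • D.e a ∈ span O {z | ∃ γ b, γ.degree = β.degree ∧ z = tw B γ • D.e b}) →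
      (∀ a, tw A β' • D.e a ∈ span O {z | ∃ γ b, γ.degree = β'.degree ∧ z = tw B γ • D.e b}) →
      ∀ a, tw A (β + β') • D.e a ∈
        span O {z | ∃ γ b, γ.degree = (β + β').degree ∧ z = tw B γ • D.e b} := by
    intro β β' h1 h2 a
    rw [tw_add, mul_smul]
    have := h2 a
    generalize tw A β' • D.e a = y at this
    induction this using span_induction with
    | mem y hy =>
      obtain ⟨γ, b, hγ, rfl⟩ := hy
      rw [smul_comm]
      have := h1 b
      generalize tw A β • D.e b = w at this
      induction this using span_induction with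
      | mem w hw =>
        obtain ⟨δ, c, hδ, rfl⟩ := hw
        exact subset_span ⟨δ + γ, c, by rw [map_add, map_add, hγ, hδ],
          by rw [tw_add, mul_comm, mul_smul]⟩
      | zero => rw [smul_zero]; exact zero_mem _
      | add y w _ _ hy hw => rw [smul_add]; exact add_mem hy hw
      | smul d y _ hy =>
        rw [show d • y = (d : Ω) • y from rfl, smul_comm]
        exact smul_mem _ d hy
    | zero => rw [smul_zero]; exact zero_mem _
    | add y w _ _ hy hw => rw [smul_add]; exact add_mem hy hw
    | smul d y _ hy =>
      rw [show d • y = (d : Ω) • y from rfl, smul_comm]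
      exact smul_mem _ d hy
  intro β
  induction β using Finsupp.induction_linear with
  | zero => exact h0
  | add β β' h1 h2 => exact hadd β β' h1 h2
  | single i r =>
    induction r with
    | zero => rw [Finsupp.single_zero]; exact h0
    | succ r ih =>
      rw [Finsupp.single_add]
      refine hadd _ _ ih fun a => ?_
      rw [tw_single, pow_one]
      refine span_mono ?_ (h i a)
      rintro _ ⟨⟨j, b⟩, rfl⟩
      exact ⟨Finsupp.single j 1, b, by simp, by rw [tw_single, pow_one]⟩

end Pool.Agent.P.MP_f4e0a3_ag.HP
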