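import Pool.Agent.P.MP_f4e0a3_ag.HP.IfaceA

/-! Step LAYER. -/

set_option autoImplicit false
set_option linter.unusedSectionVars false

namespace Pool.Agent.P.MP_f4e0a3_ag.HP

open MvPolynomial Matrix Submodule Set

namespace LAYERx

theorem low {T V : Type} [CommRing T] [AddCommGroup V] [Module T V] (l : T) (v : ℕ → V) {i e : ℕ}
    (hi : i < e) (h : ∀ j < i, v j = 0) :
    ∃ y', ∑ j ∈ Finset.range e, l ^ j • v j = l ^ i • v i - l ^ (i + 1) • y' := by
  obtain ⟨d, rfl⟩ := Nat.exists_eq_add_of_le (Nat.succ_le_of_lt hi)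
  induction d with
  | zero =>
    refine ⟨0, ?_⟩
    rw [Nat.add_zero, Finset.sum_range_succ, Finset.sum_eq_zero fun j hj => by
      rw [h j (Finset.mem_range.1 hj), smul_zero]]
    simp
  | succ d ih =>
    obtain ⟨y', hy⟩ := ih (by omega)
    refine ⟨y' - l ^ d • v (i + 1 + d), ?_⟩
    rw [← Nat.add_assoc, Finset.sum_range_succ, hy, smul_sub, ← mul_smul, ← pow_add]
    abel

end LAYERx

theorem p_LAYER (hNDE : S_NDE) (hIND : S_IND) (hLAY0 : S_LAY0) :
    S_LAYER := by
  intro Ω _ O n D t p e s i u hS hi ⟨z, hz, hzu⟩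
  obtain ⟨y, hy, hzy⟩ := (hNDE Ω O n D t p e s hS).1 z hz
  have hL := (hLAY0 Ω O n D e s hS.good hS.pos).2.1
  have hN : ∀ x ∈ D.N t p e (s + 1), x ∈ D.K e (s + 1) → x = 0 := by
    intro x hx hK
    have h1 := range_ker_disjoint (f := ((D.K e (s + 1)).restrictScalars Ω).mkQ)
      (v := fun q : {b // Box e (s + 1) b} × D.μ => p (s + 1) q.1.1 q.2)
      (hIND Ω O n D t p e (s + 1) hS s.2)
    rw [ker_mkQ] at h1
    refine (disjoint_def.1 h1) x ?_ hK
    clear hK
    induction hx using span_induction with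
    | mem x hx =>
      obtain ⟨b, a, hb, rfl⟩ := hx
      exact smul_mem _ _ (subset_span ⟨(⟨b, hb⟩, a), rfl⟩)
    | zero => exact zero_mem _
    | add a b _ _ ha hb => exact add_mem ha hb
    | smul c a _ ha => exact smul_mem _ (c : Ω) ha
  let v : ℕ → D.V := fun j => (t s ^ j)⁻¹ • ((if j = i then u else 0) - y j)
  have hv : ∑ j ∈ Finset.range e, D.l s ^ j • v j ∈ D.K e s := by
    have h1 := add_mem hzu (UD.J_le_K (e := e) s hzy)
    have h2 : ∑ j ∈ Finset.range e, D.l s ^ j • v j = (t s ^ i)⁻¹ • D.l s ^ i • u -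
        ∑ j ∈ Finset.range e, (t s ^ j)⁻¹ • D.l s ^ j • y j := by
      simp only [v, smul_comm (D.l s ^ _), smul_sub, Finset.sum_sub_distrib]
      rw [Finset.sum_eq_single_of_mem i (Finset.mem_range.2 hi) fun j _ hj => by simp [hj]]
      simp
    rw [h2]
    simpa using h1
  have hk : ∀ j, j < e → (∀ j' < j, v j' = 0) → (if j = i then u else 0) - y j ∈ D.K e (s + 1) := by
    intro j hj h0
    obtain ⟨y', hy'⟩ := LAYERx.low (D.l s) v hj h0
    have h1 := UD.smul_mem_T (t s ^ j) (hL j _ y' hj (hy' ▸ hv))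
    rwa [smul_inv_smul₀ (pow_ne_zero _ (hS.wt.ne s))] at h1
  have h0 : ∀ j, j < i → v j = 0 := by
    intro j
    induction j using Nat.strong_induction_on with
    | _ j ih =>
      intro hj
      have h1 := hk j (hj.trans hi) fun j' h => ih j' h (h.trans hj)
      rw [if_neg hj.ne, zero_sub, neg_mem_iff] at h1
      simp [v, hj.ne, hN _ (hy j) h1]
  exact ⟨y i, hy i, by simpa using hk i hi h0⟩

end Pool.Agent.P.MP_f4e0a3_ag.HP
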