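import Pool.Agent.P.MP_f4e0a3_ag.HP.IfaceA

/-! Step LF. -/

set_option autoImplicit false
set_option linter.unusedSectionVars false

namespace Pool.Agent.P.MP_f4e0a3_ag.HP

open MvPolynomial Matrix Submodule Set

namespace LFx

variable {Ω : Type} [Field Ω] {O : ValuationSubring Ω} {n : ℕ} {D : UD O n}

theorem comm (o : O) (c : Ω) (r : D.T) (z : D.V) : c • r • o • z = o • c • r • z := by
  change c • r • (o : Ω) • z = (o : Ω) • c • r • z
  rw [smul_comm r, smul_comm c]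

theorem md_span {L : Submodule O D.V} {K : Submodule D.T D.V} {S : Set D.V} (c : Ω) (r : D.T)
    (h : ∀ z ∈ S, D.Md L K (c • r • z)) {z : D.V} (hz : z ∈ span O S) :
    D.Md L K (c • r • z) := by
  induction hz using span_induction with
  | mem z hz => exact h z hz
  | zero => simpa using UD.Md.of_mem L.zero_mem
  | add a b _ _ ha hb => simpa only [smul_add] using ha.add hb
  | smul o a _ ha =>
    obtain ⟨y, h1, h2⟩ := ha
    refine ⟨o • y, L.smul_mem o h1, ?_⟩
    rw [comm, ← smul_sub]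
    exact UD.smul_mem_T (o : Ω) h2

theorem mem_span' {L : Submodule O D.V} {S : Set D.V} (c : Ω) (r : D.T)
    (h : ∀ z ∈ S, c • r • z ∈ L) {z : D.V} (hz : z ∈ span O S) : c • r • z ∈ L := by
  obtain ⟨y, h1, h2⟩ := md_span (K := ⊥) c r (fun z hz => UD.Md.of_mem (h z hz)) hz
  rwa [sub_eq_zero.1 ((mem_bot _).1 h2)]

theorem smul_O {L : Submodule O D.V} {c : Ω} (hc : O.valuation c ≤ 1) {z : D.V} (h : z ∈ L) :
    c • z ∈ L := L.smul_mem ⟨c, (O.valuation_le_one_iff c).1 hc⟩ h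

theorem div_le {a b : Ω} (h : O.valuation a ≤ O.valuation b) :
    O.valuation (a / b) ≤ 1 := by
  rw [map_div₀]
  exact div_le_one_of_le₀ h zero_le

theorem sup_add {s : ℕ} {β : Fin n →₀ ℕ} (h : Sup s β) {k : Fin n} (hk : s ≤ k.val) :
    Sup s (β + Finsupp.single k 1) := fun i hi => by
  have : k ≠ i := fun e => by subst e; omega
  simp [h i hi, this]

theorem deg_add (β : Fin n →₀ ℕ) (k : Fin n) (i : ℕ) :
    (β + Finsupp.single k i).degree = β.degree + i := by
  rw [map_add, Finsupp.degree_single]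

theorem fl_step (hLX : S_LX) {t : Fin n → Ω} (hD : D.Good) (ht : Wt O t) (s : Fin n) (j : ℕ)
    {z : D.V} (hz : z ∈ D.Fl t s j) :
    D.Md (D.Fl t s (j + 1)) (D.J s) ((t s)⁻¹ • D.l s • z) := by
  refine md_span _ _ ?_ hz
  rintro _ ⟨β, a, h1, h2, rfl⟩
  obtain ⟨y, h3, h4⟩ := hLX Ω O n D s (hD s s.2.le) s β a
  refine ⟨((t s)⁻¹ * (tw t β)⁻¹) • (1 : D.T) • y, mem_span' _ _ ?_ h3, ?_⟩
  · rintro _ ⟨k, b, hk, rfl⟩
    have e : (t s)⁻¹ * (tw t β)⁻¹ = t k / t s * (tw t (β + Finsupp.single k 1))⁻¹ := by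
      have := ht.ne k
      have := ht.ne s
      have := tw_ne_zero ht.ne β
      rw [tw_add, tw_single]; field_simp
    rw [one_smul, e, mul_smul]
    exact smul_O (div_le (ht.anti s k hk))
      (subset_span ⟨_, b, sup_add h1 hk, by rw [deg_add, h2], rfl⟩)
  · rw [one_smul, smul_comm (D.l s), ← mul_smul, ← smul_sub]
    exact UD.smul_mem_T _ h4

theorem g_step (hLX : S_LX) {t : Fin n → Ω} (hD : D.Good) (ht : Wt O t) (s : Fin n)
    (b : Fin n →₀ ℕ) {z : D.V} (hz : z ∈ D.G t s b) :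
    D.Md (D.G t s (b + Finsupp.single s 1)) (D.J s) (D.l s • z) := by
  rw [← one_smul Ω (D.l s • z)]
  refine md_span _ _ ?_ hz
  rintro _ ⟨β, a, h1, h2, h3, rfl⟩
  rw [one_smul]
  refine (hLX Ω O n D s (hD s s.2.le) s β a).mono (span_le.2 ?_) le_rfl
  rintro _ ⟨k, c, hk, rfl⟩
  refine subset_span ⟨_, c, sup_add h1 hk, by rw [deg_add, deg_add, h2], ?_, rfl⟩
  rw [tw_add, tw_add, tw_single, tw_single, pow_one, pow_one, map_mul, map_mul]
  exact mul_le_mul' h3 (ht.anti s k hk)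

theorem le_Vd {S : Set D.V} {j : ℕ} (h : ∀ z ∈ S, z ∈ D.Vd j) {z : D.V} (hz : z ∈ span O S) :
    z ∈ D.Vd j := by
  induction hz using span_induction with
  | mem z hz => exact h z hz
  | zero => exact zero_mem _
  | add a b _ _ ha hb => exact add_mem ha hb
  | smul o a _ ha => exact (D.Vd j).smul_mem (o : Ω) ha

end LFx

open LFx in
theorem p_LF (hLX : S_LX) :
    S_LF := by
  intro Ω _ O n D t hD ht
  refine ⟨fun s i j z hz => ?_, fun s i b z hz => ?_, fun s j k hk z hz => ?_,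
    fun s j => span_mono ?_, fun s b => span_mono ?_, fun s j z hz => le_Vd ?_ hz,
    fun s b z hz => ⟨span_mono ?_ hz, le_Vd ?_ hz, ?_⟩⟩
  · induction i with
    | zero => simpa using UD.Md.of_mem hz
    | succ i ih =>
      obtain ⟨y, h1, h2⟩ := ih
      refine (fl_step hLX hD ht s _ h1).congr ?_
      have e : (t s ^ (i + 1))⁻¹ • D.l s ^ (i + 1) • z =
          (t s)⁻¹ • D.l s • (t s ^ i)⁻¹ • D.l s ^ i • z := by
        rw [smul_comm (D.l s), ← mul_smul, ← mul_smul, pow_succ' (t s), mul_inv, pow_succ']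
      rw [e, ← smul_sub, ← smul_sub]
      exact UD.smul_mem_T _ (smul_mem _ _ h2)
  · induction i with
    | zero => simpa using UD.Md.of_mem hz
    | succ i ih =>
      obtain ⟨y, h1, h2⟩ := ih
      rw [Finsupp.single_add, ← add_assoc]
      refine (g_step hLX hD ht s _ h1).congr ?_
      rw [pow_succ', mul_smul, ← smul_sub]
      exact smul_mem _ _ h2
  · refine mem_span' _ _ ?_ hz
    rintro _ ⟨β, a, h1, h2, rfl⟩
    refine subset_span ⟨β + Finsupp.single k 1, a, sup_add h1 hk, by rw [deg_add, h2], ?_⟩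
    rw [smul_comm (D.x k), UD.x_smul_mo, ← mul_smul, tw_add, tw_single, pow_one, mul_inv, mul_comm]
  · rintro _ ⟨β, a, h1, h2⟩
    exact ⟨β, a, fun i hi => h1 i (by omega), h2⟩
  · rintro _ ⟨β, a, h1, h2⟩
    exact ⟨β, a, fun i hi => h1 i (by omega), h2⟩
  · rintro _ ⟨β, a, -, h2, rfl⟩
    exact smul_mem _ _ (subset_span ⟨β, a, h2, rfl⟩)
  · rintro _ ⟨β, a, -, -, -, rfl⟩
    exact ⟨β, a, (one_smul _ _).symm⟩
  · rintro _ ⟨β, a, -, h2, -, rfl⟩
    exact subset_span ⟨β, a, h2, rfl⟩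
  · rw [← one_smul D.T z]
    refine mem_span' _ _ ?_ hz
    rintro _ ⟨β, a, h1, h2, h3, rfl⟩
    have e : (tw t b)⁻¹ = tw t β / tw t b * (tw t β)⁻¹ := by
      have := tw_ne_zero ht.ne β
      field_simp
    rw [one_smul, e, mul_smul]
    exact smul_O (div_le h3) (subset_span ⟨β, a, h1, h2, rfl⟩)

end Pool.Agent.P.MP_f4e0a3_ag.HP
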