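import Pool.Agent.P.MP_f4e0a3_ag.HP.IfaceA

/-! Step LIFT. -/

set_option autoImplicit false
set_option linter.unusedSectionVars false

namespace Pool.Agent.P.MP_f4e0a3_ag.HP

open MvPolynomial Matrix Submodule Set

theorem p_LIFT (hPR : S_PR) (hNST : S_NST) (hNDE : S_NDE) (_hLF : S_LF) (hLAY0 : S_LAY0) :
    S_LIFT := by
  intro Ω _ O n D t p e s i l u hSt hi hu ⟨y, hy, hκ⟩
  obtain ⟨pr, hpr⟩ := hPR Ω O n D hSt.good
  have hMI : ∀ c j z, z ∈ D.MI D.l c → pr j z ∈ D.MI D.l c := by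
    have := hpr.mi n le_rfl
    rwa [D.sys_top] at this
  have hy' := (hNST Ω O n D t p e (s + 1) l pr hSt hpr s.2 y hy).2.1
  have hκ' : u - pr l y ∈ D.K e (s + 1) := by
    have := hMI _ l _ hκ
    rwa [map_sub, hpr.self l u hu] at this
  have hv : pr l (u - pr l y) = u - pr l y := hpr.self _ _ (sub_mem hu (hpr.mem _ _))
  obtain ⟨ζ, hζ, hJ⟩ := (hNDE Ω O n D t p e s hSt).2 i hi _ hy'
  have hζ' := hNST Ω O n D t p e s (l + i) pr hSt hpr s.2.le ζ hζ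
  have h1 : (t s ^ i)⁻¹ • D.l s ^ i • pr l y - pr (l + i) ζ ∈ D.K e s := by
    have := hMI _ (l + i) _ hJ
    rw [map_sub, map_smul, hpr.l, hpr.self _ _ (hpr.mem _ _)] at this
    exact UD.J_le_K s this
  obtain ⟨w, hw, -⟩ := (hLAY0 Ω O n D e s hSt.good hSt.pos).2.2.1 _ hκ'
  have h2 : u - pr l y - pr l (D.l s ^ 1 • w) ∈ D.K e s := by
    have := hMI _ l _ hw
    rwa [map_sub, hv, ← pow_one (D.l s)] at this
  have h3 : ∀ u' : D.V, (t s ^ (i + 1))⁻¹ • D.l s ^ (i + 1) • u' =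
      (t s ^ i)⁻¹ • D.l s ^ i • pr l (D.l s ^ 1 • w) →
      (t s ^ i)⁻¹ • D.l s ^ i • u - pr (l + i) ζ - (t s ^ (i + 1))⁻¹ • D.l s ^ (i + 1) • u' ∈
        D.K e s := by
    intro u' h
    have := add_mem h1 (UD.smul_mem_T (t s ^ i)⁻¹ (smul_mem _ (D.l s ^ i) h2))
    rw [h]
    convert this using 1
    simp only [smul_sub]
    abel
  rcases l with _ | l
  · refine ⟨_, 0, hζ'.2.1, hζ'.2.2.1, zero_mem _, fun _ => rfl, h3 0 ?_⟩
    rw [hpr.l0 s 1 0 w Nat.zero_lt_one]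
    simp
  · refine ⟨_, t s • pr l w, hζ'.2.1, hζ'.2.2.1, smul_mem _ _ (hpr.mem _ _),
      fun h => absurd h (Nat.succ_ne_zero l), h3 _ ?_⟩
    rw [hpr.l s 1 l w, smul_comm (D.l s ^ (i + 1)) (t s), smul_smul, smul_smul (D.l s ^ i),
      ← pow_add]
    congr 1
    have := hSt.wt.ne s
    field_simp
    ring

end Pool.Agent.P.MP_f4e0a3_ag.HP
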