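import Pool.Agent.P.MP_f4e0a3_ag.HP.IfaceG
import Pool.Agent.P.MP_f4e0a3_ag.HP.IfaceA

/-! Step LOC. -/

set_option autoImplicit false
set_option linter.unusedSectionVars false

namespace Pool.Agent.P.MP_f4e0a3_ag.HP

open MvPolynomial Matrix Submodule Set

namespace LOCx

variable {n e : ℕ}

/-- the form with given coefficients as a linear map -/
noncomputable def fl (n e : ℕ) : (Mon (Fin n) e → ℂ) →ₗ[ℂ] MvPolynomial (Fin n) ℂ where
  toFun := frm
  map_add' a b := by simp [frm, Finset.sum_add_distrib]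
  map_smul' c a := by simp [frm, Finset.smul_sum, smul_monomial]

theorem fl_inj : Function.Injective (fl n e) := fun a b h => funext fun β => by
  have := congrArg (coeff β.1) h
  change coeff β.1 (frm a) = coeff β.1 (frm b) at this
  rwa [coeff_frm, coeff_frm] at this

theorem span_tup (w : Fin n × Mon (Fin n) e → ℂ) :
    span ℂ (range (tup w)) = (span ℂ (range fun i a => w (i, a))).map (fl n e) := by
  rw [Submodule.map_span, ← range_comp]
  rfl

theorem mem_iff (w : Fin n × Mon (Fin n) e → ℂ) (y : Mon (Fin n) e → ℂ) :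
    frm y ∈ span ℂ (range (tup w)) ↔ y ∈ span ℂ (range fun i a => w (i, a)) := by
  rw [span_tup]
  exact ⟨fun ⟨z, hz, h⟩ => fl_inj (a₁ := z) (a₂ := y) h ▸ hz, fun h => ⟨y, h, rfl⟩⟩

end LOCx

open LOCx in
theorem p_LOC (hKER : S_KER) (hMAT : S_MAT) (hNULL : S_NULL) (hZPT : S_ZPT) :
    S_LOC := by
  rintro n e _ _ m k Δ hΔ hC hm _ ⟨w₁, c₁, hw₁, hc₁, rfl⟩
  have hne : c₁ • ev Δ w₁ ≠ 0 := by
    obtain ⟨b, hb, hb0⟩ := hΔ.ex w₁ hw₁
    obtain ⟨c, -, h⟩ := hΔ.pl w₁ hw₁ b hb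
    refine smul_ne_zero hc₁ fun h0 => hb0 ?_
    rw [h, h0, smul_zero]
  obtain ⟨T, hT⟩ := Function.ne_iff.1 hne
  obtain ⟨M, hM⟩ := hMAT n e m k Δ T hΔ hC hm
  have hli : ∀ w : Fin n × Mon (Fin n) e → ℂ, rs w ≠ 0 →
      LinearIndependent ℂ fun i a => w (i, a) := fun w hw =>
    LinearIndependent.of_comp (fl n e) (hNULL n e ℂ w hw).2
  obtain ⟨δ, ω, hδ, hω⟩ := hKER _ _ _ _ M (c₁ • ev Δ w₁) (fun i a => w₁ (i, a)) (hli w₁ hw₁)
    fun y => (hM w₁ c₁ hw₁ hT y).trans (mem_iff w₁ y)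
  have key : ∀ (w : Fin n × Mon (Fin n) e → ℂ) (c : ℂ), rs w ≠ 0 → (c • ev Δ w) T ≠ 0 →
      aeval (c • ev Δ w) δ ≠ 0 →
      span ℂ (range (tup (ev ω (c • ev Δ w)))) = span ℂ (range (tup w)) := by
    intro w c hw h1 h2
    rw [span_tup, span_tup]
    congr 1
    exact hω _ _ h2 (hli w hw) fun i => (hM w c hw h1 _).2 (subset_span ⟨i, rfl⟩)
  have hQ : ∀ u : (Fin k → Mon (Fin n) m) → ℂ,
      aeval u (X T * δ * aeval ω (Res (Fin n) e)) = u T * aeval u δ * rs (ev ω u) := by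
    intro u
    rw [map_mul, map_mul, aeval_X, ← AlgHom.comp_apply, comp_aeval]
    rfl
  refine ⟨X T * δ * aeval ω (Res (Fin n) e), ω, ?_, ?_, fun u hu => ?_, fun w c hw _ hu => ?_⟩
  · rw [hQ]
    refine mul_ne_zero (mul_ne_zero hT hδ) (((hZPT n e).1 _).1 ?_)
    rw [key w₁ c₁ hw₁ hT hδ]
    exact ((hZPT n e).1 _).2 hw₁
  · rw [hQ, Pi.zero_apply, zero_mul, zero_mul]
  · rw [hQ] at hu
    exact right_ne_zero_of_mul hu
  · rw [hQ] at hu
    exact key w c hw (left_ne_zero_of_mul (left_ne_zero_of_mul hu))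
      (right_ne_zero_of_mul (left_ne_zero_of_mul hu))

end Pool.Agent.P.MP_f4e0a3_ag.HP
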