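import Pool.Agent.P.MP_f4e0a3_ag.HP.IfaceG

/-! Step LOCX. -/

set_option autoImplicit false
set_option linter.unusedSectionVars false

namespace Pool.Agent.P.MP_f4e0a3_ag.HP

open MvPolynomial Matrix Submodule Set

namespace LOCXx

theorem ev_ren {n d : ℕ} (h : Fin 1 → MvPolynomial (Fin n) ℂ)
    (A : MvPolynomial (Mon (Fin n) d) ℂ) :
    eval (fun p : Fin 1 × (Fin n →₀ ℕ) => coeff p.2 (h p.1)) (rename (fun β => (0, β.1)) A) =
      aeval (fun β : Mon (Fin n) d => coeff β.1 (h 0)) A := by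
  rw [eval_rename]; rfl

theorem span_eq {n d : ℕ} {h : Fin 1 → MvPolynomial (Fin n) ℂ}
    (hh : span ℂ (range h) ∈ PX n d) :
    span ℂ (range h) = span ℂ {frm fun β : Mon (Fin n) d => coeff β.1 (h 0)} := by
  rw [range_one] at hh ⊢
  rw [frm_coeff (of_mem_PX hh).1]

end LOCXx

theorem p_LOCX (hREG : S_REG) (hZPT : S_ZPT) (hXE : S_XE) :
    S_LOCX := by
  intro n e _ _ X' hX p ψ hp hiff hψ
  classical
  obtain ⟨-, -, -, z4, z5⟩ := hZPT n e
  obtain ⟨Ep, a, hEp⟩ := hXE n e _ (Disc (Fin n) e) p (fun c hc => (z4 c).2 hc) hp.1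
  have hm : ∀ c : Mon (Fin n) (e + 1) → ℂ, aeval c (Disc (Fin n) e * Ep) ≠ 0 →
      span ℂ {frm c} ∈ X' := fun c hc => by
    rw [map_mul] at hc
    have h1 := left_ne_zero_of_mul hc
    refine (hiff ⟨_, (z4 c).2 h1⟩).2 ?_
    rw [hEp c _ h1]
    exact div_ne_zero (right_ne_zero_of_mul hc) (pow_ne_zero _ h1)
  obtain ⟨E, j, hE⟩ := hXE n e X' _ ψ hm hψ.1
  let φ : PX n (e + 1) → ℂ := fun L => if h : L.1 ∈ X' then ψ ⟨L.1, h⟩ * p L ^ (j + 1) else 0
  have key : ∀ (c : Mon (Fin n) (e + 1) → ℂ) (L : PX n (e + 1)), L.1 = span ℂ {frm c} →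
      φ L = aeval c (E * Ep) / aeval c (Disc (Fin n) e ^ (j + a * (j + 1))) := by
    rintro c ⟨L, hL⟩ rfl
    have h1 := (z4 c).1 hL
    have h2 := hEp c hL h1
    rw [map_mul, map_pow]
    by_cases h : span ℂ {frm c} ∈ X'
    · have h3 : aeval c Ep ≠ 0 := fun h0 => (hiff ⟨_, hL⟩).1 h (by rw [h2, h0, zero_div])
      have h4 := hE c h (by rw [map_mul]; exact mul_ne_zero h1 h3)
      simp only [φ, dif_pos h]
      rw [h4, h2, map_mul, div_pow, mul_pow, pow_add (aeval c (Disc (Fin n) e)), pow_mul,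
        pow_succ (aeval c Ep)]
      field_simp
    · have h3 : aeval c Ep = 0 := by
        by_contra h0
        exact h (hm c (by rw [map_mul]; exact mul_ne_zero h1 h0))
      simp only [φ, dif_neg h]
      rw [h3, mul_zero, zero_div]
  refine ⟨j + 1, φ, ⟨(hREG n 1 _ φ).2 (fun U hU => (z5 U hU).1) fun h₀ hh₀ => ?_, ?_⟩,
    fun L => dif_pos L.2⟩
  · refine ⟨rename (fun β => (0, β.1)) (E * Ep),
      rename (fun β => (0, β.1)) (Disc (Fin n) e ^ (j + a * (j + 1))), ?_, fun h hh _ => ?_⟩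
    · rw [LOCXx.ev_ren, map_pow]
      exact pow_ne_zero _ ((z4 _).1 (LOCXx.span_eq hh₀ ▸ hh₀))
    · rw [LOCXx.ev_ren, LOCXx.ev_ren]
      exact key _ _ (LOCXx.span_eq hh)
  · intro g L L' hL
    have h1 := hp.2 g L L' hL
    by_cases h : L.1 ∈ X'
    · have h' : L'.1 ∈ X' := (hiff L').2 (h1 ▸ (hiff L).1 h)
      simp only [φ, dif_pos h, dif_pos h']
      rw [h1, hψ.2 g ⟨L.1, h⟩ ⟨L'.1, h'⟩ hL]
    · have h' : L'.1 ∉ X' := fun h' => h ((hiff L).2 (h1 ▸ (hiff L').1 h'))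
      simp only [φ, dif_neg h, dif_neg h']

end Pool.Agent.P.MP_f4e0a3_ag.HP
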