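import Pool.Agent.P.MP_f4e0a3_ag.HP.IfaceA

/-! Step LV. -/

set_option autoImplicit false
set_option linter.unusedSectionVars false

namespace Pool.Agent.P.MP_f4e0a3_ag.HP

open MvPolynomial Matrix Submodule Set

namespace LVx

variable {Ω : Type} [Field Ω] (O : ValuationSubring Ω) {V κ : Type} [AddCommGroup V] [Module Ω V]
  [Fintype κ] [DecidableEq κ]

/-- A matrix applied to a family of vectors. -/
def ap (M : Matrix κ κ Ω) (g : κ → V) : κ → V := fun i => ∑ j, M i j • g j

theorem ap_mul (M N : Matrix κ κ Ω) (g : κ → V) : ap (M * N) g = ap M (ap N g) := by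
  funext i
  simp only [ap, Matrix.mul_apply, Finset.sum_smul, Finset.smul_sum, mul_smul]
  exact Finset.sum_comm

theorem ap_diag (d : κ → Ω) (g : κ → V) : ap (diagonal d) g = fun i => d i • g i := by
  funext i
  simp [ap, diagonal_apply, ite_smul]

theorem ap_one (g : κ → V) : ap (1 : Matrix κ κ Ω) g = g := by
  funext i
  simp [ap, Matrix.one_apply, ite_smul]

theorem ap_inj {M N : Matrix κ κ Ω} {g : κ → V} (hg : LinearIndependent Ω g)
    (h : ap M g = ap N g) : M = N := by
  ext i j
  exact Fintype.linearIndependent_iffₛ.1 hg (M i) (N i) (congrFun h i) j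

/-- The image in the field of a matrix over the valuation ring. -/
def up (M : Matrix κ κ O) : Matrix κ κ Ω := O.subtype.mapMatrix M

theorem up_mul (M N : Matrix κ κ O) : up O (M * N) = up O M * up O N := map_mul _ _ _

theorem up_one : up O (1 : Matrix κ κ O) = 1 := map_one _

theorem det_up (M : Matrix κ κ O) : (up O M).det = (M.det : O) := (O.subtype.map_det M).symm

theorem val_up (M : Matrix κ κ O) : O.valuation (up O M).det ≤ 1 := by
  rw [det_up]; exact O.valuation_le_one _

theorem ex_up {a g : κ → V} (h : ∀ i, a i ∈ span O (range g)) : ∃ M, a = ap (up O M) g := by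
  choose c hc using fun i => (mem_span_range_iff_exists_fun O).1 (h i)
  exact ⟨Matrix.of c, funext fun i => (hc i).symm⟩

theorem mem_up (M : Matrix κ κ O) (g : κ → V) (i : κ) : ap (up O M) g i ∈ span O (range g) :=
  (mem_span_range_iff_exists_fun O).2 ⟨M i, rfl⟩

theorem val_one {M N : Matrix κ κ O} (h : up O M * up O N = 1) :
    O.valuation (up O M).det = 1 ∧ O.valuation (up O N).det = 1 := by
  have h1 : O.valuation (up O M).det * O.valuation (up O N).det = 1 := by
    rw [← map_mul, ← det_mul, h, det_one, map_one]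
  constructor
  · refine le_antisymm (val_up O M) ?_
    rw [← h1]; exact mul_le_of_le_one_right' (val_up O N)
  · refine le_antisymm (val_up O N) ?_
    rw [← h1]; exact mul_le_of_le_one_left' (val_up O M)

theorem key (m f : κ → V) (τ : κ → Ω) (C : Matrix κ κ Ω) (hm : LinearIndependent Ω m)
    (hs : span O (range f) = span O (range m)) (hτ : ∀ i, τ i ≠ 0)
    (hC : ∀ i, ap C f i ∈ span O (range fun i => (τ i)⁻¹ • m i)) :
    O.valuation (C.det * ∏ i, τ i) ≤ 1 ∧ (1 ≤ O.valuation (C.det * ∏ i, τ i) ↔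
      span O (range fun i => (τ i)⁻¹ • m i) ≤ span O (range (ap C f))) := by
  obtain ⟨M0, h0⟩ := ex_up O (a := f) (g := m) fun i => hs ▸ subset_span (mem_range_self i)
  obtain ⟨R, hR⟩ := ex_up O (a := m) (g := f) fun i => hs ▸ subset_span (mem_range_self i)
  obtain ⟨M1, h1⟩ := ex_up O hC
  have v0 : O.valuation (up O M0).det = 1 :=
    (val_one O (M := R) (ap_inj hm (by rw [ap_mul, ← h0, ← hR, ap_one]))).2
  have e1 : C * up O M0 = up O M1 * diagonal fun i => (τ i)⁻¹ :=
    ap_inj hm (by rw [ap_mul, ap_mul, ← h0, ap_diag, h1])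
  have e2 : C.det * (up O M0).det * ∏ i, τ i = (up O M1).det := by
    rw [← det_mul, e1, det_mul, det_diagonal, mul_assoc, ← Finset.prod_mul_distrib,
      Finset.prod_congr rfl fun i _ => inv_mul_cancel₀ (hτ i), Finset.prod_const_one, mul_one]
  have e3 : O.valuation (C.det * ∏ i, τ i) = O.valuation (up O M1).det := by
    rw [← e2, map_mul, map_mul, map_mul, v0, mul_one]
  rw [e3]
  refine ⟨val_up O M1, fun h => ?_, fun h => ?_⟩
  · have hu : IsUnit M1.det := by
      rw [O.valuation_eq_one_iff, ← det_up]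
      exact le_antisymm (val_up O M1) h
    have e4 : (fun i => (τ i)⁻¹ • m i) = ap (up O M1⁻¹) (ap C f) := by
      rw [h1, ← ap_mul, ← up_mul, nonsing_inv_mul _ hu, up_one, ap_one]
    rw [span_le, e4]
    rintro _ ⟨i, rfl⟩
    exact mem_up O _ _ i
  · obtain ⟨R1, hR1⟩ := ex_up O (a := fun i => (τ i)⁻¹ • m i) (g := ap C f)
      fun i => h (subset_span (mem_range_self i))
    have e5 : (up O R1 * up O M1) * (diagonal fun i => (τ i)⁻¹) = diagonal fun i => (τ i)⁻¹ :=
      ap_inj hm (by rw [ap_mul, ap_mul, ap_diag, ← h1, ← hR1])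
    have e6 : (diagonal fun i => (τ i)⁻¹) * diagonal τ = (1 : Matrix κ κ Ω) := by
      rw [diagonal_mul_diagonal, ← diagonal_one]
      congr 1
      funext i
      exact inv_mul_cancel₀ (hτ i)
    have e7 : up O R1 * up O M1 = 1 := by
      rw [← e6]
      conv_rhs => rw [← e5]
      rw [Matrix.mul_assoc (up O R1 * up O M1), e6, Matrix.mul_one]
    exact (val_one O e7).2.ge

end LVx

theorem p_LV :
    S_LV := by
  intro Ω _ O V ι κ _ _ _ _ _ m f τ C hm hf hs hτ hC
  have hc : Fintype.card κ = Fintype.card ι := by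
    rw [← finrank_span_eq_card hm, ← finrank_span_eq_card hf,
      ← span_span_of_tower O Ω (range f), hs, span_span_of_tower]
  obtain ⟨e⟩ := Fintype.card_eq.1 hc
  have r1 : range (m ∘ e) = range m := e.surjective.range_comp m
  have r2 : (range fun i => (τ (e i))⁻¹ • (m ∘ e) i) = range fun i => (τ i)⁻¹ • m i :=
    e.surjective.range_comp fun i => (τ i)⁻¹ • m i
  have h := LVx.key O (m ∘ e) f (fun i => τ (e i)) C (hm.comp e e.injective) (r1 ▸ hs)
    (fun i => hτ _) (by rw [r2]; exact hC)
  rw [r2, e.prod_comp τ] at h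
  exact ⟨hc, h⟩

end Pool.Agent.P.MP_f4e0a3_ag.HP
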