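import Pool.Agent.P.MP_f4e0a3_ag.HP.IfaceA

/-! Step MDC. -/

set_option autoImplicit false
set_option linter.unusedSectionVars false

namespace Pool.Agent.P.MP_f4e0a3_ag.HP

open MvPolynomial Matrix Submodule Set

namespace MDCx

theorem exists_filter {n : ℕ} {Ω : Type} [Field Ω] (P : (Fin n →₀ ℕ) → Prop)
    (f : MvPolynomial (Fin n) Ω) : ∃ g : MvPolynomial (Fin n) Ω,
    ∀ β, (P β → coeff β g = coeff β f) ∧ (¬ P β → coeff β g = 0) := by
  classical
  refine ⟨∑ γ ∈ f.support.filter P, monomial γ (coeff γ f), fun β => ?_⟩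
  rw [coeff_sum]
  simp only [coeff_monomial, Finset.sum_ite_eq', Finset.mem_filter, mem_support_iff]
  constructor
  · intro h
    by_cases h0 : coeff β f = 0
    · simp [h0]
    · rw [if_pos ⟨h0, h⟩]
  · intro h
    rw [if_neg fun h' => h h'.2]

end MDCx

theorem p_MDC :
    S_MDC := by
  intro Ω _ O n D A co H
  have hpow : ∀ i r z a, co (A i ^ r • z) a = X i ^ r * co z a := by
    intro i r z a
    induction r with
    | zero => simp
    | succ r ih => rw [pow_succ', mul_smul, H.mul, ih, pow_succ', mul_assoc]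
  have h1 : ∀ γ c z, D.Md (D.Lam γ) (D.MI A c) z ↔
      ∀ a β, (∀ i, c i ≠ 0 → β i < c i) → ∃ o : O, coeff β (co z a) = o * γ := by
    intro γ c z
    constructor
    · rintro ⟨y, hy, hz⟩ a β hβ
      obtain ⟨o, ho⟩ := (H.lam γ y).1 hy a β
      have := (H.mi c _).1 hz a β hβ
      rw [map_sub, Pi.sub_apply, coeff_sub, sub_eq_zero] at this
      exact ⟨o, this.trans ho⟩
    · intro h
      choose g hg using fun a => MDCx.exists_filter (fun β => ∀ i, c i ≠ 0 → β i < c i) (co z a)
      refine ⟨co.symm g, (H.lam _ _).2 fun a β => ?_, (H.mi _ _).2 fun a β hβ => ?_⟩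
      · rw [LinearEquiv.apply_symm_apply]
        by_cases hβ : ∀ i, c i ≠ 0 → β i < c i
        · rw [(hg a β).1 hβ]; exact h a β hβ
        · exact ⟨0, by rw [(hg a β).2 hβ]; simp⟩
      · rw [map_sub, Pi.sub_apply, coeff_sub, LinearEquiv.apply_symm_apply, (hg a β).1 hβ,
          sub_self]
  refine ⟨h1, fun γ c i r z hc h => (h1 _ _ _).2 fun a β hβ => ?_,
    fun γ i r z hz => (H.lam _ _).2 fun a β => ?_⟩
  · have := (h1 _ _ _).1 h a (Finsupp.single i r + β) fun j hj => by
      have hne : j ≠ i := by rintro rfl; exact hj hc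
      rw [Finsupp.add_apply, Finsupp.single_eq_of_ne hne, zero_add]
      exact hβ j hj
    rwa [hpow, X_pow_eq_monomial, coeff_monomial_mul, one_mul] at this
  · classical
    rw [hpow, X_pow_eq_monomial, coeff_monomial_mul']
    split_ifs
    · rw [one_mul]; exact (H.lam _ _).1 hz a _
    · exact ⟨0, by simp⟩

end Pool.Agent.P.MP_f4e0a3_ag.HP
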