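import Pool.Agent.P.MP_f4e0a3_ag.HP.IfaceG

/-! Step MINOR. -/

set_option autoImplicit false
set_option linter.unusedSectionVars false

namespace Pool.Agent.P.MP_f4e0a3_ag.HP

open MvPolynomial Matrix Submodule Set

theorem p_MINOR :
    S_MINOR := by
  intro n k h h2
  constructor
  · obtain ⟨g, hg⟩ := exists_GL_of_span
        (Set.range fun β : Fin n →₀ ℕ => fun i => coeff β (h i)) (by
      by_contra h3
      obtain ⟨φ, hφ1, hφ2⟩ := Submodule.exists_le_ker_of_lt_top _
        (lt_top_iff_ne_top.2 fun h4 => h3 h4.ge)
      apply hφ1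
      have hw : ∀ x : Fin k → ℂ, φ x = ∑ i, φ (Pi.single i 1) * x i := by
        intro x
        conv_lhs => rw [pi_eq_sum_univ' x]
        simp [mul_comm]
      have h4 := Fintype.linearIndependent_iff.1 h2 (fun i => φ (Pi.single i 1)) (by
        ext β
        have h5 : φ (fun i => coeff β (h i)) = 0 := hφ2 (Submodule.subset_span ⟨β, rfl⟩)
        rw [hw] at h5
        simpa [coeff_sum] using h5)
      ext i
      simpa using h4 i)
    choose I hI using hg
    refine ⟨I, ?_⟩
    have h3 : (Matrix.of fun i j => coeff (I j) (h i)) = g.val := by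
      ext i j
      have := congrFun (hI j) i
      simpa using this
    rw [plucker, h3]
    exact g.det_ne_zero
  · intro I hD
    let M : Matrix (Fin k) (Fin k) ℂ := Matrix.of fun i j => coeff (I j) (h i)
    have hM : M.det ≠ 0 := hD
    refine ⟨fun i => ∑ l, M⁻¹ i l • h l, le_antisymm ?_ ?_, fun i β => ?_⟩
    · rw [span_le]
      rintro _ ⟨i, rfl⟩
      exact sum_mem fun l _ => smul_mem _ _ (subset_span (mem_range_self l))
    · rw [span_le]
      rintro _ ⟨i, rfl⟩
      have e : h i = ∑ j, M i j • ∑ l, M⁻¹ j l • h l := by
        simp only [Finset.smul_sum, smul_smul]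
        rw [Finset.sum_comm]
        simp only [← Finset.sum_smul, ← Matrix.mul_apply, mul_nonsing_inv M (Ne.isUnit hM)]
        simp [Matrix.one_apply, ite_smul]
      rw [e]
      exact sum_mem fun j _ => smul_mem _ _ (subset_span (mem_range_self j))
    · have h1 : plucker h (Function.update I i β) = cramer M (fun l => coeff β (h l)) i := by
        rw [cramer_apply, plucker]
        congr 1
        ext l j
        by_cases hj : j = i
        · simp [hj]
        · simp [hj, M]
      have h3 := det_smul_inv_mulVec_eq_cramer M (fun l => coeff β (h l)) (Ne.isUnit hM)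
      rw [h1, ← h3, Pi.smul_apply, smul_eq_mul,
        show plucker h I = M.det from rfl, inv_mul_cancel_left₀ hM]
      simp [coeff_sum, mulVec, dotProduct]

end Pool.Agent.P.MP_f4e0a3_ag.HP
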