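import Pool.Agent.P.MP_f4e0a3_ag.HP.IfaceA

/-! Step NDE. -/

set_option autoImplicit false
set_option linter.unusedSectionVars false

namespace Pool.Agent.P.MP_f4e0a3_ag.HP

open MvPolynomial Matrix Submodule Set

namespace NDEx

variable {Ω : Type} [Field Ω] {O : ValuationSubring Ω} {n : ℕ} {D : UD O n}

theorem osm (o : O) (v : D.V) : o • v = (o : Ω) • v := rfl

theorem tw_erase {R : Type} [CommMonoid R] (t : Fin n → R) (b : Fin n →₀ ℕ) (s : Fin n) :
    tw t b = tw t (b.erase s) * t s ^ b s := by
  conv_lhs => rw [← Finsupp.erase_add_single s b]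
  rw [tw_add, tw_single]

theorem box_erase {e : ℕ} {s : Fin n} {b : Fin n →₀ ℕ} (hb : Box e s b) :
    Box e (s + 1) (b.erase s) := by
  refine ⟨fun i hi => ?_, fun i => ?_⟩
  · by_cases h : i = s
    · subst h; simp
    · rw [Finsupp.erase_ne h]
      refine hb.1 i ?_
      have : i.val ≠ s.val := fun h' => h (Fin.ext h')
      omega
  · by_cases h : i = s
    · subst h
      rw [Finsupp.erase_same]
      exact lt_of_le_of_lt (Nat.zero_le _) (hb.2 i)
    · rw [Finsupp.erase_ne h]
      exact hb.2 i

theorem key {t : Fin n → Ω} {p : ℕ → (Fin n →₀ ℕ) → D.μ → D.V} (pf : D.PF t p) (s : Fin n)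
    (b : Fin n →₀ ℕ) (a : D.μ) (hb : Sup s b) :
    (tw t b)⁻¹ • p s b a - (t s ^ b s)⁻¹ • D.l s ^ b s •
      (tw t (b.erase s))⁻¹ • p (s + 1) (b.erase s) a ∈ D.J s := by
  have h := UD.smul_mem_T (tw t b)⁻¹ (pf.step s b a hb)
  convert h using 1
  rw [smul_sub, smul_comm (D.l s ^ b s) (tw t (b.erase s))⁻¹, smul_smul, ← mul_inv,
    mul_comm (t s ^ b s), ← tw_erase]

end NDEx

open NDEx in
theorem p_NDE :
    S_NDE := by
  intro Ω _ O n D t p e s hst
  refine ⟨fun z hz => ?_, fun i hi y hy => ?_⟩
  · induction hz using span_induction with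
    | mem z hz =>
      obtain ⟨b, a, hb, rfl⟩ := hz
      refine ⟨fun i => if i = b s then (tw t (b.erase s))⁻¹ • p (s + 1) (b.erase s) a else 0,
        fun i => ?_, ?_⟩
      · dsimp only
        split_ifs
        · exact subset_span ⟨_, a, box_erase hb, rfl⟩
        · exact zero_mem _
      · rw [Finset.sum_eq_single (b s)]
        · simp only [if_true]
          exact key hst.pf s b a hb.1
        · intro i _ hi
          simp [hi]
        · intro h
          exact absurd (Finset.mem_range.2 (hb.2 s)) h
    | zero => exact ⟨fun _ => 0, fun _ => zero_mem _, by simp⟩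
    | add z w _ _ hz hw =>
      obtain ⟨y, h1, h2⟩ := hz
      obtain ⟨y', h3, h4⟩ := hw
      refine ⟨fun i => y i + y' i, fun i => add_mem (h1 i) (h3 i), ?_⟩
      convert add_mem h2 h4 using 1
      simp only [smul_add, Finset.sum_add_distrib]
      abel
    | smul o z _ hz =>
      obtain ⟨y, h1, h2⟩ := hz
      refine ⟨fun i => o • y i, fun i => Submodule.smul_mem _ o (h1 i), ?_⟩
      convert UD.smul_mem_T (o : Ω) h2 using 1
      rw [smul_sub, Finset.smul_sum, osm]
      congr 1
      refine Finset.sum_congr rfl fun i _ => ?_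
      dsimp only
      rw [osm, smul_comm (D.l s ^ i) (o : Ω), smul_comm _ (o : Ω)]
  · induction hy using span_induction with
    | mem y hy =>
      obtain ⟨b, a, hb, rfl⟩ := hy
      have hs : b s = 0 := hb.1 s (by omega)
      have h1 : (b + Finsupp.single s i : Fin n →₀ ℕ) s = i := by simp [hs]
      have h2 : (b + Finsupp.single s i).erase s = b := by
        ext j
        by_cases h : j = s
        · subst h; simp [hs]
        · rw [Finsupp.erase_ne h]; simp [Ne.symm h]
      have h3 : Box e s (b + Finsupp.single s i) := by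
        refine ⟨fun j hj => ?_, fun j => ?_⟩
        · have h : s ≠ j := fun h => by subst h; omega
          simp [h, hb.1 j (by omega)]
        · by_cases h : j = s
          · subst h; rw [h1]; exact hi
          · simpa [Finsupp.single_apply, Ne.symm h] using hb.2 j
      have h4 := key hst.pf s _ a h3.1
      rw [h1, h2] at h4
      refine ⟨_, subset_span ⟨_, a, h3, rfl⟩, ?_⟩
      simpa using neg_mem h4
    | zero => exact UD.Md.of_mem (by simp)
    | add z w _ _ hz hw =>
      rw [smul_add, smul_add]
      exact hz.add hw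
    | smul o z _ hz =>
      obtain ⟨y, h1, h2⟩ := hz
      refine ⟨o • y, Submodule.smul_mem _ o h1, ?_⟩
      convert UD.smul_mem_T (o : Ω) h2 using 1
      rw [smul_sub, osm, osm, smul_comm (D.l s ^ i) (o : Ω), smul_comm _ (o : Ω)]

end Pool.Agent.P.MP_f4e0a3_ag.HP
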