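import Pool.Agent.P.MP_f4e0a3_ag.HP.IfaceA

/-! Step NS0. -/

set_option autoImplicit false
set_option linter.unusedSectionVars false

namespace Pool.Agent.P.MP_f4e0a3_ag.HP

open MvPolynomial Matrix Submodule Set

theorem p_NS0 (hCO : S_CO) (hEXCH : S_EXCH) :
    S_NS0 := by
  intro Ω _ O n D e s j c hG he hj
  have hsn : s ≤ n := by
    by_contra h
    rw [Nat.sub_eq_zero_of_le (by omega : n ≤ s), zero_mul] at hj
    omega
  have key : ∀ k, s ≤ k → k ≤ n → ∀ j, j ≠ (k - s) * (e - 1) → D.Soc c (D.Q e s k) s j := by
    intro k hk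
    induction k, hk using Nat.le_induction with
    | base =>
      intro _ j hj z hz _
      rw [Nat.sub_self, zero_mul] at hj
      obtain ⟨co, hco⟩ := hCO Ω O n D s (hG s hsn)
      refine UD.Md.of_mem' ?_
      rw [UD.Q, hco.mi]
      intro a β hβ
      have h0 : β = 0 := by
        ext i
        have h1 : ¬ (s ≤ i.val ∧ i.val < s) := by omega
        have h2 := hβ i
        rw [if_neg h1] at h2
        have h3 := h2 one_ne_zero
        simp only [Finsupp.coe_zero, Pi.zero_apply]
        omega
      refine ((hco.vd j z).mp hz a).coeff_eq_zero ?_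
      rw [h0, map_zero]
      exact hj.symm
    | succ k hk ih =>
      intro hkn j hj
      refine hEXCH Ω O n D e s k j c hG he hk hkn ?_
      by_cases h : j + 1 < e
      · exact Or.inl h
      · refine Or.inr (ih (by omega) _ fun h' => hj ?_)
        rw [show k + 1 - s = (k - s) + 1 by omega, add_mul, one_mul, ← h']
        omega
  have hQ : D.Q e s n = D.K e s := by
    rw [UD.Q, UD.K, D.sys_top]
    congr 1
    funext i
    have := i.isLt
    by_cases h : i.val < s
    · rw [if_pos h, if_neg (by omega)]
    · rw [if_neg h, if_pos (by omega)]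
  rw [← hQ]
  exact key n hsn le_rfl j hj.ne

end Pool.Agent.P.MP_f4e0a3_ag.HP
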