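import Pool.Agent.P.MP_f4e0a3_ag.HP.IfaceA

/-! Step NST. -/

set_option autoImplicit false
set_option linter.unusedSectionVars false

namespace Pool.Agent.P.MP_f4e0a3_ag.HP

open MvPolynomial Matrix Submodule Set

namespace NSTx

variable {Ω : Type} [Field Ω] {O : ValuationSubring Ω} {n : ℕ} {D : UD O n}

theorem smul_lam (γ : Ω) {w : D.V} (h : w ∈ D.Lam 1) : γ • w ∈ D.Lam γ := by
  induction h using span_induction with
  | mem y hy =>
    obtain ⟨β, a, rfl⟩ := hy
    exact subset_span ⟨β, a, by rw [one_smul]⟩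
  | zero => simp
  | add y z _ _ hy hz => rw [smul_add]; exact add_mem hy hz
  | smul o y _ hy => rw [smul_comm]; exact smul_mem _ o hy

theorem smul_lam' {c γ : Ω} (hc : c ≠ 0) (hv : O.valuation c ≤ O.valuation γ) {w : D.V}
    (h : w ∈ D.Lam 1) : c • w ∈ D.Lam γ := by
  have hγ : γ ≠ 0 := by
    rintro rfl
    rw [map_zero, le_zero_iff, map_eq_zero] at hv
    exact hc hv
  have ho : c / γ ∈ O := by
    rw [← O.valuation_le_one_iff, map_div₀]
    exact div_le_one_of_le₀ hv zero_le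
  have := smul_mem (D.Lam γ) (⟨c / γ, ho⟩ : O) (smul_lam γ h)
  have e : (⟨c / γ, ho⟩ : O) • γ • w = c • w := by
    change (c / γ) • γ • w = c • w
    rw [smul_smul, div_mul_cancel₀ _ hγ]
  rwa [e] at this

end NSTx

theorem p_NST (hLF : S_LF) :
    S_NST := by
  intro Ω _ O n D t p e s j pr hst hpr hs z hz
  have h7 := (hLF Ω O n D t hst.good hst.wt).2.2.2.2.2.2
  have hp : ∀ b a, Box e s b → p s b a ∈ D.Lam 1 ∧ p s b a ∈ D.Vd b.degree ∧
      (tw t b)⁻¹ • p s b a ∈ D.Fl t s b.degree :=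
    fun b a hb => h7 s b _ (hst.pf.mem s b a hs hb.1)
  have h1 : pr j z ∈ span O {y | ∃ b a, Box e s b ∧ b.degree = j ∧ y = (tw t b)⁻¹ • p s b a} := by
    induction hz using span_induction with
    | mem y hy =>
      obtain ⟨b, a, hb, rfl⟩ := hy
      have hv : (tw t b)⁻¹ • p s b a ∈ D.Vd b.degree := smul_mem _ _ (hp b a hb).2.1
      by_cases h : b.degree = j
      · rw [hpr.self j _ (h ▸ hv)]
        exact subset_span ⟨b, a, hb, h, rfl⟩
      · rw [hpr.ne _ j _ hv h]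
        exact zero_mem _
    | zero => simp
    | add y w _ _ hy hw => rw [map_add]; exact add_mem hy hw
    | smul o y _ hy =>
      have e : pr j (o • y) = o • pr j y := map_smul (pr j) (o : Ω) y
      rw [e]
      exact smul_mem _ o hy
  refine ⟨h1, span_le.2 ?_ h1, span_le.2 ?_ h1, fun γ hγ => span_le.2 ?_ h1⟩
  · rintro _ ⟨b, a, hb, -, rfl⟩
    exact subset_span ⟨b, a, hb, rfl⟩
  · rintro _ ⟨b, a, hb, rfl, rfl⟩
    exact (hp b a hb).2.2
  · rintro _ ⟨b, a, hb, h, rfl⟩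
    exact NSTx.smul_lam' (inv_ne_zero (tw_ne_zero hst.wt.ne b)) (hγ b hb h) (hp b a hb).1

end Pool.Agent.P.MP_f4e0a3_ag.HP
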