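import Pool.Agent.P.MP_f4e0a3_ag.HP.IfaceG

/-! Step OPEN. -/

set_option autoImplicit false
set_option linter.unusedSectionVars false

namespace Pool.Agent.P.MP_f4e0a3_ag.HP

open MvPolynomial Matrix Submodule Set

namespace OPENx

theorem aeval_ev {ι κ : Type} (ω : ι → MvPolynomial κ ℂ) (u : κ → ℂ) (q : MvPolynomial ι ℂ) :
    aeval u (aeval ω q) = aeval (ev ω u) q := comp_aeval_apply _ _ _

variable {n e : ℕ} [Fact (2 ≤ e)] [Nonempty (Fin n)] {m k : ℕ}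
  {Δ : (Fin k → Mon (Fin n) m) → MvPolynomial (Fin n × Mon (Fin n) e) ℂ}

theorem prop (hΔ : IsDelta m Δ) {w w' : Fin n × Mon (Fin n) e → ℂ} (hw : rs w ≠ 0)
    (hw' : rs w' ≠ 0) (h : span ℂ (range (tup w')) = span ℂ (range (tup w))) :
    ∃ c : ℂ, ev Δ w' = c • ev Δ w := by
  obtain ⟨b, hb, -⟩ := hΔ.ex w hw
  obtain ⟨c, hc, h1⟩ := hΔ.pl w hw b hb
  obtain ⟨c', hc', h2⟩ := hΔ.pl w' hw' b (by rw [hb, ← hilb_span, ← hilb_span, h])
  refine ⟨c'⁻¹ * c, ?_⟩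
  rw [mul_smul, ← h1, h2, inv_smul_smul₀ hc']

end OPENx

open OPENx in
theorem p_OPEN :
    S_OPEN := by
  intro n e _ _ m k Δ u₁ hΔ ⟨Q, ω, hQ, hQ0, h1, h2⟩
  refine ⟨Q, hQ, fun u hu hQu => ?_⟩
  have key : ∀ a b, u a * ev Δ (ev ω u) b = u b * ev Δ (ev ω u) a := by
    intro a b
    have h3 : ∀ v : (Fin k → Mon (Fin n) m) → ℂ,
        aeval v (Q * (X a * aeval ω (Δ b) - X b * aeval ω (Δ a))) =
          aeval v Q * (v a * ev Δ (ev ω v) b - v b * ev Δ (ev ω v) a) := by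
      intro v
      rw [map_mul, map_sub, map_mul, map_mul, aeval_X, aeval_X, aeval_ev, aeval_ev]
      rfl
    have h4 := hu (Q * (X a * aeval ω (Δ b) - X b * aeval ω (Δ a))) (by
      rintro _ ⟨w, c, hw, hc, rfl⟩
      rw [h3]
      by_cases h5 : aeval (c • ev Δ w) Q = 0
      · rw [h5, zero_mul]
      · obtain ⟨c', h6⟩ := prop hΔ hw (h1 _ h5) (h2 w c hw hc h5)
        rw [h6]
        simp only [Pi.smul_apply, smul_eq_mul]
        ring)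
    rw [h3] at h4
    exact sub_eq_zero.1 ((mul_eq_zero.1 h4).resolve_left hQu)
  obtain ⟨b, hb, hb0⟩ := hΔ.ex _ (h1 u hQu)
  obtain ⟨c, -, hc⟩ := hΔ.pl _ (h1 u hQu) b hb
  have h3 : ev Δ (ev ω u) ≠ 0 := fun h => hb0 (by rw [hc, h, smul_zero])
  obtain ⟨a, ha⟩ := Function.ne_iff.1 h3
  have ha' : ev Δ (ev ω u) a ≠ 0 := ha
  have h4 : u = (u a / ev Δ (ev ω u) a) • ev Δ (ev ω u) := by
    funext b
    rw [Pi.smul_apply, smul_eq_mul, div_mul_eq_mul_div, key a b, mul_div_cancel_right₀ _ ha']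
  refine ⟨ev ω u, _, h1 u hQu, fun h => hQu ?_, h4⟩
  rw [h, zero_smul] at h4
  rw [h4, hQ0]

end Pool.Agent.P.MP_f4e0a3_ag.HP
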