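import Pool.Agent.P.MP_f4e0a3_ag.HP.IfaceG

/-! Step PERF. -/

set_option autoImplicit false
set_option linter.unusedSectionVars false

namespace Pool.Agent.P.MP_f4e0a3_ag.HP

open MvPolynomial Matrix Submodule Set

theorem p_PERF :
    S_PERF := by
  intro F _ _ n A _ ξ g hg
  rcases isEmpty_or_nonempty (Fin n) with hn | ⟨⟨k⟩⟩
  · rw [Subsingleton.elim g 1, map_one]
  have cj : ∀ a x y : GL (Fin n) F, a.val * x.val = y.val * a.val → ξ x = ξ y := fun a x y h => by
    have := congrArg ξ (Units.ext h : a * x = y * a)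
    rw [map_mul, map_mul, mul_comm] at this
    exact mul_right_cancel this
  let φ : (Fin n → Fˣ) →* A := ξ.comp ⟨⟨diagU, diagU_one⟩, diagU_mul⟩
  let ψ : Fˣ →* A := φ.comp (MonoidHom.mulSingle (fun _ : Fin n => Fˣ) k)
  have sw : ∀ i t, φ (Pi.mulSingle i t) = ψ t := fun i t => by
    have hs : (Equiv.swap i k).permMatrix F * (Equiv.swap i k).permMatrix F = 1 := by
      rw [← permMatrix_mul, Equiv.swap_mul_self, permMatrix_one]
    refine cj ⟨_, _, hs, hs⟩ (diagU (Pi.mulSingle i t)) (diagU (Pi.mulSingle k t)) ?_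
    simp only [diagU_val]
    rw [PEquiv.mul_toMatrix_toPEquiv, PEquiv.toMatrix_toPEquiv_mul]
    ext a b
    obtain ⟨b, rfl⟩ := (Equiv.swap i k).surjective b
    by_cases h : a = b
    · subst h
      simp [Pi.mulSingle_apply, Equiv.swap_apply_eq_iff]
    · simp [h]
  have key := diagonal_transvection_induction_of_det_ne_zero
    (fun M => ∀ g : GL (Fin n) F, g.val = M → ξ g = ψ (GeneralLinearGroup.det g)) g.val
    (hg ▸ one_ne_zero) ?_ ?_ ?_ g rfl
  · rw [key, (Units.ext hg : GeneralLinearGroup.det g = 1), map_one]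
  · intro D hD x hx
    rw [det_diagonal, Finset.prod_ne_zero_iff] at hD
    obtain ⟨u, rfl⟩ : ∃ u, x = diagU u :=
      ⟨fun i => Units.mk0 (D i) (hD i (Finset.mem_univ i)), Units.ext hx⟩
    have : GeneralLinearGroup.det (diagU u) = ∏ i, u i := Units.ext (by simp [diagU_val])
    rw [this, map_prod]
    refine (congrArg φ (Finset.univ_prod_mulSingle u).symm).trans ?_
    rw [map_prod]
    exact Finset.prod_congr rfl fun i _ => sw i _
  · rintro ⟨i, j, hij, c⟩ x hx
    rw [TransvectionStruct.toMatrix_mk] at hx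
    have h1 : GeneralLinearGroup.det x = 1 := Units.ext (by
      rw [GeneralLinearGroup.val_det_apply, hx, det_transvection_of_ne _ _ hij, Units.val_one])
    have h2 := cj (diagU (Pi.mulSingle i (Units.mk0 2 two_ne_zero))) x (x * x) (by
      rw [Units.val_mul, hx, transvection_mul_transvection_same _ _ hij, diagU_val]
      ext a b
      rw [diagonal_mul, mul_diagonal]
      by_cases h : a = b
      · subst h
        by_cases h' : i = a
        · subst h'
          simp [transvection, hij.symm]
        · simp [transvection, h']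
      · by_cases h' : i = a ∧ j = b
        · obtain ⟨rfl, rfl⟩ := h'
          simp [transvection, hij, hij.symm, two_mul]
        · simp [transvection, h, single_apply, h'])
    rw [map_mul, left_eq_mul] at h2
    rw [h1, h2, map_one]
  · intro M N hM hN pM pN x hx
    obtain rfl : x = GeneralLinearGroup.mkOfDetNeZero M hM * GeneralLinearGroup.mkOfDetNeZero N hN :=
      Units.ext hx
    rw [map_mul, map_mul, map_mul, pM _ rfl, pN _ rfl]

end Pool.Agent.P.MP_f4e0a3_ag.HP
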