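import Pool.Agent.P.MP_f4e0a3_ag.HP.IfaceA

/-! Step PEX. -/

set_option autoImplicit false
set_option linter.unusedSectionVars false

namespace Pool.Agent.P.MP_f4e0a3_ag.HP

open MvPolynomial Matrix Submodule Set

theorem p_PEX (hLF : S_LF) :
    S_PEX := by
  intro Ω _ O n D t hg hw
  obtain ⟨-, h2, -, -, h5, -⟩ := hLF Ω O n D t hg hw
  have key : ∀ r, r ≤ n → ∃ p : ℕ → (Fin n →₀ ℕ) → D.μ → D.V, (∀ a, p n 0 a = D.e a) ∧
      (∀ s b a, n ≤ s + r → s ≤ n → Sup s b → p s b a ∈ D.G t s b) ∧
      ∀ (s : Fin n) b a, n ≤ s + r → Sup s b →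
        p s b a - D.l s ^ b s • p (s + 1) (b.erase s) a ∈ D.J s := by
    intro r
    induction r with
    | zero =>
      refine fun _ => ⟨fun _ _ a => D.e a, fun _ => rfl, fun s b a h1 _ hb => ?_,
        fun s _ _ h1 => absurd s.2 (by omega)⟩
      have b0 : b = 0 := Finsupp.ext fun i => hb i (by have := i.2; omega)
      subst b0
      exact subset_span ⟨0, a, hb, rfl, le_rfl, by simp [UD.mo]⟩
    | succ r ih =>
      intro hr
      obtain ⟨p, p1, p2, p3⟩ := ih (by omega)
      let s₀ : Fin n := ⟨n - (r + 1), by omega⟩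
      have e₀ : s₀.val = n - (r + 1) := rfl
      have ex : ∀ b a, ∃ y, Sup s₀ b → y ∈ D.G t s₀ b ∧
          y - D.l s₀ ^ b s₀ • p (s₀ + 1) (b.erase s₀) a ∈ D.J s₀ := by
        intro b a
        by_cases hb : Sup s₀ b
        swap
        · exact ⟨0, fun h => absurd h hb⟩
        have hb' : Sup (s₀ + 1) (b.erase s₀) := fun i hi => by
          by_cases c : i = s₀
          · rw [c, Finsupp.erase_same]
          · rw [Finsupp.erase_ne c]
            exact hb i (by have : i.val ≠ s₀.val := fun e => c (Fin.ext e); omega)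
        obtain ⟨y, y1, y2⟩ := h2 s₀ (b s₀) _ _
          (h5 _ _ (p2 (s₀ + 1) _ a (by omega) (by omega) hb'))
        rw [Finsupp.erase_add_single] at y1
        exact ⟨y, fun _ => ⟨y1, by rw [← neg_sub]; exact neg_mem y2⟩⟩
      choose y hy using ex
      refine ⟨Function.update p s₀ y, fun a => ?_, fun s b a h1 h2 hb => ?_, fun s b a h1 hb => ?_⟩
      · rw [Function.update_of_ne (by omega)]
        exact p1 a
      · by_cases c : s = s₀
        · subst c
          rw [Function.update_self]
          exact (hy b a hb).1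
        · rw [Function.update_of_ne c]
          exact p2 s b a (by omega) h2 hb
      · rw [Function.update_of_ne (a := s.val + 1) (by omega)]
        by_cases c : s = s₀
        · subst c
          rw [Function.update_self]
          exact (hy b a hb).2
        · have c' : s.val ≠ s₀.val := fun e => c (Fin.ext e)
          rw [Function.update_of_ne c']
          exact p3 s b a (by omega) hb
  obtain ⟨p, p1, p2, p3⟩ := key n le_rfl
  exact ⟨p, p1, fun s b a => p2 s b a (by omega), fun s b a => p3 s b a (by omega)⟩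

end Pool.Agent.P.MP_f4e0a3_ag.HP
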