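import Pool.Agent.P.MP_f4e0a3_ag.HP.IfaceA

/-! Step PLK. -/

set_option autoImplicit false
set_option linter.unusedSectionVars false

namespace Pool.Agent.P.MP_f4e0a3_ag.HP

open MvPolynomial Matrix Submodule Set

namespace PLKx

theorem minor {F ι : Type} [Field F] {k : ℕ} (v : ι → Fin k → F) (hS : ⊤ ≤ span F (range v)) :
    ∃ T : Fin k → ι, (Matrix.of fun i j => v (T j) i).det ≠ 0 := by
  let b := Module.Basis.ofSpan hS
  let b' : Module.Basis (Fin k) F (Fin k → F) := b.reindex (b.indexEquiv (Pi.basisFun F _))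
  have hb' : ∀ j, b' j ∈ range v := fun j => by
    apply Module.Basis.ofSpan_subset hS
    rw [Module.Basis.reindex_apply]
    exact ⟨_, rfl⟩
  choose T hT using hb'
  have := (Pi.basisFun F (Fin k)).invertibleToMatrix b'
  have h : (Matrix.of fun i j => v (T j) i) = (Pi.basisFun F (Fin k)).toMatrix b' := by
    ext i j
    simp [Module.Basis.toMatrix_apply, hT]
  exact ⟨T, h ▸ (isUnit_det_of_invertible _).ne_zero⟩

end PLKx

theorem p_PLK :
    S_PLK := by
  intro F _ n k m
  have h2 : ∀ (C : Matrix (Fin k) (Fin k) F) (b : Fin k → MvPolynomial (Fin n) F),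
      pl m (fun i => ∑ j, C i j • b j) = C.det • pl m b := fun C b => by
    funext T
    rw [Pi.smul_apply, smul_eq_mul, pl, pl, ← det_mul]
    congr 1
    ext i j
    simp [coeff_sum, mul_apply]
  have h3 : ∀ b b' : Fin k → MvPolynomial (Fin n) F, span F (range b') ≤ span F (range b) →
      ∃ c : F, pl m b' = c • pl m b := fun b b' h => by
    choose C hC using fun i => (mem_span_range_iff_exists_fun F).1 (h (subset_span ⟨i, rfl⟩))
    exact ⟨_, (congrArg (pl m) (funext hC).symm).trans (h2 (Matrix.of C) b)⟩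
  refine ⟨fun b hb => ⟨fun hl => ?_, fun hl => ?_⟩, h2, h3, fun b b' h h0 => ?_⟩
  · obtain ⟨T, hT⟩ := PLKx.minor (fun (β : Mon (Fin n) m) i => coeff β.1 (b i)) (by
      by_contra h3
      obtain ⟨φ, hφ1, hφ2⟩ := Submodule.exists_le_ker_of_lt_top _
        (lt_top_iff_ne_top.2 fun h4 => h3 h4.ge)
      apply hφ1
      have hw : ∀ x : Fin k → F, φ x = ∑ i, φ (Pi.single i 1) * x i := by
        intro x
        conv_lhs => rw [pi_eq_sum_univ' x]
        simp [mul_comm]
      have h4 := Fintype.linearIndependent_iff.1 hl (fun i => φ (Pi.single i 1)) (by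
        refine IsHomogeneous.ext_mon (e := m) ((homogeneousSubmodule _ F m).sum_mem fun i _ =>
          (homogeneousSubmodule _ F m).smul_mem _ (hb i)) (isHomogeneous_zero _ _ _) fun β => ?_
        have h5 : φ (fun i => coeff β.1 (b i)) = 0 := hφ2 (Submodule.subset_span ⟨β, rfl⟩)
        rw [hw] at h5
        simpa [coeff_sum] using h5)
      ext i
      simpa using h4 i)
    exact fun h => hT (congrFun h T)
  · obtain ⟨T, hT⟩ := Function.ne_iff.1 hl
    refine Fintype.linearIndependent_iff.2 fun c hc => congrFun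
      (eq_zero_of_vecMul_eq_zero (M := Matrix.of fun i j => coeff (T j).1 (b i)) hT ?_)
    funext j
    simpa [coeff_sum, vecMul, dotProduct] using congrArg (coeff (T j).1) hc
  · obtain ⟨c, hc⟩ := h3 b b' h.le
    obtain ⟨c', hc'⟩ := h3 b' b h.ge
    refine ⟨c, ?_, hc⟩
    rintro rfl
    exact h0 (by rw [hc', hc, zero_smul, smul_zero])

end Pool.Agent.P.MP_f4e0a3_ag.HP
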