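import Pool.Agent.P.MP_f4e0a3_ag.HP.IfaceA

/-! Step PLN. -/

set_option autoImplicit false
set_option linter.unusedSectionVars false

namespace Pool.Agent.P.MP_f4e0a3_ag.HP

open MvPolynomial Matrix Submodule Set

theorem p_PLN (hPLK : S_PLK) (hCRAM : S_CRAM) :
    S_PLN := by
  intro Ω _ O n k m t b ht hb hli
  classical
  obtain ⟨T₀, hT₀⟩ := Function.ne_iff.1 (((hPLK Ω n k m).1 b hb).1 hli)
  have : Nonempty (Fin k → Mon (Fin n) m) := ⟨T₀⟩
  obtain ⟨T, hT⟩ := Finite.exists_max fun T' : Fin k → Mon (Fin n) m =>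
    O.valuation ((∏ j, tw t (T' j).1) * pl m b T')
  have hA : O.valuation ((∏ j, tw t (T j).1) * pl m b T) ≠ 0 := by
    intro h
    have h1 := hT T₀
    rw [h, le_zero_iff, map_eq_zero] at h1
    exact mul_ne_zero (Finset.prod_ne_zero_iff.2 fun j _ => tw_ne_zero ht _) hT₀ h1
  have hP : pl m b T ≠ 0 := fun h => hA (by rw [h, mul_zero, map_zero])
  obtain ⟨⟨C, c1, -, c3⟩, c4⟩ := hCRAM Ω n k m b T hb hP
  have hw : ∀ j, tw t (T j).1 ≠ 0 := fun j => tw_ne_zero ht _
  have hhom : ∀ y ∈ span Ω (range b), y.IsHomogeneous m := fun y hy =>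
    (span_le (p := homogeneousSubmodule (Fin n) Ω m)).2 (by rintro _ ⟨i, rfl⟩; exact hb i) hy
  have hr : ∀ i, (∑ l, C i l • b l).IsHomogeneous m := fun i =>
    hhom _ (sum_mem fun l _ => smul_mem _ _ (subset_span (mem_range_self l)))
  have row : ∀ i, ∑ l, (diagonal (fun j => (tw t (T j).1)⁻¹) * C) i l • b l =
      (tw t (T i).1)⁻¹ • ∑ l, C i l • b l := by
    intro i
    simp only [diagonal_mul, Finset.smul_sum, mul_smul]
  refine ⟨T, diagonal (fun j => (tw t (T j).1)⁻¹) * C, hT, ?_, fun i β => ?_, fun y hy hO => ?_⟩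
  · rw [det_mul, det_diagonal, Finset.prod_inv_distrib]
    have h1 : ∏ j, tw t (T j).1 ≠ 0 := Finset.prod_ne_zero_iff.2 fun j _ => hw j
    field_simp
    exact c1
  · rw [row]
    by_cases hβ : β.degree = m
    · have e1 : ∏ j, tw t (Function.update T i ⟨β, hβ⟩ j).1 =
          tw t β * ∏ j ∈ Finset.univ \ {i}, tw t (T j).1 := by
        rw [← Finset.prod_update_of_mem (Finset.mem_univ i) fun j => tw t (T j).1]
        exact Finset.prod_congr rfl fun j _ =>
          Function.apply_update (fun _ (γ : Mon (Fin n) m) => tw t γ.1) T i ⟨β, hβ⟩ j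
      have e2 : ∏ j, tw t (T j).1 = tw t (T i).1 * ∏ j ∈ Finset.univ \ {i}, tw t (T j).1 :=
        Finset.prod_eq_mul_prod_sdiff_singleton_of_mem (Finset.mem_univ i) _
      have e3 : ((∏ j, tw t (T j).1) * pl m b T) *
          (tw t β * coeff β ((tw t (T i).1)⁻¹ • ∑ l, C i l • b l)) =
          (∏ j, tw t (Function.update T i ⟨β, hβ⟩ j).1) *
            pl m b (Function.update T i ⟨β, hβ⟩) := by
        have h2 := hw i
        rw [e1, e2, ← c3 i ⟨β, hβ⟩, coeff_smul, smul_eq_mul]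
        field_simp
      have h3 := hT (Function.update T i ⟨β, hβ⟩)
      rw [← e3, map_mul] at h3
      rw [← O.valuation_le_one_iff]
      exact (mul_le_iff_le_one_right (zero_lt_iff.2 hA)).1 h3
    · rw [coeff_smul, (hr i).coeff_eq_zero hβ, smul_zero, mul_zero]
      exact O.zero_mem
  · have e : y = ∑ i, coeff (T i).1 y • ∑ l, C i l • b l := by
      ext β
      rw [coeff_sum]
      by_cases hβ : β.degree = m
      · apply mul_left_cancel₀ hP
        rw [(c4 y (hhom y hy)).1 hy ⟨β, hβ⟩, Finset.mul_sum]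
        refine Finset.sum_congr rfl fun i _ => ?_
        rw [← c3 i ⟨β, hβ⟩, coeff_smul, smul_eq_mul]
        ring
      · rw [(hhom y hy).coeff_eq_zero hβ]
        refine (Finset.sum_eq_zero fun i _ => ?_).symm
        rw [coeff_smul, (hr i).coeff_eq_zero hβ, smul_zero]
    refine (mem_span_range_iff_exists_fun O).2 ⟨fun i => ⟨_, hO (T i).1⟩, ?_⟩
    conv_rhs => rw [e]
    refine Finset.sum_congr rfl fun i _ => ?_
    rw [row]
    change (tw t (T i).1 * coeff (T i).1 y) • ((tw t (T i).1)⁻¹ • ∑ l, C i l • b l) = _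
    rw [smul_smul, mul_right_comm, mul_inv_cancel₀ (hw i), one_mul]

end Pool.Agent.P.MP_f4e0a3_ag.HP
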