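import Pool.Agent.P.MP_f4e0a3_ag.HP.IfaceA

/-! Step PR. -/

set_option autoImplicit false
set_option linter.unusedSectionVars false

namespace Pool.Agent.P.MP_f4e0a3_ag.HP

open MvPolynomial Matrix Submodule Set

namespace PRx

variable {Ω : Type} [Field Ω] {O : ValuationSubring Ω} {n : ℕ} {D : UD O n}

/-- the projection in coordinates -/
noncomputable def prj (co : D.V ≃ₗ[Ω] (D.μ → MvPolynomial (Fin n) Ω)) (j : ℕ) : D.V →ₗ[Ω] D.V :=
  co.symm.toLinearMap ∘ₗ (homogeneousComponent j).compLeft D.μ ∘ₗ co.toLinearMap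

theorem co_prj (co : D.V ≃ₗ[Ω] (D.μ → MvPolynomial (Fin n) Ω)) (j : ℕ) (z : D.V) (a : D.μ) :
    co (prj co j z) a = homogeneousComponent j (co z a) := by
  simp [prj]

variable {A B : Fin n → D.T} {co co' : D.V ≃ₗ[Ω] (D.μ → MvPolynomial (Fin n) Ω)}

theorem prj_mem (h : D.Co A co) (j : ℕ) (z : D.V) : prj co j z ∈ D.Vd j :=
  (h.vd _ _).2 fun a => by rw [co_prj]; exact homogeneousComponent_isHomogeneous _ _

theorem prj_vd (h : D.Co A co) {i : ℕ} (j : ℕ) {z : D.V} (hz : z ∈ D.Vd i) :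
    prj co j z = if j = i then z else 0 := by
  apply co.injective
  funext a
  rw [co_prj, homogeneousComponent_of_mem ((h.vd _ _).1 hz a)]
  split_ifs <;> simp

theorem sum_prj (co : D.V ≃ₗ[Ω] (D.μ → MvPolynomial (Fin n) Ω)) (z : D.V) :
    ∃ N, ∑ i ∈ Finset.range N, prj co i z = z := by
  refine ⟨Finset.univ.sup (fun a => (co z a).totalDegree) + 1, co.injective (funext fun a => ?_)⟩
  rw [map_sum, Finset.sum_apply]
  simp only [co_prj]
  have h1 : (co z a).totalDegree ≤ Finset.univ.sup fun a => (co z a).totalDegree :=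
    Finset.le_sup (f := fun a => (co z a).totalDegree) (Finset.mem_univ a)
  conv_rhs => rw [← (co z a).sum_homogeneousComponent]
  symm
  refine Finset.sum_subset (Finset.range_subset_range.2 (by omega)) fun i _ hi => ?_
  exact homogeneousComponent_eq_zero _ _ (by simpa using hi)

theorem prj_eq (h : D.Co A co) (h' : D.Co B co') (j : ℕ) (z : D.V) :
    prj co j z = prj co' j z := by
  obtain ⟨N, hN⟩ := sum_prj co z
  rw [← hN, map_sum, map_sum]
  exact Finset.sum_congr rfl fun i _ => by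
    rw [prj_vd h j (prj_mem h i z), prj_vd h' j (prj_mem h i z)]

theorem co_pow (h : D.Co A co) (i : Fin n) (r : ℕ) (z : D.V) (a : D.μ) :
    co (A i ^ r • z) a = co z a * X i ^ r := by
  induction r with
  | zero => simp
  | succ r ih => rw [pow_succ', mul_smul, h.mul, ih]; ring

theorem prj_pow (h : D.Co A co) (i : Fin n) (r j : ℕ) (z : D.V) :
    prj co (j + r) (A i ^ r • z) = A i ^ r • prj co j z := by
  apply co.injective
  funext a
  rw [co_prj, co_pow h, co_pow h, co_prj,
    homogeneousComponent_mul_right _ _ (isHomogeneous_X_pow i r), if_pos (by omega),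
    Nat.add_sub_cancel]

theorem prj_pow0 (h : D.Co A co) (i : Fin n) (r j : ℕ) (z : D.V) (hj : j < r) :
    prj co j (A i ^ r • z) = 0 := by
  apply co.injective
  funext a
  rw [co_prj, co_pow h, homogeneousComponent_mul_right _ _ (isHomogeneous_X_pow i r),
    if_neg (by omega)]
  simp

end PRx

open PRx in
theorem p_PR (hCO : S_CO) :
    S_PR := by
  intro Ω _ O n D hD
  obtain ⟨co, h⟩ := hCO Ω O n D 0 (hD 0 (Nat.zero_le _))
  obtain ⟨cn, hn⟩ := hCO Ω O n D n (hD n le_rfl)
  rw [UD.sys_zero] at h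
  rw [UD.sys_top] at hn
  refine ⟨prj co, prj_mem h, fun j z hz => ?_, fun i j z hz hij => ?_, fun j c z hz => ?_,
    fun k hk c j z hz => ?_, prj_pow h, fun i r j z => ?_, prj_pow0 h, fun i r j z hj => ?_⟩
  · rw [prj_vd h j hz, if_pos rfl]
  · rw [prj_vd h j hz, if_neg (Ne.symm hij)]
  · refine (h.lam _ _).2 fun a β => ?_
    rw [co_prj, coeff_homogeneousComponent]
    split_ifs
    · exact (h.lam _ _).1 hz a β
    · exact ⟨0, by simp⟩
  · obtain ⟨ck, hk⟩ := hCO Ω O n D k (hD k hk)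
    rw [prj_eq h hk]
    refine (hk.mi _ _).2 fun a β hβ => ?_
    rw [co_prj, coeff_homogeneousComponent]
    split_ifs
    · exact (hk.mi _ _).1 hz a β hβ
    · rfl
  · rw [prj_eq h hn, prj_eq h hn, prj_pow hn]
  · rw [prj_eq h hn, prj_pow0 hn _ _ _ _ hj]

end Pool.Agent.P.MP_f4e0a3_ag.HP
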