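import Pool.Agent.P.MP_f4e0a3_ag.HP.IfaceG

/-! Step PRIM. -/

set_option autoImplicit false
set_option linter.unusedSectionVars false

namespace Pool.Agent.P.MP_f4e0a3_ag.HP

open MvPolynomial Matrix Submodule Set

namespace PRIMx

variable {n : ℕ} {ι : Type} [Fintype ι] [DecidableEq ι] (r : Rep Unit (Fin n) ι)
  {Ω : Type} [Field Ω] [Algebra ℂ Ω] (O : ValuationSubring Ω) [OverC O]

theorem term_le (γ : Gr Unit (Fin n) O) (u : ι → Ω) (i j : ι) :
    O.valuation (u j * r.ρ Ω (mapG (incO O : O →+* Ω) γ) j i) ≤ O.valuation (u j) := by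
  rw [← r.nat (incO O) γ, map_mul]
  exact mul_le_of_le_one_right' (O.valuation_le_one (r.ρ O γ j i))

theorem le (γ : Gr Unit (Fin n) O) (u : ι → Ω) (x : O.ValueGroup)
    (h : ∀ i, O.valuation (u i) ≤ x) (i : ι) :
    O.valuation (r.pt u (mapG (incO O : O →+* Ω) γ) i) ≤ x :=
  O.valuation.map_sum_le fun j _ => (term_le r O γ u i j).trans (h j)

theorem lt (γ : Gr Unit (Fin n) O) (u : ι → Ω) (x : O.ValueGroup)
    (h : ∀ i, O.valuation (u i) < x) (i : ι) :
    O.valuation (r.pt u (mapG (incO O : O →+* Ω) γ) i) < x :=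
  O.valuation.map_sum_lt (ne_zero_of_lt (h i)) fun j _ => (term_le r O γ u i j).trans_lt (h j)

end PRIMx

theorem p_PRIM :
    S_PRIM := by
  intro n ι _ _ r Ω _ _ O _ P P' u x hP
  have h1 : (fun _ => P' : Gr Unit (Fin n) Ω) = mapG (incO O : O →+* Ω) fun _ => P :=
    funext fun _ => Units.ext hP
  rw [h1]
  have h2 : r.pt (r.pt u (mapG (incO O : O →+* Ω) fun _ => P))
      (mapG (incO O : O →+* Ω) (fun _ => P)⁻¹) = u := by
    rw [map_inv, r.pt_inv_pt]
  exact ⟨⟨fun h => h2 ▸ PRIMx.le r O _ _ x h, PRIMx.le r O _ u x⟩,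
    fun h => h2 ▸ PRIMx.lt r O _ _ x h, PRIMx.lt r O _ u x⟩

end Pool.Agent.P.MP_f4e0a3_ag.HP
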