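import Pool.Agent.P.MP_f4e0a3_ag.HP.IfaceG

/-! Step PROP. -/

set_option autoImplicit false
set_option linter.unusedSectionVars false

namespace Pool.Agent.P.MP_f4e0a3_ag.HP

open MvPolynomial Matrix Submodule Set

namespace PROPx

variable {n e : ℕ} {ι R S : Type} [Fintype ι] [DecidableEq ι] [CommRing R] [Algebra ℂ R]
  [CommRing S] [Algebra ℂ S] (r : Rep Unit (Fin n) ι)
  (Δ : ι → MvPolynomial (Fin n × Mon (Fin n) e) ℂ) (w : Fin n × Mon (Fin n) e → ℂ)

/-- one side of the identity -/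
noncomputable def sd (T T' : ι) (γ : Gr Bool (Fin n) R) : R :=
  ev Δ (lin0 (γ false).val (γ true).val fun p => algebraMap ℂ R (w p)) T *
    r.pt (fun i => algebraMap ℂ R (ev Δ w i)) (fun _ => γ true) T'

theorem map_sd (T T' : ι) (γ : Gr Bool (Fin n) R) (φ : R →ₐ[ℂ] S) :
    φ (sd r Δ w T T' γ) = sd r Δ w T T' (mapG (φ : R →+* S) γ) := by
  have h1 := map_lin0 (φ : R →+* S) (γ false).val (γ true).val fun p => algebraMap ℂ R (w p)
  have h2 := congrFun (r.map_pt φ (fun i => algebraMap ℂ R (ev Δ w i)) fun _ => γ true) T'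
  simp only [RingHom.coe_coe, AlgHom.commutes] at h1 h2
  rw [sd, map_mul, h2, ev, ← AlgHom.comp_apply, comp_aeval, h1]
  rfl

end PROPx

open PROPx in
theorem p_PROP (hEQV : S_EQV) :
    S_PROP := by
  intro n e _ _ m k r Δ hr hΔ
  have H := hEQV n e m k r Δ hr hΔ
  refine ⟨fun w hw R _ _ a g T T' => ?_, fun F _ _ w hw h0 => hw ?_⟩
  · have h : sd r Δ w T T' (genG Bool (Fin n) ℂ) - sd r Δ w T' T (genG Bool (Fin n) ℂ) = 0 :=
      CG_eq_zero _ fun γ => by
        obtain ⟨-, c, -, hc⟩ := (H w hw).2 (γ false) (γ true)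
        rw [map_sub, map_sd, map_sd, mapG_evG]
        simp only [sd, Algebra.algebraMap_self, RingHom.id_apply, hc, Pi.smul_apply, smul_eq_mul]
        ring
    have := congrArg (evG ℂ (pairG a g)) h
    rw [map_sub, map_sd, map_sd, mapG_evG, map_zero, sub_eq_zero] at this
    exact this
  · obtain ⟨N, hN⟩ := mem_radical_of_forall_point (Ideal.span (range Δ)) (Res (Fin n) e)
      fun ψ hψ => by
        rw [aeval_unique ψ] at hψ ⊢
        by_contra h
        exact (H _ h).1 (funext fun T => hψ _ (Ideal.subset_span ⟨T, rfl⟩))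
    have : Ideal.span (range Δ) ≤ RingHom.ker (aeval w : MvPolynomial _ ℂ →ₐ[ℂ] F) :=
      Ideal.span_le.2 (by rintro _ ⟨T, rfl⟩; exact congrFun h0 T)
    have := this hN
    rw [RingHom.mem_ker, map_pow] at this
    exact (pow_eq_zero_iff'.1 this).1

end Pool.Agent.P.MP_f4e0a3_ag.HP
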