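import Pool.Agent.P.MP_f4e0a3_ag.HP.IfaceG

/-! Step PULL. -/

set_option autoImplicit false
set_option linter.unusedSectionVars false

namespace Pool.Agent.P.MP_f4e0a3_ag.HP

open MvPolynomial Matrix Submodule Set

namespace PULLx

variable {n e m k : ℕ}

open scoped Classical in
/-- the extension by zero of a polynomial Plücker vector -/
noncomputable def Dl (Δ : (Fin k → Mon (Fin n) m) → MvPolynomial (Fin n × Mon (Fin n) e) ℂ)
    (I : Fin k → (Fin n →₀ ℕ)) : MvPolynomial (Fin n × (Fin n →₀ ℕ)) ℂ :=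
  if H : ∀ j, (I j).degree = m then rename (fun p => (p.1, p.2.1)) (Δ fun j => ⟨I j, H j⟩) else 0

theorem key [Fact (2 ≤ e)] [Nonempty (Fin n)] (hZPT : S_ZPT)
    {Δ : (Fin k → Mon (Fin n) m) → MvPolynomial (Fin n × Mon (Fin n) e) ℂ} (hΔ : IsDelta m Δ)
    (h : Fin n → MvPolynomial (Fin n) ℂ) (hh : span ℂ (range h) ∈ Z n e) :
    ∃ (b : Fin k → MvPolynomial (Fin n) ℂ) (c : ℂ), c ≠ 0 ∧
      span ℂ (range b) = hilb m (span ℂ (range h)) ∧
      ∀ (N : ℕ) (P : MvPolynomial (Fin k → (Fin n →₀ ℕ)) ℂ), P.IsHomogeneous N →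
        eval (plucker b) P = c ^ N * eval (fun p => coeff p.2 (h p.1)) (bind₁ (Dl Δ) P) := by
  obtain ⟨z1, z2, -⟩ := hZPT n e
  have e1 := z2 h hh
  have hw : rs (crd e h) ≠ 0 := (z1 _).1 (by rw [e1]; exact hh)
  obtain ⟨b, hb, -⟩ := hΔ.ex _ hw
  obtain ⟨c, hc, hp⟩ := hΔ.pl _ hw b hb
  refine ⟨b, c, hc, by rw [hb, e1, hilb_span], fun N P hP => ?_⟩
  have e2 : plucker b = fun I => c * aeval (fun p => coeff p.2 (h p.1)) (Dl Δ I) := by
    funext I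
    unfold Dl
    split_ifs with H
    · rw [aeval_rename]
      exact congrFun hp fun j => ⟨I j, H j⟩
    · obtain ⟨j, hj⟩ := not_forall.1 H
      rw [map_zero, mul_zero]
      refine Matrix.det_eq_zero_of_column_eq_zero j fun i => ?_
      have : b i ∈ Im m (tup (crd e h)) := hb ▸ subset_span ⟨i, rfl⟩
      exact (mem_Im.1 this).2.coeff_eq_zero hj
  rw [← coe_aeval_eq_eval, ← coe_aeval_eq_eval, RingHom.coe_coe, RingHom.coe_coe, e2,
    aeval_mul_left hP, aeval_bind₁]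

end PULLx

theorem p_PULL (hREG : S_REG) (hZPT : S_ZPT) (hIMACT : S_IMACT) :
    S_PULL := by
  intro n e _ _ m k Δ Y Y' hY φ hΔ hZ hφ
  refine ⟨(hREG n n Y _).2 (fun U hU => ((hZPT n e).2.2.1 U (hZ hU)).1) fun h₀ hh₀ => ?_, ?_⟩
  · obtain ⟨b₀, c₀, hc₀, hb₀, H₀⟩ := PULLx.key hZPT hΔ h₀ (hZ hh₀)
    obtain ⟨N, P, Q, hP, hQ, q0, hq⟩ := hφ.1 b₀ (hb₀ ▸ hY _ hh₀)
    refine ⟨bind₁ (PULLx.Dl Δ) P, bind₁ (PULLx.Dl Δ) Q, ?_, fun h hh hB => ?_⟩
    · rw [H₀ N Q hQ] at q0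
      exact right_ne_zero_of_mul q0
    · obtain ⟨b, c, hc, hb, H⟩ := PULLx.key hZPT hΔ h (hZ hh)
      have hb' : span ℂ (range b) ∈ Y' := hb ▸ hY _ hh
      have h1 := hq b hb' (by rw [H N Q hQ]; exact mul_ne_zero (pow_ne_zero _ hc) hB)
      rw [H N P hP, H N Q hQ, mul_div_mul_left _ _ (pow_ne_zero _ hc)] at h1
      rw [← h1]
      exact congrArg φ (Subtype.ext hb.symm)
  · rintro g ⟨L, hL⟩ ⟨L', hL'⟩ h
    obtain ⟨-, w, rfl⟩ := (hZPT n e).2.2.1 L (hZ hL)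
    refine hφ.2 g _ _ ?_
    have h1 : L' = span ℂ (range (act2 (1 : GL (Fin n) ℂ).val g.val (tup w))) := by
      rw [span_act2]; exact h
    subst h1
    change hilb m _ = (hilb m _).map _
    rw [hilb_span, hilb_span]
    exact hIMACT ℂ n m 1 (Matrix.SpecialLinearGroup.toGL g) (tup w)

end Pool.Agent.P.MP_f4e0a3_ag.HP
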