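import Pool.Agent.P.MP_f4e0a3_ag.HP.IfaceG

/-! Step PZ. -/

set_option autoImplicit false
set_option linter.unusedSectionVars false

namespace Pool.Agent.P.MP_f4e0a3_ag.HP

open MvPolynomial Matrix Submodule Set

namespace PZx

theorem aeval_aeval {ι κ : Type} (Δ : ι → MvPolynomial κ ℂ) (w : κ → ℂ) (P : MvPolynomial ι ℂ) :
    aeval w (aeval Δ P) = aeval (ev Δ w) P := by
  rw [← AlgHom.comp_apply, comp_aeval]; rfl

theorem aeval_smul {ι : Type} {P : MvPolynomial ι ℂ} {N : ℕ} (hP : P.IsHomogeneous N) (c : ℂ)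
    (u : ι → ℂ) : aeval (c • u) P = c ^ N * aeval u P := by
  conv_lhs => rw [P.as_sum]
  conv_rhs => rw [P.as_sum]
  rw [map_sum, map_sum, Finset.mul_sum]
  refine Finset.sum_congr rfl fun β hβ => ?_
  have hd : ∑ i ∈ β.support, β i = N := by
    have := hP (mem_support_iff.1 hβ)
    simpa [Finsupp.weight_apply, Finsupp.sum] using this
  rw [aeval_monomial, aeval_monomial, Finsupp.prod, Finsupp.prod, ← hd,
    ← Finset.prod_pow_eq_pow_sum]
  simp only [Pi.smul_apply, smul_eq_mul, mul_pow, Finset.prod_mul_distrib]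
  ring

end PZx

theorem p_PZ (hSEMI : S_SEMI) (hCHAR : S_CHAR) (hZPT : S_ZPT) :
    S_PZ := by
  intro n e _ _ m k r Δ N P w₀ hr hΔ hP hinv h0
  have hD : aeval Δ P ≠ (0 : MvPolynomial (Fin n × Mon (Fin n) e) ℂ) := fun h =>
    h0 (by rw [← PZx.aeval_aeval, h, map_zero])
  obtain ⟨ρ, δ, hρ, hF⟩ := hCHAR n e (aeval Δ P) hD (fun a g hg => by
    obtain ⟨c, hc⟩ := hSEMI n e m k r Δ hr hΔ a g
    refine ⟨c ^ N, fun w => ?_⟩
    rw [PZx.aeval_aeval, PZx.aeval_aeval, hc, PZx.aeval_smul hP, hinv g hg])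
  refine ⟨evZ n e _, evZ_mem hF, fun w hw => ?_⟩
  have hw0 : rs w ≠ 0 := ((hZPT n e).1 w).1 hw
  have e1 : zU e (tup w) ∘ some = w := by
    funext p; simp [zU]
  have e2 : zU e (tup w) none = (rs w)⁻¹ := by rw [zU, ext_none, crd_tup]
  rw [evZ_span hF, map_mul, map_pow, map_pow, aeval_rename, aeval_X, e1, e2, PZx.aeval_aeval,
    mul_ne_zero_iff, pow_ne_zero_iff hρ.ne']
  exact and_iff_left (pow_ne_zero _ (inv_ne_zero hw0))

end Pool.Agent.P.MP_f4e0a3_ag.HP
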