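import Pool.Agent.P.MP_f4e0a3_ag.HP.IfaceA

/-! Step QB. -/

set_option autoImplicit false
set_option linter.unusedSectionVars false

namespace Pool.Agent.P.MP_f4e0a3_ag.HP

open MvPolynomial Matrix Submodule Set

namespace QBx

/-- the Gaussian binomial coefficients -/
def gb (ζ : ℂ) : ℕ → ℕ → ℂ
  | _, 0 => 1
  | 0, _ + 1 => 0
  | n + 1, k + 1 => ζ ^ (k + 1) * gb ζ n (k + 1) + gb ζ n k

theorem gb_zero (ζ : ℂ) (n : ℕ) : gb ζ n 0 = 1 := by cases n <;> rfl

theorem gb_lt (ζ : ℂ) : ∀ n k, n < k → gb ζ n k = 0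
  | _, 0, h => absurd h (Nat.not_lt_zero _)
  | 0, _ + 1, _ => rfl
  | n + 1, k + 1, h => by
    rw [gb, gb_lt ζ n (k + 1) (by omega), gb_lt ζ n k (by omega), mul_zero, add_zero]

theorem gb_self (ζ : ℂ) : ∀ n, gb ζ n n = 1
  | 0 => rfl
  | n + 1 => by rw [gb, gb_lt ζ n (n + 1) (by omega), gb_self ζ n, mul_zero, zero_add]

theorem gb_rec (ζ : ℂ) : ∀ n k, gb ζ n (k + 1) * (ζ ^ (k + 1) - 1) * ζ ^ k =
    gb ζ n k * (ζ ^ n - ζ ^ k)
  | 0, 0 => by simp [gb]
  | 0, _ + 1 => by simp [gb]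
  | n + 1, 0 => by
    have := gb_rec ζ n 0
    rw [gb_zero] at this
    rw [gb_zero, gb, gb_zero]
    linear_combination ζ * this
  | n + 1, k + 1 => by
    rw [gb, gb]
    linear_combination ζ ^ (k + 2) * gb_rec ζ n (k + 1) + ζ * gb_rec ζ n k

theorem gb_top {ζ : ℂ} {e : ℕ} (h : IsPrimitiveRoot ζ e) : ∀ k, k + 1 < e → gb ζ e (k + 1) = 0 := by
  have key : ∀ k, k + 1 < e → gb ζ e k * (ζ ^ e - ζ ^ k) = 0 → gb ζ e (k + 1) = 0 :=
    fun k hk h0 => by
      rw [← gb_rec, mul_eq_zero, mul_eq_zero] at h0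
      rcases h0 with (h0 | h0) | h0
      · exact h0
      · exact absurd (sub_eq_zero.1 h0) (h.pow_ne_one_of_pos_of_lt (by omega) hk)
      · exact absurd h0 (pow_ne_zero _ (h.ne_zero (by omega)))
  intro k
  induction k with
  | zero => exact fun hk => key 0 hk (by rw [h.pow_eq_one, pow_zero, sub_self, mul_zero])
  | succ k ih => exact fun hk => key _ hk (by rw [ih (by omega), zero_mul])

variable {A : Type} [Ring A] [Algebra ℂ A] {ζ : ℂ} {x y : A}

theorem comm (h : x * y = ζ • (y * x)) (k : ℕ) : x * y ^ k = ζ ^ k • (y ^ k * x) := by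
  induction k with
  | zero => simp
  | succ k ih =>
    rw [pow_succ y, ← mul_assoc, ih, smul_mul_assoc, mul_assoc, h, mul_smul_comm, smul_smul,
      ← pow_succ, mul_assoc]

theorem expand (h : x * y = ζ • (y * x)) (n : ℕ) :
    (x + y) ^ n = ∑ k ∈ Finset.range (n + 1), gb ζ n k • (y ^ k * x ^ (n - k)) := by
  induction n with
  | zero => simp [gb]
  | succ n ih =>
    have h1 : x * (x + y) ^ n =
        ∑ k ∈ Finset.range (n + 1 + 1), (ζ ^ k * gb ζ n k) • (y ^ k * x ^ (n + 1 - k)) := by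
      rw [Finset.sum_range_succ, gb_lt ζ n (n + 1) (by omega), mul_zero, zero_smul, add_zero, ih,
        Finset.mul_sum]
      refine Finset.sum_congr rfl fun k hk => ?_
      rw [mul_smul_comm, ← mul_assoc, comm h, smul_mul_assoc, smul_smul, mul_comm (gb ζ n k),
        mul_assoc, ← pow_succ', Nat.succ_sub (Nat.lt_succ_iff.1 (Finset.mem_range.1 hk))]
    have h2 : y * (x + y) ^ n =
        ∑ k ∈ Finset.range (n + 1), gb ζ n k • (y ^ (k + 1) * x ^ (n + 1 - (k + 1))) := by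
      rw [ih, Finset.mul_sum]
      refine Finset.sum_congr rfl fun k _ => ?_
      rw [mul_smul_comm, ← mul_assoc, ← pow_succ', Nat.add_sub_add_right]
    rw [pow_succ', add_mul, h1, h2, Finset.sum_range_succ' _ (n + 1),
      Finset.sum_range_succ' _ (n + 1), add_right_comm, ← Finset.sum_add_distrib]
    simp only [gb, gb_zero, add_smul, pow_zero, one_mul]

end QBx

theorem p_QB :
    S_QB := by
  intro A _ _ e ζ x y he hζ h
  obtain ⟨m, rfl⟩ : ∃ m, e = m + 1 := ⟨e - 1, by omega⟩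
  rw [QBx.expand h, Finset.sum_range_succ, Finset.sum_range_succ',
    Finset.sum_eq_zero fun k hk => by
      rw [QBx.gb_top hζ k (by have := Finset.mem_range.1 hk; omega), zero_smul]]
  simp [QBx.gb_zero, QBx.gb_self]

end Pool.Agent.P.MP_f4e0a3_ag.HP
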