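import Pool.Agent.P.MP_f4e0a3_ag.HP.IfaceG
import Pool.Agent.P.MP_f4e0a3_ag.HP.IfaceA

/-! Step RED. -/

set_option autoImplicit false
set_option linter.unusedSectionVars false

namespace Pool.Agent.P.MP_f4e0a3_ag.HP

open MvPolynomial Matrix Submodule Set

namespace REDx

theorem pl_map {n e : ℕ} {R S : Type} [CommRing R] [CommRing S] (φ : R →+* S)
    (w : Fin n × Mon (Fin n) e → R) (T : Fin n → Mon (Fin n) e) :
    pl e (tup fun p => φ (w p)) T = φ (pl e (tup w) T) := by
  rw [pl, pl, RingHom.map_det]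
  congr 1
  ext i j
  simp [← map_tup, coeff_map]

theorem rs_map {n e : ℕ} [Fact (2 ≤ e)] [Nonempty (Fin n)] {R S : Type} [CommRing R] [CommRing S]
    [Algebra ℂ R] [Algebra ℂ S] (φ : R →ₐ[ℂ] S) (w : Fin n × Mon (Fin n) e → R) :
    rs (fun p => φ (w p)) = φ (rs w) := by
  rw [rs, rs, ← AlgHom.comp_apply, comp_aeval]

end REDx

theorem p_RED (hPLN : S_PLN) (hPLK : S_PLK) (hCHIU : S_CHIU) (hNULL : S_NULL) :
    S_RED := by
  intro n e _ _ Ω _ _ _ O _ w t hw ht hprod hss hbal
  have r1 : rs (fun p => (w p : Ω)) = (rs w : O) := REDx.rs_map (incO O) w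
  have r2 : O.valuation (rs w : O) = 1 := (O.valuation_eq_one_iff _).1 hw
  have r3 : rs (fun p => (w p : Ω)) ≠ 0 := fun h => by
    rw [← r1, h] at r2
    simp at r2
  have r4 : rs (fun p => resO O (w p)) ≠ 0 := by
    rw [REDx.rs_map]
    exact (hw.map _).ne_zero
  have p1 : ∀ T, pl e (tup fun p => (w p : Ω)) T = (pl e (tup w) T : O) :=
    REDx.pl_map O.subtype w
  obtain ⟨T, C, hmax, hdet, hint, -⟩ := hPLN Ω O n n e t _ ht (tup_isHomogeneous _)
    (hNULL n e Ω _ r3).2
  obtain ⟨T₀, hT₀⟩ := Function.ne_iff.1 (((hPLK _ n n e).1 _ (tup_isHomogeneous _)).1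
    (hNULL n e _ _ r4).2)
  have p2 : O.valuation (pl e (tup fun p => (w p : Ω)) T₀) = 1 := by
    rw [p1, ← resO_ne_zero]
    intro h
    have h5 := REDx.pl_map (resO O : O →+* IsLocalRing.ResidueField O) w T₀
    simp only [RingHom.coe_coe] at h5
    rw [h] at h5
    exact hT₀ h5
  have v1 : O.valuation ((∏ j, tw t (T j).1) * pl e (tup fun p => (w p : Ω)) T) = 1 := by
    apply le_antisymm
    · obtain ⟨T', h⟩ := hbal T
      rw [p1 T'] at h
      exact h.trans (O.valuation_le_one _)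
    · obtain ⟨T', h⟩ := hss T₀
      exact (p2 ▸ h).trans (hmax T')
  have v2 : O.valuation C.det = 1 := by
    have := congrArg O.valuation hdet
    rwa [map_mul, v1, mul_one, map_one] at this
  have hC : Cᵀ.det ≠ 0 := by
    rw [det_transpose]
    exact left_ne_zero_of_mul_eq_one hdet
  let w' : Fin n × Mon (Fin n) e → O := fun p => ⟨_, hint p.1 p.2.1⟩
  have hw' : (fun p => (w' p : Ω)) = lin0 Cᵀ (diagonal t) fun p => (w p : Ω) := by
    funext p
    simp only [w', lin0_apply, crd, act2, coeff_sum, coeff_C_mul, coeff_sub_diagonal, coeff_smul,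
      tw, Finset.mul_sum, transpose_apply, smul_eq_mul]
    exact Finset.sum_congr rfl fun i _ => by ring
  refine ⟨Matrix.GeneralLinearGroup.mkOfDetNeZero _ hC, w', ?_, hw'⟩
  have h1 := hCHIU n e Ω O (Matrix.GeneralLinearGroup.mkOfDetNeZero _ hC)
    (diagU fun i => Units.mk0 (t i) (ht i)) ((congrArg _ (det_transpose C)).trans v2)
    (by rw [diagU_val, det_diagonal]; exact hprod)
  have h2 := res_pt (fun p => (w p : Ω)) (pairG (Matrix.GeneralLinearGroup.mkOfDetNeZero _ hC)
    (diagU fun i => Units.mk0 (t i) (ht i)))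
  rw [pt_rep0] at h2
  have h3 : ((rs w' : O) : Ω) = rs (fun p => (w' p : Ω)) := (REDx.rs_map (incO O) w').symm
  rw [O.valuation_eq_one_iff, h3, hw']
  refine (congrArg _ h2).trans ?_
  rw [map_mul, h1, one_mul]
  exact (congrArg _ r1).trans r2

end Pool.Agent.P.MP_f4e0a3_ag.HP
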