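import Pool.Agent.P.MP_f4e0a3_ag.HP.IfaceG

/-! Step REG. -/

set_option autoImplicit false
set_option linter.unusedSectionVars false

namespace Pool.Agent.P.MP_f4e0a3_ag.HP

open MvPolynomial Matrix Submodule Set

namespace REGx

lemma indep {n k : ℕ} {Y : Set (Sub n)} (hY : ∀ U ∈ Y, Module.finrank ℂ U = k)
    (h : Fin k → MvPolynomial (Fin n) ℂ) (hh : span ℂ (range h) ∈ Y) : LinearIndependent ℂ h := by
  rw [linearIndependent_iff_card_eq_finrank_span, Set.finrank, hY _ hh, Fintype.card_fin]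

lemma eval_minor {n k : ℕ} (h : Fin k → MvPolynomial (Fin n) ℂ)
    (P : MvPolynomial (Fin k → (Fin n →₀ ℕ)) ℂ) :
    eval (fun p : Fin k × (Fin n →₀ ℕ) => coeff p.2 (h p.1))
      (aeval (fun I : Fin k → (Fin n →₀ ℕ) =>
        (Matrix.of fun i j => (X (i, I j) : MvPolynomial (Fin k × (Fin n →₀ ℕ)) ℂ)).det) P) =
      eval (plucker h) P := by
  have h1 : (fun I : Fin k → (Fin n →₀ ℕ) =>
      aeval (fun p : Fin k × (Fin n →₀ ℕ) => coeff p.2 (h p.1))
        (Matrix.of fun i j => (X (i, I j) : MvPolynomial (Fin k × (Fin n →₀ ℕ)) ℂ)).det) =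
      plucker h := by
    funext I
    rw [AlgHom.map_det, plucker]
    congr 1
    ext i j
    simp
  have h2 := DFunLike.congr_fun (comp_aeval (fun I : Fin k → (Fin n →₀ ℕ) =>
        (Matrix.of fun i j => (X (i, I j) : MvPolynomial (Fin k × (Fin n →₀ ℕ)) ℂ)).det)
      (aeval (fun p : Fin k × (Fin n →₀ ℕ) => coeff p.2 (h p.1)))) P
  rw [h1] at h2
  exact h2

end REGx

open REGx in
theorem p_REG (hMINOR : S_MINOR) :
    S_REG := by
  intro n k Y ψ
  refine ⟨fun hψ h₀ hh₀ => ?_, fun hY hψ h₀ hh₀ => ?_⟩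
  · obtain ⟨m, P, Q, -, -, h1, h2⟩ := hψ h₀ hh₀
    exact ⟨_, _, (eval_minor h₀ Q).symm ▸ h1, fun h hh h3 =>
      (h2 h hh (eval_minor h Q ▸ h3)).trans
        (congrArg₂ (fun a b => a / b) (eval_minor h P).symm (eval_minor h Q).symm)⟩
  · obtain ⟨⟨I, hI⟩, h1⟩ := hMINOR n k h₀ (indep hY h₀ hh₀)
    obtain ⟨h₀', h2, h3⟩ := h1 I hI
    obtain ⟨A, B, h4, h5⟩ := hψ h₀' (h2 ▸ hh₀)
    obtain ⟨A', hA, hA'⟩ := exists_homog A (fun p => Function.update I p.1 p.2) I
      (A.totalDegree + B.totalDegree) (by omega)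
    obtain ⟨B', hB, hB'⟩ := exists_homog B (fun p => Function.update I p.1 p.2) I
      (A.totalDegree + B.totalDegree) (by omega)
    refine ⟨1 + (A.totalDegree + B.totalDegree), X I * A', X I * B',
      (isHomogeneous_X _ _).mul hA, (isHomogeneous_X _ _).mul hB, ?_, fun h hh h6 => ?_⟩
    · rw [map_mul, eval_X, hB' _ hI]
      refine mul_ne_zero hI (mul_ne_zero (pow_ne_zero _ hI) ?_)
      simp only [← h3]
      exact h4
    · rw [map_mul, eval_X] at h6
      have h7 := left_ne_zero_of_mul h6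
      obtain ⟨h', h8, h9⟩ := (hMINOR n k h (indep hY h hh)).2 I h7
      have h10 := right_ne_zero_of_mul h6
      rw [hB' _ h7] at h10
      have h11 := right_ne_zero_of_mul h10
      simp only [← h9] at h11
      have h12 := h5 h' (h8 ▸ hh) h11
      rw [map_mul, map_mul, eval_X, mul_div_mul_left _ _ h7, hA' _ h7, hB' _ h7,
        mul_div_mul_left _ _ (pow_ne_zero _ h7)]
      simp only [← h9]
      have h13 : (⟨_, hh⟩ : Y) = ⟨span ℂ (range h'), h8 ▸ hh⟩ := Subtype.ext h8.symm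
      rw [h13]
      exact h12

end Pool.Agent.P.MP_f4e0a3_ag.HP
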