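import Pool.Agent.P.MP_f4e0a3_ag.HP.IfaceA

/-! Step SEL. -/

set_option autoImplicit false
set_option linter.unusedSectionVars false

namespace Pool.Agent.P.MP_f4e0a3_ag.HP

open MvPolynomial Matrix Submodule Set

namespace SELx

/-- the first `k` variables replaced by combinations -/
noncomputable def cc {F : Type} [Field F] {n : ℕ} (h : Fin n → MvPolynomial (Fin n) F)
    (a : ℕ → Fin n → F) (k : ℕ) (i : Fin n) : MvPolynomial (Fin n) F :=
  if (i : ℕ) < k then ∑ j, a i j • h j else X i

theorem main (hSEL1 : S_SEL1) (F : Type) [Field F] [Infinite F] (n e : ℕ)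
    (h : Fin n → MvPolynomial (Fin n) F) (hh : ∀ i, (h i).IsHomogeneous e)
    (hr : ∀ i, ∃ N, X i ^ N ∈ Ideal.span (range h)) (k : ℕ) (hk : k ≤ n) :
    ∃ a : ℕ → Fin n → F, LinearIndependent F (fun i : Fin k => a i) ∧
      ∀ k' ≤ k, ∀ i, ∃ N, X i ^ N ∈ Ideal.span (range (cc h a k')) := by
  induction k with
  | zero =>
    refine ⟨0, linearIndependent_empty_type, fun k' hk' i => ⟨1, ?_⟩⟩
    obtain rfl : k' = 0 := by omega
    rw [pow_one]
    exact Ideal.subset_span ⟨i, by simp [cc]⟩
  | succ k ih =>
    obtain ⟨a, li, ha⟩ := ih (by omega)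
    have hW : span F (range fun i : Fin k => a i) ≠ ⊤ := fun c => by
      have := finrank_span_eq_card li
      rw [c, finrank_top, Module.finrank_fin_fun, Fintype.card_fin] at this
      omega
    obtain ⟨r, hr1, hr2⟩ := hSEL1 F n e h (cc h a k) (fun i => if (i : ℕ) < k then e else 1)
      ⟨k, by omega⟩ _ hh hr (fun i => by
        unfold cc
        split_ifs
        · exact (homogeneousSubmodule (Fin n) F e).sum_mem fun j _ =>
            (homogeneousSubmodule (Fin n) F e).smul_mem _ (hh j)
        · exact isHomogeneous_X F i) (by simp [cc]) (ha k le_rfl) hW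
    have e1 : (Fin.init fun i : Fin (k + 1) => Function.update a k r i) = fun i : Fin k => a i := by
      funext i
      simp only [Fin.init, Fin.val_castSucc]
      exact Function.update_of_ne i.2.ne _ _
    refine ⟨Function.update a k r, ?_, fun k' hk' => ?_⟩
    · rw [linearIndependent_fin_succ', e1]
      exact ⟨li, by simpa using hr1⟩
    · rcases Nat.lt_or_ge k k' with c | c
      · have e2 : cc h (Function.update a k r) k' =
            Function.update (cc h a k) ⟨k, by omega⟩ (∑ j, r j • h j) := by
          funext i
          by_cases c' : i = ⟨k, by omega⟩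
          · subst c'
            simp [cc, c]
          · have c'' : (i : ℕ) ≠ k := fun b => c' (Fin.ext b)
            rw [Function.update_of_ne c']
            unfold cc
            rw [Function.update_of_ne c'']
            exact if_congr (by omega) rfl rfl
        rw [e2]
        exact hr2
      · have e2 : cc h (Function.update a k r) k' = cc h a k' := by
          funext i
          unfold cc
          split_ifs with b
          · rw [Function.update_of_ne (by omega)]
          · rfl
        rw [e2]
        exact ha k' c

end SELx

theorem p_SEL (hSEL1 : S_SEL1) :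
    S_SEL := by
  intro F _ _ n e h hh hr
  obtain ⟨a, li, ha⟩ := SELx.main hSEL1 F n e h hh hr n le_rfl
  refine ⟨Matrix.of fun i => a i, ?_, fun k => ?_⟩
  · have : IsUnit (Matrix.of fun i : Fin n => a i) := Matrix.linearIndependent_rows_iff_isUnit.1 li
    exact ((Matrix.isUnit_iff_isUnit_det _).1 this).ne_zero
  · have e1 : (fun i : Fin n => if i ≤ k then ∑ j, (Matrix.of fun i : Fin n => a i) i j • h j
        else X i) = SELx.cc h a (k + 1) := by
      funext i
      exact if_congr (by rw [Fin.le_def]; omega) rfl rfl
    rw [e1]
    exact ha (k + 1) k.2 k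

end Pool.Agent.P.MP_f4e0a3_ag.HP
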