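import Pool.Agent.P.MP_f4e0a3_ag.HP.IfaceA

/-! Step SEL1. -/

set_option autoImplicit false
set_option linter.unusedSectionVars false

namespace Pool.Agent.P.MP_f4e0a3_ag.HP

open MvPolynomial Matrix Submodule Set

namespace SEL1x

theorem avoid {F E ι : Type} [Field F] [Infinite F] [AddCommGroup E] [Module F E] [Finite ι]
    (W : Submodule F E) (U : ι → Submodule F E) (hW : W ≠ ⊤) (hU : ∀ i, U i ≠ ⊤) :
    ∃ a, a ∉ W ∧ ∀ i, a ∉ U i := by
  classical
  have hf : (insert W (range U)).Finite := (finite_range U).insert W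
  have h1 : ⊤ ∉ hf.toFinset := by
    rw [Finite.mem_toFinset]
    rintro (h | ⟨i, h⟩)
    · exact hW h.symm
    · exact hU i h
  have h2 := Subspace.biUnion_ne_univ_of_top_notMem h1
  obtain ⟨a, ha⟩ := (ne_univ_iff_exists_notMem _).mp h2
  simp only [mem_iUnion, not_exists, Finite.mem_toFinset] at ha
  exact ⟨a, ha W (mem_insert _ _), fun i => ha (U i) (mem_insert_of_mem _ ⟨i, rfl⟩)⟩

end SEL1x

theorem p_SEL1 (hART : S_ART) (hHOM : S_HOM) :
    S_SEL1 := by
  classical
  intro F _ _ n e h c d k W hh hN hc hk hcN hW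
  let J : Ideal (MvPolynomial (Fin n) F) := Ideal.span (range (Function.update c k (X k - 1)))
  have : Module.Finite F (MvPolynomial (Fin n) F ⧸ J) := hART F n c d k hc hk hcN
  have : IsArtinianRing (MvPolynomial (Fin n) F ⧸ J) := IsArtinianRing.of_finite F _
  let φ : (Fin n → F) →ₗ[F] (MvPolynomial (Fin n) F ⧸ J) :=
    (Ideal.Quotient.mkₐ F J).toLinearMap ∘ₗ Fintype.linearCombination F h
  have hφ : ∀ a, φ a = Ideal.Quotient.mk J (∑ j, a j • h j) := fun a => rfl
  have hX : Ideal.Quotient.mk J (X k) = 1 := by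
    rw [← map_one (Ideal.Quotient.mk J), Ideal.Quotient.eq]
    exact Ideal.subset_span ⟨k, Function.update_self _ _ _⟩
  let U : MaximalSpectrum (MvPolynomial (Fin n) F ⧸ J) → Submodule F (Fin n → F) :=
    fun m => (m.asIdeal.restrictScalars F).comap φ
  have hU : ∀ m, U m ≠ ⊤ := by
    intro m hm
    have h1 : Ideal.span (range h) ≤ m.asIdeal.comap (Ideal.Quotient.mk J) := by
      rw [Ideal.span_le]
      rintro _ ⟨j, rfl⟩
      have h2 : (Pi.single j 1 : Fin n → F) ∈ U m := hm ▸ mem_top
      have h3 : φ (Pi.single j 1) ∈ m.asIdeal := h2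
      rw [hφ, Finset.sum_eq_single j (fun b _ hb => by rw [Pi.single_eq_of_ne hb, zero_smul])
        (fun hb => absurd (Finset.mem_univ j) hb), Pi.single_eq_same, one_smul] at h3
      exact h3
    obtain ⟨N, hN⟩ := hN k
    have h4 : Ideal.Quotient.mk J (X k ^ N) ∈ m.asIdeal := h1 hN
    rw [map_pow, hX, one_pow] at h4
    exact m.isMaximal.ne_top ((Ideal.eq_top_iff_one _).mpr h4)
  obtain ⟨a, haW, haU⟩ := SEL1x.avoid W U hW hU
  refine ⟨a, haW, ?_⟩
  set g : MvPolynomial (Fin n) F := ∑ j, a j • h j with hg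
  let I : Ideal (MvPolynomial (Fin n) F) := Ideal.span (range (Function.update c k g))
  have hcI : ∀ j, j ≠ k → c j ∈ I := fun j hj =>
    Ideal.subset_span ⟨j, Function.update_of_ne hj _ _⟩
  have hgI : g ∈ I := Ideal.subset_span ⟨k, Function.update_self _ _ _⟩
  have htop : I ⊔ Ideal.span {X k - 1} = ⊤ := by
    by_contra hne
    obtain ⟨M, hM, hle⟩ := Ideal.exists_le_maximal _ hne
    have hJ : J ≤ M := by
      rw [Ideal.span_le]
      rintro _ ⟨j, rfl⟩
      by_cases hj : j = k
      · subst hj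
        rw [Function.update_self]
        exact hle (Ideal.mem_sup_right (Ideal.mem_span_singleton_self _))
      · rw [Function.update_of_ne hj]
        exact hle (Ideal.mem_sup_left (hcI j hj))
    have hmax : (M.map (Ideal.Quotient.mk J)).IsMaximal :=
      Ideal.IsMaximal.map_of_surjective_of_ker_le Ideal.Quotient.mk_surjective
        (by rw [Ideal.mk_ker]; exact hJ)
    apply haU ⟨_, hmax⟩
    show φ a ∈ M.map (Ideal.Quotient.mk J)
    rw [hφ]
    exact Ideal.mem_map_of_mem _ (hle (Ideal.mem_sup_left hgI))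
  have hgh : g.IsHomogeneous e := by
    rw [hg]
    refine IsHomogeneous.sum _ _ _ fun j _ => ?_
    exact (homogeneousSubmodule (Fin n) F e).smul_mem (a j) (hh j)
  have hhom : ∀ i, (Function.update c k g i).IsHomogeneous (Function.update d k e i) := by
    intro i
    by_cases hi : i = k
    · subst hi
      rw [Function.update_self, Function.update_self]
      exact hgh
    · rw [Function.update_of_ne hi, Function.update_of_ne hi]
      exact hc i
  have hXk : X k ∈ I.radical := hHOM F n (Fin n) _ _ k hhom htop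
  have hrad : Ideal.span (range c) ≤ I.radical := by
    rw [Ideal.span_le]
    rintro _ ⟨j, rfl⟩
    by_cases hj : j = k
    · subst hj
      rw [hk]
      exact hXk
    · exact Ideal.le_radical (hcI j hj)
  intro i
  obtain ⟨N, hN'⟩ := hcN i
  exact Ideal.mem_radical_of_pow_mem (hrad hN')

end Pool.Agent.P.MP_f4e0a3_ag.HP
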