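import Pool.Agent.P.MP_f4e0a3_ag.HP.IfaceG

/-! Step SEMI. -/

set_option autoImplicit false
set_option linter.unusedSectionVars false

namespace Pool.Agent.P.MP_f4e0a3_ag.HP

open MvPolynomial Matrix Submodule Set

namespace SEMIx

theorem aeval_pt {τ σ ι κ : Type} [Fintype σ] [DecidableEq σ] [Fintype ι] [DecidableEq ι]
    (r : Rep τ σ ι) (Δ : ι → MvPolynomial κ ℂ) (γ : Gr τ σ ℂ) (w : κ → ℂ) (T : ι) :
    aeval w (r.pt Δ (mapG (C : ℂ →+* MvPolynomial κ ℂ) γ) T) = r.pt (ev Δ w) γ T := by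
  have h := r.map_pt (aeval w : MvPolynomial κ ℂ →ₐ[ℂ] ℂ) Δ
    (mapG (C : ℂ →+* MvPolynomial κ ℂ) γ)
  have h2 : mapG ((aeval w : MvPolynomial κ ℂ →ₐ[ℂ] ℂ) : MvPolynomial κ ℂ →+* ℂ)
      (mapG (C : ℂ →+* MvPolynomial κ ℂ) γ) = γ := by
    rw [mapG_mapG]
    have : ((aeval w : MvPolynomial κ ℂ →ₐ[ℂ] ℂ) : MvPolynomial κ ℂ →+* ℂ).comp C =
        RingHom.id ℂ := by
      ext x
      simp
    rw [this, mapG_id]
  rw [h2] at h
  exact congrFun h T

theorem dvd_pt {τ σ ι R : Type} [Fintype σ] [DecidableEq σ] [Fintype ι] [DecidableEq ι]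
    [CommRing R] [Algebra ℂ R] (r : Rep τ σ ι) (v : ι → R) (γ : Gr τ σ R) (c : R)
    (h : ∀ T, c ∣ v T) (T : ι) : c ∣ r.pt v γ T := by
  simp only [Rep.pt, vecMul, dotProduct]
  exact Finset.dvd_sum fun i _ => (h i).mul_right _

end SEMIx

open SEMIx in
theorem p_SEMI (hEQV : S_EQV) (hGCD : S_GCD) :
    S_SEMI := by
  intro n e _ _ m k r Δ hr hΔ a g
  have h0 : Res (Fin n) e ≠ 0 := by
    intro h
    have := res_fermat (σ := Fin n) (e := e) (R := ℂ)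
    rw [h] at this
    simp at this
  let γ : Gr Unit (Fin n) (MvPolynomial (Fin n × Mon (Fin n) e) ℂ) :=
    mapG (C : ℂ →+* MvPolynomial (Fin n × Mon (Fin n) e) ℂ) fun _ => g
  let v1 : (Fin k → Mon (Fin n) m) → MvPolynomial (Fin n × Mon (Fin n) e) ℂ :=
    fun T => (rep0 (Fin n) e).gact (pairG a g) (Δ T)
  have e1 : ∀ w T, aeval w (v1 T) = ev Δ (lin0 a.val g.val w) T := by
    intro w T
    rw [Rep.aeval_act, pt_rep0]; rfl
  have e2 : ∀ w T, aeval w (r.pt Δ γ T) = r.pt (ev Δ w) (fun _ => g) T :=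
    fun w T => aeval_pt r Δ _ w T
  have hc : ∀ T T', v1 T * r.pt Δ γ T' = v1 T' * r.pt Δ γ T := by
    intro T T'
    apply mul_left_cancel₀ h0
    apply MvPolynomial.funext
    intro w
    show aeval w (Res (Fin n) e * (v1 T * r.pt Δ γ T')) =
      aeval w (Res (Fin n) e * (v1 T' * r.pt Δ γ T))
    rw [map_mul, map_mul, map_mul, map_mul, e1, e1, e2, e2]
    by_cases hw : rs w = 0
    · rw [show aeval w (Res (Fin n) e) = 0 from hw, zero_mul, zero_mul]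
    · obtain ⟨-, c, -, h⟩ := (hEQV n e m k r Δ hr hΔ w hw).2 a g
      rw [h]
      simp only [Pi.smul_apply, smul_eq_mul]
      ring
  have p2 : ∀ c, (∀ T, c ∣ r.pt Δ γ T) → IsUnit c := by
    intro c h
    refine hΔ.prim c fun T => ?_
    have := dvd_pt r _ γ⁻¹ c h T
    rwa [Rep.pt_inv_pt] at this
  obtain ⟨c, hc'⟩ := (hGCD _ _).2 (r.pt Δ γ) v1 p2 hc
  have hu : IsUnit c := by
    have h1 : IsUnit ((rep0 (Fin n) e).gact (pairG a g)⁻¹ c) := by
      refine hΔ.prim _ fun T => ?_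
      have h2 : c ∣ v1 T := ⟨r.pt Δ γ T, by rw [hc']; rfl⟩
      have h3 := map_dvd ((rep0 (Fin n) e).gact (pairG a g)⁻¹) h2
      rwa [Rep.act_inv_act] at h3
    have h4 := h1.map ((rep0 (Fin n) e).gact (pairG a g))
    rwa [Rep.act_act_inv] at h4
  obtain ⟨c₀, -, rfl⟩ := isUnit_iff_eq_C_of_isReduced.1 hu
  refine ⟨c₀, fun w => funext fun T => ?_⟩
  rw [← e1, hc', Pi.smul_apply, Pi.smul_apply, smul_eq_mul, smul_eq_mul, map_mul, e2, aeval_C]
  rfl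

end Pool.Agent.P.MP_f4e0a3_ag.HP
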