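import Pool.Agent.P.MP_f4e0a3_ag.HP.IfaceG

/-! Step SEP. -/

set_option autoImplicit false
set_option linter.unusedSectionVars false

namespace Pool.Agent.P.MP_f4e0a3_ag.HP

open MvPolynomial Matrix Submodule Set

namespace SEPx

theorem det_inv_mul {n : ℕ} {Ω : Type} [Field Ω] (g : GL (Fin n) Ω) :
    g⁻¹.val.det * g.val.det = 1 := by
  rw [← det_mul, ← Units.val_mul, inv_mul_cancel, Units.val_one, det_one]

theorem scal {n : ℕ} [Nonempty (Fin n)] {Ω : Type} [Field Ω] [IsAlgClosed Ω] (g : GL (Fin n) Ω) :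
    ∃ (t : Ω) (g₀ : GL (Fin n) Ω), t ≠ 0 ∧ g₀.val.det = 1 ∧ g.val = t • g₀.val ∧
      t ^ n = g.val.det := by
  have hn : 0 < n := Fin.pos_iff_nonempty.2 inferInstance
  obtain ⟨t, ht⟩ := IsAlgClosed.exists_pow_nat_eq g.val.det hn
  have ht0 : t ≠ 0 := by
    rintro rfl
    rw [zero_pow hn.ne'] at ht
    exact g.det_ne_zero ht.symm
  have hd : (t⁻¹ • g.val).det = 1 := by
    rw [det_smul, Fintype.card_fin, ← ht, ← mul_pow, inv_mul_cancel₀ ht0, one_pow]
  refine ⟨t, GeneralLinearGroup.mkOfDetNeZero (t⁻¹ • g.val) (by rw [hd]; exact one_ne_zero), ht0,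
    hd, ?_, ht⟩
  show g.val = t • t⁻¹ • g.val
  rw [smul_smul, mul_inv_cancel₀ ht0, one_smul]

theorem elim_eq {ι R : Type} (z : Option ι → R) :
    z = fun o => o.elim (z none) fun i => z (some i) := by
  funext o
  cases o <;> rfl

end SEPx

open SEPx in
theorem p_SEP (hTW : S_TW) (hCOMP : S_COMP) :
    S_SEP := by
  intro n _ ι _ _ r κ B G u₀ hW h0 hc hg hV hG
  obtain ⟨r', hr'⟩ := hTW n ι r
  have hn : 0 < n := Fin.pos_iff_nonempty.2 inferInstance
  let J : Ideal (MvPolynomial (Option ι) ℂ) :=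
    vanishingIdeal ℂ {z : Option ι → ℂ | (fun i => z (some i)) ∈ B}
  have hJ : ∀ P, P ∈ J ↔ ∀ z : Option ι → ℂ, (fun i => z (some i)) ∈ B → aeval z P = 0 :=
    fun P => mem_vanishingIdeal_iff
  have hst : ∀ (γ : Gr Unit (Fin n) ℂ), ∀ P ∈ J, r'.gact γ P ∈ J := by
    intro γ P hP
    rw [hJ] at hP ⊢
    intro z hz
    rw [Rep.aeval_act]
    apply hP
    rw [elim_eq z, hr']
    obtain ⟨t, g₀, t0, d1, e, -⟩ := scal (γ ())
    show (r.pt (fun i => z (some i)) fun _ => γ ()) ∈ B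
    rw [hW ℂ _ g₀ t _ e]
    exact hc _ (hg _ hz g₀ d1) _ (pow_ne_zero _ t0)
  have hT : J ⊔ r'.orbI (fun o => o.elim 1 u₀) = ⊤ := by
    by_contra hT
    obtain ⟨z, hz⟩ := Rep.exists_pt_of_ne_top _ hT
    obtain ⟨Ω, _, _, _, O, γ, hC, hv⟩ := r'.exists_valuation_closure _ z
      fun P hP => hz P (Ideal.mem_sup_right hP)
    have : OverC O := ⟨hC⟩
    have e0 : (fun o : Option ι => algebraMap ℂ Ω (o.elim 1 u₀)) =
        fun o => o.elim 1 fun i => algebraMap ℂ Ω (u₀ i) := by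
      funext o
      cases o
      · exact map_one _
      · rfl
    rw [e0, hr'] at hv
    obtain ⟨t, g₀, t0, d1, e, e'⟩ := scal (γ ())
    have k1 : O.valuation ((γ ())⁻¹.val.det * 1) ≤ 1 := by
      have := O.add_mem _ _ ((O.valuation_le_one_iff _).1 (hv none).le) (hC (z none))
      rw [sub_add_cancel] at this
      exact (O.valuation_le_one_iff _).2 this
    have k2 : 1 ≤ O.valuation t := by
      by_contra hlt
      have k3 := congrArg O.valuation (det_inv_mul (γ ()))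
      rw [← e', map_mul, map_pow, map_one] at k3
      rw [mul_one] at k1
      exact (mul_lt_one_of_nonneg_of_lt_one_right k1 zero_le
        (pow_lt_one₀ zero_le (not_le.1 hlt) hn.ne')).ne k3
    have k4 := hV Ω O g₀ (t ^ κ) (fun i => z (some i)) d1
      (by rw [map_pow]; exact one_le_pow₀ k2) (fun i => by
        have k5 := hv (some i)
        have k6 := congrFun (hW Ω _ g₀ t (fun i => algebraMap ℂ Ω (u₀ i)) e) i
        rw [Pi.smul_apply, smul_eq_mul] at k6
        rw [← k6]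
        exact k5)
    refine hG _ k4 fun Q hQ => ?_
    have k7 := hz (rename some Q) (Ideal.mem_sup_left ((hJ _).2 fun w hw => by
      rw [aeval_rename]
      exact hQ _ hw))
    rwa [aeval_rename] at k7
  obtain ⟨a, ha, b, hb, hab⟩ := Submodule.mem_sup.1 (hT ▸ Submodule.mem_top :
    (1 : MvPolynomial (Option ι) ℂ) ∈ J ⊔ r'.orbI (fun o => o.elim 1 u₀))
  have h1 : r'.reyn a ∈ J := r'.reyn_mem (J.restrictScalars ℂ) a fun γ => hst γ a ha
  have h2 : r'.reyn a - 1 ∈ r'.orbI (fun o => o.elim 1 u₀) :=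
    r'.reyn_sub_mem ((r'.orbI _).restrictScalars ℂ) a 1 fun γ => by
      have h3 : r'.gact γ a - 1 = - r'.gact γ b := by
        rw [← map_one (r'.gact γ), ← hab, map_add]; ring
      rw [h3]
      exact (r'.orbI _).neg_mem (r'.gact_mem_orbI hb γ)
  have h3 := r'.mem_orbI.1 h2 1
  rw [Rep.pt_one, map_sub, map_one, sub_eq_zero] at h3
  let F : MvPolynomial ι ℂ := aeval (fun o : Option ι => o.elim 1 X) (r'.reyn a)
  have hF : ∀ u : ι → ℂ, aeval u F = aeval (fun o : Option ι => o.elim 1 u) (r'.reyn a) := by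
    intro u
    rw [comp_aeval_apply]
    refine congrArg (fun w => aeval w (r'.reyn a)) (funext fun o => ?_)
    cases o
    · exact map_one _
    · exact aeval_X _ _
  have hinv : SLinv r F := by
    intro g d1 u
    have k := det_inv_mul g
    rw [d1] at k
    have k2 := r'.aeval_act (fun _ => g) (fun o : Option ι => o.elim 1 u) (r'.reyn a)
    rw [r'.gact_reyn, hr', k] at k2
    rw [hF, hF, k2]
  obtain ⟨c1, c2, c3⟩ := hCOMP ι F
  obtain ⟨N, hN⟩ := c3 u₀ (by rw [hF, h3]; exact one_ne_zero)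
  have hz : ∀ v ∈ B, aeval v (homogeneousComponent N F) = 0 := fun v hv =>
    (c2 v 0 N fun c c0 => by
      rw [mul_zero, hF]
      exact (hJ _).1 h1 _ (hc v hv c c0)).1
  refine ⟨N, _, Nat.pos_of_ne_zero ?_, homogeneousComponent_isHomogeneous N F,
    fun g d1 u => c1 _ _ (fun c _ => by rw [← Rep.pt_smul]; exact hinv g d1 _) N, hz, hN⟩
  rintro rfl
  have k := hz 0 h0
  rw [homogeneousComponent_zero, aeval_C] at k hN
  exact hN k

end Pool.Agent.P.MP_f4e0a3_ag.HP
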