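import Pool.Agent.P.MP_f4e0a3_ag.HP.IfaceG

/-! Step SMS. -/

set_option autoImplicit false
set_option linter.unusedSectionVars false

namespace Pool.Agent.P.MP_f4e0a3_ag.HP

open MvPolynomial Matrix Submodule Set

namespace SMSx

variable {R : Type} [CommRing R] {n : ℕ}

/-- permutation of the columns -/
def cp (P : GL (Fin n) R) (σ : Equiv.Perm (Fin n)) : GL (Fin n) R where
  val := P.val.submatrix id σ
  inv := (P⁻¹).val.submatrix σ id
  val_inv := by rw [submatrix_mul_equiv, Units.mul_inv, submatrix_id_id]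
  inv_val := by
    have := submatrix_mul_equiv (P⁻¹).val P.val σ (Equiv.refl _) σ
    rw [Units.inv_mul, submatrix_one_equiv] at this
    exact this

theorem val_det {Ω : Type} [Field Ω] (O : ValuationSubring Ω) (P : GL (Fin n) O) :
    O.valuation (P.val.map O.subtype).det = 1 := by
  have h : IsUnit P.val.det := (Matrix.isUnit_iff_isUnit_det _).1 P.isUnit
  have e : (P.val.map O.subtype).det = (P.val.det : O) := (O.subtype.map_det P.val).symm
  rw [e]
  exact (O.valuation_eq_one_iff _).1 h

end SMSx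

theorem p_SMS :
    S_SMS := by
  intro Ω _ O n g
  obtain ⟨P, Q, t, h0, -, h⟩ := smith O g
  let σ := Tuple.sort fun i => OrderDual.toDual (O.valuation (t i))
  have hσ := Tuple.monotone_sort fun i => OrderDual.toDual (O.valuation (t i))
  refine ⟨SMSx.cp P⁻¹ σ, (SMSx.cp Q σ)⁻¹, t ∘ σ, ⟨fun i => h0 _, fun i j hij => hσ hij⟩, ?_, ?_⟩
  · have e1 : (SMSx.cp P⁻¹ σ).val.map O.subtype = ((P⁻¹).val.map O.subtype).submatrix id σ := rfl
    have e2 : ((SMSx.cp Q σ)⁻¹).val.map O.subtype = ((Q⁻¹).val.map O.subtype).submatrix σ id := rfl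
    rw [e1, e2, ← submatrix_diagonal_equiv, submatrix_mul_equiv, submatrix_mul_equiv,
      submatrix_id_id, ← h, ← Matrix.mul_assoc, ← Matrix.mul_assoc, ← Matrix.map_mul,
      Units.inv_mul, Matrix.mul_assoc, Matrix.mul_assoc, ← Matrix.map_mul, Units.mul_inv]
    simp
  · have := congrArg (fun M => O.valuation (Matrix.det M)) h
    simp only [det_mul, map_mul, SMSx.val_det, one_mul, mul_one, det_diagonal] at this
    rw [this]
    exact congrArg _ (Equiv.prod_comp σ t)

end Pool.Agent.P.MP_f4e0a3_ag.HP
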