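import Pool.Agent.P.MP_f4e0a3_ag.HP.IfaceG

/-! Step SURJ. -/

set_option autoImplicit false
set_option linter.unusedSectionVars false

namespace Pool.Agent.P.MP_f4e0a3_ag.HP

open MvPolynomial Matrix Submodule Set

namespace SURJx

theorem aeval_smul {ι : Type} {P : MvPolynomial ι ℂ} {N : ℕ} (hP : P.IsHomogeneous N) (c : ℂ)
    (u : ι → ℂ) : aeval (c • u) P = c ^ N * aeval u P := by
  conv_lhs => rw [P.as_sum]
  conv_rhs => rw [P.as_sum]
  rw [map_sum, map_sum, Finset.mul_sum]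
  refine Finset.sum_congr rfl fun β hβ => ?_
  have hd : β.degree = N := by
    have := hP (mem_support_iff.1 hβ)
    rw [Finsupp.degree_eq_weight_one]
    exact this
  rw [aeval_monomial, aeval_monomial, ← hd]
  simp only [Finsupp.prod, Pi.smul_apply, smul_eq_mul, mul_pow, Finset.prod_mul_distrib,
    Finset.prod_pow_eq_pow_sum, Finsupp.degree_apply]
  ring

end SURJx

theorem p_SURJ (hSURJ1 : S_SURJ1) (hAVG : S_AVG) (hEQV : S_EQV) :
    S_SURJ := by
  intro n e _ _ m k r Δ N P φ E j hT hΔ hP hL hφ hinv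
  obtain ⟨i, x, hx, hx2⟩ := hSURJ1 n e m k r Δ N P φ E j hΔ hP hL hφ
  obtain ⟨Q, hQ, hQi, hQ2⟩ := hAVG n _ r (k * m) (N * i) x hT.scal hx
  refine ⟨n * i, Q, by rwa [mul_left_comm N n i], hQi, fun w hw hw2 => ?_⟩
  have h1 := hx2 w 1 hw hw2 one_ne_zero
  rw [one_smul] at h1
  have h2 : aeval (ev Δ w) Q = aeval (ev Δ w) x := by
    refine hQ2 _ fun g hg => ?_
    obtain ⟨hr, c, hc, hc2⟩ := (hEQV n e m k r Δ hT hΔ w hw).2 1 g
    rw [Units.val_one] at hr hc2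
    have h3 : (r.pt (ev Δ w) fun _ => g) = c⁻¹ • ev Δ (lin0 1 g.val w) := by
      rw [hc2, smul_smul, inv_mul_cancel₀ hc, one_smul]
    have h4 : aeval (r.pt (ev Δ w) fun _ => g) P = aeval (ev Δ w) P := hP.inv g hg _
    have h5 : aeval (ev Δ (lin0 1 g.val w)) P ≠ 0 := by
      rw [hc2, SURJx.aeval_smul hP.hom, h4]
      exact mul_ne_zero (pow_ne_zero _ hc) hw2
    have h6 := hx2 _ c⁻¹ hr h5 (inv_ne_zero hc)
    rw [← h3, h4, hinv w g hg hw hw2] at h6
    rw [h6, h1]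
  rw [h2, h1, mul_div_assoc, div_self (pow_ne_zero _ hw2), mul_one]

end Pool.Agent.P.MP_f4e0a3_ag.HP
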