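import Pool.Agent.P.MP_f4e0a3_ag.HP.IfaceG

/-! Step SURJ1. -/

set_option autoImplicit false
set_option linter.unusedSectionVars false

namespace Pool.Agent.P.MP_f4e0a3_ag.HP

open MvPolynomial Matrix Submodule Set

namespace SURJ1x

theorem aeval_ev {ι κ : Type} (ω : ι → MvPolynomial κ ℂ) (u : κ → ℂ) (q : MvPolynomial ι ℂ) :
    aeval u (aeval ω q) = aeval (ev ω u) q := comp_aeval_apply _ _ _

theorem aeval_sm {ι : Type} {q : MvPolynomial ι ℂ} {N : ℕ} (hq : q.IsHomogeneous N) (c : ℂ)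
    (u : ι → ℂ) : aeval (c • u) q = c ^ N * aeval u q := aeval_mul_left hq c u

variable {n e : ℕ} [Fact (2 ≤ e)] [Nonempty (Fin n)] {m k : ℕ}
  {Δ : (Fin k → Mon (Fin n) m) → MvPolynomial (Fin n × Mon (Fin n) e) ℂ}

theorem prop (hΔ : IsDelta m Δ) {w w' : Fin n × Mon (Fin n) e → ℂ} (hw : rs w ≠ 0)
    (hw' : rs w' ≠ 0) (h : span ℂ (range (tup w')) = span ℂ (range (tup w))) :
    ∃ c : ℂ, c ≠ 0 ∧ ev Δ w' = c • ev Δ w := by
  obtain ⟨b, hb, -⟩ := hΔ.ex w hw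
  obtain ⟨c, hc, h1⟩ := hΔ.pl w hw b hb
  obtain ⟨c', hc', h2⟩ := hΔ.pl w' hw' b (by rw [hb, ← hilb_span, ← hilb_span, h])
  refine ⟨c'⁻¹ * c, mul_ne_zero (inv_ne_zero hc') hc, ?_⟩
  rw [mul_smul, ← h1, h2, inv_smul_smul₀ hc']

theorem uniq (hL : ∀ u₁ ∈ Gs Δ, LocInv Δ u₁) {w w' : Fin n × Mon (Fin n) e → ℂ} {c c' : ℂ}
    (hw : rs w ≠ 0) (hw' : rs w' ≠ 0) (hc : c ≠ 0) (hc' : c' ≠ 0)
    (h : c • ev Δ w = c' • ev Δ w') : span ℂ (range (tup w')) = span ℂ (range (tup w)) := by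
  obtain ⟨Q, ω, hQ, -, -, h1⟩ := hL _ ⟨w, c, hw, hc, rfl⟩
  rw [← h1 w c hw hc hQ, h, h1 w' c' hw' hc' (h ▸ hQ)]

end SURJ1x

open SURJ1x in
theorem p_SURJ1 (hGLOB : S_GLOB) (hCOMP : S_COMP) :
    S_SURJ1 := by
  classical
  intro n e _ _ m k r Δ N P φ E j hΔ hP hL hφ
  let F : ((Fin k → Mon (Fin n) m) → ℂ) → ℂ := fun u =>
    if h : u ∈ Gs Δ then φ (span ℂ (range (tup h.choose))) else 0
  have hF : ∀ (w : Fin n × Mon (Fin n) e → ℂ) (c : ℂ), rs w ≠ 0 → c ≠ 0 →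
      F (c • ev Δ w) = φ (span ℂ (range (tup w))) := by
    intro w c hw hc
    have h : c • ev Δ w ∈ Gs Δ := ⟨w, c, hw, hc, rfl⟩
    obtain ⟨c', h1, h2, h3⟩ := h.choose_spec
    simp only [F, dif_pos h]
    rw [uniq hL hw h1 hc h2 h3]
  obtain ⟨E', i, hE⟩ := hGLOB _ (vanishingIdeal ℂ (Gs Δ)) P F (by
    intro u₀ h0 hP0
    obtain ⟨w₀, c₀, hw₀, hc₀, rfl⟩ := hP.cl u₀ h0 hP0
    obtain ⟨Q, ω, hQ, -, h1, h2⟩ := hL _ ⟨w₀, c₀, hw₀, hc₀, rfl⟩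
    have hR : ∀ u : (Fin k → Mon (Fin n) m) → ℂ, aeval u (aeval ω (Res (Fin n) e * aeval Δ P)) =
        rs (ev ω u) * aeval (ev Δ (ev ω u)) P := by
      intro u
      rw [aeval_ev, map_mul, aeval_ev]
    refine ⟨aeval ω E * Q * aeval ω (Res (Fin n) e * aeval Δ P),
      Q * aeval ω (Res (Fin n) e * aeval Δ P) ^ (j + 1), ?_, fun u hu hPu hB => ?_⟩
    · rw [map_mul, map_pow, hR]
      refine mul_ne_zero hQ (pow_ne_zero _ (mul_ne_zero (h1 _ hQ) ?_))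
      obtain ⟨c, hc, h3⟩ := prop hΔ hw₀ (h1 _ hQ) (h2 w₀ c₀ hw₀ hc₀ hQ)
      rw [aeval_sm hP.hom] at hP0
      rw [h3, aeval_sm hP.hom]
      exact mul_ne_zero (pow_ne_zero _ hc) (right_ne_zero_of_mul hP0)
    · obtain ⟨w, c, hw, hc, rfl⟩ := hP.cl u hu hPu
      rw [map_mul, map_pow, hR] at hB
      have h3 := left_ne_zero_of_mul hB
      have h4 := ne_zero_pow (Nat.succ_ne_zero j) (right_ne_zero_of_mul hB)
      rw [hF w c hw hc, ← h2 w c hw hc h3,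
        hφ _ (left_ne_zero_of_mul h4) (right_ne_zero_of_mul h4), map_mul, hR, map_mul, map_mul,
        map_pow, hR, aeval_ev, pow_succ]
      generalize rs (ev ω (c • ev Δ w)) * aeval (ev Δ (ev ω (c • ev Δ w))) P = t at h4 ⊢
      field_simp)
  have hn : 0 < n := Fin.pos_iff_nonempty.2 inferInstance
  have hi : i ≤ n * i := Nat.le_mul_of_pos_left i hn
  refine ⟨i, homogeneousComponent (n * (N * i)) (E' * P ^ (n * i - i)),
    homogeneousComponent_isHomogeneous _ _, fun w c hw hPw hc => ?_⟩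
  have key : ∀ c : ℂ, c ≠ 0 → aeval (c • ev Δ w) (E' * P ^ (n * i - i)) =
      c ^ (n * (N * i)) * (φ (span ℂ (range (tup w))) * aeval (ev Δ w) P ^ (n * i)) := by
    intro c hc
    have h1 : aeval (c • ev Δ w) P ≠ 0 := by
      rw [aeval_sm hP.hom]
      exact mul_ne_zero (pow_ne_zero _ hc) hPw
    have h2 := hE (c • ev Δ w) (fun Q hQ => hQ _ ⟨w, c, hw, hc, rfl⟩) h1
    rw [hF w c hw hc, eq_div_iff (pow_ne_zero _ h1)] at h2
    rw [map_mul, map_pow, ← h2, mul_assoc, ← pow_add, Nat.add_sub_cancel' hi, aeval_sm hP.hom]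
    ring
  rw [aeval_sm (homogeneousComponent_isHomogeneous _ _), ((hCOMP _ _).2.1 _ _ _ key).1,
    aeval_sm hP.hom]
  ring

end Pool.Agent.P.MP_f4e0a3_ag.HP
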