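import Pool.Agent.P.MP_f4e0a3_ag.HP.IfaceG

/-! Step TENS. -/

set_option autoImplicit false
set_option linter.unusedSectionVars false

namespace Pool.Agent.P.MP_f4e0a3_ag.HP

open MvPolynomial Matrix Submodule Set

namespace TENSx

variable {n k : ℕ} {R S : Type} [CommRing R] [CommRing S]

section tp
variable {ι : Type} [Fintype ι] [DecidableEq ι]

/-- the tensor power of a matrix -/
def tp (k : ℕ) (A : Matrix ι ι R) : Matrix (Fin k → ι) (Fin k → ι) R :=
  Matrix.of fun T' T => ∏ j, A (T' j) (T j)

theorem tp_diagonal (u : ι → R) : tp k (diagonal u) = diagonal fun T => ∏ j, u (T j) := by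
  ext T' T
  by_cases h : T' = T
  · simp [tp, h]
  · obtain ⟨j, hj⟩ := Function.ne_iff.1 h
    rw [diagonal_apply_ne _ h]
    exact Finset.prod_eq_zero (Finset.mem_univ j) (diagonal_apply_ne _ hj)

theorem tp_mul (A B : Matrix ι ι R) : tp k (A * B) = tp k A * tp k B := by
  ext T' T
  simp only [tp, of_apply, mul_apply, Finset.prod_univ_sum, Fintype.piFinset_univ,
    Finset.prod_mul_distrib]

theorem tp_smul (c : R) (A : Matrix ι ι R) : tp k (c • A) = c ^ k • tp k A := by
  ext T' T
  simp [tp, Finset.prod_mul_distrib]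

theorem det_tp (B : Fin k → ι → R) (A : Matrix ι ι R) (T : Fin k → ι) :
    (Matrix.of fun i j => ∑ a, B i a * A a (T j)).det =
      ((fun T' : Fin k → ι => (Matrix.of fun i j => B i (T' j)).det) ᵥ* tp k A) T := by
  simp only [det_apply', of_apply, Finset.prod_univ_sum, Fintype.piFinset_univ, vecMul, dotProduct,
    tp, Finset.mul_sum, Finset.sum_mul, Finset.prod_mul_distrib, mul_assoc]
  exact Finset.sum_comm

end tp

/-- the matrix of a substitution on forms of degree `m` -/
noncomputable def sm (m : ℕ) (g : Matrix (Fin n) (Fin n) R) :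
    Matrix (Mon (Fin n) m) (Mon (Fin n) m) R :=
  Matrix.of fun a b => coeff b.1 (sub g (monomial a.1 1))

variable {m : ℕ}

theorem coeff_sub' (g : Matrix (Fin n) (Fin n) R) {p : MvPolynomial (Fin n) R}
    (hp : p.IsHomogeneous m) (b : Mon (Fin n) m) :
    coeff b.1 (sub g p) = ∑ a : Mon (Fin n) m, coeff a.1 p * sm m g a b := by
  conv_lhs => rw [← frm_coeff hp, frm, map_sum, coeff_sum]
  refine Finset.sum_congr rfl fun a _ => ?_
  have : monomial a.1 (coeff a.1 p) = coeff a.1 p • monomial a.1 (1 : R) := by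
    rw [smul_monomial, smul_eq_mul, mul_one]
  rw [this, map_smul, coeff_smul]
  rfl

theorem sm_diagonal (u : Fin n → R) : sm m (diagonal u) = diagonal fun a => tw u a.1 := by
  ext a b
  rw [sm, of_apply, sub_diagonal_monomial, coeff_monomial, diagonal_apply, mul_one]
  exact if_congr Subtype.ext_iff.symm rfl rfl

theorem sm_mul (g g' : Matrix (Fin n) (Fin n) R) : sm m (g * g') = sm m g * sm m g' := by
  ext a b
  rw [sm, of_apply, ← sub_sub,
    coeff_sub' g' (sub_isHomogeneous g (isHomogeneous_monomial _ a.2))]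
  rfl

theorem sm_smul (t : R) (g : Matrix (Fin n) (Fin n) R) : sm m (t • g) = t ^ m • sm m g := by
  rw [smul_eq_diagonal_mul, smul_eq_diagonal_mul, sm_mul, sm_diagonal]
  congr 2
  funext a
  rw [tw, Finset.prod_pow_eq_pow_sum, ← Finsupp.degree_eq_sum, a.2]

/-- the representation -/
noncomputable def rep (n k m : ℕ) : Rep Unit (Fin n) (Fin k → Mon (Fin n) m) where
  ρ R _ _ :=
    { toFun := fun γ => tp k (sm m (γ ()).val)
      map_one' := by
        rw [Pi.one_apply, Units.val_one, ← diagonal_one, sm_diagonal, tp_diagonal]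
        simp [tw]
      map_mul' := fun γ δ => by rw [Pi.mul_apply, Units.val_mul, sm_mul, tp_mul] }
  nat {R S} _ _ _ _ φ γ := by
    ext T' T
    simp only [MonoidHom.coe_mk, OneHom.coe_mk, map_apply, tp, of_apply, map_prod, sm, mapG_val]
    refine Finset.prod_congr rfl fun j _ => ?_
    have := congrArg (coeff (T j).1) (map_sub_eq (φ : R →+* S) (γ ()).val (monomial (T' j).1 1))
    rwa [coeff_map, map_monomial, RingHom.map_one] at this

theorem rep_pt [Algebra ℂ R] (g : GL (Fin n) R) (u : (Fin k → Mon (Fin n) m) → R) :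
    ((rep n k m).pt u fun _ => g) = u ᵥ* tp k (sm m g.val) := rfl

end TENSx

open TENSx in
theorem p_TENS :
    S_TENS := by
  refine fun n k m => ⟨rep n k m, fun R _ _ g b hb => ?_, fun R _ _ g g₀ t u h => ?_,
    fun R _ _ g t u T h => ?_⟩
  · funext T
    simp only [rep_pt, pl, coeff_sub' g.val (hb _)]
    exact det_tp (fun i a => coeff a.1 (b i)) _ T
  · rw [rep_pt, rep_pt, h, sm_smul, tp_smul, vecMul_smul, ← pow_mul, mul_comm]
  · rw [rep_pt, h, sm_diagonal, tp_diagonal, vecMul_diagonal, mul_comm]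

end Pool.Agent.P.MP_f4e0a3_ag.HP
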