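import Pool.Agent.P.MP_f4e0a3_ag.HP.IfaceA

/-! Step TH. -/

set_option autoImplicit false
set_option linter.unusedSectionVars false

namespace Pool.Agent.P.MP_f4e0a3_ag.HP

open MvPolynomial Matrix Submodule Set

namespace THx

variable {Ω : Type} [Field Ω] {O : ValuationSubring Ω} {n : ℕ} (D : UD O n)

/-- vectors of polynomials of degree at most `j` -/
noncomputable def M (j : ℕ) : Submodule Ω (D.μ → MvPolynomial (Fin n) Ω) :=
  span Ω {w | ∃ (g : Fin n →₀ ℕ) (b : D.μ), g.degree ≤ j ∧ w = Pi.single b (monomial g 1)}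

theorem M_mono {i j : ℕ} (h : i ≤ j) : M D i ≤ M D j :=
  span_mono fun _ ⟨g, b, h1, h2⟩ => ⟨g, b, h1.trans h, h2⟩

theorem M_fin (j : ℕ) : FiniteDimensional Ω (M D j) := by
  refine FiniteDimensional.span_of_finite Ω ?_
  refine (((Finsupp.finite_of_degree_le (σ := Fin n) j).prod (Set.finite_univ (α := D.μ))).image
    fun p => (Pi.single p.2 (monomial p.1 1) : D.μ → MvPolynomial (Fin n) Ω)).subset ?_
  rintro _ ⟨g, b, h1, rfl⟩
  exact ⟨(g, b), ⟨h1, trivial⟩, rfl⟩

theorem ex_M (v : D.μ → MvPolynomial (Fin n) Ω) : ∃ j, v ∈ M D j := by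
  have h1 : ∀ (b : D.μ) (p : MvPolynomial (Fin n) Ω),
      ∃ j, (Pi.single b p : D.μ → MvPolynomial (Fin n) Ω) ∈ M D j := by
    intro b p
    induction p using MvPolynomial.induction_on' with
    | monomial g c =>
      refine ⟨g.degree, ?_⟩
      have : (Pi.single b (monomial g c) : D.μ → MvPolynomial (Fin n) Ω) =
          c • (Pi.single b (monomial g 1) : D.μ → MvPolynomial (Fin n) Ω) := by
        rw [← Pi.single_smul, smul_monomial, smul_eq_mul, mul_one]
      rw [this]
      exact smul_mem _ _ (subset_span ⟨g, b, le_rfl, rfl⟩)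
    | add p q hp hq =>
      obtain ⟨i, hi⟩ := hp
      obtain ⟨j, hj⟩ := hq
      refine ⟨max i j, ?_⟩
      rw [Pi.single_add]
      exact add_mem (M_mono D (le_max_left _ _) hi) (M_mono D (le_max_right _ _) hj)
  choose j hj using fun b => h1 b (v b)
  refine ⟨Finset.univ.sup j, ?_⟩
  rw [← Finset.univ_sum_single v]
  exact sum_mem fun b _ => M_mono D (Finset.le_sup (Finset.mem_univ b)) (hj b)

theorem th_single (A : Fin n → D.T) (g : Fin n →₀ ℕ) (b : D.μ) :
    th (Ω := Ω) A D.e (Pi.single b (monomial g 1)) = tw A g • D.e b := by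
  rw [th_apply, Finset.sum_eq_single b]
  · rw [Pi.single_eq_same, aeval_monomial_tw, one_smul]
  · intro a _ ha
    rw [Pi.single_eq_of_ne ha, map_zero, zero_smul]
  · simp

theorem map_le (hLAT : S_LAT) (A B : Fin n → D.T)
    (h : ∀ i a, A i • D.e a ∈ span O (range fun p : Fin n × D.μ => B p.1 • D.e p.2)) (j : ℕ) :
    (M D j).map (th (Ω := Ω) A D.e) ≤ (M D j).map (th (Ω := Ω) B D.e) := by
  rw [map_le_iff_le_comap, M, span_le]
  rintro _ ⟨g, b, h1, rfl⟩
  rw [SetLike.mem_coe, mem_comap, th_single]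
  have h2 := hLAT Ω O n D A B h g b
  have h3 : span O {z | ∃ γ b, γ.degree = g.degree ∧ z = tw B γ • D.e b} ≤
      ((M D j).map (th (Ω := Ω) B D.e)).restrictScalars O := by
    rw [span_le]
    rintro _ ⟨γ, a, h4, rfl⟩
    exact ⟨_, subset_span ⟨γ, a, h4.le.trans h1, rfl⟩, th_single D B γ a⟩
  exact h3 h2

end THx

open THx in
theorem p_TH (hLAT : S_LAT) :
    S_TH := by
  intro Ω _ O n D k hG
  have h1 : ∀ i a, D.sys k i • D.e a ∈
      span O (range fun p : Fin n × D.μ => D.x p.1 • D.e p.2) := by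
    intro i a
    unfold UD.sys
    split_ifs
    · exact D.lin i a
    · exact subset_span ⟨(i, a), rfl⟩
  have h2 : ∀ j, (M D j).map (th (Ω := Ω) (D.sys k) D.e) = (M D j).map (th (Ω := Ω) D.x D.e) :=
    fun j => le_antisymm (map_le D hLAT _ _ h1 j) (map_le D hLAT _ _ hG j)
  constructor
  · rw [injective_iff_map_eq_zero]
    intro v hv
    obtain ⟨j, hj⟩ := ex_M D v
    have := M_fin D j
    have h3 := LinearMap.finrank_range_add_finrank_ker
      ((th (Ω := Ω) (D.sys k) D.e).domRestrict (M D j))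
    rw [LinearMap.range_domRestrict, h2,
      ← (equivMapOfInjective _ D.free.1 (M D j)).finrank_eq] at h3
    have h4 : LinearMap.ker ((th (Ω := Ω) (D.sys k) D.e).domRestrict (M D j)) = ⊥ :=
      finrank_eq_zero.1 (by omega)
    have h5 : (⟨v, hj⟩ : M D j) ∈
        LinearMap.ker ((th (Ω := Ω) (D.sys k) D.e).domRestrict (M D j)) := hv
    rw [h4, mem_bot] at h5
    exact congrArg Subtype.val h5
  · intro z
    obtain ⟨v, rfl⟩ := D.free.2 z
    obtain ⟨j, hj⟩ := ex_M D v
    have h3 : th (Ω := Ω) D.x D.e v ∈ (M D j).map (th (Ω := Ω) (D.sys k) D.e) := by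
      rw [h2]; exact mem_map_of_mem hj
    obtain ⟨w, -, hw⟩ := h3
    exact ⟨w, hw⟩

end Pool.Agent.P.MP_f4e0a3_ag.HP
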