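import Pool.Agent.P.MP_f4e0a3_ag.HP.IfaceA

/-! Step TOP. -/

set_option autoImplicit false
set_option linter.unusedSectionVars false

namespace Pool.Agent.P.MP_f4e0a3_ag.HP

open MvPolynomial Matrix Submodule Set

theorem p_TOP (hCO : S_CO) (hMDC : S_MDC) (hBOXC : S_BOXC) :
    S_TOP := by
  intro Ω _ O n D e hG he
  obtain ⟨co, hco⟩ := hCO Ω O n D n (hG n le_rfl)
  rw [D.sys_top] at hco
  have hK : ∀ s z, z ∈ D.K e s ↔ ∀ a β, Box e s β → coeff β (co z a) = 0 := fun s z => by
    rw [UD.K, hco.mi]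
    refine forall_congr' fun a => forall_congr' fun β => imp_congr_left ⟨fun h => ⟨fun i hi => ?_,
      fun i => ?_⟩, fun h i _ => ?_⟩
    · have := h i (by simp [hi])
      simpa [hi] using this
    · by_cases hi : i.val < s
      · have := h i (by simp [hi])
        simp only [hi, if_true] at this
        omega
      · simpa [hi] using h i (by simp [hi, he.ne'])
    · by_cases hi : i.val < s
      · simp [hi, h.1 i hi]
      · simpa [hi] using h.2 i
  have hC : ∀ c : D.μ → Ω, co (∑ a, c a • D.e a) = fun a => C (c a) := fun c => by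
    rw [← LinearEquiv.eq_symm_apply, hco.symm, th_apply]
    simp
  have h0 : ∀ s, Box e s (0 : Fin n →₀ ℕ) := fun s => ⟨fun _ _ => rfl, fun _ => he⟩
  refine ⟨fun s j hj z hz => (hK s z).2 fun a β hβ => ?_, fun z hz => ?_, fun c hc => ?_,
    fun s z hz hk => ?_⟩
  · refine ((hco.vd j z).1 hz a).coeff_eq_zero ?_
    have := (hBOXC n e s he).2.2.1 β hβ
    omega
  · choose o ho using fun a => (hco.lam 1 z).1 hz a 0
    refine ⟨∑ a, (o a : Ω) • D.e a, sum_mem fun a _ =>
      smul_mem (span O (range D.e)) (o a) (subset_span ⟨a, rfl⟩), (hK n _).2 fun a β hβ => ?_⟩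
    obtain rfl : β = 0 := Finsupp.ext fun i => hβ.1 i i.2
    rw [map_sub, hC]
    simp [ho a]
  · funext a
    have := (hK n _).1 hc a 0 (h0 n)
    rw [hC] at this
    simpa using this
  · refine co.map_eq_zero_iff.1 (funext fun a => MvPolynomial.ext _ _ fun β => ?_)
    by_cases hβ : β = 0
    · rw [hβ]; exact (hK s z).1 hk a 0 (h0 s)
    · exact ((hco.vd 0 z).1 hz a).coeff_eq_zero fun h => hβ ((Finsupp.degree_eq_zero_iff β).1 h)

end Pool.Agent.P.MP_f4e0a3_ag.HP
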