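import Pool.Agent.P.MP_f4e0a3_ag.HP.IfaceG

/-! Step TRF. -/

set_option autoImplicit false
set_option linter.unusedSectionVars false

namespace Pool.Agent.P.MP_f4e0a3_ag.HP

open MvPolynomial Matrix Submodule Set

namespace TRFx

theorem map_aeval' {κ R S : Type} [CommRing R] [CommRing S] [Algebra ℂ R] [Algebra ℂ S]
    (φ : R →ₐ[ℂ] S) (w : κ → R) (P : MvPolynomial κ ℂ) :
    φ (aeval w P) = aeval (fun p => φ (w p)) P := by
  rw [← AlgHom.comp_apply, comp_aeval]

/-- transfer from a field extension to the complex numbers -/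
theorem transfer {κ ι k : Type} [Finite κ] [Field k] [Algebra ℂ k] (Δ : ι → MvPolynomial κ ℂ)
    (F : MvPolynomial κ ℂ) (w : κ → k) (l : k) (u : ι → ℂ) (hl : l ≠ 0) (hF : aeval w F ≠ 0)
    (hu : ∀ T, algebraMap ℂ k (u T) = l * aeval w (Δ T)) :
    ∃ (w' : κ → ℂ) (c : ℂ), aeval w' F ≠ 0 ∧ c ≠ 0 ∧ u = c • ev Δ w' := by
  let φ : MvPolynomial (Option κ) ℂ →ₐ[ℂ] k := aeval fun o => o.elim l w
  have hφ : ∀ P : MvPolynomial κ ℂ, φ (X none * rename some P) = l * aeval w P := fun P => by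
    rw [map_mul, aeval_X, aeval_rename]; rfl
  obtain ⟨ψ, h1, h2⟩ := exists_point_of_hom (φ : MvPolynomial (Option κ) ℂ →+* k)
    (X none * rename some F) (by rw [RingHom.coe_coe, hφ]; exact mul_ne_zero hl hF)
  have hψ : ∀ P : MvPolynomial κ ℂ, ψ (X none * rename some P) =
      ψ (X none) * aeval (fun p => ψ (X (some p))) P := fun P => by
    rw [map_mul]
    congr 1
    conv_lhs => rw [aeval_unique ψ, aeval_rename]
    rfl
  rw [hψ] at h2
  refine ⟨fun p => ψ (X (some p)), ψ (X none), right_ne_zero_of_mul h2, left_ne_zero_of_mul h2,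
    funext fun T => ?_⟩
  have h3 := h1 (X none * rename some (Δ T) - C (u T)) (by
    rw [RingHom.coe_coe, map_sub, hφ, ← algebraMap_eq, AlgHom.commutes, hu, sub_self])
  rw [map_sub, hψ, ← algebraMap_eq, AlgHom.commutes, sub_eq_zero] at h3
  exact h3.symm

end TRFx

open TRFx in
theorem p_TRF :
    S_TRF := by
  intro n e _ _ ι _ Δ Ω _ _ O _ w y u hrs hne hprop hbig hu
  obtain ⟨T₀, hT₀⟩ := Function.ne_iff.1 hne
  have hinc : ∀ T, ev Δ (fun p => (w p : Ω)) T = ((ev Δ w T : O) : Ω) := fun T =>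
    (map_aeval' (incO O) w (Δ T)).symm
  have hd : O.valuation ((ev Δ w T₀ : O) : Ω) = 1 :=
    (resO_ne_zero O _).1 (by rw [ev, map_aeval']; exact hT₀)
  have hd0 : ((ev Δ w T₀ : O) : Ω) ≠ 0 := fun h => by rw [h, map_zero] at hd; exact zero_ne_one hd
  have hy : ∀ T, y T = y T₀ / (ev Δ w T₀ : O) * (ev Δ w T : O) := fun T => by
    have := hprop T₀ T
    rw [hinc, hinc] at this
    field_simp
    linear_combination this
  have hyO : ∀ T, y T ∈ O := fun T => by
    have h1 : y T - algebraMap ℂ Ω (u T) ∈ O := (O.valuation_le_one_iff _).1 (hu T).le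
    have := O.add_mem _ _ h1 (OverC.mem (u T))
    rwa [sub_add_cancel] at this
  have hlv : O.valuation (y T₀ / (ev Δ w T₀ : O)) ≤ 1 := by
    rw [map_div₀, hd, div_one]
    exact (O.valuation_le_one_iff _).2 (hyO T₀)
  let l : O := ⟨y T₀ / (ev Δ w T₀ : O), (O.valuation_le_one_iff _).1 hlv⟩
  have hl1 : O.valuation (l : Ω) = 1 := by
    obtain ⟨T, hT⟩ := hbig
    refine le_antisymm hlv (hT.trans ?_)
    rw [hy T, map_mul]
    exact mul_le_of_le_one_right' (O.valuation_le_one _)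
  obtain ⟨w', c, h1, h2, h3⟩ := transfer Δ (Res (Fin n) e) (fun p => resO O (w p)) (resO O l) u
    ((resO_ne_zero O l).2 hl1) (by rw [← map_aeval']; exact (hrs.map (resO O)).ne_zero)
    (fun T => by
      rw [← map_aeval', ← map_mul, ← (resO O).commutes, eq_comm, ← sub_eq_zero, ← map_sub,
        resO_eq_zero]
      have := hu T
      rw [hy T] at this
      exact this)
  exact ⟨w', c, h1, h2, h3⟩

end Pool.Agent.P.MP_f4e0a3_ag.HP
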