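import Pool.Agent.P.MP_f4e0a3_ag.HP.IfaceG

/-! Step TW. -/

set_option autoImplicit false
set_option linter.unusedSectionVars false

namespace Pool.Agent.P.MP_f4e0a3_ag.HP

open MvPolynomial Matrix Submodule Set

namespace TWx

variable {ι R S : Type} [Fintype ι] [DecidableEq ι] [CommRing R] [CommRing S]

/-- block matrices -/
def blk (d : R) (A : Matrix ι ι R) : Matrix (Option ι) (Option ι) R :=
  Matrix.of fun o o' => o.elim (o'.elim d fun _ => 0) fun a => o'.elim 0 (A a)

theorem blk_one : blk (1 : R) (1 : Matrix ι ι R) = 1 := by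
  ext (_ | a) (_ | b) <;> simp [blk, one_apply]

theorem blk_mul (d d' : R) (A A' : Matrix ι ι R) : blk (d * d') (A * A') = blk d A * blk d' A' := by
  ext (_ | a) (_ | b) <;> simp [blk, mul_apply, Fintype.sum_option]

theorem blk_map (φ : R →+* S) (d : R) (A : Matrix ι ι R) :
    (blk d A).map φ = blk (φ d) (A.map φ) := by
  ext (_ | a) (_ | b) <;> simp [blk]

end TWx

open TWx in
theorem p_TW :
    S_TW := by
  intro n ι _ _ r
  refine ⟨⟨fun R _ _ => ⟨⟨fun γ => blk (γ ())⁻¹.val.det (r.ρ R γ), ?_⟩, fun γ δ => ?_⟩,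
    fun {R S} _ _ _ _ φ γ => ?_⟩, fun R _ _ γ s u => ?_⟩
  · simp [blk_one]
  · simp only [Pi.mul_apply, _root_.mul_inv_rev, Units.val_mul, det_mul, map_mul, ← blk_mul]
    rw [mul_comm]
  · refine (blk_map (φ : R →+* S) _ _).trans ?_
    rw [RingHom.map_det, RingHom.coe_coe, r.nat]
    rfl
  · funext o
    cases o <;> simp [Rep.pt, vecMul, dotProduct, blk, Fintype.sum_option, mul_comm]

end Pool.Agent.P.MP_f4e0a3_ag.HP
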