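import Pool.Agent.P.MP_f4e0a3_ag.HP.IfaceA

/-! Step UDM. -/

set_option autoImplicit false
set_option linter.unusedSectionVars false

namespace Pool.Agent.P.MP_f4e0a3_ag.HP

open MvPolynomial Matrix Submodule Set

namespace UDMx

theorem main {Ω : Type} [Field Ω] (O : ValuationSubring Ω) {n e : ℕ} {μ : Type}
    [Fintype μ] [DecidableEq μ] [Nonempty μ] (L : Fin n → Matrix μ μ (MvPolynomial (Fin n) O))
    (g : Fin n → MvPolynomial (Fin n) O) (h1 : ∀ i a b, (L i a b).IsHomogeneous 1)
    (h2 : ∀ i, L i ^ e = Matrix.scalar μ (g i)) {T : Type} [CommRing T] [Algebra Ω T]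
    (φ : T →ₐ[Ω] Matrix μ μ (MvPolynomial (Fin n) Ω)) (x l : Fin n → T)
    (hx : ∀ i, φ (x i) = Matrix.scalar μ (X i))
    (hl : ∀ i, φ (l i) = (MvPolynomial.map O.subtype).mapMatrix (L i)) :
    ∃ D : UD O n, D.Pw e fun i => MvPolynomial.map O.subtype (g i) := by
  let : Module T (μ → MvPolynomial (Fin n) Ω) := Module.compHom _
    ((Matrix.toLinAlgEquiv' (R := MvPolynomial (Fin n) Ω) (n := μ)).toRingEquiv.toRingHom.comp
      φ.toRingHom)
  have hs : ∀ (t : T) (v : μ → MvPolynomial (Fin n) Ω), t • v = φ t *ᵥ v := fun _ _ => rfl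
  have : IsScalarTower Ω T (μ → MvPolynomial (Fin n) Ω) :=
    ⟨fun c t v => by rw [hs, hs, map_smul, smul_mulVec]⟩
  have ha : ∀ (q : MvPolynomial (Fin n) Ω) (v : μ → MvPolynomial (Fin n) Ω),
      aeval x q • v = q • v := fun q v => by
    have : φ (aeval x q) = algebraMap _ _ q := DFunLike.congr_fun
      (algHom_ext (f := φ.comp (aeval x)) (g := IsScalarTower.toAlgHom Ω _ _) fun i => by
        rw [AlgHom.comp_apply, aeval_X, hx]; rfl) q
    rw [hs, this, Algebra.algebraMap_eq_smul_one, smul_mulVec, one_mulVec]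
  have hx' : ∀ i (v : μ → MvPolynomial (Fin n) Ω), x i • v = (X i : MvPolynomial (Fin n) Ω) • v :=
    fun i v => by rw [← ha, aeval_X]
  refine ⟨{ T := T, V := μ → MvPolynomial (Fin n) Ω, μ := μ, x := x, l := l
            e := fun a => Pi.single a 1, free := ?_, lin := fun i a => ?_ }, fun i z => ?_⟩
  · convert Function.bijective_id
    ext1 v
    rw [th_apply]
    simp only [ha, ← Pi.single_smul, smul_eq_mul, mul_one, Finset.univ_sum_single, id]
  · rw [hs, hl, ← Finset.univ_sum_single (_ *ᵥ _)]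
    refine sum_mem fun b _ => ?_
    rw [mulVec_single_one]
    change (Pi.single b (MvPolynomial.map O.subtype (L i b a)) : μ → MvPolynomial (Fin n) Ω) ∈ _
    have h3 : L i b a ∈ homogeneousSubmodule (Fin n) O 1 := h1 i b a
    rw [homogeneousSubmodule_one_eq_span_X] at h3
    generalize L i b a = q at h3
    induction h3 using span_induction with
    | mem p hp =>
      obtain ⟨j, rfl⟩ := hp
      exact subset_span ⟨(j, b), by simp [hx', ← Pi.single_smul]⟩
    | zero => simp
    | add p q _ _ hp hq => rw [map_add, Pi.single_add]; exact add_mem hp hq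
    | smul c p _ hp =>
      convert smul_mem _ c hp
      rw [← Pi.single_smul, smul_eq_C_mul, map_mul, map_C, ← smul_eq_C_mul]
      rfl
  · change l i ^ e • z = aeval x _ • z
    rw [ha, hs, map_pow, hl, ← map_pow, h2]
    ext a
    simp [mulVec_diagonal]

end UDMx

theorem p_UDM :
    S_UDM := by
  intro Ω _ O n e μ _ _ _ L g h1 h2 h3
  let T := Algebra.adjoin (MvPolynomial (Fin n) Ω)
    (range fun i => (MvPolynomial.map O.subtype).mapMatrix (L i))
  have : IsMulCommutative T := Algebra.isMulCommutative_adjoin _ (by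
    rintro _ ⟨i, rfl⟩ _ ⟨j, rfl⟩
    rw [← map_mul, h3, map_mul])
  let : CommRing T := { (inferInstance : Ring T) with mul_comm := mul_comm' }
  exact UDMx.main O L g h1 h2 (T.val.restrictScalars Ω)
    (fun i => algebraMap (MvPolynomial (Fin n) Ω) _ (X i))
    (fun i => ⟨_, Algebra.subset_adjoin ⟨i, rfl⟩⟩) (fun _ => rfl) fun _ => rfl

end Pool.Agent.P.MP_f4e0a3_ag.HP
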