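import Pool.Agent.P.MP_f4e0a3_ag.HP.IfaceA

/-! Step UDX. -/

set_option autoImplicit false
set_option linter.unusedSectionVars false

namespace Pool.Agent.P.MP_f4e0a3_ag.HP

open MvPolynomial Matrix Submodule Set

theorem p_UDX (hFLAG : S_FLAG) (hCLIF : S_CLIF) (hKRON : S_KRON) (hUDM : S_UDM) (hGEN : S_GEN) :
    S_UDX := by
  intro n e he _ Ω _ _ O _ w hw
  have e0 : 0 < e := lt_of_lt_of_le (by norm_num) he.out
  obtain ⟨g, hg, hf, hs⟩ := hFLAG n e Ω O w hw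
  obtain ⟨μ, _, _, _, L, h1, h2, h3⟩ := hKRON (MvPolynomial (Fin n) O)
    (homogeneousSubmodule (Fin n) O 1).toAddSubgroup e n g fun i => hCLIF O n e (g i) e0 (hg i)
  obtain ⟨D, hD⟩ := hUDM Ω O n e μ L g h1 h2 h3
  refine ⟨D, _, fun k => ?_, hD, hs⟩
  induction k with
  | zero => exact fun _ => D.gen_zero
  | succ k ih => exact fun hk => hGEN Ω O n D e g ⟨k, hk⟩ e0 hD (hf _) (ih (by omega))

end Pool.Agent.P.MP_f4e0a3_ag.HP
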