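import Pool.Agent.P.MP_f4e0a3_ag.HP.IfaceG

/-! Step VAL. -/

set_option autoImplicit false
set_option linter.unusedSectionVars false

namespace Pool.Agent.P.MP_f4e0a3_ag.HP

open MvPolynomial Matrix Submodule Set

theorem p_VAL (hVAL1 : S_VAL1) (hPROP : S_PROP) (hTRF : S_TRF) :
    S_VAL := by
  intro n e _ _ m k r Δ hr hΔ h1 h2 w hw Ω _ _ _ O _ g c u₁ hg hc hu
  obtain ⟨b, hb, hpl⟩ := hΔ.ex w hw
  obtain ⟨c₀, hc₀, hbc⟩ := hΔ.pl w hw b hb
  obtain ⟨⟨T₀, hT₀⟩, h3⟩ := hVAL1 n e m k r Ω O w b g hr h1 h2 hw hb hpl hg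
  obtain ⟨h4, h5⟩ := hPROP n e m k r Δ hr hΔ
  set z := r.pt (fun i => algebraMap ℂ Ω (ev Δ w i)) (fun _ => g) with hz
  have e1 : ∀ T, O.valuation (r.pt (fun i => algebraMap ℂ Ω (pl m b i)) (fun _ => g) T) =
      O.valuation (z T) := by
    intro T
    have : (fun i => algebraMap ℂ Ω (pl m b i)) =
        algebraMap ℂ Ω c₀ • fun i => algebraMap ℂ Ω (ev Δ w i) := by
      funext i; simp [hbc]
    rw [this, r.pt_smul, Pi.smul_apply, smul_eq_mul, map_mul, valuation_algebraMap O hc₀, one_mul]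
  have e2 : ∀ T, O.valuation (z T) ≤ O.valuation (c * z T) := fun T => by
    rw [map_mul]; exact le_mul_of_one_le_left' hc
  have e3 : ∀ T, O.valuation (c * z T) ≤ 1 := fun T => by
    have h6 : O.valuation (algebraMap ℂ Ω (u₁ T)) ≤ 1 :=
      (O.valuation_le_one_iff _).2 (OverC.mem _)
    have := O.valuation.map_add_le (hu T).le h6
    rwa [sub_add_cancel] at this
  obtain ⟨a, w', hw', e4⟩ := h3 fun T => by rw [e1]; exact (e2 T).trans (e3 T)
  refine hTRF n e _ Δ Ω O w' (fun T => c * z T) u₁ hw' (h5 _ _ ?_) (fun T T' => ?_)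
    ⟨T₀, (hT₀.trans (e1 T₀).le).trans (e2 T₀)⟩ hu
  · have := (hw'.map (resO O)).ne_zero
    rwa [rs, comp_aeval_apply] at this
  · have := h4 w hw Ω a g T T'
    rw [e4]
    linear_combination c * this

end Pool.Agent.P.MP_f4e0a3_ag.HP
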