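import Pool.Agent.P.MP_f4e0a3_ag.HP.IfaceA

/-! Step VOL. -/

set_option autoImplicit false
set_option linter.unusedSectionVars false

namespace Pool.Agent.P.MP_f4e0a3_ag.HP

open MvPolynomial Matrix Submodule Set

namespace VOLx

theorem comb {F V κ : Type} [Field F] [AddCommGroup V] [Module F V] [Fintype κ]
    (A B : Matrix κ κ F) (b : κ → V) (i : κ) :
    ∑ l, A i l • ∑ m, B l m • b m = ∑ m, (A * B) i m • b m := by
  simp only [Finset.smul_sum, mul_apply, Finset.sum_smul, smul_smul]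
  exact Finset.sum_comm

theorem ind {F V κ : Type} [Field F] [AddCommGroup V] [Module F V] [Fintype κ] [DecidableEq κ]
    {C : Matrix κ κ F} {b : κ → V} (hb : LinearIndependent F b) (hC : C.det ≠ 0) :
    LinearIndependent F fun i => ∑ l, C i l • b l := by
  rw [Fintype.linearIndependent_iff] at hb ⊢
  intro g hg
  refine congrFun (eq_zero_of_vecMul_eq_zero hC (funext (hb (g ᵥ* C) ?_)))
  rw [← hg]
  simp only [Finset.smul_sum, vecMul, dotProduct, Finset.sum_smul, smul_smul]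
  exact Finset.sum_comm

theorem tw_one {n : ℕ} {R : Type} [CommMonoid R] (β : Fin n →₀ ℕ) :
    tw (fun _ => (1 : R)) β = 1 := by simp [tw]

end VOLx

theorem p_VOL (hLV : S_LV) (hPLN : S_PLN) (hBOXP : S_BOXP) (hFAM : S_FAM) (hFAM2 : S_FAM2) :
    S_VOL := by
  classical
  intro Ω _ O n D t p e j k g b hS hP ht hb hsp
  have hm : ∀ (C : Matrix (Fin k) (Fin k) Ω) i, ∑ l, C i l • b l ∈ Im j g := fun C i =>
    hsp ▸ sum_mem fun l _ => smul_mem _ _ (subset_span ⟨l, rfl⟩)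
  have hh : ∀ i, (b i).IsHomogeneous j := fun i =>
    (mem_Im.1 (hsp ▸ subset_span ⟨i, rfl⟩ : b i ∈ Im j g)).2
  have tne := hS.wt.ne
  obtain ⟨T0, C0, m0, d0, c0, s0⟩ := hPLN Ω O n k j (fun _ => 1) b (fun _ => one_ne_zero) hh hb
  obtain ⟨T1, C1, m1, d1, c1, s1⟩ := hPLN Ω O n k j t b tne hh hb
  simp only [VOLx.tw_one, Finset.prod_const_one, one_mul] at m0 d0 c0 s0
  rw [hsp] at s0 s1
  have n0 : C0.det ≠ 0 := left_ne_zero_of_mul_eq_one d0
  obtain ⟨f1, f2, f3⟩ := hFAM Ω O n D t p e j k g _ hS hP (VOLx.ind hb n0) (hm C0) c0 s0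
  obtain ⟨g1, g2⟩ := hFAM2 Ω O n D t p e j k g _ hS hP (hm C1) c1 s1
  set A := C1 * C0⁻¹ with hA
  have hAC : A * C0 = C1 := nonsing_inv_mul_cancel_right _ _ (Ne.isUnit n0)
  set C : Matrix ((Fin k × D.μ) ⊕ (BoxD n e j × D.μ)) ((Fin k × D.μ) ⊕ (BoxD n e j × D.μ)) Ω :=
    fromBlocks (kroneckerMap (· * ·) A 1) 0 0 (diagonal fun q => (tw t q.1.1.1)⁻¹) with hC
  have e1 : (fun i => ∑ q, C i q • D.fam (e := e) (j := j) (fun i => ∑ l, C0 i l • b l) (p 0) q) =
      D.fam (e := e) (j := j) (fun i => ∑ l, C1 i l • b l) fun β a => (tw t β)⁻¹ • p 0 β a := by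
    funext i
    rcases i with ⟨i, a⟩ | i
    · simp only [hC, UD.fam, Fintype.sum_sum_type, fromBlocks_apply₁₁, fromBlocks_apply₁₂,
        Sum.elim_inl, Sum.elim_inr, Matrix.zero_apply, zero_smul, Finset.sum_const_zero, add_zero,
        Fintype.sum_prod_type, kroneckerMap_apply, Matrix.one_apply, mul_ite, mul_one, mul_zero,
        ite_smul, Finset.sum_ite_eq, Finset.mem_univ, if_true]
      rw [← hAC, ← VOLx.comb A C0 b i, map_sum (aeval D.x) (fun l => A i l • _), Finset.sum_smul]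
      exact Finset.sum_congr rfl fun l _ => by rw [map_smul, smul_assoc]
    · simp [hC, UD.fam, diagonal_apply, ite_smul]
  obtain ⟨l1, l2, l3⟩ := hLV Ω O D.V _ _ _ _ (fun q : Mon (Fin n) j × D.μ => tw t q.1.1) C f1 f2 f3
    (fun q => tw_ne_zero tne _) fun i => (congrFun e1 i).symm ▸ g1 i
  rw [e1, ← g2] at l3
  obtain ⟨b1, b2⟩ := hBOXP O.ValueGroup n e j (fun i => O.valuation (t i)) (by rw [← map_prod, ht])
  have vt : ∀ β, tw (fun i => O.valuation (t i)) β = O.valuation (tw t β) := fun β => by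
    simp [tw]
  simp only [vt] at b1 b2
  set π0 := pl j b T0
  set π1 := (∏ i, tw t (T1 i).1) * pl j b T1
  have v1 : O.valuation π1 ≠ 0 := by simpa using right_ne_zero_of_mul_eq_one d1
  have dA : A.det = π0 / π1 := by
    have h1 : A.det * C0.det = C1.det := by rw [← det_mul, hAC]
    rw [eq_div_iff (right_ne_zero_of_mul_eq_one d1)]
    linear_combination (-A.det * π1) * d0 + (π0 * π1) * h1 + π0 * d1
  have key : O.valuation (C.det * ∏ q : Mon (Fin n) j × D.μ, tw t q.1.1) =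
      (O.valuation π0 / O.valuation π1) ^ Fintype.card D.μ := by
    rw [hC, det_fromBlocks_zero₂₁, det_kronecker, det_diagonal, det_one, dA]
    simp only [map_mul, map_prod, map_pow, map_inv₀, map_div₀, Fintype.prod_prod_type_right,
      Finset.prod_inv_distrib, b1, b2, one_pow, mul_one, Finset.prod_const_one, inv_one]
  have hc : Fintype.card D.μ ≠ 0 := Fintype.card_ne_zero
  have p1 : 0 < O.valuation π1 := zero_lt_iff.2 v1
  rw [key, pow_le_one_iff hc, div_le_one₀ p1] at l2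
  rw [key, one_le_pow_iff hc, one_le_div₀ p1] at l3
  refine ⟨fun T => ⟨T1, (m0 T).trans l2⟩, Iff.trans ⟨fun h => ?_, fun h T => ⟨T0, (m1 T).trans h⟩⟩
    l3, ?_⟩
  · obtain ⟨T, hT⟩ := h T1
    exact hT.trans (m0 T)
  · simp only [Fintype.card_sum, Fintype.card_prod, Fintype.card_fin] at l1
    exact Nat.eq_of_mul_eq_mul_right (Nat.pos_of_ne_zero hc) (by rw [add_mul, l1])

end Pool.Agent.P.MP_f4e0a3_ag.HP
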