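import Pool.Agent.P.MP_f4e0a3_ag.HP.IfaceG

/-! Step XE. -/

set_option autoImplicit false
set_option linter.unusedSectionVars false

namespace Pool.Agent.P.MP_f4e0a3_ag.HP

open MvPolynomial Matrix Submodule Set

namespace XEx

/-- the generic coefficients -/
noncomputable def gen (n d : ℕ) (p : Fin 1 × (Fin n →₀ ℕ)) : MvPolynomial (Mon (Fin n) d) ℂ :=
  coeff p.2 (frm (X : Mon (Fin n) d → MvPolynomial (Mon (Fin n) d) ℂ))

theorem aeval_gen {n d : ℕ} (c : Mon (Fin n) d → ℂ) (A : MvPolynomial (Fin 1 × (Fin n →₀ ℕ)) ℂ) :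
    aeval c (aeval (gen n d) A) = eval (fun p => coeff p.2 (frm c)) A := by
  rw [comp_aeval_apply]
  have : (fun p => aeval c (gen n d p)) = fun p : Fin 1 × (Fin n →₀ ℕ) => coeff p.2 (frm c) := by
    funext p
    have h := congrArg (coeff p.2)
      (map_frm (aeval c : MvPolynomial (Mon (Fin n) d) ℂ →ₐ[ℂ] ℂ).toRingHom X)
    rw [coeff_map] at h
    simpa [gen] using h
  rw [this]
  rfl

end XEx

theorem p_XE (hREG : S_REG) (_hZPT : S_ZPT) (hGLOB : S_GLOB) :
    S_XE := by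
  classical
  intro n e _ _ Y D ψ hD hψ
  have hL := (hREG n 1 Y ψ).1 hψ
  have hr : ∀ c : Mon (Fin n) (e + 1) → ℂ,
      span ℂ (range fun _ : Fin 1 => frm c) = span ℂ {frm c} := fun c => by rw [range_const]
  obtain ⟨E, j, hE⟩ := hGLOB _ ⊥ D
    (fun c => if h : span ℂ {frm c} ∈ Y then ψ ⟨_, h⟩ else 0) (by
      intro c₀ _ h0
      obtain ⟨A, B, hB, hAB⟩ := hL (fun _ => frm c₀) (by rw [hr]; exact hD c₀ h0)
      refine ⟨aeval (XEx.gen n (e + 1)) A, aeval (XEx.gen n (e + 1)) B, ?_, fun c _ hc hcB => ?_⟩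
      · rwa [XEx.aeval_gen]
      · rw [XEx.aeval_gen] at hcB
        rw [XEx.aeval_gen, XEx.aeval_gen, dif_pos (hD c hc),
          ← hAB (fun _ => frm c) (by rw [hr]; exact hD c hc) hcB]
        congr 2
        exact (hr c).symm)
  refine ⟨E, j, fun c hc h0 => ?_⟩
  have := hE c (fun Q hQ => by rw [Ideal.mem_bot.1 hQ, map_zero]) h0
  rwa [dif_pos hc] at this

end Pool.Agent.P.MP_f4e0a3_ag.HP
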