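import Pool.Agent.P.MP_f4e0a3_ag.HP.IfaceG

/-! Step XLEV. -/

set_option autoImplicit false
set_option linter.unusedSectionVars false

namespace Pool.Agent.P.MP_f4e0a3_ag.HP

open MvPolynomial Matrix Submodule Set

theorem p_XLEV (hGRAD : S_GRAD) (hDIV : S_DIV) (hLOCX : S_LOCX) (hZPT : S_ZPT) :
    S_XLEV := by
  intro n e _ _ m k H L₀ hL₀
  have hj : ∀ L ∈ PX n (e + 1), jac L ∈ Z n e := fun L hL => ((hZPT n e).2.2.2.2 L hL).2.1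
  obtain ⟨P, hP, h0, ⟨p, hp, hp'⟩, hiff⟩ := H (jac L₀) (hj L₀ hL₀)
  have hpX : InvReg 1 (PX n (e + 1)) fun L => p ⟨jac L.1, hj L.1 L.2⟩ :=
    hGRAD n (e + 1) _ _ hj p subset_rfl hp
  have hX' : {L | L ∈ PX n (e + 1) ∧ hilb m (jac L) ∈ chart m P} ⊆ PX n (e + 1) :=
    fun _ h => h.1
  have hY' : {L | L ∈ Z n e ∧ hilb m L ∈ chart m P} ⊆ Z n e := fun _ h => h.1
  have hXY : ∀ L ∈ {L | L ∈ PX n (e + 1) ∧ hilb m (jac L) ∈ chart m P},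
      jac L ∈ {L | L ∈ Z n e ∧ hilb m L ∈ chart m P} := fun L h => ⟨hj L h.1, h.2⟩
  refine ⟨P, hP, h0, ⟨_, hpX, fun L => hp' ⟨jac L.1, hj L.1 L.2⟩⟩, fun ψ => ⟨fun hψ => ?_, ?_⟩⟩
  · obtain ⟨j, φ₁, h1, h2⟩ := hLOCX n e _ hX' _ ψ hpX
      (fun L => ⟨fun h => (hp' ⟨jac L.1, hj L.1 L.2⟩).1 h.2,
        fun h => ⟨L.2, (hp' ⟨jac L.1, hj L.1 L.2⟩).2 h⟩⟩) hψ
    obtain ⟨⟨φ₂, h3⟩, h4⟩ := Φ_surjective (n := n) (e := e) ⟨φ₁, h1⟩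
    have h5 : ∀ L : PX n (e + 1), φ₂ ⟨jac L.1, hj L.1 L.2⟩ = φ₁ L := fun L =>
      congrFun (congrArg Subtype.val h4) L
    have h6 : ∀ L : {L | L ∈ Z n e ∧ hilb m L ∈ chart m P}, p ⟨L.1, hY' L.2⟩ ≠ 0 := fun L =>
      (hp' ⟨L.1, hY' L.2⟩).1 L.2.2
    obtain ⟨φ, h7, h8⟩ := (hiff _).1 (hDIV n n _ _ hY' φ₂ p j h3 hp h6)
    refine ⟨φ, h7, fun L => ?_⟩
    have h9 := h8 ⟨jac L.1, hXY L.1 L.2⟩
    have h10 := h2 L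
    have h11 := h5 ⟨L.1, hX' L.2⟩
    have h12 := h6 ⟨jac L.1, hXY L.1 L.2⟩
    refine Eq.trans ?_ h9
    exact (eq_div_of_mul_eq (pow_ne_zero j h12) (h10.symm.trans h11.symm))
  · rintro ⟨φ, h1, h2⟩
    have h3 := (hiff fun L => φ ⟨hilb m L.1, L.2.2⟩).2 ⟨φ, h1, fun _ => rfl⟩
    have h4 := hGRAD n (e + 1) _ _ hXY _ hX' h3
    have h5 : ψ = _ := funext h2
    rw [h5]
    exact h4

end Pool.Agent.P.MP_f4e0a3_ag.HP
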