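import Pool.Agent.P.MP_f4e0a3_ag.HP.IfaceG

/-! Step ZE. -/

set_option autoImplicit false
set_option linter.unusedSectionVars false

namespace Pool.Agent.P.MP_f4e0a3_ag.HP

open MvPolynomial Matrix Submodule Set

namespace ZEx

variable {n e : ℕ}

/-- the coefficients of the generic tuple -/
noncomputable def T (n e : ℕ) :
    Fin n × (Fin n →₀ ℕ) → MvPolynomial (Fin n × Mon (Fin n) e) ℂ :=
  fun p => coeff p.2 (tup (fun q => (X q : MvPolynomial (Fin n × Mon (Fin n) e) ℂ)) p.1)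

lemma hT (w : Fin n × Mon (Fin n) e → ℂ) (P : MvPolynomial (Fin n × (Fin n →₀ ℕ)) ℂ) :
    aeval w (aeval (T n e) P) = eval (fun p => coeff p.2 (tup w p.1)) P := by
  let χ : MvPolynomial (Fin n × Mon (Fin n) e) ℂ →ₐ[ℂ] ℂ := aeval w
  have h1 : (fun p => χ (T n e p)) = fun p => coeff p.2 (tup w p.1) := by
    funext p
    have := congrArg (coeff p.2) (map_tup (χ : _ →+* ℂ)
      (fun q => (X q : MvPolynomial (Fin n × Mon (Fin n) e) ℂ)) p.1)
    rw [coeff_map] at this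
    refine Eq.trans this ?_
    simp [χ]
  rw [← h1]
  exact DFunLike.congr_fun (comp_aeval (T n e) χ) P

end ZEx

theorem p_ZE (hREG : S_REG) (hZPT : S_ZPT) (hGLOB : S_GLOB) :
    S_ZE := by
  classical
  intro n e _ _ Y D ψ hY hψ
  have hL := (hREG n n Y ψ).1 hψ
  obtain ⟨E, j, hE⟩ := hGLOB (Fin n × Mon (Fin n) e) ⊥ (Res (Fin n) e * D)
    (fun w => if h : span ℂ (range (tup w)) ∈ Y then ψ ⟨_, h⟩ else 0) (by
      intro w₀ _ h0
      rw [map_mul, mul_ne_zero_iff] at h0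
      obtain ⟨A, B, h1, h2⟩ := hL _ (hY w₀ h0.1 h0.2)
      refine ⟨aeval (ZEx.T n e) A, aeval (ZEx.T n e) B, by rwa [ZEx.hT], fun w _ h3 h4 => ?_⟩
      rw [map_mul, mul_ne_zero_iff] at h3
      rw [ZEx.hT] at h4
      rw [ZEx.hT, ZEx.hT, dif_pos (hY w h3.1 h3.2)]
      exact h2 _ _ h4)
  refine ⟨E, j, fun w hw h1 h2 => ?_⟩
  have h3 := hE w (fun Q hQ => by rw [Ideal.mem_bot.1 hQ, map_zero])
    (by rw [map_mul]; exact mul_ne_zero h1 h2)
  rw [dif_pos hw, map_mul] at h3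
  exact h3

end Pool.Agent.P.MP_f4e0a3_ag.HP
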