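import Pool.Agent.P.MP_f4e0a3_ag.HP.IfaceG

/-! Step ZPT. -/

set_option autoImplicit false
set_option linter.unusedSectionVars false

namespace Pool.Agent.P.MP_f4e0a3_ag.HP

open MvPolynomial Matrix Submodule Set

theorem p_ZPT :
    S_ZPT := by
  intro n e _ _
  have hA : ∀ w : Fin n × Mon (Fin n) e → ℂ, span ℂ (range (tup w)) ∈ Z n e ↔ rs w ≠ 0 := by
    intro w
    constructor
    · intro h h0
      have h1 : (aeval (crd e (tup w)) (Res (Fin n) e))⁻¹ *
          aeval (crd e (tup w)) (Res (Fin n) e) = 1 := inU_zU h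
      rw [crd_tup, show aeval w (Res (Fin n) e) = 0 from h0, mul_zero] at h1
      exact zero_ne_one h1
    · intro h
      exact mem_Z_of_inU (z := ext (rs w)⁻¹ w) (inU_ext.2 (inv_mul_cancel₀ h))
  refine ⟨hA, fun h hh => tup_crd (of_mem_Z hh).1, ?_, fun c => ?_, ?_⟩
  · rintro L ⟨h, h1, h2, -, rfl⟩
    exact ⟨by rw [finrank_span_eq_card h2, Fintype.card_fin], crd e h, by rw [tup_crd h1]⟩
  · have h0 : tup (crd e (grad (frm c))) = grad (frm c) :=
      tup_crd (grad_isHomogeneous (frm_isHomogeneous c))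
    rw [aeval_disc]
    constructor
    · intro h
      exact (hA _).1 (by rw [h0]; exact grad_mem_Z h)
    · intro h
      have h1 := (hA _).2 h
      rw [h0] at h1
      exact ⟨frm c, frm_isHomogeneous c, (of_mem_Z h1).2.2, rfl⟩
  · intro L hL
    obtain ⟨f, h1, h2, rfl⟩ := id hL
    refine ⟨finrank_span_singleton ?_, ?_, fun β => coeff β.1 f, by rw [frm_coeff h1]⟩
    · rintro rfl
      have h3 := h2 (fun _ => 1) (by simp)
      obtain ⟨i⟩ : Nonempty (Fin n) := inferInstance
      exact one_ne_zero (congrFun h3 i)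
    · rw [jac, iSup_map_span]
      exact grad_mem_Z hL

end Pool.Agent.P.MP_f4e0a3_ag.HP
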