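import Pool.Agent.P.MP_f4e0a3_ag.HP.TNULL
import Pool.Agent.P.MP_f4e0a3_ag.HP.TART
import Pool.Agent.P.MP_f4e0a3_ag.HP.THOM
import Pool.Agent.P.MP_f4e0a3_ag.HP.TSEL1
import Pool.Agent.P.MP_f4e0a3_ag.HP.TSEL
import Pool.Agent.P.MP_f4e0a3_ag.HP.TFLAG
import Pool.Agent.P.MP_f4e0a3_ag.HP.TQB
import Pool.Agent.P.MP_f4e0a3_ag.HP.TCLIF1
import Pool.Agent.P.MP_f4e0a3_ag.HP.TCLIF
import Pool.Agent.P.MP_f4e0a3_ag.HP.TKRON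
import Pool.Agent.P.MP_f4e0a3_ag.HP.TUDM
import Pool.Agent.P.MP_f4e0a3_ag.HP.TLAT
import Pool.Agent.P.MP_f4e0a3_ag.HP.TTH
import Pool.Agent.P.MP_f4e0a3_ag.HP.TCOA
import Pool.Agent.P.MP_f4e0a3_ag.HP.TCO
import Pool.Agent.P.MP_f4e0a3_ag.HP.TMDC
import Pool.Agent.P.MP_f4e0a3_ag.HP.TGENU
import Pool.Agent.P.MP_f4e0a3_ag.HP.TGEN
import Pool.Agent.P.MP_f4e0a3_ag.HP.TUDX
import Pool.Agent.P.MP_f4e0a3_ag.HP.TLX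
import Pool.Agent.P.MP_f4e0a3_ag.HP.TLF
import Pool.Agent.P.MP_f4e0a3_ag.HP.TPEX
import Pool.Agent.P.MP_f4e0a3_ag.HP.TLV
import Pool.Agent.P.MP_f4e0a3_ag.HP.TPLK
import Pool.Agent.P.MP_f4e0a3_ag.HP.TCRAM
import Pool.Agent.P.MP_f4e0a3_ag.HP.TPLN
import Pool.Agent.P.MP_f4e0a3_ag.HP.TBOXP
import Pool.Agent.P.MP_f4e0a3_ag.HP.TKX
import Pool.Agent.P.MP_f4e0a3_ag.HP.TKSAT
import Pool.Agent.P.MP_f4e0a3_ag.HP.TLAY0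
import Pool.Agent.P.MP_f4e0a3_ag.HP.TBOXC
import Pool.Agent.P.MP_f4e0a3_ag.HP.TTOP
import Pool.Agent.P.MP_f4e0a3_ag.HP.TIND
import Pool.Agent.P.MP_f4e0a3_ag.HP.TGENP
import Pool.Agent.P.MP_f4e0a3_ag.HP.TPR
import Pool.Agent.P.MP_f4e0a3_ag.HP.TFAM
import Pool.Agent.P.MP_f4e0a3_ag.HP.TNST
import Pool.Agent.P.MP_f4e0a3_ag.HP.TFAM2
import Pool.Agent.P.MP_f4e0a3_ag.HP.TVOL
import Pool.Agent.P.MP_f4e0a3_ag.HP.THF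
import Pool.Agent.P.MP_f4e0a3_ag.HP.TEXCH
import Pool.Agent.P.MP_f4e0a3_ag.HP.TNS0
import Pool.Agent.P.MP_f4e0a3_ag.HP.TIMSP
import Pool.Agent.P.MP_f4e0a3_ag.HP.TCOLON
import Pool.Agent.P.MP_f4e0a3_ag.HP.TTENS
import Pool.Agent.P.MP_f4e0a3_ag.HP.TGCD
import Pool.Agent.P.MP_f4e0a3_ag.HP.TBAS
import Pool.Agent.P.MP_f4e0a3_ag.HP.TDELTA
import Pool.Agent.P.MP_f4e0a3_ag.HP.TKER
import Pool.Agent.P.MP_f4e0a3_ag.HP.TMAT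
import Pool.Agent.P.MP_f4e0a3_ag.HP.TZPT
import Pool.Agent.P.MP_f4e0a3_ag.HP.TLOC
import Pool.Agent.P.MP_f4e0a3_ag.HP.TTW
import Pool.Agent.P.MP_f4e0a3_ag.HP.TCOMP
import Pool.Agent.P.MP_f4e0a3_ag.HP.TSEP
import Pool.Agent.P.MP_f4e0a3_ag.HP.TNDE
import Pool.Agent.P.MP_f4e0a3_ag.HP.TLAYER
import Pool.Agent.P.MP_f4e0a3_ag.HP.TGAP
import Pool.Agent.P.MP_f4e0a3_ag.HP.TLIFT
import Pool.Agent.P.MP_f4e0a3_ag.HP.TNS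
import Pool.Agent.P.MP_f4e0a3_ag.HP.TDESC
import Pool.Agent.P.MP_f4e0a3_ag.HP.TCORE
import Pool.Agent.P.MP_f4e0a3_ag.HP.TSMS
import Pool.Agent.P.MP_f4e0a3_ag.HP.TBC
import Pool.Agent.P.MP_f4e0a3_ag.HP.TIMACT
import Pool.Agent.P.MP_f4e0a3_ag.HP.TPERF
import Pool.Agent.P.MP_f4e0a3_ag.HP.TCHIU
import Pool.Agent.P.MP_f4e0a3_ag.HP.TRED
import Pool.Agent.P.MP_f4e0a3_ag.HP.TPRIM
import Pool.Agent.P.MP_f4e0a3_ag.HP.TVAL1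
import Pool.Agent.P.MP_f4e0a3_ag.HP.TEQV
import Pool.Agent.P.MP_f4e0a3_ag.HP.TPROP
import Pool.Agent.P.MP_f4e0a3_ag.HP.TTRF
import Pool.Agent.P.MP_f4e0a3_ag.HP.TVAL
import Pool.Agent.P.MP_f4e0a3_ag.HP.TOPEN
import Pool.Agent.P.MP_f4e0a3_ag.HP.TGOODP
import Pool.Agent.P.MP_f4e0a3_ag.HP.TCHART
import Pool.Agent.P.MP_f4e0a3_ag.HP.TSEMI
import Pool.Agent.P.MP_f4e0a3_ag.HP.TCHAR1
import Pool.Agent.P.MP_f4e0a3_ag.HP.TCHAR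
import Pool.Agent.P.MP_f4e0a3_ag.HP.TPZ
import Pool.Agent.P.MP_f4e0a3_ag.HP.TMINOR
import Pool.Agent.P.MP_f4e0a3_ag.HP.TREG
import Pool.Agent.P.MP_f4e0a3_ag.HP.TPULL
import Pool.Agent.P.MP_f4e0a3_ag.HP.TGLOB
import Pool.Agent.P.MP_f4e0a3_ag.HP.TZE
import Pool.Agent.P.MP_f4e0a3_ag.HP.TSURJ1
import Pool.Agent.P.MP_f4e0a3_ag.HP.TAVG
import Pool.Agent.P.MP_f4e0a3_ag.HP.TSURJ
import Pool.Agent.P.MP_f4e0a3_ag.HP.TZLEV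
import Pool.Agent.P.MP_f4e0a3_ag.HP.TGRAD
import Pool.Agent.P.MP_f4e0a3_ag.HP.TDIV
import Pool.Agent.P.MP_f4e0a3_ag.HP.TXE
import Pool.Agent.P.MP_f4e0a3_ag.HP.TLOCX
import Pool.Agent.P.MP_f4e0a3_ag.HP.TXLEV

/-! Assembly of the steps. -/

set_option autoImplicit false

namespace Pool.Agent.P.MP_f4e0a3_ag.HP

theorem t_NULL : S_NULL := p_NULL
theorem t_ART : S_ART := p_ART
theorem t_HOM : S_HOM := p_HOM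
theorem t_SEL1 : S_SEL1 := p_SEL1 t_ART t_HOM
theorem t_SEL : S_SEL := p_SEL t_SEL1
theorem t_FLAG : S_FLAG := p_FLAG t_NULL t_SEL
theorem t_QB : S_QB := p_QB
theorem t_CLIF1 : S_CLIF1 := p_CLIF1 t_QB
theorem t_CLIF : S_CLIF := p_CLIF t_CLIF1
theorem t_KRON : S_KRON := p_KRON
theorem t_UDM : S_UDM := p_UDM
theorem t_LAT : S_LAT := p_LAT
theorem t_TH : S_TH := p_TH t_LAT
theorem t_COA : S_COA := p_COA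
theorem t_CO : S_CO := p_CO t_LAT t_TH t_COA
theorem t_MDC : S_MDC := p_MDC
theorem t_GENU : S_GENU := p_GENU
theorem t_GEN : S_GEN := p_GEN t_CO t_MDC t_GENU
theorem t_UDX : S_UDX := p_UDX t_FLAG t_CLIF t_KRON t_UDM t_GEN
theorem t_LX : S_LX := p_LX
theorem t_LF : S_LF := p_LF t_LX
theorem t_PEX : S_PEX := p_PEX t_LF
theorem t_LV : S_LV := p_LV
theorem t_PLK : S_PLK := p_PLK
theorem t_CRAM : S_CRAM := p_CRAM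
theorem t_PLN : S_PLN := p_PLN t_PLK t_CRAM
theorem t_BOXP : S_BOXP := p_BOXP
theorem t_KX : S_KX := p_KX
theorem t_KSAT : S_KSAT := p_KSAT t_CO t_KX
theorem t_LAY0 : S_LAY0 := p_LAY0 t_CO t_MDC
theorem t_BOXC : S_BOXC := p_BOXC
theorem t_TOP : S_TOP := p_TOP t_CO t_MDC t_BOXC
theorem t_IND : S_IND := p_IND t_LAY0 t_TOP
theorem t_GENP : S_GENP := p_GENP t_LAY0 t_TOP t_LF
theorem t_PR : S_PR := p_PR t_CO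
theorem t_FAM : S_FAM := p_FAM t_KSAT t_IND t_GENP t_PR t_LF
theorem t_NST : S_NST := p_NST t_LF
theorem t_FAM2 : S_FAM2 := p_FAM2 t_KSAT t_NST t_PR t_LF
theorem t_VOL : S_VOL := p_VOL t_LV t_PLN t_BOXP t_FAM t_FAM2
theorem t_HF : S_HF := p_HF t_UDX t_PEX t_VOL
theorem t_EXCH : S_EXCH := p_EXCH t_CO t_PR t_MDC
theorem t_NS0 : S_NS0 := p_NS0 t_CO t_EXCH
theorem t_IMSP : S_IMSP := p_IMSP
theorem t_COLON : S_COLON := p_COLON t_UDX t_NS0 t_KX t_CO t_IMSP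
theorem t_TENS : S_TENS := p_TENS
theorem t_GCD : S_GCD := p_GCD
theorem t_BAS : S_BAS := p_BAS t_IMSP t_PLK
theorem t_DELTA : S_DELTA := p_DELTA t_GCD t_BAS t_PLK t_IMSP
theorem t_KER : S_KER := p_KER
theorem t_MAT : S_MAT := p_MAT t_CRAM
theorem t_ZPT : S_ZPT := p_ZPT
theorem t_LOC : S_LOC := p_LOC t_KER t_MAT t_NULL t_ZPT
theorem t_TW : S_TW := p_TW
theorem t_COMP : S_COMP := p_COMP
theorem t_SEP : S_SEP := p_SEP t_TW t_COMP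
theorem t_NDE : S_NDE := p_NDE
theorem t_LAYER : S_LAYER := p_LAYER t_NDE t_IND t_LAY0
theorem t_GAP : S_GAP := p_GAP t_PR t_NS0 t_NST t_BOXC t_LAY0 t_GENP t_LF
theorem t_LIFT : S_LIFT := p_LIFT t_PR t_NST t_NDE t_LF t_LAY0
theorem t_NS : S_NS := p_NS t_LAYER t_GAP t_LIFT t_LF t_TOP t_LAY0
theorem t_DESC : S_DESC := p_DESC t_NS t_LF
theorem t_CORE : S_CORE := p_CORE t_UDX t_PEX t_VOL t_DESC t_IMSP t_NULL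
theorem t_SMS : S_SMS := p_SMS
theorem t_BC : S_BC := p_BC t_IMSP t_PLK
theorem t_IMACT : S_IMACT := p_IMACT
theorem t_PERF : S_PERF := p_PERF
theorem t_CHIU : S_CHIU := p_CHIU t_PERF
theorem t_RED : S_RED := p_RED t_PLN t_PLK t_CHIU t_NULL
theorem t_PRIM : S_PRIM := p_PRIM
theorem t_VAL1 : S_VAL1 := p_VAL1 t_CORE t_SMS t_BC t_IMACT t_RED t_PLK t_PRIM
theorem t_EQV : S_EQV := p_EQV t_IMACT
theorem t_PROP : S_PROP := p_PROP t_EQV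
theorem t_TRF : S_TRF := p_TRF
theorem t_VAL : S_VAL := p_VAL t_VAL1 t_PROP t_TRF
theorem t_OPEN : S_OPEN := p_OPEN
theorem t_GOODP : S_GOODP := p_GOODP t_SEP t_VAL t_OPEN t_EQV t_COMP
theorem t_CHART : S_CHART := p_CHART t_PLK
theorem t_SEMI : S_SEMI := p_SEMI t_EQV t_GCD
theorem t_CHAR1 : S_CHAR1 := p_CHAR1 t_PERF
theorem t_CHAR : S_CHAR := p_CHAR t_CHAR1
theorem t_PZ : S_PZ := p_PZ t_SEMI t_CHAR t_ZPT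
theorem t_MINOR : S_MINOR := p_MINOR
theorem t_REG : S_REG := p_REG t_MINOR
theorem t_PULL : S_PULL := p_PULL t_REG t_ZPT t_IMACT
theorem t_GLOB : S_GLOB := p_GLOB
theorem t_ZE : S_ZE := p_ZE t_REG t_ZPT t_GLOB
theorem t_SURJ1 : S_SURJ1 := p_SURJ1 t_GLOB t_COMP
theorem t_AVG : S_AVG := p_AVG t_TW t_COMP
theorem t_SURJ : S_SURJ := p_SURJ t_SURJ1 t_AVG t_EQV
theorem t_ZLEV : S_ZLEV := p_ZLEV t_HF t_COLON t_TENS t_DELTA t_LOC t_GOODP t_CHART t_PZ t_PULL t_ZE t_SURJ t_ZPT t_EQV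
theorem t_GRAD : S_GRAD := p_GRAD
theorem t_DIV : S_DIV := p_DIV
theorem t_XE : S_XE := p_XE t_REG t_ZPT t_GLOB
theorem t_LOCX : S_LOCX := p_LOCX t_REG t_ZPT t_XE
theorem t_XLEV : S_XLEV := p_XLEV t_GRAD t_DIV t_LOCX t_ZPT

theorem mainZ (n e m : ℕ) (hn : 1 ≤ n) (he : 2 ≤ e) (h1 : e ≤ m) (h2 : m < n * (e - 1)) :
    ∃ k, LocImm n (Z n e) k m (hilb m) := by
  haveI : Fact (2 ≤ e) := ⟨he⟩
  haveI : Nonempty (Fin n) := ⟨⟨0, hn⟩⟩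
  exact t_ZLEV n e m h1 h2.le

theorem mainX (n d m : ℕ) (hn : 2 ≤ n) (hd : 3 ≤ d) (h1 : d - 1 ≤ m) (h2 : m < n * (d - 2)) :
    ∃ k, LocImm 1 (PX n d) k m fun L => hilb m (jac L) := by
  obtain ⟨e, rfl⟩ : ∃ e, d = e + 1 := ⟨d - 1, by omega⟩
  haveI : Fact (2 ≤ e) := ⟨by omega⟩
  haveI : Nonempty (Fin n) := ⟨⟨0, by omega⟩⟩
  obtain ⟨k, hk⟩ := t_ZLEV n e m h1 h2.le
  exact ⟨k, t_XLEV n e m k hk⟩

end Pool.Agent.P.MP_f4e0a3_ag.HP
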