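import Pool.Agent.P.MP_f4e0a3_ag.HP.IfaceG

/-! Step CHAR. -/

set_option autoImplicit false
set_option linter.unusedSectionVars false

namespace Pool.Agent.P.MP_f4e0a3_ag.HP

open MvPolynomial Matrix Submodule Set

namespace CHARx

theorem lin0_smul {n e : ℕ} (s t : ℂ) (a g : Matrix (Fin n) (Fin n) ℂ)
    (w : Fin n × Mon (Fin n) e → ℂ) :
    lin0 (s • a) (t • g) w = fun p => (s * t ^ e) * lin0 a g w p := by
  funext p
  rw [smul_eq_mul_diagonal, smul_eq_mul_diagonal, ← lin0_lin0, lin0_diagonal,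
    Finset.prod_pow_eq_pow_sum, ← Finsupp.degree_eq_sum, p.2.2]

end CHARx

theorem p_CHAR (hCHAR1 : S_CHAR1) :
    S_CHAR := by
  intro n e _ _ D hD h
  have hR : Res (Fin n) e ≠ 0 := fun h0 => by
    have := res_fermat (σ := Fin n) (e := e) (R := ℂ)
    rw [h0] at this
    simp at this
  have hres : ∀ (a g : GL (Fin n) ℂ) (w : Fin n × Mon (Fin n) e → ℂ),
      aeval (lin0 a.val g.val w) (Res (Fin n) e) = chi e (pairG a g) * aeval w (Res (Fin n) e) :=
    fun a g w => by rw [← res_pt, pt_rep0]; rfl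
  obtain ⟨δ, hδ, hD'⟩ := hCHAR1 n e D hD h
  obtain ⟨ρ, hρ, hR'⟩ := hCHAR1 n e _ hR fun a g _ => ⟨_, hres a g⟩
  refine ⟨ρ, δ, Nat.pos_of_ne_zero ?_, fun γ => ?_⟩
  · rintro rfl
    have h1 := aeval_mul_left hρ (0 : ℂ) (fermat (Fin n) e ℂ)
    have h2 : HasZero (fun i => (0 : ℂ) * fermat (Fin n) e ℂ i) :=
      ⟨fun _ => 1, fun h0 => by simpa using congrFun h0 (Classical.arbitrary _), fun i => by
        simp [eval_tup]⟩
    rw [h2.res, res_fermat] at h1
    simp at h1
  · apply MvPolynomial.funext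
    intro z
    have h1 := (rep1 (Fin n) e).aeval_act γ z (rename some D ^ ρ * X none ^ δ)
    refine Eq.trans h1 ?_
    obtain ⟨s, a₀, hs, ha⟩ := exists_scalar (γ false)
    obtain ⟨t, g₀, ht, hg⟩ := exists_scalar (γ true)
    have e1 : ∀ w : Fin n × Mon (Fin n) e → ℂ,
        aeval (lin0 (γ false).val (γ true).val w) D = (s * t ^ e) ^ δ * aeval w D := fun w => by
      rw [ha, hg, CHARx.lin0_smul, aeval_mul_left hδ]
      exact congrArg _ (hD' (Matrix.SpecialLinearGroup.toGL a₀) (Matrix.SpecialLinearGroup.toGL g₀)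
        a₀.2 g₀.2 w)
    have e2 : chi e γ = (s * t ^ e) ^ ρ := by
      rw [chi, pt_rep0, ha, hg, CHARx.lin0_smul, aeval_mul_left hρ]
      have := hR' (Matrix.SpecialLinearGroup.toGL a₀) (Matrix.SpecialLinearGroup.toGL g₀)
        a₀.2 g₀.2 (fermat (Fin n) e ℂ)
      rw [res_fermat] at this
      exact (congrArg _ this).trans (mul_one _)
    have e3 := chi_inv_mul (e := e) γ
    rw [e2] at e3
    rw [← ext_eta z, pt_rep1]
    change _ = aeval _ _
    simp only [map_mul, map_pow, aeval_rename, aeval_X, ext_none]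
    have e4 : ∀ (c : ℂ) (w : Fin n × Mon (Fin n) e → ℂ), ext c w ∘ some = w := fun _ _ => rfl
    rw [e4, e4, e1]
    calc _ = (chi e γ⁻¹ * (s * t ^ e) ^ ρ) ^ δ *
        (aeval (fun p => z (some p)) D ^ ρ * z none ^ δ) := by ring
      _ = _ := by rw [e3, one_pow, one_mul]

end Pool.Agent.P.MP_f4e0a3_ag.HP
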