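import Pool.Agent.P.MP_f4e0a3_ag.HP.IfaceA

/-! Step HF. -/

set_option autoImplicit false
set_option linter.unusedSectionVars false

namespace Pool.Agent.P.MP_f4e0a3_ag.HP

open MvPolynomial Matrix Submodule Set

theorem p_HF (hUDX : S_UDX) (hPEX : S_PEX) (hVOL : S_VOL) :
    S_HF := by
  intro n e h2 _ m
  refine ⟨Fintype.card (Mon (Fin n) m) - Fintype.card (BoxD n e m), fun w hw => ?_⟩
  have : OverC (⊤ : ValuationSubring ℂ) := ⟨fun _ => ValuationSubring.mem_top _⟩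
  let w' : Fin n × Mon (Fin n) e → (⊤ : ValuationSubring ℂ) := fun p => algebraMap ℂ _ (w p)
  have hu : IsUnit (rs w') := by
    have e1 : rs w' = algebraMap ℂ _ (rs w) := aeval_algebraMap_apply _ w _
    rw [e1]
    exact (Ne.isUnit hw).map _
  obtain ⟨D, g, hD, hPw, hI⟩ := hUDX n e ℂ ⊤ w' hu
  have hWt : Wt (⊤ : ValuationSubring ℂ) fun _ : Fin n => (1 : ℂ) :=
    ⟨fun _ => one_ne_zero, fun _ _ _ => le_rfl⟩
  obtain ⟨p, hp⟩ := hPEX ℂ ⊤ n D _ hD hWt
  have hIm : Im m (tup w) = Im m g := by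
    rw [Im, Im, hI]; rfl
  have : Module.Finite ℂ (homogeneousSubmodule (Fin n) ℂ m) :=
    Module.Finite.iff_fg.2 (homogeneousSubmodule_fg _ _ m)
  have : Module.Finite ℂ (Im m g) :=
    Submodule.finiteDimensional_of_le (S₂ := homogeneousSubmodule (Fin n) ℂ m) inf_le_right
  let B := Module.finBasis ℂ (Im m g)
  have h := (hVOL ℂ ⊤ n D _ p e m _ g ((Im m g).subtype ∘ B)
    ⟨hD, hWt, hp, lt_of_lt_of_le two_pos h2.out⟩ hPw (by simp)
    (B.linearIndependent.map' _ (ker_subtype _))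
    (by rw [range_comp, ← map_span, B.span_eq, map_subtype_top])).2.2
  rw [hIm]
  omega

end Pool.Agent.P.MP_f4e0a3_ag.HP
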