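import Pool.Agent.P.MP_f4e0a3_ag.HP.IfaceA

/-! Step KRON. -/

set_option autoImplicit false
set_option linter.unusedSectionVars false

namespace Pool.Agent.P.MP_f4e0a3_ag.HP

open MvPolynomial Matrix Submodule Set

theorem p_KRON :
    S_KRON := by
  intro R _ M e r
  have pw : ∀ {μ ν : Type} [Fintype μ] [DecidableEq μ] [Fintype ν] [DecidableEq ν]
      (A : Matrix μ μ R) (B : Matrix ν ν R) (k : ℕ),
      kroneckerMap (· * ·) A B ^ k = kroneckerMap (· * ·) (A ^ k) (B ^ k) := by
    intro μ ν _ _ _ _ A B k
    induction k with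
    | zero => simp
    | succ k ih => rw [pow_succ, pow_succ, pow_succ, ih, mul_kronecker_mul]
  induction r with
  | zero =>
    exact fun g _ => ⟨Unit, inferInstance, inferInstance, inferInstance, fun i => i.elim0,
      fun i => i.elim0, fun i => i.elim0, fun i => i.elim0⟩
  | succ r ih =>
    intro g hg
    obtain ⟨μ, _, _, _, A, a1, a2⟩ := hg 0
    obtain ⟨ν, _, _, _, L, l1, l2, l3⟩ := ih (fun i => g i.succ) fun i => hg i.succ
    refine ⟨μ × ν, inferInstance, inferInstance, inferInstance,
      Fin.cons (kroneckerMap (· * ·) A 1) fun i => kroneckerMap (· * ·) 1 (L i), ?_, ?_, ?_⟩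
    · refine Fin.cases (fun a b => ?_) fun i a b => ?_
      · simp only [Fin.cons_zero, kroneckerMap_apply, Matrix.one_apply]
        split_ifs
        · rw [mul_one]; exact a1 _ _
        · rw [mul_zero]; exact M.zero_mem
      · simp only [Fin.cons_succ, kroneckerMap_apply, Matrix.one_apply]
        split_ifs
        · rw [one_mul]; exact l1 _ _ _
        · rw [zero_mul]; exact M.zero_mem
    · refine Fin.cases ?_ fun i => ?_
      · rw [Fin.cons_zero, pw, a2, one_pow, scalar_apply, scalar_apply, ← diagonal_one,
          diagonal_kronecker_diagonal]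
        simp
      · rw [Fin.cons_succ, pw, l2, one_pow, scalar_apply, scalar_apply, ← diagonal_one,
          diagonal_kronecker_diagonal]
        simp
    · refine Fin.cases (Fin.cases rfl fun j => ?_) fun i => Fin.cases ?_ fun j => ?_
      · simp only [Fin.cons_zero, Fin.cons_succ, ← mul_kronecker_mul, mul_one, one_mul]
      · simp only [Fin.cons_zero, Fin.cons_succ, ← mul_kronecker_mul, mul_one, one_mul]
      · simp only [Fin.cons_succ, ← mul_kronecker_mul, l3 i j]

end Pool.Agent.P.MP_f4e0a3_ag.HP
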