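import Pool.Agent.P.MP_f4e0a3_ag.HP.IfaceA

/-! Step LAY0. -/

set_option autoImplicit false
set_option linter.unusedSectionVars false

namespace Pool.Agent.P.MP_f4e0a3_ag.HP

open MvPolynomial Matrix Submodule Set

namespace LAY0x

variable {n e : ℕ} {s : Fin n} {β : Fin n →₀ ℕ}

/-- The exponents that are seen modulo the submodule. -/
def In (e s : ℕ) (β : Fin n →₀ ℕ) : Prop :=
  ∀ i : Fin n, (if i.val < s then 1 else e) ≠ 0 → β i < (if i.val < s then 1 else e)

theorem zero (h : In e (s + 1) β) : β s = 0 := by simpa using h s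

theorem up {i : ℕ} (hi : i < e) (h : In e (s + 1) β) : In e s (Finsupp.single s i + β) := by
  intro j _
  have h1 := h j
  have h2 := zero h
  by_cases c : j = s
  · subst c; simp [h2, hi]
  · have : j.val ≠ s.val := fun c' => c (Fin.ext c')
    rw [Finsupp.add_apply, Finsupp.single_eq_of_ne c, zero_add]
    split_ifs at h1 ⊢ <;> omega

theorem down (he : 0 < e) (h : In e s β) (h0 : β s = 0) : In e (s + 1) β := by
  intro j _
  have h1 := h j
  by_cases c : j = s
  · subst c; simp [h0]
  · have : j.val ≠ s.val := fun c' => c (Fin.ext c')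
    split_ifs at h1 ⊢ <;> omega

theorem co_pow {Ω : Type} [Field Ω] {O : ValuationSubring Ω} {D : UD O n} {A : Fin n → D.T}
    {co : D.V ≃ₗ[Ω] (D.μ → MvPolynomial (Fin n) Ω)} (h : D.Co A co) (i : ℕ) (z : D.V) (a : D.μ) :
    co (A s ^ i • z) a = monomial (Finsupp.single s i) 1 * co z a := by
  rw [← X_pow_eq_monomial]
  induction i with
  | zero => simp
  | succ i ih => rw [pow_succ', mul_smul, h.mul, ih, pow_succ', mul_assoc]

end LAY0x

open LAY0x in
theorem p_LAY0 (hCO : S_CO) (hMDC : S_MDC) :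
    S_LAY0 := by
  intro Ω _ O n D e s hG he
  obtain ⟨co, h⟩ := hCO Ω O n D n (hG n le_rfl)
  rw [D.sys_top] at h
  have hM := (hMDC Ω O n D _ co h).1
  have hK : ∀ (t : ℕ) z, z ∈ D.K e t ↔ ∀ a β, In e t β → coeff β (co z a) = 0 :=
    fun t z => h.mi _ z
  refine ⟨fun γ i u hi H => (hM _ _ _).2 fun a β hβ => ?_,
    fun i y y' hi H => (hK _ _).2 fun a β hβ => ?_, fun y hy => ?_, fun y => ?_,
    fun y hy => (hK _ _).2 fun a β hβ => ?_, fun y => ?_⟩
  · simpa only [co_pow h, coeff_monomial_mul, one_mul] using (hM _ _ _).1 H a _ (up hi hβ)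
  · have := (hK _ _).1 H a _ (up hi hβ)
    rwa [map_sub, Pi.sub_apply, coeff_sub, co_pow h, co_pow h, coeff_monomial_mul, one_mul,
      coeff_monomial_mul', if_neg (by simp [zero hβ]), sub_zero] at this
  · refine ⟨co.symm fun a => (co y a).divMonomial (Finsupp.single s 1),
      (hK _ _).2 fun a β hβ => ?_, fun γ H => (h.lam _ _).2 fun a β => ?_⟩
    · rw [map_sub, Pi.sub_apply, h.mul, co.apply_symm_apply,
        sub_eq_iff_eq_add'.2 (divMonomial_add_modMonomial_single (co y a) s).symm]
      by_cases c : Finsupp.single s 1 ≤ β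
      · exact coeff_modMonomial_of_le _ c
      · rw [coeff_modMonomial_of_not_le _ c]
        exact (hK _ _).1 hy a β (down he hβ (by simpa using c))
    · rw [co.apply_symm_apply, coeff_divMonomial]
      exact (h.lam _ _).1 H a _
  · simpa [UD.K] using UD.pow_smul_mem_MI D.l (c := fun i => if i.val < s then 1 else e) (i := s)
      (by simpa using he.ne') y
  · exact (hK _ _).1 hy a β (by simpa using up he hβ)
  · simpa [UD.K] using UD.pow_smul_mem_MI D.l (c := fun i => if i.val < s + 1 then 1 else e) (i := s)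
      (by simp) y

end Pool.Agent.P.MP_f4e0a3_ag.HP
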