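import Pool.Agent.P.MP_f4e0a3_ag.HP.IfaceA

/-! Step LX. -/

set_option autoImplicit false
set_option linter.unusedSectionVars false

namespace Pool.Agent.P.MP_f4e0a3_ag.HP

open MvPolynomial Matrix Submodule Set

theorem p_LX :
    S_LX := by
  intro Ω _ O n D s hG i β a
  have h1 : D.l i • D.e a ∈ span O (range fun p : Fin n × D.μ => D.sys s p.1 • D.e p.2) :=
    span_le.2 (by rintro _ ⟨p, rfl⟩; exact hG p.1 p.2) (D.lin i a)
  have h2 : D.l i • D.mo β a = tw D.x β • D.l i • D.e a := by rw [UD.mo, smul_comm]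
  rw [h2]
  generalize D.l i • D.e a = z at h1
  induction h1 using span_induction with
  | mem z hz =>
    obtain ⟨⟨j, b⟩, rfl⟩ := hz
    change D.Md _ _ (tw D.x β • D.sys s j • D.e b)
    rw [smul_comm, UD.sys]
    split_ifs with h
    · refine UD.Md.of_mem' ?_
      have := UD.pow_smul_mem_MI D.l (c := fun i => if i.val < s then 1 else 0) (i := j)
        (by simp [h]) (tw D.x β • D.e b)
      simpa [h, UD.J] using this
    · exact UD.Md.of_mem (subset_span ⟨j, b, not_lt.1 h, UD.x_smul_mo j β b⟩)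
  | zero => rw [smul_zero]; exact UD.Md.of_mem (zero_mem _)
  | add y w _ _ hy hw => rw [smul_add]; exact hy.add hw
  | smul c y _ hy =>
    obtain ⟨v, h1, h2⟩ := hy
    refine ⟨c • v, smul_mem _ c h1, ?_⟩
    have := UD.smul_mem_T (c : Ω) h2
    rw [smul_sub, ← smul_comm (tw D.x β) (c : Ω) y] at this
    exact this

end Pool.Agent.P.MP_f4e0a3_ag.HP
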