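import Pool.Agent.P.MP_f4e0a3_ag.HP.IfaceG
import Pool.Agent.P.MP_f4e0a3_ag.HP.IfaceA

/-! Step MAT. -/

set_option autoImplicit false
set_option linter.unusedSectionVars false

namespace Pool.Agent.P.MP_f4e0a3_ag.HP

open MvPolynomial Matrix Submodule Set

theorem p_MAT (hCRAM : S_CRAM) :
    S_MAT := by
  intro n e _ _ m k Δ T hΔ hC hem
  refine ⟨Matrix.of fun p a => X T * C (coeff p.2.1 (monomial p.1.1 1 * monomial a.1 1)) -
    ∑ i, C (coeff (T i).1 (monomial p.1.1 1 * monomial a.1 1)) * X (Function.update T i p.2),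
    fun w c hw hT y => ?_⟩
  obtain ⟨b, hb, -⟩ := hΔ.ex w hw
  obtain ⟨d, d0, hd⟩ := hΔ.pl w hw b hb
  have hc : c ≠ 0 := by rintro rfl; simp at hT
  have hu : c • ev Δ w = (c / d) • pl m b := by rw [hd, smul_smul, div_mul_cancel₀ _ d0]
  rw [hu] at hT ⊢
  have hbh : ∀ i, (b i).IsHomogeneous m := fun i =>
    (mem_Im.1 (hb ▸ subset_span (mem_range_self i))).2
  have h2 := (hCRAM ℂ n k m b T hbh (right_ne_zero_of_mul (a := c / d) hT)).2
  have hz : ∀ β : Mon (Fin n) (m - e), (monomial β.1 1 * frm y).IsHomogeneous m := fun β => by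
    simpa [Nat.sub_add_cancel hem] using
      (isHomogeneous_monomial (1 : ℂ) β.2).mul (frm_isHomogeneous y)
  have hco : ∀ β γ : Fin n →₀ ℕ, coeff γ (monomial β 1 * frm y) =
      ∑ a : Mon (Fin n) e, coeff γ (monomial β 1 * monomial a.1 1) * y a := fun β γ => by
    rw [frm, Finset.mul_sum, coeff_sum]
    refine Finset.sum_congr rfl fun a _ => ?_
    rw [mul_comm _ (y a), ← coeff_C_mul, mul_left_comm, C_mul_monomial, mul_one]
  have h3 : ∀ A : Matrix (Mon (Fin n) (m - e) × Mon (Fin n) m) (Mon (Fin n) e) ℂ,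
      (∀ p, (A *ᵥ y) p = c / d * (pl m b T * coeff p.2.1 (monomial p.1.1 1 * frm y) -
        ∑ i, coeff (T i).1 (monomial p.1.1 1 * frm y) * pl m b (Function.update T i p.2))) →
      (A *ᵥ y = 0 ↔ frm y ∈ span ℂ (range (tup w))) := fun A hA => by
    refine ⟨fun h => hC w hw _ (frm_isHomogeneous y) fun β => hb ▸ (h2 _ (hz β)).2 fun γ => ?_,
      fun h => funext fun p => ?_⟩
    · have := hA (β, γ)
      rw [h] at this
      exact sub_eq_zero.1 ((mul_eq_zero.1 this.symm).resolve_left (div_ne_zero hc d0))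
    · rw [hA, (h2 _ (hz p.1)).1 (hb ▸ mem_Im.2 ⟨Ideal.mul_mem_left _ _
        (span_le_restrictScalars ℂ _ _ h), hz p.1⟩) p.2, sub_self, mul_zero, Pi.zero_apply]
  refine h3 _ fun p => ?_
  simp only [mulVec, dotProduct, map_apply, of_apply, map_sub, map_mul, map_sum, aeval_X, aeval_C,
    Algebra.algebraMap_self, RingHom.id_apply, Pi.smul_apply, smul_eq_mul, hco, sub_mul, mul_sub,
    Finset.sum_sub_distrib, Finset.sum_mul, Finset.mul_sum]
  rw [Finset.sum_comm]
  congr 1
  · exact Finset.sum_congr rfl fun _ _ => by ring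
  · exact Finset.sum_congr rfl fun _ _ => Finset.sum_congr rfl fun _ _ => by ring

end Pool.Agent.P.MP_f4e0a3_ag.HP
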