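import Pool.Agent.P.MP_f4e0a3_ag.HP.IfaceA

/-! Step NS. -/

set_option autoImplicit false
set_option linter.unusedSectionVars false

namespace Pool.Agent.P.MP_f4e0a3_ag.HP

open MvPolynomial Matrix Submodule Set

namespace NSx

open UD

variable {Ω : Type} [Field Ω] {O : ValuationSubring Ω} {n : ℕ}

/-- the statement for one value of `s` -/
def Cla (D : UD O n) (t : Fin n → Ω) (p : ℕ → (Fin n →₀ ℕ) → D.μ → D.V) (e s : ℕ) : Prop :=
  ∀ j, j + 1 ≤ (n - s) * (e - 1) → D.Eqv t p e s (j + 1) → ∀ z ∈ D.Vd j,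
    (∀ k : Fin n, s ≤ k.val → D.Md (D.N t p e s) (D.K e s) ((t k)⁻¹ • D.x k • z)) →
    D.Md (D.N t p e s) (D.K e s) z

theorem step (hLAYER : S_LAYER) (hGAP : S_GAP) (hLIFT : S_LIFT) (hLF : S_LF) (hTOP : S_TOP)
    (hLAY0 : S_LAY0) (D : UD O n) (t : Fin n → Ω) (p : ℕ → (Fin n →₀ ℕ) → D.μ → D.V) (e : ℕ)
    (hSt : D.St t p e) (s : Fin n) (IH : Cla D t p e (s + 1)) : Cla D t p e s := by
  intro j hj hE
  obtain ⟨F1, -, F3, F4, -, F6, -⟩ := hLF Ω O n D t hSt.good hSt.wt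
  have hpos := hSt.pos
  have hν : (n - s) * (e - 1) = (n - (s + 1)) * (e - 1) + (e - 1) := by
    have := s.isLt
    rw [show n - s = n - (s + 1) + 1 by omega, add_mul, one_mul]
  have key : ∀ (l i : ℕ) (z u : D.V), l + i = j → z ∈ D.Vd j → u ∈ D.Vd l →
      z - (t s ^ i)⁻¹ • D.l s ^ i • u ∈ D.K e s →
      (∀ k : Fin n, s.val ≤ k.val → D.Md (D.N t p e s) (D.K e s) ((t k)⁻¹ • D.x k • z)) →
      z ∈ D.K e s ∨ ∃ ζ u', ζ ∈ D.N t p e s ∧ z - ζ ∈ D.Vd j ∧ u' ∈ D.Vd (l - 1) ∧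
        (l = 0 → u' = 0) ∧ z - ζ - (t s ^ (i + 1))⁻¹ • D.l s ^ (i + 1) • u' ∈ D.K e s ∧
        ∀ k : Fin n, s.val ≤ k.val →
          D.Md (D.N t p e s) (D.K e s) ((t k)⁻¹ • D.x k • (z - ζ)) := by
    intro l i z u hli hz hu hzu hk
    rcases le_or_gt e i with hi | hi
    · left
      obtain ⟨d, rfl⟩ := Nat.exists_eq_add_of_le hi
      have h1 := (hLAY0 Ω O n D e s hSt.good hpos).2.2.2.1 (D.l s ^ d • u)
      rw [smul_smul, ← pow_add] at h1
      simpa using (D.K e s).add_mem hzu (smul_mem_T (t s ^ (e + d))⁻¹ h1)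
    right
    have hmd : D.Md (D.N t p e (s + 1)) (D.K e (s + 1)) u := by
      rcases lt_trichotomy l ((n - (s + 1)) * (e - 1)) with h | h | h
      · refine IH l h (fun u0 hu0 => hLAYER Ω O n D t p e s i u0 hSt hi ?_) u hu
          fun k hk' => hLAYER Ω O n D t p e s i _ hSt hi ((hk k (by omega)).congr ?_)
        · obtain ⟨y, hy, hd⟩ := F1 s i (l + 1) u0 (F4 s (l + 1) hu0)
          rw [show l + 1 + i = j + 1 by omega] at hy
          exact (hE y hy).congr (J_le_K s hd)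
        · have h2 := (D.K e s).neg_mem (smul_mem_T (t k)⁻¹ ((D.K e s).smul_mem (D.x k) hzu))
          convert h2 using 1
          module
      · subst h
        exact hGAP Ω O n D t p e s i z u hSt (by omega) (hli ▸ hz) hu hzu hk
      · exact Md.of_mem' ((hTOP Ω O n D e hSt.good hpos).1 (s + 1) l h u hu)
    obtain ⟨ζ, u', a1, a2, a3, a4, a5⟩ := hLIFT Ω O n D t p e s i l u hSt hi hu hmd
    rw [hli] at a2
    refine ⟨ζ, u', a1, (D.Vd j).sub_mem hz (F6 s j ζ a2), a3, a4, ?_, fun k hk' => ?_⟩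
    · convert (D.K e s).add_mem hzu a5 using 1
      abel
    · rw [smul_sub, smul_sub]
      exact (hk k hk').sub (hE _ (F3 s j k hk' ζ a2))
  have inner : ∀ (l i : ℕ) (z u : D.V), l + i = j → z ∈ D.Vd j → u ∈ D.Vd l →
      z - (t s ^ i)⁻¹ • D.l s ^ i • u ∈ D.K e s →
      (∀ k : Fin n, s.val ≤ k.val → D.Md (D.N t p e s) (D.K e s) ((t k)⁻¹ • D.x k • z)) →
      D.Md (D.N t p e s) (D.K e s) z := by
    intro l
    induction l with
    | zero =>
      intro i z u hli hz hu hzu hk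
      rcases key 0 i z u hli hz hu hzu hk with h | ⟨ζ, u', a1, -, -, a4, a5, -⟩
      · exact Md.of_mem' h
      · exact ⟨ζ, a1, by simpa [a4 rfl] using a5⟩
    | succ l ih =>
      intro i z u hli hz hu hzu hk
      rcases key (l + 1) i z u hli hz hu hzu hk with h | ⟨ζ, u', a1, a2, a3, -, a5, a6⟩
      · exact Md.of_mem' h
      · simpa using (ih (i + 1) (z - ζ) u' (by omega) a2 a3 a5 a6).add (Md.of_mem a1)
  intro z hz hk
  exact inner j 0 z z rfl hz hz (by simp) hk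

end NSx

theorem p_NS (hLAYER : S_LAYER) (hGAP : S_GAP) (hLIFT : S_LIFT) (hLF : S_LF) (hTOP : S_TOP) (hLAY0 : S_LAY0) :
    S_NS := by
  intro Ω _ O n D t p e s j hSt
  have h : ∀ d s, n ≤ s + d → NSx.Cla D t p e s := by
    intro d
    induction d with
    | zero =>
      intro s hs j hj
      rw [show n - s = 0 by omega] at hj
      omega
    | succ d ih =>
      intro s hs
      rcases le_or_gt n s with h | h
      · exact ih s (by omega)
      · exact NSx.step hLAYER hGAP hLIFT hLF hTOP hLAY0 D t p e hSt ⟨s, h⟩ (ih (s + 1) (by omega))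
  exact h n s (by omega) j

end Pool.Agent.P.MP_f4e0a3_ag.HP
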