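import Pool.Agent.P.MP_f4e0a3_ag.HP.IfaceA

/-! Step NULL. -/

set_option autoImplicit false
set_option linter.unusedSectionVars false

namespace Pool.Agent.P.MP_f4e0a3_ag.HP

open MvPolynomial Matrix Submodule Set

namespace NULLx

variable {n e : ℕ} [Fact (2 ≤ e)] [Nonempty (Fin n)]

lemma map_res {R S : Type} [CommRing R] [Algebra ℂ R] [CommRing S] [Algebra ℂ S]
    (φ : R →ₐ[ℂ] S) (w : Fin n × Mon (Fin n) e → R) :
    φ (aeval w (Res (Fin n) e)) = aeval (fun p => φ (w p)) (Res (Fin n) e) := by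
  rw [← AlgHom.comp_apply, comp_aeval]

lemma res_zero_row {F : Type} [CommRing F] [Algebra ℂ F] (w : Fin n × Mon (Fin n) e → F)
    (i : Fin n) (h : ∀ β, w (i, β) = 0) : aeval w (Res (Fin n) e) = 0 := by
  let v : Fin n × Mon (Fin n) e → MvPolynomial (Fin n × Mon (Fin n) e) ℂ :=
    fun p => if p.1 = i then 0 else X p
  have h1 : aeval v (Res (Fin n) e) = 0 := by
    apply MvPolynomial.funext
    intro u
    rw [map_zero]
    have h2 := map_res (aeval u : MvPolynomial (Fin n × Mon (Fin n) e) ℂ →ₐ[ℂ] ℂ) v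
    refine Eq.trans h2 ?_
    apply HasZero.res
    obtain ⟨x, hx, hz⟩ := exists_zero_except (fun p => aeval u (v p)) i
    refine ⟨x, hx, fun j => ?_⟩
    by_cases hj : j = i
    · simp [eval_tup, hj, v]
    · exact hz j hj
  have h2 := map_res (aeval w : MvPolynomial (Fin n × Mon (Fin n) e) ℂ →ₐ[ℂ] F) v
  have h3 : (fun p => aeval w (v p)) = w := by
    funext p
    by_cases hp : p.1 = i
    · have : w p = 0 := by rw [← h p.2, ← hp]
      simp [v, hp, this]
    · simp [v, hp]
  rw [h1, map_zero, h3] at h2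
  exact h2.symm

lemma res_of_hom {F K : Type} [Field F] [Algebra ℂ F] [Field K] (w : Fin n × Mon (Fin n) e → F)
    (φ : MvPolynomial (Fin n) F →+* K) (i : Fin n) (hi : φ (X i) ≠ 0)
    (h : ∀ j, φ (tup w j) = 0) : aeval w (Res (Fin n) e) = 0 := by
  let ψ : F →+* K := φ.comp C
  let _ : Algebra ℂ K := (ψ.comp (algebraMap ℂ F)).toAlgebra
  let ψ' : F →ₐ[ℂ] K := { ψ with commutes' := fun _ => rfl }
  have h1 : HasZero (fun p => ψ' (w p)) := by
    refine ⟨fun j => φ (X j), Function.ne_iff.2 ⟨i, hi⟩, fun j => ?_⟩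
    have h2 : (eval fun j => φ (X j)).comp (MvPolynomial.map ψ) = φ := by
      apply MvPolynomial.ringHom_ext
      · intro c; simp [ψ]
      · intro k; simp
    have h3 := DFunLike.congr_fun h2 (tup w j)
    rw [RingHom.comp_apply, map_tup, h j] at h3
    exact h3
  have h4 := map_res ψ' w
  rw [h1.res] at h4
  exact ψ.injective (h4.trans (map_zero ψ).symm)

lemma rad {F : Type} [Field F] [Algebra ℂ F] (w : Fin n × Mon (Fin n) e → F)
    (hw : aeval w (Res (Fin n) e) ≠ 0) (i : Fin n) :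
    ∃ N, X i ^ N ∈ Ideal.span (range (tup w)) := by
  by_contra hc
  have h1 : X i ∉ (Ideal.span (range (tup w))).radical := hc
  rw [Ideal.radical_eq_sInf, Ideal.mem_sInf] at h1
  push Not at h1
  obtain ⟨p, ⟨hp1, hp2⟩, hp3⟩ := h1
  let A := MvPolynomial (Fin n) F ⧸ p
  let K := FractionRing A
  apply hw
  refine res_of_hom w ((algebraMap A K).comp (Ideal.Quotient.mk p)) i ?_ ?_
  · intro h0
    apply hp3
    rw [← Ideal.Quotient.eq_zero_iff_mem]
    apply IsFractionRing.injective A K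
    rw [map_zero]
    exact h0
  · intro j
    have : Ideal.Quotient.mk p (tup w j) = 0 :=
      Ideal.Quotient.eq_zero_iff_mem.2 (hp1 (Ideal.subset_span ⟨j, rfl⟩))
    rw [RingHom.comp_apply, this, map_zero]

lemma indep {F : Type} [Field F] [Algebra ℂ F] (w : Fin n × Mon (Fin n) e → F)
    (hw : aeval w (Res (Fin n) e) ≠ 0) : LinearIndependent F (tup w) := by
  rw [Fintype.linearIndependent_iff]
  intro c hc
  by_contra hne
  have hc0 : c ≠ 0 := fun h => hne fun i => by rw [h]; rfl
  obtain ⟨a, ha⟩ := exists_GL_col c hc0 (i0 (Fin n))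
  have hcol : ∀ i, a.val i (i0 (Fin n)) = c i := by
    intro i
    have := congrFun ha i
    simpa using this
  have h1 := res_pt w (pairG a 1)
  rw [pt_rep0, pairG_false, pairG_true] at h1
  have h2 : chi e (pairG a 1) ≠ 0 := by
    intro h0
    have := chi_inv_mul (e := e) (pairG a (1 : GL (Fin n) F))
    rw [h0, mul_zero] at this
    exact zero_ne_one this
  refine mul_ne_zero h2 hw (h1.symm.trans ?_)
  apply res_zero_row _ (i0 (Fin n))
  intro β
  have h3 : act2 a.val (1 : GL (Fin n) F).val (tup w) (i0 (Fin n)) = 0 := by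
    rw [← hc, act2]
    refine Finset.sum_congr rfl fun i _ => ?_
    rw [hcol, Units.val_one, sub_one, smul_eq_C_mul]
  rw [lin0_apply, crd, h3, coeff_zero]

end NULLx

theorem p_NULL :
    S_NULL := by
  intro n e _ _ F _ _ w hw
  exact ⟨NULLx.rad w hw, NULLx.indep w hw⟩

end Pool.Agent.P.MP_f4e0a3_ag.HP
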