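import Pool.Agent.P.MP_f4e0a3_ag.HP.IfaceG
import Pool.Agent.P.MP_f4e0a3_ag.HP.IfaceA

/-! Step VAL1. -/

set_option autoImplicit false
set_option linter.unusedSectionVars false

namespace Pool.Agent.P.MP_f4e0a3_ag.HP

open MvPolynomial Matrix Submodule Set

namespace VAL1x

theorem rs_lin0_unit {n e : ℕ} [Fact (2 ≤ e)] [Nonempty (Fin n)] {R : Type} [CommRing R]
    [Algebra ℂ R] (a g : GL (Fin n) R) (w : Fin n × Mon (Fin n) e → R) (hw : IsUnit (rs w)) :
    IsUnit (rs (lin0 a.val g.val w)) := by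
  have h := res_pt (e := e) w (pairG a g)
  rw [pt_rep0] at h
  simp only [pairG_false, pairG_true] at h
  show IsUnit (aeval _ _)
  rw [h]
  exact (IsUnit.of_mul_eq_one_right _ (chi_inv_mul (e := e) (pairG a g))).mul hw

theorem rs_alg {n e : ℕ} [Fact (2 ≤ e)] [Nonempty (Fin n)] {R : Type} [CommRing R]
    [Algebra ℂ R] (w : Fin n × Mon (Fin n) e → ℂ) (hw : rs w ≠ 0) :
    IsUnit (rs fun p => algebraMap ℂ R (w p)) := by
  have h : (rs fun p => algebraMap ℂ R (w p)) = algebraMap ℂ R (rs w) :=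
    aeval_algebraMap_apply R w _
  rw [h]
  exact (Ne.isUnit hw).map _

theorem pt_three {n : ℕ} {ι : Type} [Fintype ι] [DecidableEq ι] (r : Rep Unit (Fin n) ι)
    {R : Type} [CommRing R] [Algebra ℂ R] (u : ι → R) (a b c : GL (Fin n) R) :
    (r.pt u fun _ => a * b * c) = r.pt (r.pt (r.pt u fun _ => a) fun _ => b) fun _ => c := by
  rw [← r.pt_mul, ← r.pt_mul, ← mul_assoc]
  rfl

end VAL1x

open VAL1x in
theorem p_VAL1 (hCORE : S_CORE) (hSMS : S_SMS) (hBC : S_BC) (hIMACT : S_IMACT) (hRED : S_RED) (hPLK : S_PLK) (hPRIM : S_PRIM) :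
    S_VAL1 := by
  intro n e _ _ m k r Ω _ _ _ O _ w b g hr hem hm hw hb hpl hg
  obtain ⟨P, Q, t, hWt, hfac, hprod⟩ := hSMS Ω O n g
  rw [hg, map_one] at hprod
  set P' : GL (Fin n) Ω := Matrix.GeneralLinearGroup.map O.subtype P with hP'
  set Q' : GL (Fin n) Ω := Matrix.GeneralLinearGroup.map O.subtype Q with hQ'
  have hPv : P'.val = P.val.map O.subtype := rfl
  have hQv : Q'.val = Q.val.map O.subtype := rfl
  set Dg : GL (Fin n) Ω := diagU fun i => Units.mk0 (t i) (hWt.ne i) with hDg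
  have hDv : Dg.val = diagonal t := rfl
  have hgf : g = P' * Dg * Q' := Units.ext (by rw [hfac]; rfl)
  set u0 : (Fin k → Mon (Fin n) m) → Ω := fun i => algebraMap ℂ Ω (pl m b i) with hu0
  have hu1 : ∀ T, O.valuation (u0 T) ≤ 1 := fun T => by
    by_cases h : pl m b T = 0
    · simp [hu0, h]
    · exact (valuation_algebraMap O h).le
  have hu2 : ¬ ∀ T, O.valuation (u0 T) < 1 := fun h => by
    obtain ⟨T, hT⟩ := Function.ne_iff.1 hpl
    exact (h T).ne (valuation_algebraMap O hT)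
  obtain ⟨hsp, hplm, hhom⟩ := hBC n e m k Ω w b hem hb hpl
  set bm : Fin k → MvPolynomial (Fin n) Ω := fun i => MvPolynomial.map (algebraMap ℂ Ω) (b i)
    with hbm
  set b' : Fin k → MvPolynomial (Fin n) Ω := fun i => sub P'.val (bm i) with hb'
  have hpl' : pl m b' = r.pt u0 fun _ => P' := by
    rw [hb', hr.pl Ω P' bm hhom, hplm]
  have hv2 : ¬ ∀ T, O.valuation (pl m b' T) < 1 := by
    rw [hpl', (hPRIM n _ r Ω O P P' u0 1 hPv).2]; exact hu2
  obtain ⟨T0, hT0⟩ : ∃ T, 1 ≤ O.valuation (pl m b' T) := by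
    by_contra h
    exact hv2 fun T => not_le.1 fun h' => h ⟨T, h'⟩
  have hhom' : ∀ i, (b' i).IsHomogeneous m := fun i => sub_isHomogeneous _ (hhom i)
  have hind : LinearIndependent Ω b' := by
    refine ((hPLK Ω n k m).1 b' hhom').2 fun h => ?_
    rw [h] at hT0
    simp at hT0
  set wO : Fin n × Mon (Fin n) e → O :=
    lin0 (1 : GL (Fin n) O).val P.val fun p => algebraMap ℂ O (w p) with hwO
  have hwu : IsUnit (rs wO) := rs_lin0_unit 1 P _ (rs_alg w hw)
  have hwΩ : (fun p => (wO p : Ω)) =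
      lin0 (1 : GL (Fin n) Ω).val P'.val fun p => algebraMap ℂ Ω (w p) := by
    have := map_lin0 O.subtype (1 : GL (Fin n) O).val P.val fun p => algebraMap ℂ O (w p)
    refine this.trans ?_
    rw [hPv]
    congr 2
    simp
  have hsp' : span Ω (range b') = Im m (tup fun p => (wO p : Ω)) := by
    rw [hwΩ, tup_lin0, hIMACT Ω n m 1 P', ← hsp, Submodule.map_span, ← range_comp]
    rfl
  obtain ⟨hSS, hSSe, hBAL⟩ := hCORE n e Ω O wO t k m b' hwu hWt hprod hind hsp'
  have hact : (r.pt u0 fun _ => g) = r.pt (r.pt (pl m b') fun _ => Dg) fun _ => Q' := by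
    rw [hgf, pt_three, hpl']
  have hdi : ∀ T, r.pt (pl m b') (fun _ => Dg) T = (∏ j, tw t (T j).1) * pl m b' T :=
    fun T => hr.diag Ω Dg t _ T hDv
  refine ⟨?_, fun hle => ?_⟩
  · by_contra h
    have h1 : ∀ T, O.valuation ((r.pt u0 fun _ => g) T) < 1 :=
      fun T => not_le.1 fun h' => h ⟨T, h'⟩
    rw [hact, (hPRIM n _ r Ω O Q Q' _ 1 hQv).2] at h1
    obtain ⟨T1, hT1⟩ := hSS T0
    have := h1 T1
    rw [hdi] at this
    exact absurd (hT0.trans hT1) (not_le.2 this)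
  · rw [hact, (hPRIM n _ r Ω O Q Q' _ 1 hQv).1] at hle
    have hB : BAL O t m b' := fun T1 => ⟨T0, by rw [← hdi]; exact (hle T1).trans hT0⟩
    obtain ⟨a, w'', hu'', hw''⟩ :=
      hRED n e Ω O wO t hwu hWt.ne hprod hSSe (hBAL hem hm hB)
    refine ⟨a, lin0 (1 : GL (Fin n) O).val Q.val w'', rs_lin0_unit 1 Q _ hu'', ?_⟩
    have := map_lin0 O.subtype (1 : GL (Fin n) O).val Q.val w''
    refine this.trans ?_
    have h2 : (fun p => O.subtype (w'' p)) = fun p => (w'' p : Ω) := rfl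
    rw [h2, hw'', hwΩ, lin0_lin0, lin0_lin0, hfac, hPv]
    congr 2
    · simp
    · rw [Matrix.mul_assoc]

end Pool.Agent.P.MP_f4e0a3_ag.HP
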