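import Pool.Agent.P.MP_f4e0a3_ag.HP.IfaceG
import Pool.Agent.P.MP_f4e0a3_ag.HP.IfaceA

/-! Step ZLEV. -/

set_option autoImplicit false
set_option linter.unusedSectionVars false

namespace Pool.Agent.P.MP_f4e0a3_ag.HP

open MvPolynomial Matrix Submodule Set

theorem p_ZLEV (hHF : S_HF) (hCOLON : S_COLON) (hTENS : S_TENS) (hDELTA : S_DELTA) (hLOC : S_LOC) (hGOODP : S_GOODP) (hCHART : S_CHART) (hPZ : S_PZ) (hPULL : S_PULL) (hZE : S_ZE) (hSURJ : S_SURJ) (hZPT : S_ZPT) (hEQV : S_EQV) :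
    S_ZLEV := by
  classical
  intro n e _ _ m h1 h2
  obtain ⟨k, hk⟩ := hHF n e m
  obtain ⟨r, hr⟩ := hTENS n k m
  obtain ⟨Δ, hΔ⟩ := hDELTA n e m k h1 hk
  have hloc := hLOC n e m k Δ hΔ (hCOLON n e m h1 h2) h1
  obtain ⟨z1, -, z3, -, -⟩ := hZPT n e
  refine ⟨k, fun L₀ hL₀ => ?_⟩
  obtain ⟨-, w₀, rfl⟩ := z3 L₀ hL₀
  have hw₀ := (z1 w₀).1 hL₀
  obtain ⟨N, P, hP, hP0⟩ := hGOODP n e m k r Δ hr hΔ h1 h2 hloc w₀ hw₀
  obtain ⟨c1, c2, c3⟩ := hCHART n k m N r P hr hP.pos hP.hom hP.inv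
  generalize rename _ P = P' at c1 c2 c3
  have hsm : ∀ {M : ℕ} {Q : MvPolynomial (Fin k → Mon (Fin n) m) ℂ}, Q.IsHomogeneous M →
      ∀ (c : ℂ) (u : (Fin k → Mon (Fin n) m) → ℂ), aeval (c • u) Q = c ^ M * aeval u Q :=
    fun hQ c u => aeval_mul_left hQ c u
  have key : ∀ w : Fin n × Mon (Fin n) e → ℂ, rs w ≠ 0 →
      (hilb m (span ℂ (range (tup w))) ∈ chart m P' ↔
        aeval (ev Δ w) P ≠ 0) := by
    intro w hw
    obtain ⟨b, hb, -⟩ := hΔ.ex w hw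
    obtain ⟨c, hc, hbc⟩ := hΔ.pl w hw b hb
    have hh : ∀ i, (b i).IsHomogeneous m := fun i =>
      (mem_Im.1 (hb ▸ subset_span ⟨i, rfl⟩ : b i ∈ Im m (tup w))).2
    rw [hilb_span, ← hb, c2, hbc, hsm hP.hom]
    simp [hh, hc]
  have hD : ∀ w : Fin n × Mon (Fin n) e → ℂ, aeval w (aeval Δ P) = aeval (ev Δ w) P := fun w => by
    rw [← AlgHom.comp_apply, comp_aeval]; rfl
  obtain ⟨p, hp, hp'⟩ := hPZ n e m k r Δ N P w₀ hr hΔ hP.hom hP.inv hP0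
  refine ⟨_, c1, (key w₀ hw₀).2 hP0, ⟨p, hp, fun L => ?_⟩, fun ψ => ⟨fun hψ => ?_, ?_⟩⟩
  · obtain ⟨L, hL⟩ := L
    obtain ⟨-, w, rfl⟩ := z3 L hL
    exact (key w ((z1 w).1 hL)).trans (hp' w hL).symm
  · have hY : ∀ w : Fin n × Mon (Fin n) e → ℂ, rs w ≠ 0 → aeval (ev Δ w) P ≠ 0 →
        span ℂ (range (tup w)) ∈ {L | L ∈ Z n e ∧
          hilb m L ∈ chart m P'} :=
      fun w hw hwP => ⟨(z1 w).2 hw, (key w hw).2 hwP⟩
    obtain ⟨E, j, hE⟩ := hZE n e _ (aeval Δ P) ψ (fun w hw hwP => hY w hw (by rwa [hD] at hwP)) hψ.1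
    obtain ⟨i, Q, hQ, hQi, hQv⟩ := hSURJ n e m k r Δ N P
      (fun L => if h : L ∈ {L | L ∈ Z n e ∧
          hilb m L ∈ chart m P'} then ψ ⟨L, h⟩ else 0) E j hr hΔ hP hloc
      (fun w hw hwP => by
        rw [dif_pos (hY w hw hwP), hE w _ hw (by rwa [hD]), hD]) (fun w g hg hw hwP => by
        obtain ⟨-, hq⟩ := hEQV n e m k r Δ hr hΔ w hw
        obtain ⟨hw', c, hc, hq⟩ := hq 1 g
        have hwP' : aeval (ev Δ (lin0 1 g.val w)) P ≠ 0 := by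
          have hq' : ev Δ (lin0 1 g.val w) = c • r.pt (ev Δ w) fun _ => g := hq
          rw [hq', hsm hP.hom, hP.inv g hg]
          exact mul_ne_zero (pow_ne_zero _ hc) hwP
        rw [dif_pos (hY w hw hwP), dif_pos (hY (lin0 1 g.val w) hw' hwP')]
        refine hψ.2 ⟨g.val, hg⟩ _ _ ?_
        have := span_act2 1 g.val (tup w)
        rw [← tup_lin0] at this
        exact this)
    obtain ⟨φ, hφ, hφv⟩ := c3 i Q hQ hQi
    refine ⟨φ, hφ, fun L => ?_⟩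
    obtain ⟨L, hL, hL'⟩ := L
    obtain ⟨-, w, rfl⟩ := z3 L hL
    have hw := (z1 w).1 hL
    have hwP := (key w hw).1 hL'
    obtain ⟨b, hb, -⟩ := hΔ.ex w hw
    obtain ⟨c, hc, hbc⟩ := hΔ.pl w hw b hb
    have hb' : hilb m (span ℂ (range (tup w))) = span ℂ (range b) := by rw [hilb_span, hb]
    have h3 := hQv w hw hwP
    rw [dif_pos (hY w hw hwP)] at h3
    have h4 : φ ⟨_, hL'⟩ = φ ⟨span ℂ (range b), hb' ▸ hL'⟩ := by congr 1; exact Subtype.ext hb'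
    rw [h3]
    refine Eq.trans ?_ h4.symm
    rw [hφv, hbc, hsm hQ, hsm hP.hom, mul_pow, ← pow_mul,
      mul_div_mul_left _ _ (pow_ne_zero _ hc)]
  · rintro ⟨φ, hφ, hψ⟩
    have := hPULL n e m k Δ _ _ (fun L (hL : L ∈ {L | L ∈ Z n e ∧
      hilb m L ∈ chart m P'}) => hL.2) φ hΔ (fun L hL => hL.1) hφ
    rwa [show ψ = _ from funext hψ]

end Pool.Agent.P.MP_f4e0a3_ag.HP
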